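import Pool.Agent.Helper97.Speed.Peel
import Pool.Agent.Helper97.Speed.Net

/-! # The hull of a finite connected set of vertices -/

namespace Pool.Agent.Helper97.Speed

namespace PMap

variable {m m₁ m₂ : PMap}

/-- The network of a map. -/
def Pre.net (h : m.Pre) : Net where
  E := m.E
  rev := m.rev
  org := m.org
  rev_mem _ hd := h.rev_mem_E hd
  rev_rev d _ := h.rev_rev d
  fin := h.fin

/-- The first `N` boundary vertices. -/
noncomputable def seg (m : PMap) (N : ℕ) : Finset ℕ :=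
  (Finset.range N).image (fun i : ℕ => m.V i)

lemma mem_seg {N x : ℕ} : x ∈ m.seg N ↔ ∃ i < N, m.V (i : ℕ) = x := by simp [seg]

/-- swallowedness propagates along edges inside `K` -/
lemma Reg.sw_adj {j : ℤ} {b n : ℕ} {T : Finset ℕ} (R : Reg m m₂ j b n T) {K : Finset ℕ}
    (hK : ∀ k, j ≤ k → k ≤ j + n → m₂.V k ∉ K) {d : ℕ} (hd : d ∈ m.E)
    (h1 : m₂.Sw (m.org (m.rev d))) (h2 : m.org d ∈ K) : m₂.Sw (m.org d) := by
  by_contra h3
  unfold Sw at h3
  push Not at h3
  obtain ⟨e, he, hed⟩ := h3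
  rw [R.org] at hed
  have h4 : d ∉ m₂.E := by
    intro h5
    have := h1 _ (R.hp₂.pre.rev_mem_E h5)
    rw [R.rev, R.org] at this
    exact this rfl
  obtain ⟨k, hk1, hk2, hk3⟩ := R.interface he hd h4 hed.symm
  apply hK k hk1 hk2
  rw [← hk3, hed]; exact h2

/-- Exploration of the hull of `K`. -/
lemma hull_aux {m : PMap} (K : Finset ℕ) : ∀ (u : ℕ) {m₁ : PMap} {j : ℤ} {b n : ℕ}
    {T : Finset ℕ}, Reg m m₁ j b n T → j < 0 → 0 < j + b →
    {x | x ∈ K ∧ ¬ m₁.Sw x}.ncard ≤ u →
    (∀ k, j ≤ k → k < j + n → m.rev (m₁.bd k) ∈ T ∧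
      m.org (m.nxt (m.nxt (m.rev (m₁.bd k)))) ∈ K) →
    ∃ m₂ j b n T, Reg m m₂ j b n T ∧ j < 0 ∧ 0 < j + b ∧
      (∀ k, j ≤ k → k < j + n → m.rev (m₂.bd k) ∈ T ∧
        m.org (m.nxt (m.nxt (m.rev (m₂.bd k)))) ∈ K) ∧
      ∀ k, j ≤ k → k ≤ j + n → m₂.V k ∉ K := by
  intro u
  induction u with
  | zero =>
    intro m₁ j b n T R hj hb hu hopp
    refine ⟨m₁, j, b, n, T, R, hj, hb, hopp, ?_⟩
    intro k _ _ hk
    have hfin : {x | x ∈ K ∧ ¬ m₁.Sw x}.Finite := K.finite_toSet.subset (fun x hx => hx.1)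
    have h1 := (Set.ncard_eq_zero hfin).1 (by omega)
    have : m₁.V k ∈ {x | x ∈ K ∧ ¬ m₁.Sw x} := ⟨hk, not_sw_V R.hp₂.pre k⟩
    rw [h1] at this
    exact this
  | succ u ih =>
    intro m₁ j b n T R hj hb hu hopp
    by_cases hex : ∃ k, j ≤ k ∧ k ≤ j + n ∧ m₁.V k ∈ K
    · obtain ⟨k, hk1, hk2, hk3⟩ := hex
      obtain ⟨j', b', n', T', P⟩ := explore_spec R.hp₂ k
      have R' := P.reg
      have h1 := P.lt
      have h2 := P.gt
      have hp1 := R.posb
      have hp2 := R.posn
      have hp3 := R'.posb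
      have hp4 := R'.posn
      have RR := R.comp R' (by omega) (by omega)
      refine ih RR (by omega) (by omega) ?_ ?_
      · have hfin : {x | x ∈ K ∧ ¬ m₁.Sw x}.Finite := K.finite_toSet.subset (fun x hx => hx.1)
        have hss : {x | x ∈ K ∧ ¬ (m₁.explore k).Sw x} ⊂ {x | x ∈ K ∧ ¬ m₁.Sw x} := by
          rw [Set.ssubset_iff_of_subset]
          · refine ⟨m₁.V k, ⟨hk3, not_sw_V R.hp₂.pre k⟩, ?_⟩
            rintro ⟨-, h3⟩
            exact h3 P.sw
          · rintro x ⟨hx, hx'⟩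
            exact ⟨hx, fun h4 => hx' (R'.sw_mono h4)⟩
        have := Set.ncard_lt_ncard hss hfin
        omega
      · intro i hi hi'
        by_cases c1 : i < j'
        · rw [R'.lt i c1]
          have h3 := hopp i (by omega) (by omega)
          exact ⟨by simp [h3.1], h3.2⟩
        · by_cases c2 : i < j' + n'
          · have h3 := P.opp i (by omega) c2
            rw [R.rev, R.nxt, R.org] at h3
            exact ⟨by simp [h3.1], by rw [h3.2]; exact hk3⟩
          · rw [R'.ge i (by omega)]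
            have h3 := hopp (i - n' + b') (by omega) (by omega)
            exact ⟨by simp [h3.1], h3.2⟩
    · push Not at hex
      exact ⟨m₁, j, b, n, T, R, hj, hb, hopp, hex⟩

lemma vol_le (h : m.Pre) (K : Finset ℕ) (T : Finset ℕ)
    (hT : ∀ d ∈ m.E, m.org d ∈ K → d ∈ T ∨ m.rev d ∈ T) : h.net.vol K ≤ 2 * T.card := by
  classical
  have h1 : h.net.vol K = (K.biUnion h.net.out).card := by
    rw [Finset.card_biUnion]
    · rfl
    · intro x _ y _ hxy
      show Disjoint _ _
      rw [Finset.disjoint_left]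
      intro d hd hd'
      simp only [Net.out, Set.Finite.mem_toFinset, Set.mem_setOf_eq] at hd hd'
      exact hxy (hd.2.symm.trans hd'.2)
  have h2 : K.biUnion h.net.out ⊆ T ∪ T.image m.rev := by
    intro d hd
    rw [Finset.mem_biUnion] at hd
    obtain ⟨x, hx, hd⟩ := hd
    simp only [Net.out, Set.Finite.mem_toFinset, Set.mem_setOf_eq] at hd
    rw [Finset.mem_union, Finset.mem_image]
    rcases hT d hd.1 (by rw [show m.org d = x from hd.2]; exact hx) with h3 | h3
    · exact Or.inl h3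
    · exact Or.inr ⟨_, h3, h.rev_rev d⟩
  calc h.net.vol K = _ := h1
    _ ≤ (T ∪ T.image m.rev).card := Finset.card_le_card h2
    _ ≤ T.card + (T.image m.rev).card := Finset.card_union_le _ _
    _ ≤ T.card + T.card := by have := Finset.card_image_le (s := T) (f := m.rev); omega
    _ = 2 * T.card := by ring

/-- **The hull lemma**. -/
theorem exists_hull (h : m.IsHalfPlane) (N : ℕ) (hN : 0 < N) (K : Finset ℕ)
    (hK : h.pre.net.Attached (m.seg N) K) :
    ∃ m₂ j b n T, Reg m m₂ j b n T ∧ j < 0 ∧ (N : ℤ) ≤ j + b ∧ n ≤ h.pre.net.bdry K ∧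
      h.pre.net.vol K ≤ 2 * T.card := by
  -- first exploration
  obtain ⟨j, b, n, T, P⟩ := explore_spec h 0
  have hV0 : m.V 0 ∈ K := hK.1 (mem_seg.2 ⟨0, hN, rfl⟩)
  obtain ⟨m₂, j, b, n, T, R, hj, hb, hopp, hend⟩ := hull_aux K _ P.reg P.lt P.gt le_rfl
    (fun k hk hk' => ⟨(P.opp k hk hk').1, by rw [(P.opp k hk hk').2]; exact hV0⟩)
  have hsw0 : m₂.Sw (m.V 0) := R.sw hj hb
  -- the segment is swallowed
  have hseg : ∀ i : ℕ, i < N → m₂.Sw (m.V i) := by
    intro i
    induction i with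
    | zero => intro _; exact_mod_cast hsw0
    | succ i ih =>
      intro hi
      have h1 := ih (by omega)
      have h2 : m.org (m.rev (m.bd i)) = m.V ((i + 1 : ℕ) : ℤ) := by
        rw [h.org_rev_bd]; push_cast; rfl
      have h3 := R.sw_adj hend (d := m.rev (m.bd i)) (h.pre.rev_mem_E_of_mem (h.bd_mem _))
        (by rw [h.rev_rev]; exact h1)
        (by rw [h2]; exact hK.1 (mem_seg.2 ⟨i + 1, hi, rfl⟩))
      rwa [h2] at h3
  have hall : ∀ x ∈ K, m₂.Sw x := by
    intro x hx
    obtain ⟨a, ha, hxa⟩ := hK.2 x hx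
    obtain ⟨i, hi, rfl⟩ := mem_seg.1 ha
    have key : ∀ y, Relation.ReflTransGen
        (fun u v => v ∈ K ∧ ∃ d ∈ h.pre.net.E, h.pre.net.org d = u ∧
          h.pre.net.org (h.pre.net.rev d) = v) y (m.V i) → y ∈ K → m₂.Sw y := by
      intro y hy
      induction hy using Relation.ReflTransGen.head_induction_on with
      | refl => intro _; exact hseg i hi
      | head h1 _ ih =>
        intro hu
        obtain ⟨hv, d, hd, hd1, hd2⟩ := h1
        have h2 := ih hv
        rw [← hd2] at h2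
        have h3 := R.sw_adj hend (d := d) hd h2 (by
          have : m.org d = _ := hd1
          rw [this]; exact hu)
        have h4 : m.org d = _ := hd1
        rwa [h4] at h3
    exact key x hxa hx
  refine ⟨m₂, j, b, n, T, R, hj, ?_, ?_, ?_⟩
  · -- the last vertex of the segment is swallowed
    have h1 := hseg (N - 1) (by omega)
    by_contra h2
    have h3 : j + b ≤ ((N - 1 : ℕ) : ℤ) := by omega
    have h4 := R.V_ge' h3
    rw [h4] at h1
    exact not_sw_V R.hp₂.pre _ h1
  · -- outer darts are charged to boundary edges of K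
    have hfin : {d | d ∈ h.pre.net.E ∧ h.pre.net.org d ∈ K ∧
        h.pre.net.org (h.pre.net.rev d) ∉ K}.Finite := by
      refine ((K.biUnion h.pre.net.out).finite_toSet).subset ?_
      rintro d ⟨h1, h2, -⟩
      rw [Finset.mem_coe, Finset.mem_biUnion]
      refine ⟨_, h2, ?_⟩
      simp only [Net.out, Set.Finite.mem_toFinset, Set.mem_setOf_eq]
      exact ⟨h1, trivial⟩
    set f : Fin n → ℕ := fun s => m.nxt (m.nxt (m.rev (m₂.bd (j + (s : ℕ))))) with hf
    have hfT : ∀ s : Fin n, m.rev (m₂.bd (j + (s : ℕ))) ∈ T := fun s =>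
      (hopp _ (by omega) (by have := s.2; omega)).1
    have hinj : Function.Injective f := by
      intro s t hst
      have h1 := (R.tri _ (hfT s)).1
      have h2 := (R.tri _ (hfT t)).1
      have h3 := h.pre.nxt_inj h1 h2 (h.pre.nxt_inj (h.nxt_mem _ h1) (h.nxt_mem _ h2) hst)
      have h4 := R.hp₂.pre.bd_inj (h.pre.rev_inj h3)
      ext
      omega
    calc n = (Set.range f).ncard := by
          rw [Set.ncard_range_of_injective hinj]; simp
      _ ≤ h.pre.net.bdry K := by
          refine Set.ncard_le_ncard ?_ hfin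
          rintro _ ⟨s, rfl⟩
          have h1 := (R.tri _ (hfT s)).1
          refine ⟨mem_E_of_mem (h.pre.nxt2_mem h1), (hopp _ (by omega)
            (by have := s.2; omega)).2, ?_⟩
          show m.org (m.rev (m.nxt (m.nxt (m.rev (m₂.bd (j + (s : ℕ))))))) ∉ K
          rw [h.pre.org_rev_nxt2 h1]
          have h5 := R.hp₂.org_rev_bd (j + (s : ℕ))
          rw [R.org, R.rev] at h5
          rw [h5]
          have h6 := hend (j + (s : ℕ) + 1) (by omega) (by have := s.2; omega)
          rwa [V, R.org] at h6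
  · refine vol_le h.pre K T ?_
    intro d hd hdK
    have h1 := R.mem_of_sw (hall _ hdK) rfl
    rcases hd with hd | hd
    · exact Or.inl (h1.1 hd)
    · exact Or.inr (h1.2 hd)

end PMap

end Pool.Agent.Helper97.Speed
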