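import Pool.Agent.Helper97.Speed.Peel

/-! # Codes of regions -/

namespace Pool.Agent.Helper97.Speed

namespace Disc

lemma WF.two_le_per : ∀ {Q : Disc}, Q.WF → 2 ≤ Q.per
  | edge, _ => le_rfl
  | inner Q, h => by have := h.1; simp only [per]; omega
  | split Q₁ Q₂, h => by
    have h1 := WF.two_le_per h.1
    have h2 := WF.two_le_per h.2
    simp only [per]; omega

lemma WF.faces_eq : ∀ {Q : Disc}, Q.WF → Q.faces + 2 = 2 * Q.inn + Q.per
  | edge, _ => rfl
  | inner Q, h => by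
    have h1 := WF.faces_eq h.2
    have := h.1
    simp only [per, faces, inn]; omega
  | split Q₁ Q₂, h => by
    have h1 := WF.faces_eq h.1
    have h2 := WF.faces_eq h.2
    have h3 := WF.two_le_per h.1
    have h4 := WF.two_le_per h.2
    simp only [per, faces, inn]; omega

end Disc

namespace PMap

variable {m m₁ m₂ : PMap}

lemma Path.unique {x y y' : ℕ} {p : List ℕ} (h : m.Path x p y) (h' : m.Path x p y') : y = y' := by
  induction p generalizing x with
  | nil => exact (show x = y from h).symm.trans h'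
  | cons d p ih => exact ih h.2.2 h'.2.2

lemma Path.exists_succ {x : ℕ} {c : List ℕ} (hc : m.Path x c x) {a : ℕ} (ha : a ∈ c) :
    ∃ b ∈ c, m.org b = m.org (m.rev a) := by
  obtain ⟨c₁, c₂, rfl⟩ := List.append_of_mem ha
  obtain ⟨z, h1, h2⟩ := path_append.1 hc
  rcases c₂ with _ | ⟨e, c₂⟩
  · have h3 : m.org (m.rev a) = x := h2.2.2
    rcases c₁ with _ | ⟨e, c₁⟩
    · have h4 : x = z := h1
      exact ⟨a, by simp, by rw [h2.2.1, ← h4, h3]⟩
    · exact ⟨e, by simp, by rw [h1.2.1, h3]⟩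
  · exact ⟨e, by simp, h2.2.2.2.1⟩

lemma Path.head_org {x y d : ℕ} {t : List ℕ} (h : m.Path x (d :: t) y) : m.org d = x := h.2.1

lemma Bd.target_nodup {S : Set ℕ} {x : ℕ} {c : List ℕ} (hB : m.Bd S x c) :
    (c.map (fun d => m.org (m.rev d))).Nodup := by
  have h1 := hB.path.targets hB.ne_nil
  have h2 := hB.nodup
  rw [h1]
  rcases c with _ | ⟨d, t⟩
  · exact absurd rfl hB.ne_nil
  · have h3 : m.org d = x := hB.path.2.1
    simp only [List.map_cons, List.tail_cons, h3] at h2 ⊢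
    rw [List.nodup_cons] at h2
    rw [List.nodup_append]
    refine ⟨h2.2, by simp, ?_⟩
    intro a ha b hb
    simp only [List.mem_singleton] at hb
    rintro rfl
    exact h2.1 (hb ▸ ha)

lemma Bd.eq_of_target {S : Set ℕ} {x : ℕ} {c : List ℕ} (hB : m.Bd S x c) {a b : ℕ} (ha : a ∈ c)
    (hb : b ∈ c) (hab : m.org (m.rev a) = m.org (m.rev b)) : a = b :=
  List.inj_on_of_nodup_map hB.target_nodup ha hb hab

lemma Bd.eq_of_org {S : Set ℕ} {x : ℕ} {c : List ℕ} (hB : m.Bd S x c) {a b : ℕ} (ha : a ∈ c)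
    (hb : b ∈ c) (hab : m.org a = m.org b) : a = b :=
  List.inj_on_of_nodup_map hB.nodup ha hb hab

/-- the three darts of a triangle -/
def tri3 (m : PMap) (d : ℕ) : Set ℕ := {e | e = d ∨ e = m.nxt d ∨ e = m.nxt (m.nxt d)}

lemma tri_tri3 (h : m.Pre) {d : ℕ} (hd : d ∈ m.In) : m.Tri (m.tri3 d) := by
  rintro e (rfl | rfl | rfl)
  · exact ⟨hd, Or.inr (Or.inl rfl)⟩
  · exact ⟨h.nxt_mem _ hd, Or.inr (Or.inr rfl)⟩
  · exact ⟨h.nxt2_mem hd, Or.inl (h.nxt_nxt_nxt _ hd)⟩

lemma tri3_subset {S : Set ℕ} (hS : m.Tri S) {d : ℕ} (hd : d ∈ S) : m.tri3 d ⊆ S := by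
  rintro e (rfl | rfl | rfl)
  · exact hd
  · exact hS.nxt_mem hd
  · exact hS.nxt_mem (hS.nxt_mem hd)

lemma tri3_finite (d : ℕ) : (m.tri3 d).Finite := by
  have : m.tri3 d = {d, m.nxt d, m.nxt (m.nxt d)} := by ext e; simp [tri3]
  rw [this]; exact Set.toFinite _

/-- a triangle and a set of triangles are disjoint or nested -/
lemma disj_tri3 (h : m.Pre) {S : Set ℕ} (hS : m.Tri S) {d : ℕ} (hd : d ∈ m.In)
    (h' : m.nxt d ∉ S) : Disjoint (m.tri3 d) S := by
  rw [Set.disjoint_left]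
  rintro e (rfl | rfl | rfl) he
  · exact h' (hS.nxt_mem he)
  · exact h' he
  · have := hS.nxt_mem (hS.nxt_mem he)
    rw [h.nxt_nxt_nxt _ hd] at this
    exact h' this

lemma disj_tri3' (h : m.Pre) {S : Set ℕ} (hS : m.Tri S) {d : ℕ} (hd : d ∈ m.In)
    (h' : m.nxt (m.nxt d) ∉ S) : Disjoint (m.tri3 d) S :=
  disj_tri3 h hS hd (fun h1 => h' (hS.nxt_mem h1))

lemma ncard_tri3 (h : m.Pre) {d : ℕ} (hd : d ∈ m.In) : (m.tri3 d).ncard = 3 := by
  have h1 : m.tri3 d = {d, m.nxt d, m.nxt (m.nxt d)} := by ext e; simp [tri3]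
  have h2 : d ≠ m.nxt d := by
    intro h3
    have h4 := h.org_nxt d hd
    rw [← h3] at h4
    exact h.no_loop d hd h4.symm
  have h3 : d ≠ m.nxt (m.nxt d) := by
    intro h3
    have h4 := h.third_ne_org hd
    rw [← h3] at h4
    exact h4 rfl
  have h4 : m.nxt d ≠ m.nxt (m.nxt d) := by
    intro h3
    have h4 := h.third_ne_target hd
    rw [← h3, h.org_nxt d hd] at h4
    exact h4 rfl
  rw [h1, Set.ncard_eq_three]
  exact ⟨_, _, _, h2, h3, h4, rfl⟩

lemma Bd.head_mem {S : Set ℕ} {x d : ℕ} {t : List ℕ} (hB : m.Bd S x (d :: t)) :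
    d ∈ S ∧ m.rev d ∉ S := (hB.bdry d).2 (by simp)

/-- removing the triangle at the first dart: inner vertex -/
lemma Bd.inner (h : m.Pre) {S : Set ℕ} {x d : ℕ} {t : List ℕ} (hB : m.Bd S x (d :: t))
    (hz : m.org (m.nxt (m.nxt d)) ∉ (d :: t).map m.org) :
    m.Bd (S \ m.tri3 d) x (m.rev (m.nxt (m.nxt d)) :: m.rev (m.nxt d) :: t) := by
  obtain ⟨hdS, hdr⟩ := hB.head_mem
  have hd : d ∈ m.In := hB.tri.subset hdS
  have hn : m.nxt d ∈ m.In := h.nxt_mem _ hd
  have hnn : m.nxt (m.nxt d) ∈ m.In := h.nxt2_mem hd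
  have hnS : m.nxt d ∈ S := hB.tri.nxt_mem hdS
  have hnnS : m.nxt (m.nxt d) ∈ S := hB.tri.nxt_mem hnS
  have hdx : m.org d = x := hB.path.2.1
  have hzc : ∀ e ∈ d :: t, m.org e ≠ m.org (m.nxt (m.nxt d)) := fun e he h1 =>
    hz (List.mem_map.2 ⟨e, he, h1⟩)
  have hnnc : m.nxt (m.nxt d) ∉ d :: t := fun h1 => hzc _ h1 rfl
  have hnc : m.nxt d ∉ d :: t := by
    intro h1
    obtain ⟨b, hb, hb'⟩ := hB.path.exists_succ h1
    exact hzc b hb (by rw [hb', h.org_rev_nxt hd])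
  have hrnnS : m.rev (m.nxt (m.nxt d)) ∈ S := by
    by_contra h1; exact hnnc ((hB.bdry _).1 ⟨hnnS, h1⟩)
  have hrnS : m.rev (m.nxt d) ∈ S := by
    by_contra h1; exact hnc ((hB.bdry _).1 ⟨hnS, h1⟩)
  have hr1 : m.rev (m.nxt (m.nxt d)) ∉ m.tri3 d := by
    rintro (h1 | h1 | h1)
    · apply hdr; rw [← h1, h.rev_rev]; exact hnnS
    · have h2 := h.org_rev_nxt2 hd
      rw [h1, h.org_nxt d hd] at h2
      exact h.no_loop d hd h2
    · exact h.no_loop' (mem_E_of_mem hnn) (by rw [h1])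
  have hr2 : m.rev (m.nxt d) ∉ m.tri3 d := by
    rintro (h1 | h1 | h1)
    · apply hdr; rw [← h1, h.rev_rev]; exact hnS
    · exact h.no_loop' (mem_E_of_mem hn) (by rw [h1])
    · have h3 : m.org (m.rev (m.nxt (m.nxt d))) = m.org (m.nxt d) := by
        rw [← h1, h.rev_rev]
      rw [h.org_rev_nxt2 hd, h.org_nxt d hd] at h3
      exact h.no_loop d hd h3.symm
  refine ⟨hB.tri.diff h (tri_tri3 h hd), hB.fin.subset Set.sdiff_subset, ?_, by simp, ?_, ?_⟩
  · refine ⟨h.rev_mem_E_of_mem hnn, by rw [h.org_rev_nxt2 hd, hdx], h.rev_mem_E_of_mem hn, ?_, ?_⟩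
    · rw [h.org_rev_nxt hd, h.rev_rev]
    · rw [h.rev_rev, h.org_nxt _ hd]; exact hB.path.2.2
  · have h1 := hB.nodup
    simp only [List.map_cons, List.nodup_cons, List.mem_cons, not_or] at h1 hz ⊢
    rw [h.org_rev_nxt2 hd, h.org_rev_nxt hd]
    exact ⟨⟨fun h2 => hz.1 h2.symm, h1.1⟩, hz.2, h1.2⟩
  · intro e
    constructor
    · rintro ⟨⟨h1, h2⟩, h3⟩
      by_cases h4 : m.rev e ∈ S
      · have h5 : m.rev e ∈ m.tri3 d := by
          by_contra h6; exact h3 ⟨h4, h6⟩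
        rcases h5 with h5 | h5 | h5
        · exact absurd h1 (by rw [← h.rev_rev e, h5]; exact hdr)
        · rw [← h.rev_rev e, h5]; simp
        · rw [← h.rev_rev e, h5]; simp
      · have h5 := (hB.bdry e).1 ⟨h1, h4⟩
        rcases List.mem_cons.1 h5 with rfl | h5
        · exact absurd (Or.inl rfl) h2
        · simp [h5]
    · intro he
      rcases List.mem_cons.1 he with rfl | he
      · refine ⟨⟨hrnnS, hr1⟩, ?_⟩
        rw [h.rev_rev]
        exact fun h1 => h1.2 (Or.inr (Or.inr rfl))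
      · rcases List.mem_cons.1 he with rfl | het
        · refine ⟨⟨hrnS, hr2⟩, ?_⟩
          rw [h.rev_rev]
          exact fun h1 => h1.2 (Or.inr (Or.inl rfl))
        · have hec : e ∈ d :: t := List.mem_cons_of_mem _ het
          have h1 := (hB.bdry e).2 hec
          refine ⟨⟨h1.1, ?_⟩, fun h2 => h1.2 h2.1⟩
          rintro (h5 | rfl | rfl)
          · have h2 := hB.nodup
            simp only [List.map_cons, List.nodup_cons] at h2
            exact h2.1 (List.mem_map.2 ⟨e, het, by rw [h5]⟩)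
          · exact hnc hec
          · exact hnnc hec

/-- filled: degenerate 2-gon or bounded set -/
def FB (m : PMap) (S : Set ℕ) (x : ℕ) (c : List ℕ) : Prop :=
  (∃ e ∈ m.E, c = [e, m.rev e] ∧ m.org e = x ∧ S = ∅) ∨ m.Bd S x c

/-- removing the triangle at the first dart: third vertex on the boundary -/
lemma Bd.split (h : m.IsHalfPlane) {S : Set ℕ} {x d : ℕ} {t₁ t₂ : List ℕ}
    (hB : m.Bd S x (d :: (t₁ ++ t₂))) (hp1 : m.Path (m.org (m.rev d)) t₁ (m.org (m.nxt (m.nxt d))))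
    (hp2 : m.Path (m.org (m.nxt (m.nxt d))) t₂ x) :
    ∃ S₁ S₂ : Set ℕ, S = m.tri3 d ∪ (S₁ ∪ S₂) ∧ Disjoint (m.tri3 d) S₁ ∧ Disjoint (m.tri3 d) S₂ ∧
      Disjoint S₁ S₂ ∧ m.FB S₁ (m.org (m.nxt (m.nxt d))) (m.rev (m.nxt d) :: t₁) ∧
      m.FB S₂ x (m.rev (m.nxt (m.nxt d)) :: t₂) := by
  have hp := h.pre
  obtain ⟨hdS, hdr⟩ := hB.head_mem
  have hd : d ∈ m.In := hB.tri.subset hdS
  have hn : m.nxt d ∈ m.In := hp.nxt_mem _ hd
  have hnn : m.nxt (m.nxt d) ∈ m.In := hp.nxt2_mem hd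
  have hnS : m.nxt d ∈ S := hB.tri.nxt_mem hdS
  have hnnS : m.nxt (m.nxt d) ∈ S := hB.tri.nxt_mem hnS
  have hdx : m.org d = x := hB.path.2.1
  set z := m.org (m.nxt (m.nxt d)) with hz
  have hzx : z ≠ x := by rw [← hdx]; exact hp.third_ne_org hd
  have hzy : z ≠ m.org (m.rev d) := hp.third_ne_target hd
  have ht1 : t₁ ≠ [] := by rintro rfl; exact hzy (show m.org (m.rev d) = z from hp1).symm
  have ht2 : t₂ ≠ [] := by rintro rfl; exact hzx hp2
  obtain ⟨e₁, u₁, hu1⟩ := List.exists_cons_of_ne_nil ht1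
  obtain ⟨e₂, u₂, hu2⟩ := List.exists_cons_of_ne_nil ht2
  have he1 : m.org e₁ = m.org (m.rev d) := by rw [hu1] at hp1; exact hp1.2.1
  have he2 : m.org e₂ = z := by rw [hu2] at hp2; exact hp2.2.1
  have he1c : e₁ ∈ t₁ := by rw [hu1]; simp
  have he2c : e₂ ∈ t₂ := by rw [hu2]; simp
  set c := d :: (t₁ ++ t₂) with hc
  have hc1 : ∀ e ∈ t₁, e ∈ c := fun e he => by simp [hc, he]
  have hc2 : ∀ e ∈ t₂, e ∈ c := fun e he => by simp [hc, he]
  have hnd := hB.nodup
  have hnd' := hnd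
  rw [hc, List.map_cons, List.nodup_cons, List.map_append, List.nodup_append] at hnd'
  have hdis12 : ∀ e ∈ t₁, ∀ e' ∈ t₂, m.org e ≠ m.org e' := fun e he e' he' =>
    hnd'.2.2.2 _ (List.mem_map.2 ⟨e, he, rfl⟩) _ (List.mem_map.2 ⟨e', he', rfl⟩)
  have hd1 : ∀ e ∈ t₁, m.org e ≠ x := by
    intro e he h1
    apply hnd'.1
    rw [List.mem_append]
    left; exact List.mem_map.2 ⟨e, he, by rw [h1, hdx]⟩
  have hd2 : ∀ e ∈ t₂, m.org e ≠ x := by
    intro e he h1
    apply hnd'.1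
    rw [List.mem_append]
    right; exact List.mem_map.2 ⟨e, he, by rw [h1, hdx]⟩
  have hz1 : ∀ e ∈ t₁, m.org e ≠ z := fun e he => by rw [← he2]; exact hdis12 e he _ he2c
  -- degenerate cases
  have hdeg1 : m.nxt d ∈ c → t₁ = [m.nxt d] := by
    intro h1
    have h2 : m.nxt d = e₁ := hB.eq_of_org h1 (hc1 _ he1c) (by rw [hp.org_nxt d hd, he1])
    rcases u₁ with _ | ⟨f, u₁⟩
    · rw [hu1, h2]
    · exfalso
      rw [hu1] at hp1
      have h3 : m.org f = m.org (m.rev e₁) := hp1.2.2.2.1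
      rw [← h2, hp.org_rev_nxt hd] at h3
      exact hz1 f (by rw [hu1]; simp) h3
  have hdeg2 : m.nxt (m.nxt d) ∈ c → t₂ = [m.nxt (m.nxt d)] := by
    intro h1
    have h2 : m.nxt (m.nxt d) = e₂ := hB.eq_of_org h1 (hc2 _ he2c) (by rw [he2])
    rcases u₂ with _ | ⟨f, u₂⟩
    · rw [hu2, h2]
    · exfalso
      rw [hu2] at hp2
      have h3 : m.org f = m.org (m.rev e₂) := hp2.2.2.2.1
      rw [← h2, hp.org_rev_nxt2 hd, hdx] at h3
      exact hd2 f (by rw [hu2]; simp) h3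
  -- the set S₁
  have hS1 : ∃ S₁ : Set ℕ, m.Tri S₁ ∧ S₁.Finite ∧ S₁ ⊆ S ∧ m.nxt d ∉ S₁ ∧
      m.FB S₁ z (m.rev (m.nxt d) :: t₁) ∧
      (∀ e ∈ t₁, e ∈ S₁ ∨ (t₁ = [m.nxt d])) ∧ (m.rev (m.nxt d) ∈ S₁ ∨ t₁ = [m.nxt d]) ∧
      (∀ e, e ∈ S₁ → m.rev e ∉ S₁ → e ∈ m.rev (m.nxt d) :: t₁) := by
    by_cases hdg : t₁ = [m.nxt d]
    · refine ⟨∅, by intro e he; exact absurd he (by simp), Set.finite_empty, by simp, by simp,
        Or.inl ⟨m.rev (m.nxt d), hp.rev_mem_E_of_mem hn, ?_, ?_, rfl⟩, fun e _ => Or.inr hdg,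
        Or.inr hdg, by simp⟩
      · rw [hdg, hp.rev_rev]
      · rw [hp.org_rev_nxt hd]
    · have hnc : m.nxt d ∉ c := fun h1 => hdg (hdeg1 h1)
      have hrnS : m.rev (m.nxt d) ∈ S := by
        by_contra h1; exact hnc ((hB.bdry _).1 ⟨hnS, h1⟩)
      set c₁ := m.rev (m.nxt d) :: t₁ with hc₁
      have hpath : m.Path z c₁ z := by
        refine ⟨hp.rev_mem_E_of_mem hn, hp.org_rev_nxt hd, ?_⟩
        rw [hp.rev_rev, hp.org_nxt d hd]; exact hp1
      have hnod : (c₁.map m.org).Nodup := by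
        rw [hc₁, List.map_cons, List.nodup_cons]
        refine ⟨?_, hnd'.2.1⟩
        rw [hp.org_rev_nxt hd]
        intro h1
        obtain ⟨e, he, he'⟩ := List.mem_map.1 h1
        exact hz1 e he he'
      have hne : ∀ e, c₁ ≠ [e, m.rev e] := by
        intro e h1
        rw [hc₁, List.cons.injEq] at h1
        apply hdg
        rw [h1.2, ← h1.1, hp.rev_rev]
      obtain ⟨S₁, hS₁, hb⟩ := h.jordan z c₁ hpath (by simp [hc₁]) hnod hne
      have hc₁S : ∀ e ∈ c₁, e ∈ S := by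
        intro e he
        rcases List.mem_cons.1 he with rfl | he
        · exact hrnS
        · exact ((hB.bdry e).2 (hc1 e he)).1
      have hsub : (S₁ : Set ℕ) ⊆ S := by
        rw [← Set.sdiff_eq_empty]
        refine h.outEmpty hB (Tri.diff hp hS₁ hB.tri) (S₁.finite_toSet.subset Set.sdiff_subset)
          (fun e he => he.2) ?_ ?_
        · intro e he he' hein
          by_contra h1
          have h2 : m.rev e ∉ S₁ := fun h3 => he' ⟨h3, h1⟩
          rcases hb with hb | hb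
          · exact he.2 (hc₁S e ((hb e).1 ⟨he.1, h2⟩))
          · exact h1 (hc₁S _ ((hb e).1 ⟨he.1, h2⟩))
        · intro i hi
          have h2 : m.rev (m.bd i) ∉ S₁ := fun h3 => h.rev_bd i (hS₁ _ h3).1
          rcases hb with hb | hb
          · exact hi.2 (hc₁S _ ((hb _).1 ⟨hi.1, h2⟩))
          · exact h.rev_bd i (hB.tri.subset (hc₁S _ ((hb _).1 ⟨hi.1, h2⟩)))
      have hb' : ∀ e, (e ∈ S₁ ∧ m.rev e ∉ S₁) ↔ e ∈ c₁ := by
        rcases hb with hb | hb
        · exact hb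
        · exfalso
          have h1 := (hb (m.rev e₁)).2 (by rw [hp.rev_rev, hc₁]; simp [he1c])
          exact ((hB.bdry e₁).2 (hc1 _ he1c)).2 (hsub h1.1)
      have hn1 : m.nxt d ∉ S₁ := by
        have := ((hb' (m.rev (m.nxt d))).2 (by simp [hc₁])).2
        rwa [hp.rev_rev] at this
      refine ⟨S₁, hS₁, S₁.finite_toSet, hsub, hn1, Or.inr ⟨hS₁, S₁.finite_toSet, hpath,
        by simp [hc₁], hnod, hb'⟩, ?_, ?_, ?_⟩
      · intro e he
        left; exact ((hb' e).2 (by simp [hc₁, he])).1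
      · left; exact ((hb' _).2 (by simp [hc₁])).1
      · intro e he he'; exact (hb' e).1 ⟨he, he'⟩
  obtain ⟨S₁, hT1, hf1, hs1, hn1, hFB1, ht1S, hr1S, hb1⟩ := hS1
  have hdis1 : Disjoint (m.tri3 d) S₁ := disj_tri3 hp hT1 hd hn1
  have htri3 : m.tri3 d ⊆ S := tri3_subset hB.tri hdS
  set S₂ : Set ℕ := S \ (m.tri3 d ∪ S₁) with hS₂
  have hT2 : m.Tri S₂ := hB.tri.diff hp ((tri_tri3 hp hd).union hT1)
  have hf2 : S₂.Finite := hB.fin.subset Set.sdiff_subset
  have hfwd : ∀ e, e ∈ S₂ → m.rev e ∉ S₂ → e = m.rev (m.nxt (m.nxt d)) ∨ e ∈ t₂ := by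
    rintro e ⟨he, he'⟩ hre
    rw [Set.mem_union, not_or] at he'
    by_cases h1 : m.rev e ∈ S
    · have h2 : m.rev e ∈ m.tri3 d ∨ m.rev e ∈ S₁ := by
        by_contra h3
        exact hre ⟨h1, h3⟩
      rcases h2 with (h2 | h2 | h2) | h2
      · exact absurd he (by rw [← hp.rev_rev e, h2]; exact hdr)
      · have h3 : e = m.rev (m.nxt d) := by rw [← h2, hp.rev_rev]
        rcases hr1S with h4 | h4
        · exact absurd (h3 ▸ h4) he'.2
        · exfalso
          have h5 : m.nxt d ∈ c := hc1 _ (by rw [h4]; simp)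
          exact ((hB.bdry _).2 h5).2 (h3 ▸ he)
      · left; rw [← h2, hp.rev_rev]
      · have h3 := hb1 _ h2 (by rw [hp.rev_rev]; exact he'.2)
        rcases List.mem_cons.1 h3 with h3 | h3
        · exact absurd (Or.inr (Or.inl (hp.rev_inj h3))) he'.1
        · have h4 := ((hB.bdry _).2 (hc1 _ h3)).2
          rw [hp.rev_rev] at h4
          exact absurd he h4
    · have h2 := (hB.bdry e).1 ⟨he, h1⟩
      rw [hc, List.mem_cons, List.mem_append] at h2
      rcases h2 with rfl | h2 | h2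
      · exact absurd (Or.inl rfl) he'.1
      · rcases ht1S e h2 with h3 | h3
        · exact absurd h3 he'.2
        · rw [h3, List.mem_singleton] at h2
          exact absurd (Or.inr (Or.inl h2)) he'.1
      · exact Or.inr h2
  refine ⟨S₁, S₂, ?_, hdis1, ?_, ?_, hFB1, ?_⟩
  · rw [hS₂, ← Set.union_assoc]
    exact (Set.union_sdiff_cancel (Set.union_subset htri3 hs1)).symm
  · rw [Set.disjoint_left]; intro e he he'; exact he'.2 (Or.inl he)
  · rw [Set.disjoint_left]; intro e he he'; exact he'.2 (Or.inr he)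
  · by_cases hdg : t₂ = [m.nxt (m.nxt d)]
    · left
      refine ⟨m.rev (m.nxt (m.nxt d)), hp.rev_mem_E_of_mem hnn, by rw [hdg, hp.rev_rev],
        by rw [hp.org_rev_nxt2 hd, hdx], ?_⟩
      refine h.eq_empty hT2 hf2 ?_
      intro e he _
      by_contra h1
      have hnc : m.nxt (m.nxt d) ∈ c := hc2 _ (by rw [hdg]; simp)
      rcases hfwd e he h1 with rfl | h2
      · exact ((hB.bdry _).2 hnc).2 he.1
      · rw [hdg, List.mem_singleton] at h2
        exact he.2 (Or.inl (Or.inr (Or.inr h2)))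
    · right
      have hnnc : m.nxt (m.nxt d) ∉ c := fun h1 => hdg (hdeg2 h1)
      have hrS : m.rev (m.nxt (m.nxt d)) ∈ S := by
        by_contra h1; exact hnnc ((hB.bdry _).1 ⟨hnnS, h1⟩)
      have hr3 : m.rev (m.nxt (m.nxt d)) ∉ m.tri3 d := by
        rintro (h1 | h1 | h1)
        · apply hdr; rw [← h1, hp.rev_rev]; exact hnnS
        · have h2 := hp.org_rev_nxt2 hd
          rw [h1, hp.org_nxt d hd] at h2
          exact h.no_loop d hd h2
        · exact hp.no_loop' (mem_E_of_mem hnn) (by rw [h1])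
      have hrS1 : m.rev (m.nxt (m.nxt d)) ∉ S₁ := by
        intro h1
        have h2 : m.rev (m.rev (m.nxt (m.nxt d))) ∉ S₁ := by
          rw [hp.rev_rev]
          exact fun h3 => Set.disjoint_left.1 hdis1 (Or.inr (Or.inr rfl)) h3
        rcases List.mem_cons.1 (hb1 _ h1 h2) with h3 | h3
        · have h4 := hp.rev_inj h3
          have h5 := hp.third_ne_target hd
          rw [h4, hp.org_nxt d hd] at h5
          exact h5 rfl
        · have h4 := ((hB.bdry _).2 (hc1 _ h3)).2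
          rw [hp.rev_rev] at h4
          exact h4 hnnS
      refine ⟨hT2, hf2, ?_, by simp, ?_, ?_⟩
      · refine ⟨hp.rev_mem_E_of_mem hnn, by rw [hp.org_rev_nxt2 hd, hdx], ?_⟩
        rw [hp.rev_rev]; exact hp2
      · rw [List.map_cons, List.nodup_cons]
        refine ⟨?_, hnd'.2.2.1⟩
        rw [hp.org_rev_nxt2 hd, hdx]
        intro h1
        obtain ⟨e, he, he'⟩ := List.mem_map.1 h1
        exact hd2 e he he'
      · intro e
        constructor
        · rintro ⟨h1, h2⟩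
          rcases hfwd e h1 h2 with rfl | h3
          · simp
          · simp [h3]
        · intro he
          rcases List.mem_cons.1 he with rfl | het
          · refine ⟨⟨hrS, ?_⟩, ?_⟩
            · rw [Set.mem_union, not_or]; exact ⟨hr3, hrS1⟩
            · rw [hp.rev_rev]; exact fun h1 => h1.2 (Or.inl (Or.inr (Or.inr rfl)))
          · rename' het => he'
            have h1 := (hB.bdry e).2 (hc2 e he')
            refine ⟨⟨h1.1, ?_⟩, fun h2 => h1.2 h2.1⟩
            rw [Set.mem_union, not_or]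
            constructor
            · rintro (h5 | h5 | h5)
              · exact hd2 e he' (by rw [h5]; exact hdx)
              · have h2 := hdeg1 (h5 ▸ hc2 _ he')
                exact hdis12 (m.nxt d) (by rw [h2]; simp) _ he' (by rw [h5])
              · exact hnnc (h5 ▸ hc2 _ he')
            · intro h2
              have h3 : m.rev e ∉ S₁ := fun h4 => h1.2 (hs1 h4)
              rcases List.mem_cons.1 (hb1 e h2 h3) with h4 | h4
              · apply h1.2; rw [h4, hp.rev_rev]; exact hnS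
              · exact hdis12 e h4 e he' rfl

lemma Bd.two_le (h : m.Pre) {S : Set ℕ} {x : ℕ} {c : List ℕ} (hB : m.Bd S x c) :
    2 ≤ c.length := by
  rcases c with _ | ⟨d, _ | ⟨e, t⟩⟩
  · exact absurd rfl hB.ne_nil
  · exfalso
    have h1 := path_singleton.1 hB.path
    exact h.no_loop' h1.1 (by rw [h1.2.1, h1.2.2])
  · simp

/-- **Existence of a code.** -/
lemma Bd.exists_code (h : m.IsHalfPlane) : ∀ (k : ℕ) {S : Set ℕ} {x : ℕ} {c : List ℕ},
    m.Bd S x c → S.ncard ≤ k →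
    ∃ Q : Disc, m.Fills Q c ∧ Q.WF ∧ Q.per = c.length ∧ 3 * Q.faces = S.ncard := by
  intro k
  induction k with
  | zero =>
    intro S x c hB hk
    exfalso
    have h1 : S = ∅ := (Set.ncard_eq_zero hB.fin).1 (by omega)
    obtain ⟨e, he⟩ := List.exists_mem_of_ne_nil _ hB.ne_nil
    have := ((hB.bdry e).2 he).1
    rw [h1] at this
    exact this
  | succ k ih =>
    intro S x c hB hk
    have hp := h.pre
    obtain ⟨d, t, rfl⟩ := List.exists_cons_of_ne_nil hB.ne_nil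
    obtain ⟨hdS, hdr⟩ := hB.head_mem
    have hd : d ∈ m.In := hB.tri.subset hdS
    have hlen := hB.two_le hp
    have h3 := ncard_tri3 hp hd
    have htri3 : m.tri3 d ⊆ S := tri3_subset hB.tri hdS
    have hFBc : ∀ {S' : Set ℕ} {x' : ℕ} {c' : List ℕ}, m.FB S' x' c' → S'.ncard ≤ k →
        ∃ Q : Disc, m.Fills Q c' ∧ Q.WF ∧ Q.per = c'.length ∧ 3 * Q.faces = S'.ncard := by
      intro S' x' c' hFB hk'
      rcases hFB with ⟨e, -, rfl, -, rfl⟩ | hB'
      · exact ⟨.edge, ⟨e, rfl⟩, trivial, rfl, by simp [Disc.faces]⟩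
      · exact ih hB' hk'
    by_cases hz : m.org (m.nxt (m.nxt d)) ∈ (d :: t).map m.org
    · obtain ⟨e, he, hez⟩ := List.mem_map.1 hz
      have het : e ∈ t := by
        rcases List.mem_cons.1 he with rfl | he
        · exact absurd hez.symm (hp.third_ne_org hd)
        · exact he
      obtain ⟨t₁, t₂, rfl⟩ := List.append_of_mem het
      obtain ⟨z', hp1, hp2⟩ := path_append.1 hB.path.2.2
      have hz' : z' = m.org (m.nxt (m.nxt d)) := by rw [← hez, hp2.2.1]
      subst hz'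
      obtain ⟨S₁, S₂, hS, hd1, hd2, hd12, hF1, hF2⟩ := hB.split h hp1 hp2
      have hf1 : S₁.Finite := hB.fin.subset (by rw [hS]; intro a ha; exact Or.inr (Or.inl ha))
      have hf2 : S₂.Finite := hB.fin.subset (by rw [hS]; intro a ha; exact Or.inr (Or.inr ha))
      have hcard : S.ncard = 3 + (S₁.ncard + S₂.ncard) := by
        rw [hS, Set.ncard_union_eq (Set.disjoint_union_right.2 ⟨hd1, hd2⟩) (tri3_finite d)
          (hf1.union hf2), Set.ncard_union_eq hd12 hf1 hf2, h3]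
      obtain ⟨Q₁, hQ1, hW1, hp1', hc1⟩ := hFBc hF1 (by omega)
      obtain ⟨Q₂, hQ2, hW2, hp2', hc2⟩ := hFBc hF2 (by omega)
      refine ⟨.split Q₁ Q₂, ⟨d, t₁, e :: t₂, rfl, hd, hQ1, hQ2⟩, ⟨hW1, hW2⟩, ?_, ?_⟩
      · simp only [Disc.per, hp1', hp2', List.length_cons, List.length_append]
        omega
      · simp only [Disc.faces]
        omega
    · have hB' := hB.inner hp hz
      have hcard : (S \ m.tri3 d).ncard + 3 = S.ncard := by
        rw [← h3]; exact Set.ncard_sdiff_add_ncard_of_subset htri3 hB.fin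
      obtain ⟨Q, hQ, hW, hpQ, hc⟩ := ih hB' (by omega)
      simp only [List.length_cons] at hpQ hlen
      refine ⟨.inner Q, ⟨d, t, rfl, hd, hz, hQ⟩, ⟨by omega, hW⟩, ?_, ?_⟩
      · simp only [Disc.per, hpQ, List.length_cons]; omega
      · simp only [Disc.faces]; omega

/-- rotating the boundary -/
lemma Bd.rotate {S : Set ℕ} {x e : ℕ} {c₁ c₂ : List ℕ} (hB : m.Bd S x (c₁ ++ e :: c₂)) :
    m.Bd S (m.org e) ((e :: c₂) ++ c₁) := by
  obtain ⟨z, h1, h2⟩ := path_append.1 hB.path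
  have hz : z = m.org e := h2.2.1.symm
  subst hz
  refine ⟨hB.tri, hB.fin, path_append.2 ⟨x, h2, h1⟩, by simp, ?_, ?_⟩
  · have := hB.nodup
    rw [List.map_append] at this ⊢
    exact List.nodup_append_comm.1 this
  · intro d
    rw [hB.bdry d]
    simp only [List.mem_append, List.mem_cons]
    tauto

/-- a filled closed path -/
lemma Fills.path (h : m.Pre) : ∀ {Q : Disc} {e : ℕ} {t : List ℕ}, m.Fills Q (e :: t) →
    e ∈ m.E → m.Path (m.org (m.rev e)) t (m.org e)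
  | .edge, e, t, hF, he => by
    obtain ⟨d, hd⟩ := hF
    simp only [List.cons.injEq] at hd
    obtain ⟨rfl, rfl⟩ := hd
    rw [path_singleton]
    exact ⟨h.rev_mem_E he, rfl, by rw [h.rev_rev]⟩
  | .inner Q, e, t, hF, he => by
    obtain ⟨d, t', hd, hin, -, hF'⟩ := hF
    simp only [List.cons.injEq] at hd
    obtain ⟨rfl, rfl⟩ := hd
    have h1 := Fills.path h hF' (h.rev_mem_E_of_mem (h.nxt2_mem hin))
    have h2 := h1.2.2
    rw [h.rev_rev, h.org_rev_nxt2 hin, h.org_nxt _ hin] at h2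
    exact h2
  | .split Q₁ Q₂, e, t, hF, he => by
    obtain ⟨d, t₁, t₂, hd, hin, hF1, hF2⟩ := hF
    simp only [List.cons.injEq] at hd
    obtain ⟨rfl, rfl⟩ := hd
    have h1 := Fills.path h hF1 (h.rev_mem_E_of_mem (h.nxt_mem _ hin))
    have h2 := Fills.path h hF2 (h.rev_mem_E_of_mem (h.nxt2_mem hin))
    rw [h.rev_rev, h.org_rev_nxt hin, h.org_nxt _ hin] at h1
    rw [h.rev_rev, h.org_rev_nxt2 hin] at h2
    exact path_append.2 ⟨_, h1, h2⟩

lemma Bd.ne_edge (h : m.Pre) {S : Set ℕ} {x : ℕ} {c : List ℕ} (hB : m.Bd S x c) {Q : Disc}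
    (hF : m.Fills Q c) : Q ≠ .edge := by
  rintro rfl
  obtain ⟨d, rfl⟩ := hF
  have h1 := ((hB.bdry (m.rev d)).2 (by simp)).1
  exact ((hB.bdry d).2 (by simp)).2 h1

end PMap

end Pool.Agent.Helper97.Speed
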