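import Pool.Agent.Helper97.Speed.LawDefs

/-! # Domain Markov properties -/

namespace Pool.Agent.Helper97.Speed

open MeasureTheory PMap
open scoped ENNReal

namespace PMap

variable {m m₁ m₂ g g₁ g₂ : PMap}

lemma RIso.eq_of_same {φ : ℕ → ℕ} {T T' : Finset ℕ} (I : RIso φ m m g g₂ T T')
    (hg : Far g g₂) : g = g₂ := by
  have hA : T = ∅ := by
    have h1 := I.n1.In
    ext d
    constructor
    · intro hd
      have h3 : d ∈ m.In := (I.n1.tri d hd).1
      rw [h1] at h3
      exact absurd hd h3.2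
    · intro hd; simp at hd
  have hA' : T' = ∅ := by rw [I.image_eq, hA]; simp
  subst hA hA'
  obtain ⟨i, hi⟩ := (Far.refl g).common hg
  have hIn := I.n2.In
  simp only [Finset.coe_empty, Set.sdiff_empty] at hIn
  exact ext_of_bd I.n2.hp I.n2.hp₂ I.n2.rev.symm I.n2.nxt.symm I.n2.org.symm hIn.symm hi

lemma Far.symm (h : Far m g) : Far g m := by
  obtain ⟨j, hj⟩ := h
  exact ⟨j, fun i hi => (hj i hi).symm⟩

theorem stopping_peel (l : ℤ) : Stopping (fun m => m.peel l) where
  reg m h := by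
    obtain ⟨j, b, n, T, S⟩ := peel_spec h l
    exact ⟨j, b, n, T, S.reg⟩
  loc m g g₂ φ T T' I hg := by
    obtain ⟨j, b, n, S, Ps⟩ := peel_spec I.n1.hp l
    obtain ⟨P', -, I2⟩ := peel_transfer I Ps subset_rfl
    exact I2.eq_of_same (P'.reg.far.symm.trans hg)

theorem stopping_explore (l : ℤ) : Stopping (fun m => m.explore l) where
  reg m h := by
    obtain ⟨j, b, n, T, S⟩ := explore_spec h l
    exact ⟨j, b, n, T, S.reg⟩
  loc m g g₂ φ T T' I hg := by
    obtain ⟨A, A', I2⟩ := explore_transfer _ I le_rfl subset_rfl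
    obtain ⟨j, b, n, S, Ps⟩ := explore_spec I.n2.hp l
    exact I2.eq_of_same (Ps.reg.far.symm.trans hg)

end PMap

section static

variable {α : ℝ} {P : Measure HalfPlane} {F : PMap → PMap}

/-- probability of a code -/
noncomputable def wt (α : ℝ) (C : Cd) : ℝ≥0∞ :=
  ENNReal.ofReal (α ^ (C.2.2.2.inn + (C.2.2.1 - 1)) *
    (α * (1 - α) / 2) ^ (C.2.2.2.faces - (C.2.2.2.inn + (C.2.2.1 - 1))))

lemma law_residual (hP : IsHalfPlaneLaw α P) {C : Cd} (hC : C.Good) {A : Set HalfPlane}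
    (hA : MeasurableSet A) : P {h | ∃ h' ∈ A, h.1.SubC C h'.1} = wt α C * P A :=
  hP.markov C.1 0 C.2.1 C.2.2.1 C.2.2.2 hC.1 hC.2.1 hC.2.2 A hA

/-- the class of a code -/
def cls (F : PMap → PMap) (C : Cd) : Set HalfPlane := {h | h.1.SubC C (F h.1)}

lemma cls_eq (hF : PMap.Stopping F) {C : Cd} {h : HalfPlane} (hh : h ∈ cls F C) :
    cls F C = HasC C ∧ ∀ g ∈ cls F C, PMap.SameR F h.1 g.1 := by
  have key : ∀ g : HalfPlane, ∀ g₂, g.1.SubC C g₂ → F g.1 = g₂ ∧ PMap.SameR F h.1 g.1 := by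
    intro g g₂ hg
    obtain ⟨φ, T, T', I, R, R'⟩ := Sub.exists_iso h.2 g.2 hh hg
    have h1 := hF.loc _ _ _ _ _ _ I R'.far
    refine ⟨h1, φ, T, T', ?_⟩
    rw [h1]; exact I
  constructor
  · ext g
    constructor
    · intro hg; exact ⟨_, hg⟩
    · rintro ⟨g₂, hg⟩
      show g.1.SubC C (F g.1)
      rw [(key g g₂ hg).1]; exact hg
  · intro g hg
    exact (key g _ hg).2

lemma measurableSet_cls (hF : PMap.Stopping F) (C : Cd) : MeasurableSet (cls F C) := by
  rcases Set.eq_empty_or_nonempty (cls F C) with h | ⟨h, hh⟩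
  · rw [h]; exact MeasurableSet.empty
  · rw [(cls_eq hF hh).1]; exact measurableSet_hasC C

lemma exists_cls (hF : PMap.Stopping F) (h : HalfPlane) : ∃ C : Cd, C.Good ∧ h ∈ cls F C := by
  obtain ⟨j, b, n, S, R⟩ := hF.reg h.1 h.2
  obtain ⟨C, hC, hS, -⟩ := R.exists_subC
  exact ⟨C, hC, hS⟩

lemma cls_closed {C : Cd} {h g : HalfPlane} (hh : h ∈ cls F C) (hs : PMap.SameR F h.1 g.1) :
    g ∈ cls F C := by
  obtain ⟨φ, T, T', I⟩ := hs
  exact SubC.transfer I hh

/-- a set determined by the removed region is measurable -/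
lemma measurableSet_of_sameR (hF : PMap.Stopping F) {A : Set HalfPlane}
    (hA : ∀ h g : HalfPlane, PMap.SameR F h.1 g.1 → h ∈ A → g ∈ A) : MeasurableSet A := by
  have hAeq : A = ⋃ C ∈ {C : Cd | cls F C ⊆ A}, cls F C := by
    ext h
    simp only [Set.mem_iUnion, Set.mem_ofPred_eq]
    constructor
    · intro hh
      obtain ⟨C, -, hC⟩ := exists_cls hF h
      exact ⟨C, fun g hg => hA h g ((cls_eq hF hC).2 g hg) hh, hC⟩
    · rintro ⟨C, hC, hh⟩
      exact hC hh
  rw [hAeq]
  exact MeasurableSet.biUnion (Set.to_countable _) fun C _ => measurableSet_cls hF C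

lemma measurable_of_sameR (hF : PMap.Stopping F) {β : Type*} [MeasurableSpace β] {f : HalfPlane → β}
    (hf : ∀ h g : HalfPlane, PMap.SameR F h.1 g.1 → f g = f h) : Measurable f := by
  intro B _
  refine measurableSet_of_sameR hF ?_
  intro h g hs hh
  rw [Set.mem_preimage] at hh ⊢
  rw [hf h g hs]; exact hh

/-- the remaining map is a local map -/
lemma toH_loc (hF : PMap.Stopping F) {ι : HalfPlane → ℤ}
    (hι : ∀ h g : HalfPlane, PMap.SameR F h.1 g.1 → ι g = ι h) (h : HalfPlane) (k' : ℕ) :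
    ∃ K, ∀ g : HalfPlane, LocEq K h.1 g.1 →
      LocEq k' ((hF.toH h).shift (ι h)).1 ((hF.toH g).shift (ι g)).1 := by
  obtain ⟨j', b', c', S', R'⟩ := hF.reg h.1 h.2
  obtain ⟨j, b, c, S, R, -⟩ := exh_reg ((hF.toH h).shift (ι h)).2 k'
  have hsub : ∃ K₃, ∀ K' ≥ K₃, (h.1.exh K').In ⊆ (exh ((hF.toH h).shift (ι h)).1 k').In := by
    refine exh_subset (F := S' ∪ S) h.2 ?_ ?_
    · intro d hd
      rcases Finset.mem_union.1 hd with hd | hd
      · exact (R'.tri d hd).1
      · have h1 := (R.tri d hd).1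
        change d ∈ (F h.1).In at h1
        rw [R'.In] at h1
        exact h1.1
    · rw [R.In]
      change (F h.1).In \ (S : Set ℕ) = _
      rw [R'.In]
      ext d
      simp only [Set.mem_sdiff, Finset.coe_union, Set.mem_union]
      tauto
  obtain ⟨K₁, hK₁⟩ := exh_subset h.2 (fun d hd => (R'.tri d hd).1) R'.In
  obtain ⟨K₃, hK₃⟩ := hsub
  refine ⟨max K₁ K₃, ?_⟩
  rintro g ⟨φ, T, T', I⟩
  obtain ⟨C, hCg, hC, -⟩ := R'.exists_subC
  obtain ⟨S₁, g₁, hg₁, R₁, RG, I1, I2⟩ := Sub.transfer I hC (hK₁ _ (le_max_left _ _))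
  have hFg : F g.1 = g₁ := hF.loc _ _ _ _ _ _ I1 RG.far
  have hsame : PMap.SameR F h.1 g.1 := ⟨φ, _, _, by rw [hFg]; exact I1⟩
  rw [hι h g hsame]
  have I3 := I2.shift (ι h) 0
  obtain ⟨S₃, S₄, I4⟩ := I3.locEq (k := k') (by
    rw [shift_zero]
    exact hK₃ _ (le_max_right _ _))
  refine ⟨φ, S₃, S₄, ?_⟩
  have e1 : ((hF.toH g).shift (ι h)).1 = g₁.shift (ι h) := by
    show (F g.1).shift (ι h) = _
    rw [hFg]
  rw [e1]
  exact I4

lemma measurable_toH_shift (hF : PMap.Stopping F) {ι : HalfPlane → ℤ}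
    (hι : ∀ h g : HalfPlane, PMap.SameR F h.1 g.1 → ι g = ι h) :
    Measurable (fun h => (hF.toH h).shift (ι h)) :=
  measurable_of_locMap (toH_loc hF hι)

lemma measurable_toH (hF : PMap.Stopping F) : Measurable (fun h => hF.toH h) := by
  have := measurable_toH_shift hF (ι := fun _ => 0) (fun _ _ _ => rfl)
  simpa only [HalfPlane.shift_zero] using this

/-- law of the remaining map, on a class -/
lemma map_cls (hP : IsHalfPlaneLaw α P) (hF : PMap.Stopping F) {C : Cd} (hC : C.Good)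
    (hne : (cls F C).Nonempty) :
    (P.restrict (cls F C)).map (fun h => hF.toH h) = wt α C • P := by
  obtain ⟨h₀, hh₀⟩ := hne
  ext A hA
  rw [Measure.map_apply (measurable_toH hF) hA,
    Measure.restrict_apply (measurable_toH hF hA), Measure.smul_apply, smul_eq_mul,
    ← law_residual hP hC hA]
  congr 1
  ext h
  constructor
  · rintro ⟨h1, h2⟩
    exact ⟨_, h1, h2⟩
  · rintro ⟨h', hh', hs⟩
    have h3 : h ∈ cls F C := by
      rw [(cls_eq hF hh₀).1]; exact ⟨_, hs⟩
    refine ⟨?_, h3⟩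
    have h4 : hF.toH h = h' := Subtype.ext (SubC.unique h.2 h3 hs)
    show hF.toH h ∈ A
    rw [h4]; exact hh'

lemma lintegral_shift (hP : IsHalfPlaneLaw α P) (k : ℤ) {f : HalfPlane → ℝ≥0∞}
    (hf : Measurable f) : ∫⁻ g, f (g.shift k) ∂P = ∫⁻ g, f g ∂P :=
  (hP.measurePreserving k).lintegral_comp hf

lemma static_cls (hP : IsHalfPlaneLaw α P) (hF : PMap.Stopping F) {C : Cd} (hC : C.Good)
    {φ : HalfPlane → ℝ≥0∞} (hφ : ∀ h g : HalfPlane, PMap.SameR F h.1 g.1 → φ g = φ h)
    {ι : HalfPlane → ℤ} (hι : ∀ h g : HalfPlane, PMap.SameR F h.1 g.1 → ι g = ι h)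
    {f : HalfPlane → ℝ≥0∞} (hf : Measurable f) :
    ∫⁻ h in cls F C, φ h * f ((hF.toH h).shift (ι h)) ∂P =
      (∫⁻ h in cls F C, φ h ∂P) * ∫⁻ g, f g ∂P := by
  rcases Set.eq_empty_or_nonempty (cls F C) with h | ⟨h₀, hh₀⟩
  · rw [h]; simp
  have hm := measurableSet_cls hF C
  have hsame := (cls_eq hF hh₀).2
  have key : ∀ f : HalfPlane → ℝ≥0∞, Measurable f →
      ∫⁻ h in cls F C, φ h * f ((hF.toH h).shift (ι h)) ∂P = φ h₀ * (wt α C * ∫⁻ g, f g ∂P) := by
    intro f hf
    have h1 : ∫⁻ h in cls F C, φ h * f ((hF.toH h).shift (ι h)) ∂P =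
        ∫⁻ h in cls F C, φ h₀ * f ((hF.toH h).shift (ι h₀)) ∂P := by
      refine setLIntegral_congr_fun hm ?_
      intro h hh
      simp only
      rw [hφ h₀ h (hsame h hh), hι h₀ h (hsame h hh)]
    have hfs : Measurable (fun g : HalfPlane => f (g.shift (ι h₀))) := hf.comp (measurable_shift _)
    have hcomp : Measurable (fun h => f ((hF.toH h).shift (ι h₀))) :=
      hfs.comp (measurable_toH hF)
    rw [h1, lintegral_const_mul _ hcomp]
    congr 1
    have h2 := lintegral_map (μ := P.restrict (cls F C)) hfs (measurable_toH hF)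
    rw [map_cls hP hF hC ⟨h₀, hh₀⟩, lintegral_smul_measure, smul_eq_mul,
      lintegral_shift hP _ hf] at h2
    exact h2.symm
  rw [key f hf]
  have h3 := key (fun _ => 1) measurable_const
  have := hP.prob
  simp only [mul_one, lintegral_const, measure_univ] at h3
  rw [h3]; ring

lemma mem_disjointed' {Ω : Type*} {B : ℕ → Set Ω} {i : ℕ} {x : Ω} :
    x ∈ disjointed B i ↔ x ∈ B i ∧ ∀ j < i, x ∉ B j := by
  rw [disjointed_eq_inter_compl]
  simp

/-- **Domain Markov property** for a static exploration. -/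
theorem static_markov (hP : IsHalfPlaneLaw α P) {F : PMap → PMap} (hF : PMap.Stopping F)
    {φ : HalfPlane → ℝ≥0∞} (hφ : ∀ h g : HalfPlane, PMap.SameR F h.1 g.1 → φ g = φ h)
    {ι : HalfPlane → ℤ} (hι : ∀ h g : HalfPlane, PMap.SameR F h.1 g.1 → ι g = ι h)
    {f : HalfPlane → ℝ≥0∞} (hf : Measurable f) :
    ∫⁻ h, φ h * f ((hF.toH h).shift (ι h)) ∂P = (∫⁻ h, φ h ∂P) * ∫⁻ g, f g ∂P := by
  classical
  -- enumerate the good codes
  have : Nonempty Cd := ⟨(0, 0, 0, .edge)⟩
  obtain ⟨e, he⟩ : ∃ e : ℕ → Cd, ∀ C : Cd, ∃ i, e i = C := by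
    obtain ⟨e, he⟩ := exists_surjective_nat Cd
    exact ⟨e, he⟩
  set B : ℕ → Set HalfPlane := fun i => if (e i).Good then cls F (e i) else ∅ with hB
  have hBm : ∀ i, MeasurableSet (B i) := by
    intro i
    simp only [hB]
    split_ifs
    · exact measurableSet_cls hF _
    · exact MeasurableSet.empty
  have hBc : ∀ i, ∀ h g : HalfPlane, PMap.SameR F h.1 g.1 → h ∈ B i → g ∈ B i := by
    intro i h g hs
    simp only [hB]
    split_ifs with hg
    · exact fun hh => cls_closed hh hs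
    · exact fun hh => hh
  have hU : (⋃ i, disjointed B i) = Set.univ := by
    rw [iUnion_disjointed]
    ext h
    simp only [Set.mem_iUnion, Set.mem_univ, iff_true]
    obtain ⟨C, hC, hh⟩ := exists_cls hF h
    obtain ⟨i, hi⟩ := he C
    refine ⟨i, ?_⟩
    simp only [hB, hi, hC, if_true]
    exact hh
  have hdm : ∀ i, MeasurableSet (disjointed B i) := fun i => MeasurableSet.disjointed hBm i
  -- each piece is empty or a class
  have hpiece : ∀ i, disjointed B i = ∅ ∨ ((e i).Good ∧ disjointed B i = cls F (e i)) := by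
    intro i
    rcases Set.eq_empty_or_nonempty (disjointed B i) with h | ⟨h, hh⟩
    · exact Or.inl h
    right
    have h1 : h ∈ B i := disjointed_subset B i hh
    have hg : (e i).Good := by
      by_contra hg
      simp only [hB, hg, if_false] at h1
      exact h1
    have h2 : h ∈ cls F (e i) := by
      simp only [hB, hg, if_true] at h1; exact h1
    refine ⟨hg, Set.Subset.antisymm ?_ ?_⟩
    · intro g hg'
      have := disjointed_subset B i hg'
      simp only [hB, hg, if_true] at this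
      exact this
    · intro g hg'
      rw [mem_disjointed'] at hh ⊢
      refine ⟨by simp only [hB, hg, if_true]; exact hg', ?_⟩
      intro j hj hgj
      have hs := (cls_eq hF hg').2 h h2
      exact hh.2 j hj (hBc j g h hs hgj)
  have key : ∀ G : HalfPlane → ℝ≥0∞, ∫⁻ h, G h ∂P = ∑' i, ∫⁻ h in disjointed B i, G h ∂P := by
    intro G
    rw [← lintegral_iUnion hdm (disjoint_disjointed B), hU, Measure.restrict_univ]
  rw [key, key φ, ← ENNReal.tsum_mul_right]
  congr 1
  funext i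
  rcases hpiece i with h | ⟨hg, h⟩
  · rw [h]; simp
  · rw [h]; exact static_cls hP hF hg hφ hι hf

end static

/-! ### the process -/

section process

variable {α : ℝ} {P : Measure HalfPlane}

lemma lintegral_law [SFinite P] (w : List ℕ) {G : HalfPlane × (ℕ → ℕ) → ℝ≥0∞}
    (hG : Measurable G) :
    ∫⁻ p, G p ∂law P w = ∫⁻ h, ∫⁻ a, G (h, a) ∂ports (h.1.dg (r0 w h)) ∂P := by
  rw [law, Measure.lintegral_compProd hG]
  rfl

lemma cylp_congr : ∀ {v : List ℕ} {D D' : List ℕ → ℕ},
    (∀ u, u.length < v.length → u <+: v → D u = D' u) → cylp D v = cylp D' v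
  | [], _, _, _ => rfl
  | i :: v, D, D', h => by
    have h0 : D [] = D' [] := h [] (by simp) (List.nil_prefix)
    have h1 : cylp (fun w => D (i :: w)) v = cylp (fun w => D' (i :: w)) v :=
      cylp_congr fun u hu hp => h (i :: u) (by simpa using hu) ((List.prefix_cons_inj i).2 hp)
    simp only [cylp, h0, h1]

/-- extend a word to a sequence -/
def ext0 (v : List ℕ) : ℕ → ℕ := app v (fun _ => 0)

lemma pre_ext0 (v : List ℕ) : pre (ext0 v) v.length = v := pre_app v _

lemma pre_app' {v : List ℕ} {n : ℕ} (hv : v.length = n) (b : ℕ → ℕ) : pre (app v b) n = v := by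
  subst hv; exact pre_app v b

lemma pre_ext0' {v : List ℕ} {n : ℕ} (hv : v.length = n) : pre (ext0 v) n = v := pre_app' hv _

variable {k : ℕ} {w : List ℕ}

lemma rr_congr {h : HalfPlane} {a b : ℕ → ℕ} {n i : ℕ} (hab : pre a n = pre b n) (hi : i ≤ n) :
    rr w (h, a) i = rr w (h, b) i := run_congr' hab hi

lemma EE_congr {h : HalfPlane} {a b : ℕ → ℕ} {n i : ℕ} (hab : pre a n = pre b n) (hi : i ≤ n) :
    EE k w (h, a) i = EE k w (h, b) i := expl_congr (pre_mono hi hab)

/-- the degrees along the past are determined by the past. -/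
lemma PastEq.deg (hw : w.length ≤ k) {p q : HalfPlane × (ℕ → ℕ)} {n i : ℕ}
    (h : PastEq k w n p q) (hi : i < n) : q.1.1.deg (xx w q i) = p.1.1.deg (xx w p i) := by
  obtain ⟨hpre, φ, T, T', I⟩ := h
  obtain ⟨st, -⟩ := stage_of_iso hw hpre I subset_rfl (i + 1) hi
  obtain ⟨-, hr⟩ := stage_of_iso hw hpre I subset_rfl i hi.le
  obtain ⟨hsw, j, b, c, S, S₀, R₁, hS, hX, -⟩ := (EE_ok hw p i).exploreV
  obtain ⟨S', RG, I1⟩ := st.iso_left R₁
  have := I1.deg (hX _ (EE_ok hw p i).mem_E rfl) hsw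
  rw [xx, xx, hr]
  exact this

lemma dg_pre (p : HalfPlane × (ℕ → ℕ)) (i : ℕ) :
    p.1.1.dg (r0 w p.1) (pre p.2 i) = p.1.1.deg (xx w p i) := by
  rw [dg, xx, rr, run_eq]

/-- the exploration along a fixed word -/
noncomputable def Fw (k : ℕ) (w v : List ℕ) (m : PMap) : PMap :=
  m.expl (m.exh k) (m.dart (m.bd 0) w) (ext0 v) v.length

lemma stopping_Fw (hw : w.length ≤ k) (v : List ℕ) : PMap.Stopping (Fw k w v) where
  reg m h := by
    obtain ⟨j, b, n, S, R, -⟩ := EE_ok hw ((⟨m, h⟩ : HalfPlane), ext0 v) v.length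
    exact ⟨j, b, n, S, R⟩
  loc m g g₂ φ T T' I hg := by
    have h := (stage_of_iso (p := ((⟨m, I.n1.hp⟩ : HalfPlane), ext0 v))
      (q := ((⟨g, I.n2.hp⟩ : HalfPlane), ext0 v)) hw rfl I subset_rfl v.length le_rfl).1
    exact h.final hg

lemma pastEq_of_sameR {v : List ℕ} {h g : HalfPlane} (hs : PMap.SameR (Fw k w v) h.1 g.1) :
    PastEq k w v.length (h, ext0 v) (g, ext0 v) := by
  obtain ⟨φ, T, T', I⟩ := hs
  exact ⟨rfl, φ, T, T', I⟩

lemma cylp_sameR (hw : w.length ≤ k) {v : List ℕ} {h g : HalfPlane}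
    (hs : PMap.SameR (Fw k w v) h.1 g.1) :
    cylp (g.1.dg (r0 w g)) v = cylp (h.1.dg (r0 w h)) v := by
  refine cylp_congr fun u hu hp => ?_
  have h1 : u = pre (ext0 v) u.length := by
    rw [pre_take (ext0 v) hu.le, pre_ext0]
    exact List.prefix_iff_eq_take.1 hp
  have h2 := (pastEq_of_sameR hs).deg hw hu
  rw [h1, dg_pre (w := w) (g, ext0 v), dg_pre (w := w) (h, ext0 v)]
  exact h2

lemma measurable_past (hw : w.length ≤ k) {n : ℕ} {β : Type*} [MeasurableSpace β]
    {φ : HalfPlane × (ℕ → ℕ) → β} (hφ : ∀ p q, PastEq k w n p q → φ q = φ p) :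
    Measurable φ := by
  intro B _
  refine measurableSet_past hw (n := n) ?_
  intro p q hpq hp
  rw [Set.mem_preimage] at hp ⊢
  rw [hφ p q hpq]; exact hp

lemma PastEq.refl' (hw : w.length ≤ k) {h : HalfPlane} {a b : ℕ → ℕ} {n : ℕ}
    (hab : pre a n = pre b n) : PastEq k w n (h, a) (h, b) := by
  obtain ⟨K, hK⟩ := exists_stage hw (h, a) n
  obtain ⟨j, c, d, S, R, -⟩ := exh_reg h.2 K
  obtain ⟨C, -, hC, -⟩ := R.exists_subC
  obtain ⟨φ, T, T', I, -⟩ := Sub.exists_iso h.2 h.2 hC hC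
  obtain ⟨h1, h2⟩ := stage_of_iso (p := (h, a)) (q := (h, b)) hw hab I (hK K le_rfl) n le_rfl
  obtain ⟨S, S', I1, -⟩ := (Agree.of_stage hw h1 h2).iso
  exact ⟨hab, φ, S, S', I1⟩

/-- **Strong Markov property.** -/
theorem strong_markov (hP : IsHalfPlaneLaw α P) {k : ℕ} {w : List ℕ} (hw : w.length ≤ k) (n : ℕ)
    {φ : HalfPlane × (ℕ → ℕ) → ℝ≥0∞} (hφ : ∀ p q, PastEq k w n p q → φ q = φ p)
    {ι : HalfPlane × (ℕ → ℕ) → ℤ} (hι : ∀ p q, PastEq k w n p q → ι q = ι p)
    {f : HalfPlane → ℝ≥0∞} (hf : Measurable f) :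
    ∫⁻ p, φ p * f ((EH hw n p).shift (ι p)) ∂law P w = (∫⁻ p, φ p ∂law P w) * ∫⁻ g, f g ∂P := by
  have := hP.prob
  have hφm := measurable_past hw hφ
  have hEm := measurable_EH_shift hw n hι
  -- a function of the past
  have key : ∀ f : HalfPlane → ℝ≥0∞, Measurable f →
      ∫⁻ p, φ p * f ((EH hw n p).shift (ι p)) ∂law P w =
        (∑' v : {v : List ℕ // v.length = n},
          ∫⁻ h, cylp (h.1.dg (r0 w h)) v.1 * φ (h, ext0 v.1) ∂P) * ∫⁻ g, f g ∂P := by
    intro f hf
    have hGm : Measurable (fun p => φ p * f ((EH hw n p).shift (ι p))) := hφm.mul (hf.comp hEm)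
    rw [lintegral_law w hGm]
    have h1 : ∀ h : HalfPlane, ∫⁻ a, φ (h, a) * f ((EH hw n (h, a)).shift (ι (h, a)))
        ∂ports (h.1.dg (r0 w h)) = ∑' v : {v : List ℕ // v.length = n},
          cylp (h.1.dg (r0 w h)) v.1 * φ (h, ext0 v.1) *
            f (((stopping_Fw hw v.1).toH h).shift (ι (h, ext0 v.1))) := by
      intro h
      rw [lintegral_ports (dg_r0_pos w h) n
        (F := fun a => φ (h, a) * f ((EH hw n (h, a)).shift (ι (h, a))))
        (hGm.comp measurable_prodMk_left)]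
      congr 1
      funext v
      rw [mul_assoc]
      congr 1
      have h2 : ∀ b : ℕ → ℕ, pre (app v.1 b) n = pre (ext0 v.1) n := by
        intro b
        rw [pre_app' v.2, pre_ext0' v.2]
      have h3 : ∀ b : ℕ → ℕ, φ (h, app v.1 b) * f ((EH hw n (h, app v.1 b)).shift
          (ι (h, app v.1 b))) = φ (h, ext0 v.1) *
            f (((stopping_Fw hw v.1).toH h).shift (ι (h, ext0 v.1))) := by
        intro b
        have h4 := PastEq.refl' hw (h := h) (h2 b).symm
        rw [hφ _ _ h4, hι _ _ h4]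
        congr 3
        refine Subtype.ext ?_
        show EE k w (h, app v.1 b) n = Fw k w v.1 h.1
        rw [EE_congr (h2 b) le_rfl]
        show h.1.expl _ _ (ext0 v.1) n = _
        rw [Fw, v.2]; rfl
      have : IsProbabilityMeasure (ports fun u => h.1.dg (r0 w h) (v.1 ++ u)) :=
        isProbabilityMeasure_ports fun u => dg_r0_pos w h _
      simp only [h3, lintegral_const, measure_univ, mul_one]
    simp only [h1]
    have hmv : ∀ v : {v : List ℕ // v.length = n}, Measurable (fun h : HalfPlane =>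
        cylp (h.1.dg (r0 w h)) v.1 * φ (h, ext0 v.1)) := by
      intro v
      refine measurable_of_sameR (stopping_Fw hw v.1) ?_
      intro h g hs
      rw [cylp_sameR hw hs, hφ (h, ext0 v.1) (g, ext0 v.1)]
      have := pastEq_of_sameR hs
      rw [v.2] at this; exact this
    rw [lintegral_tsum, ← ENNReal.tsum_mul_right]
    · congr 1
      funext v
      refine static_markov hP (stopping_Fw hw v.1)
        (φ := fun h => cylp (h.1.dg (r0 w h)) v.1 * φ (h, ext0 v.1))
        (ι := fun h => ι (h, ext0 v.1)) ?_ ?_ hf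
      · intro h g hs
        rw [cylp_sameR hw hs, hφ (h, ext0 v.1) (g, ext0 v.1)]
        have := pastEq_of_sameR hs
        rw [v.2] at this; exact this
      · intro h g hs
        refine hι (h, ext0 v.1) (g, ext0 v.1) ?_
        have := pastEq_of_sameR hs
        rw [v.2] at this; exact this
    · intro v
      refine ((hmv v).mul (hf.comp (measurable_toH_shift (stopping_Fw hw v.1) ?_))).aemeasurable
      intro h g hs
      refine hι (h, ext0 v.1) (g, ext0 v.1) ?_
      have := pastEq_of_sameR hs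
      rw [v.2] at this; exact this
  rw [key f hf]
  have h1 := key (fun _ => 1) measurable_const
  simp only [mul_one, lintegral_const, measure_univ] at h1
  rw [h1]

lemma measurable_app_pre (n : ℕ) :
    Measurable (fun z : (ℕ → ℕ) × (ℕ → ℕ) => app (pre z.1 n) z.2) := by
  induction n with
  | zero => simpa [app] using measurable_snd
  | succ n ih =>
    have h1 : (fun z : (ℕ → ℕ) × (ℕ → ℕ) => app (pre z.1 (n + 1)) z.2) =
        fun z => cns (z.1 0) (app (pre (sh 1 z.1) n) z.2) := by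
      funext z; rw [pre_succ', app]
    rw [h1, measurable_pi_iff]
    intro i
    rcases i with _ | i
    · exact (measurable_pi_apply 0).comp measurable_fst
    · have h2 : Measurable (fun z : (ℕ → ℕ) × (ℕ → ℕ) => app (pre (sh 1 z.1) n) z.2) :=
        ih.comp (((measurable_sh 1).comp measurable_fst).prodMk measurable_snd)
      exact (measurable_pi_apply i).comp h2

lemma measurable_dg_rr (w : List ℕ) (n : ℕ) :
    Measurable (fun p : HalfPlane × (ℕ → ℕ) => p.1.1.dg (rr w p n)) := by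
  rw [measurable_pi_iff]
  intro v
  refine measurable_of_locP ?_
  intro p
  refine ⟨w.length + n + v.length + 1, ?_⟩
  rintro q ⟨⟨φ, T, T', I⟩, hpre⟩
  have hpre' := pre_mono (k := n) (by omega) hpre
  have h1 := I.dg_start (w := w ++ pre p.2 n ++ v) (k := w.length + n + v.length + 1)
    (by simp only [List.length_append, length_pre]; omega) subset_rfl
  rw [rr, rr, run_eq, run_eq, ← hpre', r0, r0, ← dart_append, ← dart_append, ← dg_append,
    ← dg_append]
  exact h1

/-- the law of the future ports -/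
noncomputable def kernP (w : List ℕ) (n : ℕ) :
    ProbabilityTheory.Kernel (HalfPlane × (ℕ → ℕ)) (ℕ → ℕ) :=
  ⟨fun p => ports (p.1.1.dg (rr w p n)), measurable_ports.comp (measurable_dg_rr w n)⟩

lemma rr_mem (w : List ℕ) (p : HalfPlane × (ℕ → ℕ)) (n : ℕ) : rr w p n ∈ p.1.1.E :=
  p.1.2.pre.run_mem (r0_mem w p.1) p.2 n

instance (w : List ℕ) (n : ℕ) : ProbabilityTheory.IsMarkovKernel (kernP w n) :=
  ⟨fun p => isProbabilityMeasure_ports (p.1.2.pre.dg_pos (rr_mem w p n))⟩

/-- expectation over the future -/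
noncomputable def fut (w : List ℕ) (n : ℕ) (G : HalfPlane × (ℕ → ℕ) → ℝ≥0∞)
    (p : HalfPlane × (ℕ → ℕ)) : ℝ≥0∞ :=
  ∫⁻ b, G (p.1, app (pre p.2 n) b) ∂ports (p.1.1.dg (rr w p n))

lemma measurable_fut (w : List ℕ) (n : ℕ) {G : HalfPlane × (ℕ → ℕ) → ℝ≥0∞}
    (hG : Measurable G) : Measurable (fut w n G) := by
  have h1 : Measurable (fun z : (HalfPlane × (ℕ → ℕ)) × (ℕ → ℕ) =>
      G (z.1.1, app (pre z.1.2 n) z.2)) := by
    refine hG.comp ((measurable_fst.comp measurable_fst).prodMk ?_)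
    exact (measurable_app_pre n).comp ((measurable_snd.comp measurable_fst).prodMk measurable_snd)
  exact h1.lintegral_kernel_prod_right' (κ := kernP w n)

lemma fut_eq (w : List ℕ) (n : ℕ) {G : HalfPlane × (ℕ → ℕ) → ℝ≥0∞} (h : HalfPlane) {v : List ℕ}
    (hv : v.length = n) (b : ℕ → ℕ) :
    fut w n G (h, app v b) = ∫⁻ b, G (h, app v b) ∂ports (fun u => h.1.dg (r0 w h) (v ++ u)) := by
  have h3 : rr w (h, app v b) n = h.1.dart (r0 w h) v := by
    rw [rr, run_eq]
    show h.1.dart (r0 w h) (pre (app v b) n) = _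
    rw [pre_app' hv]
  rw [fut, h3, dg_app]
  show ∫⁻ b', G (h, app (pre (app v b) n) b') ∂_ = _
  rw [pre_app' hv]

/-- quenched Markov property at time `n` -/
theorem law_markov (hP : IsHalfPlaneLaw α P) (w : List ℕ) (n : ℕ)
    {G : HalfPlane × (ℕ → ℕ) → ℝ≥0∞} (hG : Measurable G) :
    ∫⁻ p, G p ∂law P w =
      ∫⁻ p, (∫⁻ b, G (p.1, app (pre p.2 n) b) ∂ports (p.1.1.dg (rr w p n))) ∂law P w := by
  have := hP.prob
  show _ = ∫⁻ p, fut w n G p ∂law P w
  have hF := measurable_fut w n hG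
  rw [lintegral_law w hG, lintegral_law w hF]
  congr 1
  funext h
  have e1 := lintegral_ports (dg_r0_pos w h) n (F := fun a => G (h, a))
    (hG.comp measurable_prodMk_left)
  have e2 := lintegral_ports (dg_r0_pos w h) n (F := fun a => fut w n G (h, a))
    (hF.comp measurable_prodMk_left)
  rw [e1, e2]
  congr 1
  funext v
  congr 1
  have : IsProbabilityMeasure (ports fun u => h.1.dg (r0 w h) (v.1 ++ u)) :=
    isProbabilityMeasure_ports fun u => dg_r0_pos w h _
  simp only [fut_eq w n h v.2, lintegral_const, measure_univ, mul_one]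

end process

end Pool.Agent.Helper97.Speed
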