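import Pool.Agent.Helper97.Speed.Defs

/-! # Basic combinatorics of maps -/

namespace Pool.Agent.Helper97.Speed

/-- An injective map on a finite set, started outside of its image, exits. -/
lemma exists_exit {α : Type*} {F : Set α} (hF : F.Finite) {g : α → α} (hinj : Set.InjOn g F)
    {x₀ : α} (h0 : x₀ ∈ F) (hx : ∀ x ∈ F, g x ≠ x₀) :
    ∃ n, (∀ k ≤ n, g^[k] x₀ ∈ F) ∧ g^[n + 1] x₀ ∉ F := by
  classical
  by_contra hcon
  push Not at hcon
  have hall : ∀ n, ∀ k ≤ n, g^[k] x₀ ∈ F := by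
    intro n
    induction n with
    | zero => intro k hk; obtain rfl : k = 0 := by omega
              simpa using h0
    | succ n ih =>
      intro k hk
      rcases Nat.lt_or_ge n k with h | h
      · obtain rfl : k = n + 1 := by omega
        exact hcon n ih
      · exact ih k h
  have hmem : ∀ n, g^[n] x₀ ∈ F := fun n => hall n n le_rfl
  have hnot : ¬ Function.Injective (fun n : ℕ => (⟨g^[n] x₀, hmem n⟩ : F)) := by
    intro hi
    have := hF.to_subtype
    exact not_injective_infinite_finite _ hi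
  have key : ∀ i j : ℕ, i < j → g^[i] x₀ ≠ g^[j] x₀ := by
    intro i
    induction i with
    | zero =>
      intro j hj heq
      obtain ⟨j', rfl⟩ : ∃ j', j = j' + 1 := ⟨j - 1, by omega⟩
      rw [Function.iterate_succ_apply'] at heq
      exact hx _ (hmem j') heq.symm
    | succ i ih =>
      intro j hj heq
      obtain ⟨j', rfl⟩ : ∃ j', j = j' + 1 := ⟨j - 1, by omega⟩
      rw [Function.iterate_succ_apply', Function.iterate_succ_apply'] at heq
      exact ih j' (by omega) (hinj (hmem i) (hmem j') heq)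
  apply hnot
  intro i j hij
  have hij' : g^[i] x₀ = g^[j] x₀ := congrArg Subtype.val hij
  rcases Nat.lt_trichotomy i j with h | h | h
  · exact absurd hij' (key i j h)
  · exact h
  · exact absurd hij'.symm (key j i h)

namespace PMap

variable {m : PMap}

/-- The local axioms. -/
structure Pre (m : PMap) : Prop where
  rev_rev : ∀ d, m.rev (m.rev d) = d
  nxt_mem : ∀ d ∈ m.In, m.nxt d ∈ m.In
  nxt_nxt_nxt : ∀ d ∈ m.In, m.nxt (m.nxt (m.nxt d)) = d
  org_nxt : ∀ d ∈ m.In, m.org (m.nxt d) = m.org (m.rev d)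
  no_loop : ∀ d ∈ m.In, m.org (m.rev d) ≠ m.org d
  bd_mem : ∀ i, m.bd i ∈ m.In
  rev_bd : ∀ i, m.rev (m.bd i) ∉ m.In
  bd_surj : ∀ d ∈ m.In, m.rev d ∉ m.In → ∃ i, m.bd i = d
  org_rev_bd : ∀ i, m.org (m.rev (m.bd i)) = m.org (m.bd (i + 1))
  bd_simple : ∀ i j, m.org (m.bd i) = m.org (m.bd j) → i = j
  fin : ∀ x, {d | d ∈ m.E ∧ m.org d = x}.Finite

lemma IsHalfPlane.pre (h : m.IsHalfPlane) : m.Pre :=
  ⟨h.rev_rev, h.nxt_mem, h.nxt_nxt_nxt, h.org_nxt, h.no_loop, h.bd_mem, h.rev_bd, h.bd_surj,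
    h.org_rev_bd, h.bd_simple, h.fin⟩

lemma Pre.rev_inj (h : m.Pre) {d e : ℕ} (hde : m.rev d = m.rev e) : d = e := by
  rw [← h.rev_rev d, hde, h.rev_rev]

lemma Pre.nxt_inj (h : m.Pre) {d e : ℕ} (hd : d ∈ m.In) (he : e ∈ m.In)
    (hde : m.nxt d = m.nxt e) : d = e := by
  rw [← h.nxt_nxt_nxt d hd, hde, h.nxt_nxt_nxt e he]

lemma Pre.bd_inj (h : m.Pre) {i j : ℤ} (hij : m.bd i = m.bd j) : i = j :=
  h.bd_simple i j (by rw [hij])

lemma Pre.infinite (h : m.Pre) : m.In.Infinite := by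
  have : Function.Injective m.bd := fun i j => h.bd_inj
  exact (Set.infinite_range_of_injective this).mono (by rintro _ ⟨i, rfl⟩; exact h.bd_mem i)

lemma Pre.nxt2_mem (h : m.Pre) {d : ℕ} (hd : d ∈ m.In) : m.nxt (m.nxt d) ∈ m.In :=
  h.nxt_mem _ (h.nxt_mem _ hd)

/-- origin of the third dart -/
lemma Pre.org_rev_nxt2 (h : m.Pre) {d : ℕ} (hd : d ∈ m.In) :
    m.org (m.rev (m.nxt (m.nxt d))) = m.org d := by
  rw [← h.org_nxt _ (h.nxt2_mem hd), h.nxt_nxt_nxt d hd]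

lemma Pre.org_rev_nxt (h : m.Pre) {d : ℕ} (hd : d ∈ m.In) :
    m.org (m.rev (m.nxt d)) = m.org (m.nxt (m.nxt d)) := by
  rw [← h.org_nxt _ (h.nxt_mem _ hd)]

lemma Pre.no_loop' (h : m.Pre) {d : ℕ} (hd : d ∈ m.E) : m.org (m.rev d) ≠ m.org d := by
  rcases hd with hd | hd
  · exact h.no_loop d hd
  · have := h.no_loop _ hd
    rw [h.rev_rev] at this
    exact fun h' => this h'.symm

lemma Pre.rev_mem_E (h : m.Pre) {d : ℕ} (hd : d ∈ m.E) : m.rev d ∈ m.E := by
  rcases hd with hd | hd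
  · right; rwa [h.rev_rev]
  · left; exact hd

lemma mem_E_of_mem {d : ℕ} (hd : d ∈ m.In) : d ∈ m.E := Or.inl hd

lemma Pre.rev_mem_E_of_mem (h : m.Pre) {d : ℕ} (hd : d ∈ m.In) : m.rev d ∈ m.E :=
  h.rev_mem_E (mem_E_of_mem hd)

/-- third vertex is different from the origin -/
lemma Pre.third_ne_org (h : m.Pre) {d : ℕ} (hd : d ∈ m.In) :
    m.org (m.nxt (m.nxt d)) ≠ m.org d := by
  have h1 := h.no_loop _ (h.nxt2_mem hd)
  rw [h.org_rev_nxt2 hd] at h1
  exact fun h' => h1 h'.symm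

lemma Pre.third_ne_target (h : m.Pre) {d : ℕ} (hd : d ∈ m.In) :
    m.org (m.nxt (m.nxt d)) ≠ m.org (m.rev d) := by
  have h1 := h.no_loop _ (h.nxt_mem _ hd)
  rw [h.org_rev_nxt hd, h.org_nxt d hd] at h1
  exact h1

/-! ### paths -/

lemma path_append {x y : ℕ} {p q : List ℕ} :
    m.Path x (p ++ q) y ↔ ∃ z, m.Path x p z ∧ m.Path z q y := by
  induction p generalizing x with
  | nil => simp [Path]
  | cons d p ih => simp only [List.cons_append, Path, ih]; aesop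

lemma Path.mem_E {x y : ℕ} {p : List ℕ} (h : m.Path x p y) : ∀ d ∈ p, d ∈ m.E := by
  induction p generalizing x with
  | nil => simp
  | cons d p ih =>
    intro e he
    rcases List.mem_cons.1 he with rfl | he
    · exact h.1
    · exact ih h.2.2 e he

lemma path_singleton {x y d : ℕ} : m.Path x [d] y ↔ d ∈ m.E ∧ m.org d = x ∧ m.org (m.rev d) = y :=
  by simp [Path]

lemma path_reverse (h : m.Pre) {x y : ℕ} {p : List ℕ} (hp : m.Path x p y) :
    m.Path y (p.reverse.map m.rev) x := by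
  induction p generalizing x with
  | nil => simpa [Path] using (show x = y from hp).symm
  | cons d p ih =>
    simp only [List.reverse_cons, List.map_append, List.map_cons, List.map_nil]
    rw [path_append]
    refine ⟨_, ih hp.2.2, ?_⟩
    rw [path_singleton]
    refine ⟨h.rev_mem_E hp.1, rfl, ?_⟩
    rw [h.rev_rev]; exact hp.2.1

/-- propagation along a path: if membership in `T` propagates from a dart of `c` to its successors
in `c`, then it propagates along paths. -/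
lemma Path.prop {T : ℕ → Prop} {c : List ℕ}
    (hT : ∀ b ∈ c, T b → ∀ b' ∈ c, m.org b' = m.org (m.rev b) → T b')
    {x y : ℕ} {p : List ℕ} (hp : m.Path x p y) (hpc : ∀ d ∈ p, d ∈ c) {b : ℕ} (hb : b ∈ c)
    (hbT : T b) (hbx : m.org (m.rev b) = x) : ∀ d ∈ p, T d := by
  induction p generalizing x b with
  | nil => simp
  | cons d p ih =>
    have hd : T d := hT b hb hbT d (hpc d (by simp)) (by rw [hp.2.1, hbx])
    intro e he
    rcases List.mem_cons.1 he with rfl | he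
    · exact hd
    · exact ih hp.2.2 (fun e he => hpc e (by simp [he])) (hpc d (by simp)) hd rfl e he

lemma Path.target_last {x y : ℕ} {p : List ℕ} {d : ℕ} (hp : m.Path x (p ++ [d]) y) :
    m.org (m.rev d) = y := by
  obtain ⟨z, -, hz⟩ := path_append.1 hp
  exact (path_singleton.1 hz).2.2

/-- cyclic propagation. -/
lemma Path.cyclic {T : ℕ → Prop} {c : List ℕ} {x : ℕ} (hc : m.Path x c x)
    (hT : ∀ b ∈ c, T b → ∀ b' ∈ c, m.org b' = m.org (m.rev b) → T b')
    {b : ℕ} (hb : b ∈ c) (hbT : T b) : ∀ d ∈ c, T d := by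
  obtain ⟨c₁, c₂, rfl⟩ := List.append_of_mem hb
  obtain ⟨z, h1, h2⟩ := path_append.1 hc
  have h2' := h2
  obtain ⟨hbE, hbz, h3⟩ := h2
  have hc2 : ∀ d ∈ c₂, T d := Path.prop hT h3 (fun d hd => by simp [hd]) hb hbT rfl
  -- last dart of b :: c₂
  obtain ⟨q, e, hq⟩ : ∃ q e, b :: c₂ = q ++ [e] :=
    ⟨(b :: c₂).dropLast, (b :: c₂).getLast (by simp), (List.dropLast_append_getLast _).symm⟩
  have he : e ∈ b :: c₂ := by rw [hq]; simp
  have heT : T e := by
    rcases List.mem_cons.1 he with rfl | he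
    · exact hbT
    · exact hc2 e he
  have het : m.org (m.rev e) = x := by
    rw [hq] at h2'
    exact h2'.target_last
  have hc1 : ∀ d ∈ c₁, T d := Path.prop hT h1 (fun d hd => by simp [hd])
    (by rcases List.mem_cons.1 he with rfl | he <;> simp [*]) heT het
  intro d hd
  rcases List.mem_append.1 hd with hd | hd
  · exact hc1 d hd
  · rcases List.mem_cons.1 hd with rfl | hd
    · exact hbT
    · exact hc2 d hd

/-! ### sets of triangles -/

/-- `S` is a set of darts of triangles. -/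
def Tri (m : PMap) (S : Set ℕ) : Prop := ∀ d ∈ S, d ∈ m.In ∧ m.nxt d ∈ S

lemma Tri.subset {S : Set ℕ} (hS : m.Tri S) : S ⊆ m.In := fun d hd => (hS d hd).1

lemma Tri.nxt_mem {S : Set ℕ} (hS : m.Tri S) {d : ℕ} (hd : d ∈ S) : m.nxt d ∈ S := (hS d hd).2

lemma Tri.mem_of_nxt (h : m.Pre) {S : Set ℕ} (hS : m.Tri S) {d : ℕ} (hd : d ∈ m.In)
    (h' : m.nxt d ∈ S) : d ∈ S := by
  have := hS.nxt_mem (hS.nxt_mem h')
  rwa [h.nxt_nxt_nxt d hd] at this

lemma Tri.diff (h : m.Pre) {S T : Set ℕ} (hS : m.Tri S) (hT : m.Tri T) : m.Tri (S \ T) :=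
  fun d hd => ⟨hS.subset hd.1, hS.nxt_mem hd.1,
    fun h' => hd.2 (hT.mem_of_nxt h (hS.subset hd.1) h')⟩

lemma Tri.inter {S T : Set ℕ} (hS : m.Tri S) (hT : m.Tri T) : m.Tri (S ∩ T) :=
  fun d hd => ⟨hS.subset hd.1, hS.nxt_mem hd.1, hT.nxt_mem hd.2⟩

lemma Tri.union {S T : Set ℕ} (hS : m.Tri S) (hT : m.Tri T) : m.Tri (S ∪ T) := by
  rintro d (hd | hd)
  · exact ⟨hS.subset hd, Or.inl (hS.nxt_mem hd)⟩
  · exact ⟨hT.subset hd, Or.inr (hT.nxt_mem hd)⟩

/-- a finite set of triangles without boundary is empty -/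
lemma IsHalfPlane.eq_empty (h : m.IsHalfPlane) {T : Set ℕ} (hT : m.Tri T) (hfin : T.Finite)
    (hcl : ∀ d ∈ T, m.rev d ∈ m.In → m.rev d ∈ T) : T = ∅ := by
  by_contra hne
  have := h.conn T hT.subset (Set.nonempty_iff_ne_empty.2 hne) (fun d hd => hT.nxt_mem hd) hcl
  exact h.pre.infinite (this ▸ hfin)

/-- `Bd S c`: `S` is a finite set of triangles, whose boundary is the simple closed path `c`. -/
structure Bd (m : PMap) (S : Set ℕ) (x : ℕ) (c : List ℕ) : Prop where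
  tri : m.Tri S
  fin : S.Finite
  path : m.Path x c x
  ne_nil : c ≠ []
  nodup : (c.map m.org).Nodup
  bdry : ∀ d, (d ∈ S ∧ m.rev d ∉ S) ↔ d ∈ c

lemma eq_of_org_eq_of_nodup {c : List ℕ} (hn : (c.map m.org).Nodup) {a b : ℕ} (ha : a ∈ c)
    (hb : b ∈ c) (hab : m.org a = m.org b) : a = b :=
  List.inj_on_of_nodup_map hn ha hb hab

/-- Inside fan: turning around a vertex of the boundary inside of `S`. -/
lemma Pre.inFan (h : m.Pre) {S T : Set ℕ} (hS : m.Tri S) (hT : m.Tri T) (hTS : T ⊆ S)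
    (hcl : ∀ d ∈ T, m.rev d ∈ S → m.rev d ∈ T) {b : ℕ} (hb : b ∈ T)
    (hbS : m.rev b ∉ S) : ∃ b' ∈ T, m.rev b' ∉ S ∧ m.org b' = m.org (m.rev b) := by
  set x := m.org (m.rev b) with hx
  set F : Set ℕ := {d | d ∈ T ∧ m.org d = x ∧ m.rev d ∈ S} with hFdef
  have h0T : m.nxt b ∈ T := hT.nxt_mem hb
  have h0x : m.org (m.nxt b) = x := h.org_nxt b (hT.subset hb)
  by_cases h0 : m.rev (m.nxt b) ∈ S
  · have hFfin : F.Finite := (h.fin x).subset (fun d hd => ⟨Or.inl (hT.subset hd.1), hd.2.1⟩)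
    have hinj : Set.InjOn (fun d => m.nxt (m.rev d)) F := by
      intro d hd e he hde
      exact h.rev_inj (h.nxt_inj (hS.subset hd.2.2) (hS.subset he.2.2) hde)
    obtain ⟨n, hn, hn'⟩ := exists_exit hFfin hinj (x₀ := m.nxt b) ⟨h0T, h0x, h0⟩ (by
      intro d hd hdb
      have h1 : m.rev d = b := h.nxt_inj (hS.subset hd.2.2) (hT.subset hb) hdb
      have : d = m.rev b := by rw [← h1, h.rev_rev]
      exact hbS (this ▸ hTS hd.1))
    set e := (fun d => m.nxt (m.rev d))^[n] (m.nxt b)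
    have he : e ∈ F := hn n le_rfl
    rw [Function.iterate_succ_apply'] at hn'
    have hre : m.rev e ∈ T := hcl e he.1 he.2.2
    have h1 : m.nxt (m.rev e) ∈ T := hT.nxt_mem hre
    have h2 : m.org (m.nxt (m.rev e)) = x := by
      rw [h.org_nxt _ (hT.subset hre), h.rev_rev]; exact he.2.1
    exact ⟨_, h1, fun h3 => hn' ⟨h1, h2, h3⟩, h2⟩
  · exact ⟨_, h0T, h0, h0x⟩

/-- A set of triangles bounded by a simple closed path is connected. -/
lemma IsHalfPlane.inConn (h : m.IsHalfPlane) {S : Set ℕ} {x : ℕ} {c : List ℕ} (hB : m.Bd S x c)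
    {T : Set ℕ} (hT : m.Tri T) (hTS : T ⊆ S) (hne : T.Nonempty)
    (hcl : ∀ d ∈ T, m.rev d ∈ S → m.rev d ∈ T) : T = S := by
  have key : ∀ T : Set ℕ, m.Tri T → T ⊆ S → T.Nonempty →
      (∀ d ∈ T, m.rev d ∈ S → m.rev d ∈ T) → ∀ d ∈ c, d ∈ T := by
    intro T hT hTS hne hcl
    have h1 : ∃ b ∈ T, m.rev b ∉ S := by
      by_contra hcon
      push Not at hcon
      have := h.eq_empty hT (hB.fin.subset hTS) (fun d hd _ => hcl d hd (hcon d hd))
      exact hne.ne_empty this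
    obtain ⟨b, hbT, hbS⟩ := h1
    have hbc : b ∈ c := (hB.bdry b).1 ⟨hTS hbT, hbS⟩
    refine Path.cyclic hB.path (T := fun d => d ∈ T) ?_ hbc hbT
    intro b hb hbT b' hb' hbb'
    obtain ⟨b'', h1, h2, h3⟩ := h.pre.inFan hB.tri hT hTS hcl hbT ((hB.bdry b).2 hb).2
    have : b' = b'' := eq_of_org_eq_of_nodup hB.nodup hb' ((hB.bdry b'').1 ⟨hTS h1, h2⟩)
      (by rw [hbb', h3])
    exact this ▸ h1
  obtain ⟨b, hb⟩ := List.exists_mem_of_ne_nil _ hB.ne_nil
  by_contra hneq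
  have h2 : (S \ T).Nonempty := by
    rw [Set.nonempty_iff_ne_empty]
    intro h3
    exact hneq (Set.Subset.antisymm hTS (Set.diff_eq_empty.1 h3))
  have h3 := key (S \ T) (hB.tri.diff h.pre hT) Set.diff_subset h2 (fun d hd hd' =>
    ⟨hd', fun h4 => hd.2 (by
      have := hcl _ h4 (by rw [h.rev_rev]; exact hd.1)
      rwa [h.rev_rev] at this)⟩) b hb
  exact h3.2 (key T hT hTS hne hcl b hb)

/-- Nothing finite outside. -/
lemma IsHalfPlane.outEmpty (h : m.IsHalfPlane) {S : Set ℕ} {x : ℕ} {c : List ℕ} (hB : m.Bd S x c)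
    {B : Set ℕ} (hBt : m.Tri B) (hBf : B.Finite) (hdis : ∀ d ∈ B, d ∉ S)
    (hcl : ∀ d ∈ B, m.rev d ∉ B → m.rev d ∈ m.In → m.rev d ∈ S) (hnb : ∀ i, m.bd i ∉ B) :
    B = ∅ := by
  by_contra hne
  have h1 : ∃ d ∈ B, m.rev d ∈ S := by
    by_contra hcon
    push Not at hcon
    exact hne (h.eq_empty hBt hBf (fun d hd hd' => by
      by_contra h2; exact hcon d hd (hcl d hd h2 hd')))
  obtain ⟨d, hdB, hdS⟩ := h1
  have hmemc : ∀ e, e ∈ S → m.rev e ∈ B → e ∈ c := fun e he he' =>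
    (hB.bdry e).1 ⟨he, hdis _ he'⟩
  have hall : ∀ b ∈ c, m.rev b ∈ B := by
    refine Path.cyclic hB.path (T := fun b => m.rev b ∈ B) ?_
      (hmemc _ hdS (by rw [h.rev_rev]; exact hdB)) (by show m.rev (m.rev d) ∈ B; rw [h.rev_rev]; exact hdB)
    intro b hb hbB b' hb' hbb'
    set w := m.org (m.rev b) with hw
    set F : Set ℕ := {e | e ∈ B ∧ m.org e = w ∧ m.rev (m.nxt (m.nxt e)) ∈ B} with hF
    have hgood : ∀ e ∈ B, m.org e = w → m.rev (m.nxt (m.nxt e)) ∉ B → m.rev b' ∈ B := by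
      intro e he hew hne'
      have h2 : m.nxt (m.nxt e) ∈ B := hBt.nxt_mem (hBt.nxt_mem he)
      have h3 : m.rev (m.nxt (m.nxt e)) ∈ m.In := by
        by_contra h4
        obtain ⟨i, hi⟩ := h.bd_surj _ (hBt.subset h2) h4
        exact hnb i (hi ▸ h2)
      have h5 := hcl _ h2 hne' h3
      have h6 : m.rev (m.nxt (m.nxt e)) ∈ c := hmemc _ h5 (by rw [h.rev_rev]; exact h2)
      have h7 : m.org (m.rev (m.nxt (m.nxt e))) = w := by
        rw [h.pre.org_rev_nxt2 (hBt.subset he)]; exact hew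
      have : b' = m.rev (m.nxt (m.nxt e)) :=
        eq_of_org_eq_of_nodup hB.nodup hb' h6 (by rw [h7, hbb'])
      rw [this, h.rev_rev]; exact h2
    by_cases h0 : m.rev (m.nxt (m.nxt (m.rev b))) ∈ B
    · have hFfin : F.Finite := (h.fin w).subset (fun e he => ⟨Or.inl (hBt.subset he.1), he.2.1⟩)
      have hinj : Set.InjOn (fun e => m.rev (m.nxt (m.nxt e))) F := by
        intro d hd e he hde
        have h1 := h.pre.rev_inj hde
        exact h.pre.nxt_inj (hBt.subset hd.1) (hBt.subset he.1)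
          (h.pre.nxt_inj (hBt.subset (hBt.nxt_mem hd.1)) (hBt.subset (hBt.nxt_mem he.1)) h1)
      obtain ⟨n, hn, hn'⟩ := exists_exit hFfin hinj (x₀ := m.rev b) ⟨hbB, hw.symm ▸ rfl, h0⟩ (by
        intro e he heb
        have h1 := h.pre.rev_inj heb
        have h2 : m.nxt (m.nxt e) ∈ B := hBt.nxt_mem (hBt.nxt_mem he.1)
        rw [h1] at h2
        exact hdis _ h2 ((hB.bdry b).2 hb).1)
      set e := (fun e => m.rev (m.nxt (m.nxt e)))^[n] (m.rev b)
      have he : e ∈ F := hn n le_rfl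
      rw [Function.iterate_succ_apply'] at hn'
      have h1 : m.org (m.rev (m.nxt (m.nxt e))) = w := by
        rw [h.pre.org_rev_nxt2 (hBt.subset he.1)]; exact he.2.1
      refine hgood _ he.2.2 h1 (fun h3 => hn' ⟨he.2.2, h1, h3⟩)
    · exact hgood _ hbB rfl h0
  have : S ∪ B = ∅ := h.eq_empty (hB.tri.union hBt) (hB.fin.union hBf) (by
    rintro e (he | he) he'
    · by_cases h2 : m.rev e ∈ S
      · exact Or.inl h2
      · exact Or.inr (hall e ((hB.bdry e).1 ⟨he, h2⟩))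
    · by_cases h2 : m.rev e ∈ B
      · exact Or.inr h2
      · exact Or.inl (hcl e he h2 he'))
  exact hne (Set.union_empty_iff.1 this).2

/-- uniqueness of a finite set of triangles with given boundary. -/
lemma IsHalfPlane.unique (h : m.IsHalfPlane) {S₁ S₂ : Set ℕ} (h1 : m.Tri S₁) (h2 : m.Tri S₂)
    (f1 : S₁.Finite) (f2 : S₂.Finite)
    (hb : ∀ d, (d ∈ S₁ ∧ m.rev d ∉ S₁) ↔ (d ∈ S₂ ∧ m.rev d ∉ S₂)) : S₁ = S₂ := by
  have key : ∀ S₁ S₂ : Set ℕ, m.Tri S₁ → m.Tri S₂ → S₁.Finite →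
      (∀ d, (d ∈ S₁ ∧ m.rev d ∉ S₁) ↔ (d ∈ S₂ ∧ m.rev d ∉ S₂)) → S₁ ⊆ S₂ := by
    intro S₁ S₂ h1 h2 f1 hb
    rw [← Set.diff_eq_empty]
    refine h.eq_empty (h1.diff h.pre h2) (f1.subset Set.diff_subset) ?_
    intro d hd hd'
    refine ⟨?_, ?_⟩
    · by_contra h3
      exact hd.2 ((hb d).1 ⟨hd.1, h3⟩).1
    · intro h3
      have := (hb (m.rev d)).2 ⟨h3, by rw [h.rev_rev]; exact hd.2⟩
      rw [h.rev_rev] at this
      exact this.2 hd.1
  exact Set.Subset.antisymm (key _ _ h1 h2 f1 hb) (key _ _ h2 h1 f2 (fun d => (hb d).symm))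

end PMap

end Pool.Agent.Helper97.Speed
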