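import Pool.Agent.Helper97.Speed.Basic

/-! # Cutting along a chord -/

namespace Pool.Agent.Helper97.Speed

/-! ### periodicity -/

lemma exists_period {α : Type*} {F : Set α} (hF : F.Finite) {g : α → α} (hinj : Set.InjOn g F)
    (hmaps : ∀ x ∈ F, g x ∈ F) {x₀ : α} (h0 : x₀ ∈ F) : ∃ n, g^[n + 1] x₀ = x₀ := by
  set F' : Set α := Set.range (fun n : ℕ => g^[n] x₀) with hF'
  have hsub : F' ⊆ F := by
    rintro _ ⟨n, rfl⟩
    induction n with
    | zero => exact h0
    | succ n ih => simp only [Function.iterate_succ_apply']; exact hmaps _ ih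
  by_contra hcon
  push Not at hcon
  obtain ⟨n, hn, hn'⟩ := exists_exit (hF.subset hsub) (hinj.mono hsub) (x₀ := x₀) ⟨0, rfl⟩ (by
    rintro _ ⟨n, rfl⟩ h
    refine hcon n ?_
    rw [Function.iterate_succ_apply']; exact h)
  exact hn' ⟨n + 1, rfl⟩

lemma orbit_symm {α : Type*} {F : Set α} (hF : F.Finite) {g : α → α} (hinj : Set.InjOn g F)
    (hmaps : ∀ x ∈ F, g x ∈ F) {x₀ : α} (h0 : x₀ ∈ F) (a : ℕ) : ∃ b, g^[b] (g^[a] x₀) = x₀ := by
  obtain ⟨n, hn⟩ := exists_period hF hinj hmaps h0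
  refine ⟨(n + 1) * a - a, ?_⟩
  rw [← Function.iterate_add_apply, Nat.sub_add_cancel (Nat.le_mul_of_pos_left _ (by omega)),
    Function.iterate_mul]
  exact Function.iterate_fixed hn a

namespace PMap

variable {m : PMap}

/-- the next dart around the origin. -/
noncomputable def rot (m : PMap) (d : ℕ) : ℕ :=
  open Classical in
  if d ∈ m.In then m.rev (m.nxt (m.nxt d)) else m.bd (Function.invFun m.bd (m.rev d) + 1)

lemma rot_of_mem {d : ℕ} (hd : d ∈ m.In) : m.rot d = m.rev (m.nxt (m.nxt d)) := by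
  simp [rot, hd]

lemma Pre.rot_rev_bd (h : m.Pre) (i : ℤ) : m.rot (m.rev (m.bd i)) = m.bd (i + 1) := by
  have : Function.Injective m.bd := fun i j => h.bd_inj
  simp only [rot, h.rev_bd i, if_false, h.rev_rev]
  rw [Function.leftInverse_invFun this i]

lemma Pre.exists_of_not_mem (h : m.Pre) {d : ℕ} (hd : d ∈ m.E) (hd' : d ∉ m.In) :
    ∃ i, d = m.rev (m.bd i) := by
  obtain ⟨i, hi⟩ := h.bd_surj (m.rev d) (hd.resolve_left hd') (by rwa [h.rev_rev])
  exact ⟨i, by rw [hi, h.rev_rev]⟩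

lemma Pre.turn_iff (h : m.Pre) {d e : ℕ} (hd : d ∈ m.E) : m.Turn d e ↔ e = m.rot d := by
  by_cases hd' : d ∈ m.In
  · rw [rot_of_mem hd']
    constructor
    · rintro (⟨-, h1⟩ | ⟨i, h1, -⟩)
      · exact h1
      · exact absurd hd' (h1 ▸ h.rev_bd i)
    · intro h1; exact Or.inl ⟨hd', h1⟩
  · obtain ⟨i, rfl⟩ := h.exists_of_not_mem hd hd'
    rw [h.rot_rev_bd]
    constructor
    · rintro (⟨h1, -⟩ | ⟨k, h1, h2⟩)
      · exact absurd h1 hd'
      · rw [h.bd_inj (h.rev_inj h1)]; exact h2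
    · intro h1; exact Or.inr ⟨i, rfl, h1⟩

lemma Pre.rot_mem (h : m.Pre) {d : ℕ} (hd : d ∈ m.E) : m.rot d ∈ m.E := by
  by_cases hd' : d ∈ m.In
  · rw [rot_of_mem hd']; exact h.rev_mem_E_of_mem (h.nxt2_mem hd')
  · obtain ⟨i, rfl⟩ := h.exists_of_not_mem hd hd'
    rw [h.rot_rev_bd]; exact mem_E_of_mem (h.bd_mem _)

lemma Pre.org_rot (h : m.Pre) {d : ℕ} (hd : d ∈ m.E) : m.org (m.rot d) = m.org d := by
  by_cases hd' : d ∈ m.In
  · rw [rot_of_mem hd', h.org_rev_nxt2 hd']
  · obtain ⟨i, rfl⟩ := h.exists_of_not_mem hd hd'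
    rw [h.rot_rev_bd, h.org_rev_bd]

lemma Pre.rot_inj (h : m.Pre) {d e : ℕ} (hd : d ∈ m.E) (he : e ∈ m.E) (hde : m.rot d = m.rot e) :
    d = e := by
  by_cases hd' : d ∈ m.In <;> by_cases he' : e ∈ m.In
  · rw [rot_of_mem hd', rot_of_mem he'] at hde
    exact h.nxt_inj hd' he' (h.nxt_inj (h.nxt_mem _ hd') (h.nxt_mem _ he') (h.rev_inj hde))
  · obtain ⟨i, rfl⟩ := h.exists_of_not_mem he he'
    rw [rot_of_mem hd', h.rot_rev_bd] at hde
    exfalso
    have : m.nxt (m.nxt d) = m.rev (m.bd (i + 1)) := by rw [← hde, h.rev_rev]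
    exact h.rev_bd (i + 1) (this ▸ h.nxt2_mem hd')
  · obtain ⟨i, rfl⟩ := h.exists_of_not_mem hd hd'
    rw [rot_of_mem he', h.rot_rev_bd] at hde
    exfalso
    have : m.nxt (m.nxt e) = m.rev (m.bd (i + 1)) := by rw [hde, h.rev_rev]
    exact h.rev_bd (i + 1) (this ▸ h.nxt2_mem he')
  · obtain ⟨i, rfl⟩ := h.exists_of_not_mem hd hd'
    obtain ⟨k, rfl⟩ := h.exists_of_not_mem he he'
    rw [h.rot_rev_bd, h.rot_rev_bd] at hde
    have := h.bd_inj hde
    rw [show i = k by omega]

/-- darts with given origin -/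
def Fx (m : PMap) (x : ℕ) : Set ℕ := {d | d ∈ m.E ∧ m.org d = x}

lemma Pre.rot_maps (h : m.Pre) {x d : ℕ} (hd : d ∈ m.Fx x) : m.rot d ∈ m.Fx x :=
  ⟨h.rot_mem hd.1, by rw [h.org_rot hd.1]; exact hd.2⟩

lemma Pre.rot_iter_maps (h : m.Pre) {x d : ℕ} (hd : d ∈ m.Fx x) (n : ℕ) : m.rot^[n] d ∈ m.Fx x := by
  induction n with
  | zero => exact hd
  | succ n ih => rw [Function.iterate_succ_apply']; exact h.rot_maps ih

lemma Pre.rot_injOn (h : m.Pre) (x : ℕ) : Set.InjOn m.rot (m.Fx x) :=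
  fun _ hd _ he hde => h.rot_inj hd.1 he.1 hde

lemma Pre.rot_period (h : m.Pre) {d : ℕ} (hd : d ∈ m.E) : ∃ n, m.rot^[n + 1] d = d :=
  exists_period (h.fin (m.org d)) (h.rot_injOn _) (fun _ => h.rot_maps) ⟨hd, rfl⟩

lemma Pre.rot_symm (h : m.Pre) {d : ℕ} (hd : d ∈ m.E) (a : ℕ) : ∃ b, m.rot^[b] (m.rot^[a] d) = d :=
  orbit_symm (h.fin (m.org d)) (h.rot_injOn _) (fun _ => h.rot_maps) ⟨hd, rfl⟩ a

lemma Pre.reflTransGen_iff (h : m.Pre) {d e : ℕ} (hd : d ∈ m.E) :
    Relation.ReflTransGen m.Turn d e ↔ ∃ n, m.rot^[n] d = e := by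
  constructor
  · intro h1
    induction h1 with
    | refl => exact ⟨0, rfl⟩
    | tail h1 h2 ih =>
      obtain ⟨n, rfl⟩ := ih
      have := (h.rot_iter_maps (x := m.org d) ⟨hd, rfl⟩ n).1
      refine ⟨n + 1, ?_⟩
      rw [Function.iterate_succ_apply']
      exact ((h.turn_iff this).1 h2).symm
  · rintro ⟨n, rfl⟩
    induction n with
    | zero => exact .refl
    | succ n ih =>
      have := (h.rot_iter_maps (x := m.org d) ⟨hd, rfl⟩ n).1
      refine ih.tail ?_
      rw [Function.iterate_succ_apply']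
      exact (h.turn_iff this).2 rfl

lemma IsHalfPlane.exists_rot (h : m.IsHalfPlane) {d e : ℕ} (hd : d ∈ m.E) (he : e ∈ m.E)
    (hde : m.org d = m.org e) : ∃ n, m.rot^[n] d = e :=
  (h.pre.reflTransGen_iff hd).1 (h.fan d hd e he hde)

/-! ### boundary darts and connectivity -/

/-- A set of triangles closed in a map contains `bd i` as soon as it contains `bd (i + 1)`. -/
lemma Pre.bd_prev (h : m.Pre) {T : Set ℕ} (hT : m.Tri T)
    (hcl : ∀ d ∈ T, m.rev d ∈ m.In → m.rev d ∈ T) {i : ℤ} (hi : m.bd (i + 1) ∈ T) :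
    m.bd i ∈ T := by
  set w := m.org (m.bd (i + 1)) with hw
  have hgood : ∀ e ∈ T, m.org e = w → m.rev (m.nxt (m.nxt e)) ∉ m.In → m.bd i ∈ T := by
    intro e he hew hne
    have h1 : m.nxt (m.nxt e) ∈ T := hT.nxt_mem (hT.nxt_mem he)
    obtain ⟨k, hk⟩ := h.bd_surj _ (hT.subset h1) hne
    have h2 : m.org (m.rev (m.nxt (m.nxt e))) = w := by
      rw [h.org_rev_nxt2 (hT.subset he)]; exact hew
    rw [← hk, h.org_rev_bd] at h2
    have := h.bd_simple _ _ h2
    rw [show i = k by omega, hk]; exact h1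
  set F : Set ℕ := {e | e ∈ T ∧ m.org e = w ∧ m.rev (m.nxt (m.nxt e)) ∈ m.In} with hF
  by_cases h0 : m.rev (m.nxt (m.nxt (m.bd (i + 1)))) ∈ m.In
  · have hFfin : F.Finite := (h.fin w).subset (fun e he => ⟨Or.inl (hT.subset he.1), he.2.1⟩)
    have hinj : Set.InjOn (fun e => m.rev (m.nxt (m.nxt e))) F := by
      intro d hd e he hde
      have h1 := h.rev_inj hde
      exact h.nxt_inj (hT.subset hd.1) (hT.subset he.1)
        (h.nxt_inj (hT.subset (hT.nxt_mem hd.1)) (hT.subset (hT.nxt_mem he.1)) h1)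
    obtain ⟨n, hn, hn'⟩ := exists_exit hFfin hinj (x₀ := m.bd (i + 1)) ⟨hi, rfl, h0⟩ (by
      intro e he heb
      have h2 : m.nxt (m.nxt e) ∈ m.In := hT.subset (hT.nxt_mem (hT.nxt_mem he.1))
      have h3 : m.nxt (m.nxt e) = m.rev (m.bd (i + 1)) := by rw [← heb, h.rev_rev]
      exact h.rev_bd _ (h3 ▸ h2))
    set e := (fun e => m.rev (m.nxt (m.nxt e)))^[n] (m.bd (i + 1))
    have he : e ∈ F := hn n le_rfl
    rw [Function.iterate_succ_apply'] at hn'
    have h1 : m.org (m.rev (m.nxt (m.nxt e))) = w := by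
      rw [h.org_rev_nxt2 (hT.subset he.1)]; exact he.2.1
    have h2 : m.nxt (m.nxt e) ∈ T := hT.nxt_mem (hT.nxt_mem he.1)
    have h3 : m.rev (m.nxt (m.nxt e)) ∈ T := hcl _ h2 he.2.2
    exact hgood _ h3 h1 (fun h4 => hn' ⟨h3, h1, h4⟩)
  · exact hgood _ hi rfl h0

lemma Pre.bd_all (h : m.Pre) {T : Set ℕ} (hT : m.Tri T)
    (hcl : ∀ d ∈ T, m.rev d ∈ m.In → m.rev d ∈ T) (i : ℤ) (hi : m.bd i ∈ T) :
    ∀ k, m.bd k ∈ T := by
  have hT2 : m.Tri (m.In \ T) := by
    intro d hd
    exact ⟨hd.1, h.nxt_mem _ hd.1, fun h' => hd.2 (hT.mem_of_nxt h hd.1 h')⟩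
  have hcl2 : ∀ d ∈ m.In \ T, m.rev d ∈ m.In → m.rev d ∈ m.In \ T := by
    intro d hd hd'
    refine ⟨hd', fun h' => hd.2 ?_⟩
    have := hcl _ h' (by rw [h.rev_rev]; exact hd.1)
    rwa [h.rev_rev] at this
  have hiff : ∀ i, m.bd i ∈ T ↔ m.bd (i + 1) ∈ T := by
    intro i
    constructor
    · intro h1
      by_contra h2
      exact (h.bd_prev hT2 hcl2 (i := i) ⟨h.bd_mem _, h2⟩).2 h1
    · exact fun h1 => h.bd_prev hT hcl h1
  intro k
  have key : ∀ n : ℕ, m.bd (i + n) ∈ T ∧ m.bd (i - n) ∈ T := by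
    intro n
    induction n with
    | zero => simpa using hi
    | succ n ih =>
      constructor
      · have := (hiff _).1 ih.1
        push_cast
        rwa [← add_assoc]
      · have := (hiff (i - (n + 1))).2 (by rw [show i - ((n:ℤ) + 1) + 1 = i - n by ring]; exact ih.2)
        push_cast
        exact this
  rcases le_total i k with h1 | h1
  · have := (key (k - i).toNat).1
    rwa [Int.toNat_of_nonneg (by omega), show i + (k - i) = k by ring] at this
  · have := (key (i - k).toNat).2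
    rwa [Int.toNat_of_nonneg (by omega), show i - (i - k) = k by ring] at this

/-! ### the path of a chord -/

lemma Path.org_head {x y d : ℕ} {p : List ℕ} (hp : m.Path x (d :: p) y) : m.org d = x := hp.2.1

lemma Path.targets {x y : ℕ} {p : List ℕ} (hp : m.Path x p y) (hne : p ≠ []) :
    p.map (fun d => m.org (m.rev d)) = p.tail.map m.org ++ [y] := by
  induction p generalizing x with
  | nil => exact absurd rfl hne
  | cons d p ih =>
    rcases p with _ | ⟨e, p⟩
    · simpa [Path] using hp.2.2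
    · have := ih hp.2.2 (by simp)
      rw [List.map_cons, this]
      simp only [List.tail_cons, List.map_cons, List.cons_append, List.cons.injEq, and_true]
      exact (hp.2.2.2.1).symm

lemma Path.org_getElem_zero {x y : ℕ} {p : List ℕ} (hp : m.Path x p y) (h0 : 0 < p.length) :
    m.org p[0] = x := by
  rcases p with _ | ⟨d, p⟩
  · simp at h0
  · exact hp.2.1

lemma Path.org_rev_getElem {x y : ℕ} {p : List ℕ} (hp : m.Path x p y) {s : ℕ}
    (hs : s + 1 < p.length) : m.org (m.rev p[s]) = m.org p[s + 1] := by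
  induction p generalizing x s with
  | nil => simp at hs
  | cons d p ih =>
    rcases s with _ | s
    · rcases p with _ | ⟨e, p⟩
      · simp at hs
      · exact (hp.2.2.2.1).symm
    · simp only [List.length_cons] at hs
      simpa using ih hp.2.2 (s := s) (by omega)

lemma Path.org_rev_last {x y : ℕ} {p : List ℕ} (hp : m.Path x p y) {s : ℕ}
    (hs : s + 1 = p.length) : m.org (m.rev p[s]) = y := by
  induction p generalizing x s with
  | nil => simp at hs
  | cons d p ih =>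
    rcases p with _ | ⟨e, p⟩
    · simp only [List.length_cons, List.length_nil] at hs
      obtain rfl : s = 0 := by omega
      exact hp.2.2
    · rcases s with _ | s
      · simp at hs
      · simp only [List.length_cons] at hs
        exact ih hp.2.2 (s := s) (by simp; omega)

/-- the boundary vertices -/
def V (m : PMap) (i : ℤ) : ℕ := m.org (m.bd i)

/-- the path part of a chord -/
structure PC (m : PMap) (j : ℤ) (b : ℕ) (p : List ℕ) : Prop where
  pos : 0 < b
  ne_nil : p ≠ []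
  path : m.Path (m.org (m.bd j)) p (m.org (m.bd (j + b)))
  simple : (p.tail.map m.org).Nodup
  inside : ∀ d ∈ p.tail, ∀ i, m.org d ≠ m.org (m.bd i)

lemma Chord.pc {j : ℤ} {b : ℕ} {p : List ℕ} {S : Finset ℕ} (ch : m.Chord j b p S) :
    m.PC j b p := ⟨ch.pos, ch.ne_nil, ch.path, ch.simple, ch.inside⟩

namespace PC

variable {j : ℤ} {b : ℕ} {p : List ℕ}

lemma len_pos (ch : m.PC j b p) : 0 < p.length := List.length_pos_of_ne_nil ch.ne_nil

lemma org_zero (ch : m.PC j b p) : m.org (p[0]'ch.len_pos) = m.V j :=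
  ch.path.org_getElem_zero ch.len_pos

lemma org_pos_ne (ch : m.PC j b p) {s : ℕ} (hs : s + 1 < p.length) (i : ℤ) :
    m.org p[s + 1] ≠ m.V i := by
  refine ch.inside _ ?_ i
  rcases p with _ | ⟨d, p⟩
  · simp at hs
  · simp

lemma org_eq_V (ch : m.PC j b p) {s : ℕ} (hs : s < p.length) {i : ℤ}
    (h : m.org p[s] = m.V i) : s = 0 := by
  rcases s with _ | s
  · rfl
  · exact absurd h (ch.org_pos_ne hs i)

lemma nodup_org (ch : m.PC j b p) : (p.map m.org).Nodup := by
  have h0 := ch.org_zero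
  have h1 := ch.inside
  have h2 := ch.simple
  rcases p with _ | ⟨d, p⟩
  · exact absurd rfl ch.ne_nil
  · simp only [List.map_cons, List.nodup_cons, List.tail_cons] at *
    refine ⟨?_, h2⟩
    intro h3
    obtain ⟨e, he, hed⟩ := List.mem_map.1 h3
    exact h1 e he j (by rw [hed]; exact h0)

lemma org_inj (ch : m.PC j b p) {s t : ℕ} (hs : s < p.length) (ht : t < p.length)
    (h : m.org p[s] = m.org p[t]) : s = t := by
  have := ch.nodup_org
  rw [List.nodup_iff_injective_getElem] at this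
  have h2 := @this ⟨s, by simpa using hs⟩ ⟨t, by simpa using ht⟩ (by simpa using h)
  simpa using h2

lemma org_rev_succ (ch : m.PC j b p) {s : ℕ} (hs : s + 1 < p.length) :
    m.org (m.rev p[s]) = m.org p[s + 1] := ch.path.org_rev_getElem hs

lemma org_rev_last (ch : m.PC j b p) {s : ℕ} (hs : s + 1 = p.length) :
    m.org (m.rev p[s]) = m.V (j + b) := ch.path.org_rev_last hs

lemma V_ne (ch : m.PC j b p) (h : m.Pre) : m.V j ≠ m.V (j + b) := by
  intro h1
  have := h.bd_simple _ _ h1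
  have := ch.pos
  omega

/-- a vertex of the path is a target: where it is -/
lemma org_rev_eq_V (ch : m.PC j b p) (h : m.Pre) {s : ℕ} (hs : s < p.length) {i : ℤ}
    (h1 : m.org (m.rev p[s]) = m.V i) : s + 1 = p.length ∧ i = j + b := by
  rcases Nat.lt_or_ge (s + 1) p.length with h2 | h2
  · rw [ch.org_rev_succ h2] at h1
    exact absurd h1 (ch.org_pos_ne h2 i)
  · have h3 : s + 1 = p.length := by omega
    rw [ch.org_rev_last h3] at h1
    exact ⟨h3, (h.bd_simple _ _ h1).symm⟩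

lemma rev_bd_notMem (ch : m.PC j b p) (h : m.Pre) (i : ℤ) : m.rev (m.bd i) ∉ p := by
  intro hm
  obtain ⟨s, hs, hse⟩ := List.getElem_of_mem hm
  have h1 : m.org p[s] = m.V (i + 1) := by rw [hse, h.org_rev_bd]; rfl
  have h2 : m.org (m.rev p[s]) = m.V i := by rw [hse, h.rev_rev]; rfl
  obtain ⟨h3, h4⟩ := ch.org_rev_eq_V h hs h2
  have h5 := ch.org_eq_V hs h1
  subst h5
  rw [ch.org_zero] at h1
  have := h.bd_simple _ _ h1
  have := ch.pos
  omega

lemma bd_mem_path (ch : m.PC j b p) (h : m.Pre) {i : ℤ} (hm : m.bd i ∈ p) :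
    b = 1 ∧ i = j ∧ p = [m.bd j] := by
  obtain ⟨s, hs, hse⟩ := List.getElem_of_mem hm
  have h1 : m.org p[s] = m.V i := by rw [hse]; rfl
  have h2 : m.org (m.rev p[s]) = m.V (i + 1) := by rw [hse, h.org_rev_bd]; rfl
  obtain ⟨h3, h4⟩ := ch.org_rev_eq_V h hs h2
  have h5 := ch.org_eq_V hs h1
  subst h5
  rw [ch.org_zero] at h1
  have h6 := h.bd_simple _ _ h1
  subst h6
  refine ⟨by omega, rfl, ?_⟩
  rcases p with _ | ⟨d, _ | ⟨e, p⟩⟩
  · simp at hs
  · simp at hse; simp [hse]
  · simp at h3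

lemma rev_notMem (ch : m.PC j b p) (h : m.Pre) {d : ℕ} (hd : d ∈ p) : m.rev d ∉ p := by
  intro hm
  obtain ⟨t, ht, hte⟩ := List.getElem_of_mem hd
  obtain ⟨s, hs, hse⟩ := List.getElem_of_mem hm
  have h1 : m.org p[s] = m.org (m.rev p[t]) := by rw [hse, hte]
  have h2 : m.org (m.rev p[s]) = m.org p[t] := by rw [hse, hte, h.rev_rev]
  have h3 : s = t + 1 := by
    rcases Nat.lt_or_ge (t + 1) p.length with h4 | h4
    · rw [ch.org_rev_succ h4] at h1
      exact ch.org_inj hs h4 h1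
    · rw [ch.org_rev_last (by omega : t + 1 = p.length)] at h1
      have h5 := ch.org_eq_V hs h1
      subst h5
      rw [ch.org_zero] at h1
      exact absurd h1 (ch.V_ne h)
  subst h3
  rcases Nat.lt_or_ge (t + 1 + 1) p.length with h4 | h4
  · rw [ch.org_rev_succ h4] at h2
    have := ch.org_inj h4 ht h2
    omega
  · rw [ch.org_rev_last (by omega : t + 1 + 1 = p.length)] at h2
    have h5 := ch.org_eq_V ht h2.symm
    subst h5
    rw [ch.org_zero] at h2
    exact ch.V_ne h h2.symm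

end PC

/-- the trivial chord -/
def Trivial (m : PMap) (j : ℤ) (b : ℕ) (p : List ℕ) : Prop := b = 1 ∧ p = [m.bd j]

lemma mem_cyc {j : ℤ} {b : ℕ} {p : List ℕ} {d : ℕ} :
    d ∈ m.cyc j b p ↔ (∃ t < b, m.bd (j + t) = d) ∨ ∃ e ∈ p, m.rev e = d := by
  simp [cyc]

namespace PC

variable {j : ℤ} {b : ℕ} {p : List ℕ}

lemma rev_notMem_cyc (ch : m.PC j b p) (h : m.Pre) (hnt : ¬ Trivial m j b p) {d : ℕ}
    (hd : d ∈ m.cyc j b p) : m.rev d ∉ m.cyc j b p := by
  intro hm
  rw [mem_cyc] at hd hm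
  rcases hd with ⟨t, ht, rfl⟩ | ⟨e, he, rfl⟩
  · rcases hm with ⟨t', ht', h1⟩ | ⟨e, he, h1⟩
    · exact h.rev_bd _ (h1 ▸ h.bd_mem _)
    · have h2 : m.bd (j + t) ∈ p := h.rev_inj h1 ▸ he
      obtain ⟨h3, -, h4⟩ := ch.bd_mem_path h h2
      exact hnt ⟨h3, h4⟩
  · rw [h.rev_rev] at hm
    rcases hm with ⟨t', ht', h1⟩ | ⟨e', he', h1⟩
    · have h2 : m.bd (j + t') ∈ p := h1 ▸ he
      obtain ⟨h3, -, h4⟩ := ch.bd_mem_path h h2
      exact hnt ⟨h3, h4⟩
    · exact ch.rev_notMem h he' (h1 ▸ he)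

end PC

namespace Chord

variable {j : ℤ} {b : ℕ} {p : List ℕ} {S : Finset ℕ}

lemma bdry' (ch : m.Chord j b p S) (h : m.Pre) (hnt : ¬ Trivial m j b p) (d : ℕ) :
    (d ∈ S ∧ m.rev d ∉ S) ↔ d ∈ m.cyc j b p := by
  rw [ch.bdry]
  exact ⟨fun h1 => h1.1, fun h1 => ⟨h1, ch.pc.rev_notMem_cyc h hnt h1⟩⟩

lemma tri (ch : m.Chord j b p S) : m.Tri (S : Set ℕ) := fun d hd => ch.closed d hd

lemma eq_empty (ch : m.Chord j b p S) (h : m.IsHalfPlane) (ht : Trivial m j b p) : S = ∅ := by
  have : (S : Set ℕ) = ∅ := by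
    refine h.eq_empty ch.tri S.finite_toSet ?_
    intro d hd _
    by_contra h1
    have h2 := (ch.bdry d).1 ⟨hd, h1⟩
    obtain ⟨rfl, rfl⟩ := ht
    rw [mem_cyc, mem_cyc] at h2
    obtain ⟨h3 | h3, h4⟩ := h2
    · obtain ⟨t, ht, rfl⟩ := h3
      obtain rfl : t = 0 := by omega
      apply h4
      right
      exact ⟨m.bd j, by simp, by simp⟩
    · obtain ⟨e, he, rfl⟩ := h3
      simp only [List.mem_singleton] at he
      subst he
      apply h4
      left
      exact ⟨0, by omega, by simp [h.rev_rev]⟩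
  exact_mod_cast this

lemma bd_notMem (ch : m.Chord j b p S) (h : m.Pre) {i : ℤ} (hi : i < j ∨ j + b ≤ i) :
    m.bd i ∉ S := by
  intro h1
  have h2 : m.rev (m.bd i) ∉ S := fun h3 => h.rev_bd i (ch.tri.subset h3)
  have h3 := ((ch.bdry _).1 ⟨h1, h2⟩).1
  rw [mem_cyc] at h3
  rcases h3 with ⟨t, ht, h4⟩ | ⟨e, he, h4⟩
  · have := h.bd_inj h4
    omega
  · apply ch.pc.rev_bd_notMem h i
    rw [← h4, h.rev_rev]; exact he

lemma path_mem (ch : m.Chord j b p S) (h : m.IsHalfPlane) {d : ℕ} (hd : d ∈ p) :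
    d ∈ m.In ∧ d ∉ S ∧ m.rev d ∉ m.In \ (S : Set ℕ) := by
  by_cases ht : Trivial m j b p
  · have hS := ch.eq_empty h ht
    obtain ⟨rfl, rfl⟩ := ht
    simp only [List.mem_singleton] at hd
    subst hd
    exact ⟨h.bd_mem _, by simp [hS], fun h1 => h.rev_bd _ h1.1⟩
  · have h1 : m.rev d ∈ m.cyc j b p := mem_cyc.2 (Or.inr ⟨d, hd, rfl⟩)
    have h2 := (ch.bdry' h.pre ht _).2 h1
    rw [h.rev_rev] at h2
    refine ⟨?_, h2.2, fun h3 => h3.2 h2.1⟩
    by_contra h3
    obtain ⟨i, hi⟩ := h.bd_surj (m.rev d) (ch.tri.subset h2.1) (by rwa [h.rev_rev])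
    apply ch.pc.rev_bd_notMem h.pre i
    rw [hi, h.rev_rev]; exact hd

end Chord

/-! ### the cut map -/

section cut

variable {j : ℤ} {b : ℕ} {p : List ℕ} {S : Set ℕ}

lemma cut_bd_lt {i : ℤ} (hi : i < j) : (m.cut j b p S).bd i = m.bd i := by simp [cut, hi]

lemma cut_bd_mid {s : ℕ} (hs : s < p.length) : (m.cut j b p S).bd (j + s) = p[s] := by
  have h1 : ¬ (j + (s : ℤ) < j) := by omega
  have h2 : j + (s : ℤ) < j + p.length := by omega
  simp only [cut, h1, h2, if_true, if_false]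
  rw [show (j + (s : ℤ) - j).toNat = s by omega]
  exact (List.getElem_eq_getD _).symm

lemma cut_bd_ge {i : ℤ} (hi : j + p.length ≤ i) :
    (m.cut j b p S).bd i = m.bd (i - p.length + b) := by
  have h1 : ¬ (i < j) := by omega
  have h2 : ¬ (i < j + p.length) := by omega
  simp only [cut, h1, h2, if_false]

/-- three cases for an index -/
lemma cut_cases (j : ℤ) (n : ℕ) (i : ℤ) :
    i < j ∨ (∃ s, s < n ∧ i = j + s) ∨ j + n ≤ i := by
  by_cases h1 : i < j
  · exact Or.inl h1
  · by_cases h2 : i < j + n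
    · exact Or.inr (Or.inl ⟨(i - j).toNat, by omega, by omega⟩)
    · exact Or.inr (Or.inr (by omega))

@[simp] lemma cut_rev : (m.cut j b p S).rev = m.rev := rfl
@[simp] lemma cut_nxt : (m.cut j b p S).nxt = m.nxt := rfl
@[simp] lemma cut_org : (m.cut j b p S).org = m.org := rfl
@[simp] lemma cut_In : (m.cut j b p S).In = m.In \ S := rfl

end cut

namespace Chord

variable {j : ℤ} {b : ℕ} {p : List ℕ} {S : Finset ℕ}

lemma cut_V_le (ch : m.Chord j b p S) {i : ℤ} (hi : i ≤ j) : (m.cut j b p S).V i = m.V i := by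
  rcases lt_or_eq_of_le hi with h | rfl
  · simp [V, cut_bd_lt h]
  · have := cut_bd_mid (m := m) (j := i) (b := b) (S := (S : Set ℕ)) ch.pc.len_pos
    simp only [Nat.cast_zero, add_zero] at this
    rw [V, this, cut_org, ch.pc.org_zero]

lemma cut_V_mid (_ch : m.Chord j b p S) {s : ℕ} (hs : s < p.length) :
    (m.cut j b p S).V (j + s) = m.org p[s] := by
  rw [V, cut_bd_mid hs, cut_org]

lemma cut_V_ge (_ch : m.Chord j b p S) {i : ℤ} (hi : j + p.length ≤ i) :
    (m.cut j b p S).V i = m.V (i - p.length + b) := by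
  rw [V, cut_bd_ge hi]; rfl

lemma cut_bd_prop (ch : m.Chord j b p S) (h : m.IsHalfPlane) (i : ℤ) :
    (m.cut j b p S).bd i ∈ m.In ∧ (m.cut j b p S).bd i ∉ S ∧
      m.rev ((m.cut j b p S).bd i) ∉ m.In \ (S : Set ℕ) := by
  rcases cut_cases j p.length i with hi | ⟨s, hs, rfl⟩ | hi
  · rw [cut_bd_lt hi]
    exact ⟨h.bd_mem _, ch.bd_notMem h.pre (Or.inl hi), fun h1 => h.rev_bd _ h1.1⟩
  · rw [cut_bd_mid hs]
    exact ch.path_mem h (List.getElem_mem hs)
  · rw [cut_bd_ge hi]
    exact ⟨h.bd_mem _, ch.bd_notMem h.pre (Or.inr (by omega)), fun h1 => h.rev_bd _ h1.1⟩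

lemma cut_E_subset (m : PMap) (j : ℤ) (b : ℕ) (p : List ℕ) (S : Set ℕ) :
    (m.cut j b p S).E ⊆ m.E := by
  rintro d (hd | hd)
  · exact Or.inl hd.1
  · exact Or.inr hd.1

lemma pre_cut (ch : m.Chord j b p S) (h : m.IsHalfPlane) : (m.cut j b p S).Pre where
  rev_rev := h.rev_rev
  nxt_mem d hd := ⟨h.nxt_mem d hd.1, fun h' => hd.2 (ch.tri.mem_of_nxt h.pre hd.1 h')⟩
  nxt_nxt_nxt d hd := h.nxt_nxt_nxt d hd.1
  org_nxt d hd := h.org_nxt d hd.1
  no_loop d hd := h.no_loop d hd.1
  bd_mem i := ⟨(ch.cut_bd_prop h i).1, (ch.cut_bd_prop h i).2.1⟩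
  rev_bd i := (ch.cut_bd_prop h i).2.2
  bd_surj d hd hd' := by
    have hin : d ∈ m.In := hd.1
    have hout : d ∉ (S : Set ℕ) := hd.2
    by_cases h1 : m.rev d ∈ m.In
    · have h2 : m.rev d ∈ (S : Set ℕ) := by
        by_contra h3; exact hd' ⟨h1, h3⟩
      have h3 := ((ch.bdry (m.rev d)).1 ⟨h2, by rw [h.rev_rev]; exact hout⟩).1
      rw [mem_cyc] at h3
      rcases h3 with ⟨t, ht, h4⟩ | ⟨e, he, h4⟩
      · exfalso
        exact h.rev_bd (j + t) (by rw [h4, h.rev_rev]; exact hin)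
      · have h5 := h.pre.rev_inj h4
        subst h5
        obtain ⟨s, hs, hse⟩ := List.getElem_of_mem he
        exact ⟨j + s, by rw [cut_bd_mid hs, hse]⟩
    · obtain ⟨i, rfl⟩ := h.bd_surj d hin h1
      by_cases h2 : i < j
      · exact ⟨i, cut_bd_lt h2⟩
      · by_cases h3 : j + b ≤ i
        · refine ⟨i - b + p.length, ?_⟩
          rw [cut_bd_ge (by omega)]
          congr 1
          omega
        · by_cases ht : Trivial m j b p
          · obtain ⟨h4, h5⟩ := ht
            have : i = j := by omega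
            subst this
            refine ⟨i, ?_⟩
            have := cut_bd_mid (m := m) (j := i) (b := b) (S := (S : Set ℕ)) ch.pc.len_pos
            simp only [Nat.cast_zero, add_zero] at this
            rw [this]; simp [h5]
          · exfalso
            apply hout
            refine ((ch.bdry' h.pre ht _).2 (mem_cyc.2 (Or.inl ⟨(i - j).toNat, by omega, ?_⟩))).1
            congr 1; omega
  org_rev_bd i := by
    simp only [cut_rev, cut_org]
    rcases cut_cases j p.length i with hi | ⟨s, hs, rfl⟩ | hi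
    · rw [cut_bd_lt hi, h.org_rev_bd]
      exact (ch.cut_V_le (i := i + 1) (by omega)).symm
    · rw [cut_bd_mid hs]
      rcases Nat.lt_or_ge (s + 1) p.length with h1 | h1
      · rw [ch.pc.org_rev_succ h1]
        rw [show (j : ℤ) + s + 1 = j + ((s + 1 : ℕ) : ℤ) by push_cast; ring, cut_bd_mid h1]
      · have h2 : s + 1 = p.length := by omega
        rw [ch.pc.org_rev_last h2]
        rw [cut_bd_ge (by omega), V]
        congr 2
        omega
    · rw [cut_bd_ge hi, cut_bd_ge (by omega), h.org_rev_bd]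
      congr 2
      ring
  bd_simple i k hik := by
    change (m.cut j b p S).V i = (m.cut j b p S).V k at hik
    have key : ∀ i k : ℤ, i ≤ k → (m.cut j b p S).V i = (m.cut j b p S).V k → i = k := by
      intro i k hle hik
      have hVV : ∀ a c : ℤ, m.V a = m.V c → a = c := fun a c hac => h.bd_simple a c hac
      by_cases hi : i ≤ j
      · rw [ch.cut_V_le hi] at hik
        by_cases hk : k ≤ j
        · rw [ch.cut_V_le hk] at hik; exact hVV _ _ hik
        · rcases cut_cases j p.length k with hk' | ⟨s, hs, rfl⟩ | hk'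
          · omega
          · rw [ch.cut_V_mid hs] at hik
            have := ch.pc.org_eq_V hs hik.symm
            omega
          · rw [ch.cut_V_ge hk'] at hik
            have := hVV _ _ hik
            have := ch.pos
            omega
      · rcases cut_cases j p.length i with hi' | ⟨s, hs, rfl⟩ | hi'
        · omega
        · rw [ch.cut_V_mid hs] at hik
          rcases cut_cases j p.length k with hk' | ⟨t, ht, rfl⟩ | hk'
          · omega
          · rw [ch.cut_V_mid ht] at hik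
            rw [ch.pc.org_inj hs ht hik]
          · rw [ch.cut_V_ge hk'] at hik
            have := ch.pc.org_eq_V hs hik
            omega
        · rw [ch.cut_V_ge hi', ch.cut_V_ge (by omega)] at hik
          have := hVV _ _ hik
          omega
    rcases le_total i k with h1 | h1
    · exact key i k h1 hik
    · exact (key k i h1 hik.symm).symm
  fin x := (h.fin x).subset (fun d hd => ⟨cut_E_subset _ _ _ _ _ hd.1, hd.2⟩)

end Chord

namespace PC

variable {j : ℤ} {b : ℕ} {p : List ℕ}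

lemma path_base (h : m.Pre) (j : ℤ) (b : ℕ) :
    m.Path (m.V j) ((List.range b).map (fun i : ℕ => m.bd (j + i))) (m.V (j + b)) := by
  induction b with
  | zero => simp [Path]
  | succ b ih =>
    rw [List.range_succ, List.map_append, List.map_singleton, path_append]
    refine ⟨_, ih, ?_⟩
    rw [path_singleton]
    refine ⟨mem_E_of_mem (h.bd_mem _), rfl, ?_⟩
    rw [h.org_rev_bd]
    rw [V]; congr 2; push_cast; ring

lemma path_cyc (ch : m.PC j b p) (h : m.Pre) : m.Path (m.V j) (m.cyc j b p) (m.V j) := by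
  rw [cyc, path_append]
  exact ⟨_, path_base h j b, path_reverse h ch.path⟩

lemma cyc_ne_nil (ch : m.PC j b p) : m.cyc j b p ≠ [] := by
  have := ch.pos
  have h1 : (m.cyc j b p).length = b + p.length := by simp [cyc]
  intro h2
  rw [h2] at h1
  simp at h1
  omega

lemma nodup_cyc (ch : m.PC j b p) (h : m.Pre) : ((m.cyc j b p).map m.org).Nodup := by
  rw [cyc, List.map_append, List.nodup_append]
  have htg := ch.path.targets ch.ne_nil
  refine ⟨?_, ?_, ?_⟩
  · rw [List.map_map]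
    refine List.Nodup.map_on ?_ List.nodup_range
    intro s _ t _ hst
    have := h.bd_simple _ _ hst
    omega
  · rw [List.map_map, List.map_reverse, List.nodup_reverse]
    show (p.map (fun d => m.org (m.rev d))).Nodup
    rw [htg, List.nodup_append]
    refine ⟨ch.simple, by simp, ?_⟩
    intro a ha c hc
    simp only [List.mem_singleton] at hc
    obtain ⟨e, he, rfl⟩ := List.mem_map.1 ha
    rw [hc]
    exact ch.inside e he _
  · intro a ha c hc
    simp only [List.map_map, List.mem_map, List.mem_range, Function.comp] at ha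
    obtain ⟨t, ht, rfl⟩ := ha
    have hc' : c ∈ p.map (fun d => m.org (m.rev d)) := by
      simpa [List.mem_map] using hc
    rw [htg, List.mem_append] at hc'
    rcases hc' with hc' | hc'
    · obtain ⟨e, he, rfl⟩ := List.mem_map.1 hc'
      exact fun h1 => ch.inside e he _ h1.symm
    · simp only [List.mem_singleton] at hc'
      rw [hc']
      intro h1
      have := h.bd_simple _ _ h1
      omega

end PC

namespace Chord

variable {j : ℤ} {b : ℕ} {p : List ℕ} {S : Finset ℕ}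

lemma toBd (ch : m.Chord j b p S) (h : m.IsHalfPlane) (hnt : ¬ Trivial m j b p) :
    m.Bd (S : Set ℕ) (m.V j) (m.cyc j b p) where
  tri := ch.tri
  fin := S.finite_toSet
  path := ch.pc.path_cyc h.pre
  ne_nil := ch.pc.cyc_ne_nil
  nodup := ch.pc.nodup_cyc h.pre
  bdry d := ch.bdry' h.pre hnt d

/-- the darts of the base segment are enclosed -/
lemma base_mem (ch : m.Chord j b p S) (h : m.IsHalfPlane) (hnt : ¬ Trivial m j b p) {i : ℤ}
    (hi : j ≤ i) (hi' : i < j + b) : m.bd i ∈ S :=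
  ((ch.bdry' h.pre hnt _).2 (mem_cyc.2 (Or.inl ⟨(i - j).toNat, by omega, by congr 1; omega⟩))).1

lemma cut_tri {T : Set ℕ} : (m.cut j b p S).Tri T ↔ m.Tri T ∧ ∀ d ∈ T, d ∉ S := by
  constructor
  · intro h1
    exact ⟨fun d hd => ⟨(h1 d hd).1.1, (h1 d hd).2⟩, fun d hd => (h1 d hd).1.2⟩
  · intro h1 d hd
    exact ⟨⟨(h1.1 d hd).1, h1.2 d hd⟩, (h1.1 d hd).2⟩

/-- **Cutting along a chord gives a half-planar triangulation.** -/
theorem isHalfPlane_cut (ch : m.Chord j b p S) (h : m.IsHalfPlane) :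
    (m.cut j b p S).IsHalfPlane := by
  have hp := ch.pre_cut h
  have hpathE : ∀ {x y : ℕ} {c : List ℕ}, (m.cut j b p S).Path x c y → m.Path x c y := by
    intro x y c
    induction c generalizing x with
    | nil => exact id
    | cons d c ih => exact fun h1 => ⟨cut_E_subset _ _ _ _ _ h1.1, h1.2.1, ih h1.2.2⟩
  refine ⟨hp.rev_rev, hp.nxt_mem, hp.nxt_nxt_nxt, hp.org_nxt, hp.no_loop, hp.bd_mem, hp.rev_bd,
    hp.bd_surj, hp.org_rev_bd, hp.bd_simple, hp.fin, ?_, ?_, ?_⟩
  · -- fan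
    set m' := m.cut j b p S with hm'
    have hA : ∀ d ∈ m'.E, (∀ n, m'.rot^[n] d ∈ m'.In) → ∀ e ∈ m'.E, m.org d = m.org e →
        ∃ n, m'.rot^[n] d = e := by
      intro d hd hall e he hde
      obtain ⟨n, hn⟩ := h.exists_rot (cut_E_subset _ _ _ _ _ hd) (cut_E_subset _ _ _ _ _ he) hde
      refine ⟨n, ?_⟩
      rw [← hn]
      have : ∀ n, m'.rot^[n] d = m.rot^[n] d := by
        intro n
        induction n with
        | zero => rfl
        | succ n ih =>
          rw [Function.iterate_succ_apply', Function.iterate_succ_apply', ← ih,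
            rot_of_mem (hall n), rot_of_mem (hall n).1]
          rfl
      exact this n
    intro d hd e he hde
    rw [hp.reflTransGen_iff hd]
    by_cases h1 : ∀ n, m'.rot^[n] d ∈ m'.In
    · exact hA d hd h1 e he hde
    by_cases h2 : ∀ n, m'.rot^[n] e ∈ m'.In
    · obtain ⟨n, hn⟩ := hA e he h2 d hd hde.symm
      obtain ⟨k, hk⟩ := hp.rot_symm he n
      rw [hn] at hk
      exact ⟨k, hk⟩
    push Not at h1 h2
    obtain ⟨a, ha⟩ := h1
    obtain ⟨c, hc⟩ := h2
    have ha' := hp.rot_iter_maps (x := m'.org d) ⟨hd, rfl⟩ a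
    have hc' := hp.rot_iter_maps (x := m'.org e) ⟨he, rfl⟩ c
    obtain ⟨i, hi⟩ := hp.exists_of_not_mem ha'.1 ha
    obtain ⟨k, hk⟩ := hp.exists_of_not_mem hc'.1 hc
    have hik : i = k := by
      have h3 : m'.org (m'.rev (m'.bd i)) = m'.org (m'.rev (m'.bd k)) := by
        rw [← hi, ← hk, ha'.2, hc'.2]; exact hde
      rw [hp.org_rev_bd, hp.org_rev_bd] at h3
      have := hp.bd_simple _ _ h3
      omega
    obtain ⟨k', hk'⟩ := hp.rot_symm he c
    refine ⟨k' + a, ?_⟩
    rw [Function.iterate_add_apply, hi, hik, ← hk, hk']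
  · -- conn
    intro T hTin hne hnx hcl
    set m' := m.cut j b p S with hm'
    have hT : m'.Tri T := fun d hd => ⟨hTin hd, hnx d hd⟩
    have key : ∀ T : Set ℕ, m'.Tri T → T.Nonempty → (∀ d ∈ T, m.rev d ∈ m'.In → m.rev d ∈ T) →
        (∀ k, m'.bd k ∉ T) → T = m.In := by
      intro T hT hne hcl hbd
      refine h.conn T (fun d hd => (hT.subset hd).1) hne (fun d hd => hT.nxt_mem hd) ?_
      intro d hd hd'
      by_cases h1 : m.rev d ∈ m'.In
      · exact hcl d hd h1
      · exfalso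
        obtain ⟨i, hi⟩ := hp.bd_surj d (hT.subset hd) h1
        exact hbd i (hi ▸ hd)
    by_cases hex : ∃ k, m'.bd k ∈ T
    · obtain ⟨k, hk⟩ := hex
      have hall := hp.bd_all hT hcl k hk
      by_contra hneq
      have hT2 : m'.Tri (m'.In \ T) := by
        intro d hd
        exact ⟨hd.1, hp.nxt_mem _ hd.1, fun h' => hd.2 (hT.mem_of_nxt hp hd.1 h')⟩
      have hcl2 : ∀ d ∈ m'.In \ T, m.rev d ∈ m'.In → m.rev d ∈ m'.In \ T := by
        intro d hd hd'
        refine ⟨hd', fun h' => hd.2 ?_⟩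
        have h1 : m.rev (m.rev d) ∈ T :=
          hcl _ h' (by show m.rev (m.rev d) ∈ m'.In; rw [h.rev_rev]; exact hd.1)
        rwa [h.rev_rev] at h1
      have hne2 : (m'.In \ T).Nonempty := by
        rw [Set.nonempty_iff_ne_empty]
        intro h3
        exact hneq (Set.Subset.antisymm hTin (Set.sdiff_eq_empty.1 h3))
      have h4 := key _ hT2 hne2 hcl2 (fun k hk => hk.2 (hall k))
      obtain ⟨d, hd⟩ := hne
      have h5 : d ∈ m'.In \ T := h4 ▸ (hTin hd).1
      exact h5.2 hd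
    · push Not at hex
      have h4 := key T hT hne hcl hex
      refine Set.Subset.antisymm hTin ?_
      rw [h4]
      exact fun d hd => hd.1
  · -- jordan
    intro x c hc hne hnd hnt
    obtain ⟨Sc, hSc, hbd⟩ := h.jordan x c (hpathE hc) hne hnd hnt
    have hcE := hc.mem_E
    have hedge : ∀ d, d ∈ Sc → m.rev d ∉ Sc → (d ∈ c ∨ m.rev d ∈ c) := by
      intro d hd hd'
      rcases hbd with h1 | h1
      · exact Or.inl ((h1 d).1 ⟨hd, hd'⟩)
      · exact Or.inr ((h1 d).1 ⟨hd, hd'⟩)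
    have hdis : (Sc : Set ℕ) ∩ S = ∅ := by
      by_cases ht : Trivial m j b p
      · rw [ch.eq_empty h ht]; simp
      by_contra hne'
      have hT : m.Tri ((Sc : Set ℕ) ∩ S) := Tri.inter hSc ch.tri
      have hEq := h.inConn (ch.toBd h ht) hT Set.inter_subset_right
        (Set.nonempty_iff_ne_empty.2 hne') (by
          intro d hd hd'
          refine ⟨?_, hd'⟩
          by_contra h3
          rcases hedge d hd.1 h3 with h4 | h4
          · rcases hcE d h4 with h5 | h5
            · exact h5.2 hd.2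
            · exact h5.2 hd'
          · rcases hcE _ h4 with h5 | h5
            · exact h5.2 hd'
            · refine h5.2 ?_
              simp only [cut_rev]
              rw [h.rev_rev]; exact hd.2)
      have hj : m.bd j ∈ S := ch.base_mem h ht le_rfl (by have := ch.pos; omega)
      have hj2 : m.bd j ∈ (Sc : Set ℕ) ∩ S := by rw [hEq]; exact hj
      have h3 : m.rev (m.bd j) ∉ Sc := fun h4 => h.rev_bd j (hSc _ h4).1
      rcases hedge _ hj2.1 h3 with h4 | h4
      · rcases hcE _ h4 with h5 | h5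
        · exact h5.2 hj
        · exact h.rev_bd j h5.1
      · rcases hcE _ h4 with h5 | h5
        · exact h.rev_bd j h5.1
        · refine h5.2 ?_
          simp only [cut_rev]
          rw [h.rev_rev]; exact hj
    refine ⟨Sc, ?_, hbd⟩
    intro d hd
    refine ⟨⟨(hSc d hd).1, ?_⟩, (hSc d hd).2⟩
    intro h1
    have : d ∈ (Sc : Set ℕ) ∩ S := ⟨hd, h1⟩
    rw [hdis] at this
    exact this

end Chord

end PMap

end Pool.Agent.Helper97.Speed
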