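import Mathlib

/-!
# Half-planar triangulations as combinatorial maps

Darts (oriented edges) and vertices are labelled by natural numbers.  A map consists of
* `rev`  : reversal of darts,
* `nxt`  : the next dart around the triangle lying on the left of a dart,
* `org`  : origin of a dart,
* `In`   : the set of darts having a triangle of the map on their left,
* `bd`   : the bi-infinite boundary, as darts with the external face on their right.
-/

namespace Pool.Agent.Helper97.Speed

open MeasureTheory Filter Topology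

/-- Raw data of a (triangulated) map with a bi-infinite boundary. -/
structure PMap where
  rev : ℕ → ℕ
  nxt : ℕ → ℕ
  org : ℕ → ℕ
  In : Set ℕ
  bd : ℤ → ℕ

namespace PMap

variable (m : PMap)

/-- The darts of the map: those with a triangle on their left or on their right. -/
def E : Set ℕ := {d | d ∈ m.In ∨ m.rev d ∈ m.In}

/-- `m.Path x p y`: the list of darts `p` is a path from the vertex `x` to the vertex `y`. -/
def Path : ℕ → List ℕ → ℕ → Prop
  | x, [], y => x = y
  | x, d :: p, y => d ∈ m.E ∧ m.org d = x ∧ Path (m.org (m.rev d)) p y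

/-- Number of darts with origin `x`. -/
noncomputable def deg (x : ℕ) : ℕ := {d | d ∈ m.E ∧ m.org d = x}.ncard

/-- Graph distance. -/
noncomputable def dist (x y : ℕ) : ℕ := sInf {n | ∃ p, m.Path x p y ∧ p.length = n}

/-- `e` is the dart following `d` counterclockwise around their common origin: either they bound a
common triangle, or they bound the external face. -/
def Turn (d e : ℕ) : Prop :=
  (d ∈ m.In ∧ e = m.rev (m.nxt (m.nxt d))) ∨ ∃ i, d = m.rev (m.bd i) ∧ e = m.bd (i + 1)

/-- A half-planar triangulation (multiple edges allowed, no loops). -/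
structure IsHalfPlane : Prop where
  /-- `rev` is an involution -/
  rev_rev : ∀ d, m.rev (m.rev d) = d
  /-- every face is a triangle -/
  nxt_mem : ∀ d ∈ m.In, m.nxt d ∈ m.In
  nxt_nxt_nxt : ∀ d ∈ m.In, m.nxt (m.nxt (m.nxt d)) = d
  org_nxt : ∀ d ∈ m.In, m.org (m.nxt d) = m.org (m.rev d)
  /-- no loops -/
  no_loop : ∀ d ∈ m.In, m.org (m.rev d) ≠ m.org d
  /-- the external face: its darts are exactly the reversals of the boundary darts -/
  bd_mem : ∀ i, m.bd i ∈ m.In
  rev_bd : ∀ i, m.rev (m.bd i) ∉ m.In
  bd_surj : ∀ d ∈ m.In, m.rev d ∉ m.In → ∃ i, m.bd i = d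
  /-- the boundary is a bi-infinite simple path -/
  org_rev_bd : ∀ i, m.org (m.rev (m.bd i)) = m.org (m.bd (i + 1))
  bd_simple : ∀ i j, m.org (m.bd i) = m.org (m.bd j) → i = j
  /-- locally finite -/
  fin : ∀ x, {d | d ∈ m.E ∧ m.org d = x}.Finite
  /-- the darts around a vertex form one cycle (the map is a surface) -/
  fan : ∀ d ∈ m.E, ∀ e ∈ m.E, m.org d = m.org e → Relation.ReflTransGen m.Turn d e
  /-- connected -/
  conn : ∀ T : Set ℕ, T ⊆ m.In → T.Nonempty → (∀ d ∈ T, m.nxt d ∈ T) →
    (∀ d ∈ T, m.rev d ∈ m.In → m.rev d ∈ T) → T = m.In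
  /-- planar and one-ended: every simple cycle `c` of edges encloses a finite set of triangles.
  `S` is the set of darts of these triangles; `c`, or the reversed cycle, consists exactly of the
  darts of `S` whose reversal is not in `S`. -/
  jordan : ∀ x c, m.Path x c x → c ≠ [] → (c.map m.org).Nodup → (∀ d, c ≠ [d, m.rev d]) →
    ∃ S : Finset ℕ, (∀ d ∈ S, d ∈ m.In ∧ m.nxt d ∈ S) ∧
      ((∀ d, (d ∈ S ∧ m.rev d ∉ S) ↔ d ∈ c) ∨ (∀ d, (d ∈ S ∧ m.rev d ∉ S) ↔ m.rev d ∈ c))

/-- Moving the root along the boundary. -/
def shift (k : ℤ) : PMap := { m with bd := fun i => m.bd (i + k) }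

end PMap

/-- Rooted half-planar triangulations; the root dart is `bd 0`. -/
def HalfPlane : Type := {m : PMap // m.IsHalfPlane}

/-- Codes of rooted triangulated polygons with simple boundary (Tutte's root-face decomposition).
* `edge`: the degenerate 2-gon, whose two sides are glued together;
* `inner Q`: the triangle at the root edge has its third vertex inside the polygon; removing it
  leaves the polygon `Q`;
* `split Q₁ Q₂`: the triangle at the root edge has its third vertex on the boundary of the polygon;
  removing it leaves the polygons `Q₁` and `Q₂`. -/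
inductive Disc : Type
  | edge : Disc
  | inner : Disc → Disc
  | split : Disc → Disc → Disc

namespace Disc

/-- Perimeter. -/
def per : Disc → ℕ
  | edge => 2
  | inner Q => Q.per - 1
  | split Q₁ Q₂ => Q₁.per + Q₂.per - 1

/-- Number of inner vertices. -/
def inn : Disc → ℕ
  | edge => 0
  | inner Q => Q.inn + 1
  | split Q₁ Q₂ => Q₁.inn + Q₂.inn

/-- Number of faces. -/
def faces : Disc → ℕ
  | edge => 0
  | inner Q => Q.faces + 1
  | split Q₁ Q₂ => Q₁.faces + Q₂.faces + 1

/-- Well-formedness. -/
def WF : Disc → Prop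
  | edge => True
  | inner Q => 3 ≤ Q.per ∧ Q.WF
  | split Q₁ Q₂ => Q₁.WF ∧ Q₂.WF

end Disc

namespace PMap

variable (m : PMap)

/-- `m.Fills Q c`: the triangulated polygon with code `Q` fills the closed path of darts `c` of the
map `m` (on the left of `c`), the root edge of `Q` being the first dart of `c`. -/
def Fills : Disc → List ℕ → Prop
  | .edge, c => ∃ d, c = [d, m.rev d]
  | .inner Q, c => ∃ d t, c = d :: t ∧ d ∈ m.In ∧ m.org (m.nxt (m.nxt d)) ∉ c.map m.org ∧
      Fills Q (m.rev (m.nxt (m.nxt d)) :: m.rev (m.nxt d) :: t)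
  | .split Q₁ Q₂, c => ∃ d t₁ t₂, c = d :: (t₁ ++ t₂) ∧ d ∈ m.In ∧
      Fills Q₁ (m.rev (m.nxt d) :: t₁) ∧ Fills Q₂ (m.rev (m.nxt (m.nxt d)) :: t₂)

/-- The closed path made of the `b` boundary darts starting at position `j`, followed by the
reversal of the path `p`. -/
def cyc (j : ℤ) (b : ℕ) (p : List ℕ) : List ℕ :=
  (List.range b).map (fun i : ℕ => m.bd (j + i)) ++ p.reverse.map m.rev

/-- `m.Chord j b p S`: `p` is a simple path of `m` from the boundary vertex `j` to the boundary
vertex `j + b`, which does not meet the boundary in between, and `S` is the set of darts of the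
triangles enclosed by the boundary segment and `p`. -/
structure Chord (j : ℤ) (b : ℕ) (p : List ℕ) (S : Finset ℕ) : Prop where
  pos : 0 < b
  ne_nil : p ≠ []
  path : m.Path (m.org (m.bd j)) p (m.org (m.bd (j + b)))
  simple : (p.tail.map m.org).Nodup
  inside : ∀ d ∈ p.tail, ∀ i, m.org d ≠ m.org (m.bd i)
  closed : ∀ d ∈ S, d ∈ m.In ∧ m.nxt d ∈ S
  bdry : ∀ d, (d ∈ S ∧ m.rev d ∉ S) ↔ (d ∈ m.cyc j b p ∧ m.rev d ∉ m.cyc j b p)

/-- The map obtained by removing the triangles in `S`; the `b` boundary darts starting at position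
`j` are replaced by the path `p`. -/
def cut (j : ℤ) (b : ℕ) (p : List ℕ) (S : Set ℕ) : PMap where
  rev := m.rev
  nxt := m.nxt
  org := m.org
  In := m.In \ S
  bd i := if i < j then m.bd i else if i < j + p.length then p.getD (i - j).toNat 0
    else m.bd (i - p.length + b)

/-- `m.Sub l a b n Q m'`: the triangulated polygon with code `Q` is a sub-map of `m`, which meets
the boundary of `m` exactly in the segment from the boundary vertex `l - a` to the boundary vertex
`l + 1 + b`, its root edge being the boundary edge `l`, and having `n` edges outside this segment;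
`m'` is the remaining map. -/
def Sub (l : ℤ) (a b n : ℕ) (Q : Disc) (m' : PMap) : Prop :=
  ∃ p S, m.Chord (l - a) (a + 1 + b) p S ∧ p.length = n ∧
    m.Fills Q ((m.cyc (l - a) (a + 1 + b) p).rotate a) ∧ m' = m.cut (l - a) (a + 1 + b) p S

end PMap

/-- The event that the polygon `Q` is a sub-map, see `PMap.Sub`. -/
def Has (l : ℤ) (a b n : ℕ) (Q : Disc) : Set HalfPlane :=
  {h | ∃ m', h.1.Sub l a b n Q m'}

/-- The local σ-algebra: it is generated by the events `Has l a b n Q`. -/
instance : MeasurableSpace HalfPlane :=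
  MeasurableSpace.generateFrom {A | ∃ l a b n Q, A = Has l a b n Q}

/-- The law `ℍ_α`.  A probability measure on rooted half-planar triangulations, which is
translation invariant, and such that for every triangulated polygon `Q` with a marked boundary
segment, the probability that `Q` is a sub-map meeting the boundary exactly in the marked segment is
`α ^ V * β ^ (F - V)`, where `V` is the number of vertices of `Q` not in the boundary of the map,
`F` the number of faces of `Q`, `β = α (1 - α) / 2`; moreover, conditionally on this event, the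
remaining map has again the same law (domain Markov property). -/
structure IsHalfPlaneLaw (α : ℝ) (P : Measure HalfPlane) : Prop where
  prob : IsProbabilityMeasure P
  translation : ∀ A : Set HalfPlane, MeasurableSet A →
    P {h | ∃ h' ∈ A, h'.1 = h.1.shift 1} = P A
  markov : ∀ (l : ℤ) (a b n : ℕ) (Q : Disc), 0 < n → Q.WF → Q.per = a + 1 + b + n →
    ∀ A : Set HalfPlane, MeasurableSet A →
      P {h | ∃ h' ∈ A, h.1.Sub l a b n Q h'.1} =
        ENNReal.ofReal (α ^ (Q.inn + (n - 1)) *
          (α * (1 - α) / 2) ^ (Q.faces - (Q.inn + (n - 1)))) * P A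

/-- `μ` is the law of simple random walk on `m` started at the vertex `x₀`. -/
structure IsSRW (m : PMap) (x₀ : ℕ) (μ : Measure (ℕ → ℕ)) : Prop where
  start : μ {x | x 0 = x₀} = 1
  step : ∀ (n : ℕ) (y : ℕ → ℕ), μ {x | ∀ i ≤ n + 1, x i = y i} =
    μ {x | ∀ i ≤ n, x i = y i} *
      (({d | d ∈ m.E ∧ m.org d = y n ∧ m.org (m.rev d) = y (n + 1)}.ncard : ENNReal) /
        (m.deg (y n) : ENNReal))

/-- The statement: the speed of simple random walk exists and is deterministic. -/
def SpeedExists (α : ℝ) : Prop :=
  ∀ P : Measure HalfPlane, IsHalfPlaneLaw α P → ∃ s : ℝ, ∀ᵐ h ∂P,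
    ∀ μ : Measure (ℕ → ℕ), IsProbabilityMeasure μ → IsSRW h.1 (h.1.org (h.1.bd 0)) μ →
      ∀ᵐ x ∂μ, Tendsto (fun n : ℕ => (h.1.dist (h.1.org (h.1.bd 0)) (x n) : ℝ) / n) atTop (𝓝 s)

end Pool.Agent.Helper97.Speed
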