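import Pool.Agent.Helper97.Speed.Renew
import Pool.Agent.Helper41.Speed.EscapeFinal
import Pool.Agent.Helper30.Speed.Dist
import Pool.Agent.Helper18.Speed.RegenAbs

/-! # Assembly, first part: the normalised law seen from a regeneration time -/

namespace Pool.Agent.Helper97.Speed

open MeasureTheory PMap Filter Topology
open scoped ENNReal

section

variable {α : ℝ} {P : Measure HalfPlane}

instance law_prob [IsProbabilityMeasure P] (w : List ℕ) : IsProbabilityMeasure (law P w) := by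
  unfold law; infer_instance

lemma lam_ne_zero (h1 : 2 / 3 < α) (h2 : α < 1) (hP : IsHalfPlaneLaw α P) :
    lam P Set.univ ≠ 0 := by
  have := hP.prob
  intro h0
  apply escape h1 h2 hP
  rw [lam_apply MeasurableSet.univ] at h0
  have h3 : ∫⁻ h : HalfPlane, 2⁻¹ * ports (h.1.dg (h.1.bd 0))
      {a | ∀ i, 1 ≤ i → ¬ h.1.OnBd (h.1.pos (h.1.bd 0) a i)} ∂P ≤ 0 := by
    rw [← h0]
    refine lintegral_mono fun h => ?_
    have h4 : Prod.mk h ⁻¹' (Away ∩ Set.univ) =
        {a | ∀ i, 1 ≤ i → ¬ h.1.OnBd (h.1.pos (h.1.bd 0) a i)} := by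
      rw [Set.inter_univ]; rfl
    show _ ≤ dgr h * ports (h.1.dg (h.1.bd 0)) (Prod.mk h ⁻¹' (Away ∩ Set.univ))
    rw [h4]
    gcongr
    exact half_le_dgr h
  rw [lintegral_const_mul' _ _ (by simp)] at h3
  rcases mul_eq_zero.1 (le_antisymm h3 bot_le) with h4 | h4
  · simp at h4
  · exact h4

lemma lam_le_one (hP : IsHalfPlaneLaw α P) : lam P Set.univ ≤ 1 := by
  have := hP.prob
  refine (Measure.restrict_apply_le _ _).trans ?_
  rw [withDensity_apply _ MeasurableSet.univ, Measure.restrict_univ]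
  calc ∫⁻ p, dgr p.1 ∂law P [] ≤ ∫⁻ _, 1 ∂law P [] := lintegral_mono fun p => dgr_le_one p.1
    _ = 1 := by simp

lemma lam_ne_top (hP : IsHalfPlaneLaw α P) : lam P Set.univ ≠ ⊤ :=
  ((lam_le_one hP).trans_lt ENNReal.one_lt_top).ne

/-- the law seen from a regeneration time -/
noncomputable def nu (P : Measure HalfPlane) : Measure (HalfPlane × (ℕ → ℕ)) :=
  (lam P Set.univ)⁻¹ • lam P

lemma nu_apply (P : Measure HalfPlane) (B : Set (HalfPlane × (ℕ → ℕ))) :
    nu P B = (lam P Set.univ)⁻¹ * lam P B := rfl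

lemma nu_prob (h1 : 2 / 3 < α) (h2 : α < 1) (hP : IsHalfPlaneLaw α P) :
    IsProbabilityMeasure (nu P) := by
  constructor
  rw [nu_apply, ENNReal.inv_mul_cancel (lam_ne_zero h1 h2 hP) (lam_ne_top hP)]

variable {k : ℕ} {w : List ℕ}

/-- renewal identity at the first regeneration time -/
theorem renew_first (h1 : 2 / 3 < α) (h2 : α < 1) (hP : IsHalfPlaneLaw α P) (hw : w.length ≤ k)
    {ψ : HalfPlane × (ℕ → ℕ) → ℝ≥0∞}
    (hψ : ∀ n, 1 ≤ n → ∃ φ : HalfPlane × (ℕ → ℕ) → ℝ≥0∞,
      (∀ p q, PastEq k w n p q → φ q = φ p) ∧ ∀ p ∈ RegT k w n, ψ p = φ p)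
    (n : ℕ) (hn : 1 ≤ n) {B : Set (HalfPlane × (ℕ → ℕ))} (hB : MeasurableSet B) :
    (law P w).withDensity ψ
        ({p | p ∈ RegT k w n ∧ ∀ j, 1 ≤ j → j < n → p ∉ RegT k w j} ∩ Sft hw n ⁻¹' B) =
      (law P w).withDensity ψ {p | p ∈ RegT k w n ∧ ∀ j, 1 ≤ j → j < n → p ∉ RegT k w j} *
        nu P B := by
  classical
  have := hP.prob
  obtain ⟨φ, hφ, hψφ⟩ := hψ n hn
  set F := {p | p ∈ RegT k w n ∧ ∀ j, 1 ≤ j → j < n → p ∉ RegT k w j} with hF
  have hFm : MeasurableSet F := RegenAux.measurableSet_Fst (regT_measurable hw) n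
  set W : Set (HalfPlane × (ℕ → ℕ)) := {p | ∀ j, 1 ≤ j → j < n → p ∉ Wk k w j n} with hW
  have hφ' : ∀ p q, PastEq k w n p q → W.indicator φ q = W.indicator φ p := by
    intro p q h
    have h3 : q ∈ W ↔ p ∈ W := by
      constructor
      · intro h4 j hj hj' h5
        exact h4 j hj hj' ((h.wk hw hj').2 h5)
      · intro h4 j hj hj' h5
        exact h4 j hj hj' ((h.wk hw hj').1 h5)
    by_cases hp : p ∈ W
    · rw [Set.indicator_of_mem hp, Set.indicator_of_mem (h3.2 hp), hφ p q h]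
    · rw [Set.indicator_of_notMem hp, Set.indicator_of_notMem fun h' => hp (h3.1 h')]
  have key : ∀ B : Set (HalfPlane × (ℕ → ℕ)), MeasurableSet B →
      (law P w).withDensity ψ (F ∩ Sft hw n ⁻¹' B) =
        (∫⁻ p in {p | Candi k w n p}, W.indicator φ p ∂law P w) * lam P B := by
    intro B hB
    have hSB := measurable_Sft hw n hB
    rw [← renew hP hw n hφ' hB, withDensity_apply _ (hFm.inter hSB),
      ← lintegral_indicator (hFm.inter hSB),
      ← lintegral_indicator ((regT_measurable hw n).inter hSB)]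
    refine lintegral_congr fun p => ?_
    by_cases hp : p ∈ RegT k w n ∩ Sft hw n ⁻¹' B
    · rw [Set.indicator_of_mem hp]
      by_cases hpF : p ∈ F
      · have hpW : p ∈ W := fun j hj hj' h5 => hpF.2 j hj hj' ((regT_iff_wk hw hj' hp.1).2 h5)
        rw [Set.indicator_of_mem (show p ∈ F ∩ Sft hw n ⁻¹' B from ⟨hpF, hp.2⟩),
          Set.indicator_of_mem hpW, hψφ p hp.1]
      · have hpW : p ∉ W := by
          intro h5
          exact hpF ⟨hp.1, fun j hj hj' h6 => h5 j hj hj' ((regT_iff_wk hw hj' hp.1).1 h6)⟩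
        rw [Set.indicator_of_notMem (fun h : p ∈ F ∩ Sft hw n ⁻¹' B => hpF h.1),
          Set.indicator_of_notMem hpW]
    · rw [Set.indicator_of_notMem hp,
        Set.indicator_of_notMem (fun h : p ∈ F ∩ Sft hw n ⁻¹' B => hp ⟨h.1.1, h.2⟩)]
  have h3 := key Set.univ MeasurableSet.univ
  rw [Set.preimage_univ, Set.inter_univ] at h3
  rw [h3, key B hB, nu_apply, mul_assoc, ← mul_assoc (lam P Set.univ),
    ENNReal.mul_inv_cancel (lam_ne_zero h1 h2 hP) (lam_ne_top hP), one_mul]

/-- the renewal identity for the law restricted to an atom -/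
lemma renew_atom (h1 : 2 / 3 < α) (h2 : α < 1) (hP : IsHalfPlaneLaw α P) (hw : w.length ≤ k)
    (C : Cd) (n : ℕ) (hn : 1 ≤ n) (B : Set (HalfPlane × (ℕ → ℕ))) (hB : MeasurableSet B) :
    (law P w).restrict {p | p.1 ∈ atom k C}
        ({p | p ∈ RegT k w n ∧ ∀ j, 1 ≤ j → j < n → p ∉ RegT k w j} ∩ Sft hw n ⁻¹' B) =
      (law P w).restrict {p | p.1 ∈ atom k C}
        {p | p ∈ RegT k w n ∧ ∀ j, 1 ≤ j → j < n → p ∉ RegT k w j} * nu P B := by
  have hm : MeasurableSet {p : HalfPlane × (ℕ → ℕ) | p.1 ∈ atom k C} :=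
    measurable_fst (measurableSet_atom k C)
  rw [← withDensity_indicator_one hm]
  refine renew_first h1 h2 hP hw ?_ n hn hB
  intro n _
  refine ⟨_, ?_, fun p _ => rfl⟩
  intro p q h
  have h3 := h.atom hw C
  by_cases hp : p ∈ {p : HalfPlane × (ℕ → ℕ) | p.1 ∈ atom k C}
  · rw [Set.indicator_of_mem hp,
      Set.indicator_of_mem (show q ∈ {p : HalfPlane × (ℕ → ℕ) | p.1 ∈ atom k C} from h3.2 hp)]
    rfl
  · rw [Set.indicator_of_notMem hp,
      Set.indicator_of_notMem (fun h' : q ∈ {p : HalfPlane × (ℕ → ℕ) | p.1 ∈ atom k C} =>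
        hp (h3.1 h'))]

/-- the renewal identity for the law seen from a regeneration time -/
lemma renew_nu (h1 : 2 / 3 < α) (h2 : α < 1) (hP : IsHalfPlaneLaw α P)
    (n : ℕ) (hn : 1 ≤ n) (B : Set (HalfPlane × (ℕ → ℕ))) (hB : MeasurableSet B) :
    nu P ({p | p ∈ RegT 0 [] n ∧ ∀ j, 1 ≤ j → j < n → p ∉ RegT 0 [] j} ∩ Sft nil_le n ⁻¹' B) =
      nu P {p | p ∈ RegT 0 [] n ∧ ∀ j, 1 ≤ j → j < n → p ∉ RegT 0 [] j} * nu P B := by
  classical
  have := hP.prob
  have hm : Measurable (fun p : HalfPlane × (ℕ → ℕ) => dgr p.1) :=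
    measurable_dgr.comp measurable_fst
  have hnu : nu P = (law P []).withDensity
      ((lam P Set.univ)⁻¹ • Away.indicator (fun p => dgr p.1)) := by
    rw [withDensity_smul _ (hm.indicator away_measurable), withDensity_indicator away_measurable,
      ← restrict_withDensity away_measurable]
    rfl
  have key := renew_first (k := 0) (w := []) h1 h2 hP nil_le
    (ψ := (lam P Set.univ)⁻¹ • Away.indicator (fun p => dgr p.1)) ?_ n hn hB
  · rw [← hnu] at key
    exact key
  · intro n hn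
    set A : Set (HalfPlane × (ℕ → ℕ)) := {p | ∀ i, 1 ≤ i → i ≤ n → ¬ p.1.1.OnBd (xx [] p i)}
      with hA
    refine ⟨fun p => (lam P Set.univ)⁻¹ * A.indicator (fun p => dgr p.1) p, ?_, ?_⟩
    · intro p q h
      show _ * A.indicator (fun p => dgr p.1) q = _ * A.indicator (fun p => dgr p.1) p
      have h3 : q ∈ A ↔ p ∈ A := by
        constructor
        · intro h4 i hi hi' h5
          exact h4 i hi hi' ((h.onBd₀ nil_le hi').2 h5)
        · intro h4 i hi hi' h5
          exact h4 i hi hi' ((h.onBd₀ nil_le hi').1 h5)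
      have h4 : dgr q.1 = dgr p.1 := by
        have h5 : q.1.1.deg (q.1.1.V 0) = p.1.1.deg (p.1.1.V 0) := h.deg nil_le (i := 0) hn
        rw [dgr, dgr, h5]
      by_cases hp : p ∈ A
      · rw [Set.indicator_of_mem hp, Set.indicator_of_mem (h3.2 hp), h4]
      · rw [Set.indicator_of_notMem hp, Set.indicator_of_notMem fun h' => hp (h3.1 h')]
    · intro p hp
      have hok := EE_ok nil_le p n
      have h3 : p ∈ Away ↔ p ∈ A := by
        constructor
        · intro h4 i hi _
          exact h4 i hi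
        · intro h4 i hi
          rcases le_or_gt i n with h5 | h5
          · exact h4 i hi h5
          · exact RegT.not_onBd nil_le hp h5 p.1.2 hok.In_sub hok.rev_eq hok.org_eq subset_rfl
      show (lam P Set.univ)⁻¹ * Away.indicator (fun p => dgr p.1) p = _
      congr 1
      by_cases hp' : p ∈ A
      · rw [Set.indicator_of_mem hp', Set.indicator_of_mem (h3.2 hp')]
      · rw [Set.indicator_of_notMem hp', Set.indicator_of_notMem fun h' => hp' (h3.1 h')]

/-- probability of a regeneration -/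
lemma atom_regT (hP : IsHalfPlaneLaw α P) (hw : w.length ≤ k) (C : Cd) (n : ℕ) :
    (law P w).restrict {p | p.1 ∈ atom k C} (RegT k w n) =
      law P w {p | p.1 ∈ atom k C ∧ Candi k w n p} * lam P Set.univ := by
  have hm : MeasurableSet {p : HalfPlane × (ℕ → ℕ) | p.1 ∈ atom k C} :=
    measurable_fst (measurableSet_atom k C)
  have hφ : ∀ p q : HalfPlane × (ℕ → ℕ), PastEq k w n p q →
      {p : HalfPlane × (ℕ → ℕ) | p.1 ∈ atom k C}.indicator (1 : HalfPlane × (ℕ → ℕ) → ℝ≥0∞) q =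
      {p : HalfPlane × (ℕ → ℕ) | p.1 ∈ atom k C}.indicator (1 : HalfPlane × (ℕ → ℕ) → ℝ≥0∞) p := by
    intro p q h
    have h3 := h.atom hw C
    by_cases hp : p ∈ {p : HalfPlane × (ℕ → ℕ) | p.1 ∈ atom k C}
    · rw [Set.indicator_of_mem hp,
        Set.indicator_of_mem (show q ∈ {p : HalfPlane × (ℕ → ℕ) | p.1 ∈ atom k C} from h3.2 hp)]
      rfl
    · rw [Set.indicator_of_notMem hp,
        Set.indicator_of_notMem (fun h' : q ∈ {p : HalfPlane × (ℕ → ℕ) | p.1 ∈ atom k C} =>
          hp (h3.1 h'))]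
  have h3 := renew hP hw n hφ MeasurableSet.univ
  rw [Set.preimage_univ, Set.inter_univ, lintegral_indicator_one hm,
    lintegral_indicator_one hm, Measure.restrict_apply hm, Measure.restrict_apply hm] at h3
  rw [Measure.restrict_apply (regT_measurable hw n), Set.inter_comm, h3]
  rfl

lemma law_atom [IsProbabilityMeasure P] (w : List ℕ) (k : ℕ) (C : Cd) :
    law P w {p | p.1 ∈ atom k C} = P (atom k C) := by
  have hm : MeasurableSet {p : HalfPlane × (ℕ → ℕ) | p.1 ∈ atom k C} :=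
    measurable_fst (measurableSet_atom k C)
  rw [law, Measure.compProd_apply hm]
  have : ∀ h : HalfPlane, kern w h (Prod.mk h ⁻¹' {p | p.1 ∈ atom k C}) =
      (atom k C).indicator (fun _ => 1) h := by
    intro h
    by_cases hh : h ∈ atom k C
    · rw [Set.indicator_of_mem hh]
      have : Prod.mk h ⁻¹' {p : HalfPlane × (ℕ → ℕ) | p.1 ∈ atom k C} = Set.univ := by
        ext a; simp [hh]
      rw [this, measure_univ]
    · rw [Set.indicator_of_notMem hh]
      have : Prod.mk h ⁻¹' {p : HalfPlane × (ℕ → ℕ) | p.1 ∈ atom k C} = ∅ := by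
        ext a; simp [hh]
      rw [this, measure_empty]
  rw [lintegral_congr this, lintegral_indicator (measurableSet_atom k C), setLIntegral_one]

end

end Pool.Agent.Helper97.Speed
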