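import Pool.Agent.Helper97.Speed.Final1
import Pool.Agent.Helper50.Speed.CandGrowth
import Pool.Agent.Helper77.Speed.FreshGrowth
import Pool.Agent.Helper61.Speed.Boxes
import Pool.Agent.Helper93.Speed.Coded

/-! # Assembly, second part: the speed exists -/

namespace Pool.Agent.Helper97.Speed

open MeasureTheory PMap Filter Topology
open scoped ENNReal

lemma tendsto_of_close {f g : ℕ → ℝ} {K l : ℝ} (N : ℕ) (hfg : ∀ n, |f (n + N) - g n| ≤ K)
    (hg : Tendsto (fun n : ℕ => g n / n) atTop (𝓝 l)) :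
    Tendsto (fun n : ℕ => f n / n) atTop (𝓝 l) := by
  rw [← tendsto_add_atTop_iff_nat N]
  have hK : 0 ≤ K := (abs_nonneg _).trans (hfg 0)
  have h1 : Tendsto (fun n : ℕ => g n / n * ((n : ℝ) / (n + (N : ℝ)))) atTop (𝓝 (l * 1)) :=
    hg.mul (tendsto_natCast_div_add_atTop (N : ℝ))
  have h2 : Tendsto (fun n : ℕ => (f (n + N) - g n) / ((n : ℝ) + N)) atTop (𝓝 0) := by
    refine squeeze_zero_norm' ?_ (tendsto_const_div_atTop_nhds_zero_nat K)
    filter_upwards [eventually_ge_atTop 1] with n hn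
    have hn' : (0 : ℝ) < n := by exact_mod_cast hn
    rw [Real.norm_eq_abs, abs_div, abs_of_pos (show (0 : ℝ) < (n : ℝ) + N by positivity)]
    exact div_le_div₀ hK (hfg n) hn' (by linarith [Nat.cast_nonneg (α := ℝ) N])
  have h3 := h1.add h2
  rw [mul_one, add_zero] at h3
  refine h3.congr' ?_
  filter_upwards [eventually_ge_atTop 1] with n hn
  have hn' : (0 : ℝ) < n := by exact_mod_cast hn
  have hN : (0 : ℝ) < (n : ℝ) + N := by positivity
  push_cast
  field_simp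
  ring

section

variable {k : ℕ} {w : List ℕ}

/-- the distance to the starting point -/
noncomputable def dd (n : ℕ) (p : HalfPlane × (ℕ → ℕ)) : ℝ :=
  (p.1.1.dist (xx [] p 0) (xx [] p n) : ℝ)

lemma measurable_dd (n : ℕ) : Measurable (dd n) :=
  (Measurable.of_discrete (f := fun t : ℕ => (t : ℝ))).comp (measurable_dist n)

lemma isV_xx (w : List ℕ) (p : HalfPlane × (ℕ → ℕ)) (n : ℕ) : p.1.1.IsV (xx w p n) :=
  ⟨rr w p n, rr_mem w p n, rfl⟩

lemma dist_xx_succ (w : List ℕ) (p : HalfPlane × (ℕ → ℕ)) (n : ℕ) :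
    p.1.1.dist (xx w p n) (xx w p (n + 1)) ≤ 1 := by
  have h1 := p.1.2.pre.rot_iter_maps (x := p.1.1.org (rr w p n)) ⟨rr_mem w p n, rfl⟩ (p.2 n)
  have h2 := dist_adj p.1.2 h1.1
  rw [h1.2] at h2
  exact h2

lemma dd_zero (p : HalfPlane × (ℕ → ℕ)) : dd 0 p = 0 := by
  rw [dd, dist_self, Nat.cast_zero]

lemma dd_lip (n : ℕ) (p : HalfPlane × (ℕ → ℕ)) : |dd (n + 1) p - dd n p| ≤ 1 := by
  have h1 := dist_xx_succ [] p n
  have h2 := dist_triangle p.1.2 (isV_xx [] p 0) (isV_xx [] p n) (isV_xx [] p (n + 1))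
  have h3 := dist_triangle p.1.2 (isV_xx [] p 0) (isV_xx [] p (n + 1)) (isV_xx [] p n)
  rw [dist_comm p.1.2 (isV_xx [] p (n + 1)) (isV_xx [] p n)] at h3
  have h4 : p.1.1.dist (xx [] p 0) (xx [] p (n + 1)) ≤ p.1.1.dist (xx [] p 0) (xx [] p n) + 1 := by
    omega
  have h5 : p.1.1.dist (xx [] p 0) (xx [] p n) ≤ p.1.1.dist (xx [] p 0) (xx [] p (n + 1)) + 1 := by
    omega
  have h4' : (p.1.1.dist (xx [] p 0) (xx [] p (n + 1)) : ℝ) ≤
    p.1.1.dist (xx [] p 0) (xx [] p n) + 1 := by exact_mod_cast h4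
  have h5' : (p.1.1.dist (xx [] p 0) (xx [] p n) : ℝ) ≤
    p.1.1.dist (xx [] p 0) (xx [] p (n + 1)) + 1 := by exact_mod_cast h5
  rw [abs_le, dd, dd]
  constructor <;> linarith

/-- vertices visited after a regeneration time are vertices of the remaining map -/
lemma isV_EE (hw : w.length ≤ k) {n : ℕ} {p : HalfPlane × (ℕ → ℕ)} (hp : p ∈ RegT k w n) (i : ℕ) :
    (EE k w p n).IsV (xx w p (n + i)) := by
  rw [RegT.xx_eq hw hp i]
  exact isV_xx [] (Sft hw n p) i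

lemma dd_Sft (hw : w.length ≤ k) {n : ℕ} {p : HalfPlane × (ℕ → ℕ)} (hp : p ∈ RegT k w n) (i : ℕ) :
    dd i (Sft hw n p) = ((EE k w p n).dist (xx w p n) (xx w p (n + i)) : ℝ) := by
  have h0 := RegT.xx_eq hw hp 0
  rw [add_zero] at h0
  rw [dd, ← RegT.xx_eq hw hp i, ← h0, Sft_fst hw, dist_shift]

lemma dd_sub (n i : ℕ) (p : HalfPlane × (ℕ → ℕ)) (hp : p ∈ RegT 0 [] n) :
    dd (n + i) p ≤ dd n p + dd i (Sft nil_le n p) := by
  have h1 := dist_triangle p.1.2 (isV_xx [] p 0) (isV_xx [] p n) (isV_xx [] p (n + i))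
  have h2 := dist_le_of_ok (EE_ok nil_le p n) (isV_EE nil_le hp 0) (isV_EE nil_le hp i)
  rw [add_zero] at h2
  rw [dd_Sft nil_le hp i, dd, dd]
  exact_mod_cast h1.trans (by omega)

/-- the walk after `v` -/
lemma xx_app (p : HalfPlane × (ℕ → ℕ)) (v : List ℕ) (n : ℕ) :
    xx [] (p.1, app v p.2) (v.length + n) = xx v p n := by
  show p.1.1.org (p.1.1.run (p.1.1.bd 0) (app v p.2) (v.length + n)) = p.1.1.org (p.1.1.run
    (p.1.1.dart (p.1.1.bd 0) v) p.2 n)
  rw [run_add, run_eq (p.1.1.bd 0), pre_app, sh_app]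

/-- the speed is determined by what happens after a regeneration time -/
lemma tendsto_of_regT {v : List ℕ} {i : ℕ} {p : HalfPlane × (ℕ → ℕ)}
    (hp : p ∈ RegT v.length v i) {l : ℝ}
    (hl : Tendsto (fun n : ℕ => dd n (Sft (k := v.length) (w := v) le_rfl i p) / n) atTop
      (𝓝 l)) :
    Tendsto (fun n : ℕ => dd n (p.1, app v p.2) / n) atTop (𝓝 l) := by
  have hok := EE_ok (w := v) le_rfl p i
  have h00 : xx [] (p.1, app v p.2) 0 = p.1.1.V 0 := rfl
  have hV : p.1.1.IsV (p.1.1.V 0) := p.1.2.isV_V 0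
  have hx : p.1.1.IsV (xx v p i) := isV_xx v p i
  obtain ⟨K, hK⟩ := dist_ge_of_ok hok (x := xx v p i) (y := p.1.1.V 0)
    (by simpa using isV_EE le_rfl hp 0) hV
  refine tendsto_of_close (f := fun n => dd n (p.1, app v p.2))
    (g := fun n => dd n (Sft (k := v.length) (w := v) le_rfl i p))
    (K := ((p.1.1.dist (p.1.1.V 0) (xx v p i) + K : ℕ) : ℝ)) (v.length + i) ?_ hl
  intro n
  show |dd (n + (v.length + i)) (p.1, app v p.2) -
    dd n (Sft (k := v.length) (w := v) le_rfl i p)| ≤ _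
  rw [dd_Sft le_rfl hp n]
  have e1 : dd (n + (v.length + i)) (p.1, app v p.2) =
      (p.1.1.dist (p.1.1.V 0) (xx v p (i + n)) : ℝ) := by
    rw [dd, show n + (v.length + i) = v.length + (i + n) by ring, xx_app, h00]
  rw [e1]
  have h1 := hK _ (isV_EE le_rfl hp n)
  have h2 := dist_triangle p.1.2 hV hx (isV_xx v p (i + n))
  have h3 := dist_le_of_ok hok (isV_EE le_rfl hp 0) (isV_EE le_rfl hp n)
  rw [add_zero] at h3
  have h4 : p.1.1.dist (p.1.1.V 0) (xx v p (i + n)) ≤ (EE v.length v p i).dist (xx v p i)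
      (xx v p (i + n)) + (p.1.1.dist (p.1.1.V 0) (xx v p i) + K) := by omega
  have h5 : (EE v.length v p i).dist (xx v p i) (xx v p (i + n)) ≤
      p.1.1.dist (p.1.1.V 0) (xx v p (i + n)) + (p.1.1.dist (p.1.1.V 0) (xx v p i) + K) := by
    omega
  have h4' : (p.1.1.dist (p.1.1.V 0) (xx v p (i + n)) : ℝ) ≤
      (EE v.length v p i).dist (xx v p i) (xx v p (i + n)) +
        ((p.1.1.dist (p.1.1.V 0) (xx v p i) + K : ℕ) : ℝ) := by exact_mod_cast h4
  have h5' : ((EE v.length v p i).dist (xx v p i) (xx v p (i + n)) : ℝ) ≤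
      p.1.1.dist (p.1.1.V 0) (xx v p (i + n)) +
        ((p.1.1.dist (p.1.1.V 0) (xx v p i) + K : ℕ) : ℝ) := by exact_mod_cast h5
  rw [abs_le]
  constructor <;> linarith

end

section

variable {α : ℝ} {P : Measure HalfPlane}

/-- linear growth of the number of candidates -/
theorem cand_growth (h1 : 2 / 3 < α) (h2 : α < 1) (hP : IsHalfPlaneLaw α P) :
    ∃ c : ℝ≥0∞, c ≠ 0 ∧ ∀ (k : ℕ) (w : List ℕ), w.length ≤ k → ∀ C : Cd,
      ∃ C₀ : ℝ≥0∞, C₀ ≠ ⊤ ∧ ∀ n : ℕ, c * P (atom k C) * n ≤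
        (∑ i ∈ Finset.Icc 1 n, law P w {p | p.1 ∈ atom k C ∧ Candi k w i p}) + C₀ :=
  cand_growth_of (by linarith) h2 hP (hull_moment h1 h2 hP).1 (hull_moment h1 h2 hP).2
    (fresh_growth h1 h2 hP)

/-- linear growth of the number of regenerations -/
theorem reg_growth (h1 : 2 / 3 < α) (h2 : α < 1) (hP : IsHalfPlaneLaw α P) :
    ∃ c : ℝ≥0∞, c ≠ 0 ∧ ∀ (k : ℕ) (w : List ℕ), w.length ≤ k → ∀ C : Cd,
      ∃ C₀ : ℝ≥0∞, C₀ ≠ ⊤ ∧ ∀ n : ℕ,
        c * (law P w).restrict {p | p.1 ∈ atom k C} Set.univ * n ≤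
        (∑ i ∈ Finset.Icc 1 n, (law P w).restrict {p | p.1 ∈ atom k C} (RegT k w i)) + C₀ := by
  have := hP.prob
  obtain ⟨c, hc, h⟩ := cand_growth h1 h2 hP
  refine ⟨c * lam P Set.univ, mul_ne_zero hc (lam_ne_zero h1 h2 hP), ?_⟩
  intro k w hw C
  obtain ⟨C₀, hC₀, hn⟩ := h k w hw C
  refine ⟨C₀ * lam P Set.univ, ENNReal.mul_ne_top hC₀ (lam_ne_top hP), ?_⟩
  intro n
  have h3 : ∀ i ∈ Finset.Icc 1 n, (law P w).restrict {p | p.1 ∈ atom k C} (RegT k w i) =
      law P w {p | p.1 ∈ atom k C ∧ Candi k w i p} * lam P Set.univ :=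
    fun i _ => atom_regT hP hw C i
  rw [Finset.sum_congr rfl h3, ← Finset.sum_mul, ← add_mul, Measure.restrict_apply_univ, law_atom]
  calc c * lam P Set.univ * P (atom k C) * n = c * P (atom k C) * n * lam P Set.univ := by ring
    _ ≤ _ := by gcongr; exact hn n

lemma exists_atom_pos [IsProbabilityMeasure P] (k : ℕ) : ∃ C : Cd, P (atom k C) ≠ 0 := by
  by_contra h
  push Not at h
  have h1 : (Set.univ : Set HalfPlane) ⊆ ⋃ C : Cd, atom k C := by
    intro g _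
    obtain ⟨C, -, hC⟩ := exists_atom k g
    exact Set.mem_iUnion.2 ⟨C, hC⟩
  have h2 : P (⋃ C : Cd, atom k C) = 0 := measure_iUnion_null h
  have h3 : P Set.univ = 0 := measure_mono_null h1 h2
  rw [measure_univ] at h3
  exact one_ne_zero h3

/-- linear growth of the number of regenerations for the law seen from a regeneration time -/
theorem nu_growth (h1 : 2 / 3 < α) (h2 : α < 1) (hP : IsHalfPlaneLaw α P) :
    ∃ c C : ℝ, 0 < c ∧ ∀ n : ℕ, c * n - C ≤ ∑ k ∈ Finset.Icc 1 n, (nu P (RegT 0 [] k)).toReal := by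
  have := hP.prob
  have := nu_prob h1 h2 hP
  obtain ⟨c, hc, h⟩ := reg_growth h1 h2 hP
  obtain ⟨C, hC⟩ := exists_atom_pos (P := P) 0
  obtain ⟨C₀, hC₀, hn⟩ := h 0 [] nil_le C
  set ρ := (law P []).restrict {p | p.1 ∈ atom 0 C} with hρ
  have hρu : ρ Set.univ = P (atom 0 C) := by
    rw [hρ, Measure.restrict_apply_univ, law_atom]
  have hρ0 : ρ Set.univ ≠ 0 := by rw [hρu]; exact hC
  have hρt : ρ Set.univ ≠ ⊤ := measure_ne_top _ _
  have h3 : ∀ n : ℕ, min c 1 * n ≤ (∑ k ∈ Finset.Icc 1 n, nu P (RegT 0 [] k)) +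
      (1 + C₀ * (ρ Set.univ)⁻¹) := by
    intro n
    have h4 := delayed_low (nu P) ρ (RegT 0 []) (regT_measurable nil_le) (RegT 0 [])
      (fun n => Sft nil_le n) (regT_measurable nil_le) (measurable_Sft nil_le)
      (fun n k ω _ hk hω => (RegT.comp nil_le hk hω).1)
      (fun k hk B hB => renew_atom h1 h2 hP nil_le C k hk B hB) n
    have h5 : c * ρ Set.univ * n ≤ ρ Set.univ * (1 + ∑ k ∈ Finset.Icc 1 n, nu P (RegT 0 [] k)) +
        C₀ := (hn n).trans (by gcongr)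
    have h6 : c * n ≤ (1 + ∑ k ∈ Finset.Icc 1 n, nu P (RegT 0 [] k)) + C₀ * (ρ Set.univ)⁻¹ := by
      calc c * n = c * n * (ρ Set.univ * (ρ Set.univ)⁻¹) := by
            rw [ENNReal.mul_inv_cancel hρ0 hρt, mul_one]
        _ = c * ρ Set.univ * n * (ρ Set.univ)⁻¹ := by ring
        _ ≤ (ρ Set.univ * (1 + ∑ k ∈ Finset.Icc 1 n, nu P (RegT 0 [] k)) + C₀) *
            (ρ Set.univ)⁻¹ := by gcongr
        _ = _ := by
            rw [add_mul, mul_right_comm, ENNReal.mul_inv_cancel hρ0 hρt, one_mul]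
    calc min c 1 * n ≤ c * n := by gcongr; exact min_le_left _ _
      _ ≤ _ := h6
      _ = _ := by ring
  have hc1 : min c 1 ≠ ⊤ := (min_le_right c 1).trans_lt ENNReal.one_lt_top |>.ne
  have hc0 : min c 1 ≠ 0 := by
    intro h0
    rcases min_eq_iff.1 h0 with h4 | h4
    · exact hc h4.1
    · exact one_ne_zero h4.1
  have hCt : 1 + C₀ * (ρ Set.univ)⁻¹ ≠ ⊤ := by
    refine ENNReal.add_ne_top.2 ⟨ENNReal.one_ne_top, ENNReal.mul_ne_top hC₀ ?_⟩
    exact ENNReal.inv_ne_top.2 hρ0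
  refine ⟨(min c 1).toReal, (1 + C₀ * (ρ Set.univ)⁻¹).toReal, ENNReal.toReal_pos hc0 hc1, ?_⟩
  intro n
  have hst : ∑ k ∈ Finset.Icc 1 n, nu P (RegT 0 [] k) ≠ ⊤ :=
    (ENNReal.sum_lt_top.2 fun k _ => measure_lt_top _ _).ne
  have h4 := ENNReal.toReal_mono (ENNReal.add_ne_top.2 ⟨hst, hCt⟩) (h3 n)
  rw [ENNReal.toReal_mul, ENNReal.toReal_add hst hCt, ENNReal.toReal_sum
    (fun k _ => measure_ne_top _ _)] at h4
  simp only [ENNReal.toReal_natCast] at h4
  linarith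

/-- **The speed exists.** -/
theorem speed_exists (h1 : 2 / 3 < α) (h2 : α < 1) : SpeedExists α := by
  intro P hP
  have := hP.prob
  have := nu_prob h1 h2 hP
  obtain ⟨c', C', hc', hlow⟩ := nu_growth h1 h2 hP
  obtain ⟨L, hL, hconv⟩ := regen_speed (nu P) (RegT 0 []) (fun n => Sft nil_le n)
    (regT_measurable nil_le) (measurable_Sft nil_le)
    (fun n k ω _ hk hω => RegT.comp nil_le hk hω)
    (fun k hk B hB => renew_nu h1 h2 hP k hk B hB) c' C' hc' hlow dd measurable_dd dd_zero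
    (fun n p => Nat.cast_nonneg _) dd_lip (fun n k p _ hp => dd_sub n k p hp)
  obtain ⟨c, hc, hgr⟩ := reg_growth h1 h2 hP
  have hX : ∀ n, Measurable (fun p : HalfPlane × (ℕ → ℕ) => dd n p / n) :=
    fun n => (measurable_dd n).div_const _
  have hmain : ∀ (v : List ℕ) (C : Cd) (B : Set ℝ), MeasurableSet B →
      c * nu P (L ⁻¹' B) * P (atom v.length C) ≤
        law P v {p | p.1 ∈ atom v.length C ∧
          ∃ l ∈ B, Tendsto (fun n : ℕ => dd n (p.1, app v p.2) / n) atTop (𝓝 l)} := by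
    intro v C B hB
    obtain ⟨C₀, hC₀, hn⟩ := hgr v.length v le_rfl C
    set ρ := (law P v).restrict {p | p.1 ∈ atom v.length C} with hρ
    have hρu : ρ Set.univ = P (atom v.length C) := by
      rw [hρ, Measure.restrict_apply_univ, law_atom]
    set B' : Set (HalfPlane × (ℕ → ℕ)) :=
      {q | L q ∈ B ∧ Tendsto (fun n : ℕ => dd n q / n) atTop (𝓝 (L q))} with hB'
    have hB'm : MeasurableSet B' := (hL hB).inter (measurableSet_tendsto_fun hX hL)
    have hν : nu P (L ⁻¹' B) ≤ nu P B' := by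
      refine measure_mono_ae ?_
      filter_upwards [hconv] with q hq hqB
      exact ⟨hqB, hq⟩
    have h3 := regen_exists (nu P) ρ (RegT v.length v) (fun n => Sft le_rfl n)
      (regT_measurable le_rfl) (measurable_Sft le_rfl)
      (fun k hk B hB => renew_atom h1 h2 hP le_rfl C k hk B hB) c C₀ hC₀ hn B' hB'm
    have hsub : {ω | ∃ k, 1 ≤ k ∧ ω ∈ RegT v.length v k ∧ Sft (w := v) le_rfl k ω ∈ B'} ⊆
        {p | ∃ l ∈ B, Tendsto (fun n : ℕ => dd n (p.1, app v p.2) / n) atTop (𝓝 l)} := by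
      rintro p ⟨i, -, hp, h4, h5⟩
      exact ⟨_, h4, tendsto_of_regT hp h5⟩
    have hm : MeasurableSet {p : HalfPlane × (ℕ → ℕ) | p.1 ∈ atom v.length C} :=
      measurable_fst (measurableSet_atom _ C)
    calc c * nu P (L ⁻¹' B) * P (atom v.length C) ≤ c * nu P B' * ρ Set.univ := by
          rw [hρu]; gcongr
      _ = c * ρ Set.univ * nu P B' := by ring
      _ ≤ _ := h3
      _ ≤ ρ {p | ∃ l ∈ B, Tendsto (fun n : ℕ => dd n (p.1, app v p.2) / n) atTop (𝓝 l)} :=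
          measure_mono hsub
      _ = law P v ({p | ∃ l ∈ B, Tendsto (fun n : ℕ => dd n (p.1, app v p.2) / n) atTop (𝓝 l)} ∩
            {p | p.1 ∈ atom v.length C}) := Measure.restrict_apply' hm
      _ ≤ law P v {p | p.1 ∈ atom v.length C ∧
          ∃ l ∈ B, Tendsto (fun n : ℕ => dd n (p.1, app v p.2) / n) atTop (𝓝 l)} :=
          measure_mono fun p hp => ⟨hp.2, hp.1⟩
  obtain ⟨s, hs⟩ := boxes_zero_one hP (fun n p => dd n p / n) hX (nu P) L hL c hc hmain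
  exact ⟨s, speed_of_coded hP s hs⟩

end

end Pool.Agent.Helper97.Speed
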