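import Pool.Agent.Helper97.Speed.WalkDefs

/-! # Uniqueness and transfer of sub-maps -/

namespace Pool.Agent.Helper97.Speed

namespace PMap

variable {m m₁ m₂ g g₁ g₂ : PMap}

/-- the filled path is determined by its first dart and the code. -/
lemma Fills.unique : ∀ {Q : Disc} {c c' : List ℕ} {d : ℕ} {t t' : List ℕ}, m.Fills Q c →
    m.Fills Q c' → c = d :: t → c' = d :: t' → t = t'
  | .edge, c, c', d, t, t', ⟨e, he⟩, ⟨e', he'⟩, hc, hc' => by
    have h1 := hc.symm.trans he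
    have h2 := hc'.symm.trans he'
    simp only [List.cons.injEq] at h1 h2
    obtain ⟨rfl, rfl⟩ := h1
    obtain ⟨rfl, rfl⟩ := h2
    rfl
  | .inner Q, c, c', d, t, t', ⟨e, s, he, _, _, hF⟩, ⟨e', s', he', _, _, hF'⟩, hc, hc' => by
    have h1 := hc.symm.trans he
    have h2 := hc'.symm.trans he'
    simp only [List.cons.injEq] at h1 h2
    obtain ⟨rfl, rfl⟩ := h1
    obtain ⟨rfl, rfl⟩ := h2
    have h3 := Fills.unique hF hF' rfl rfl
    simp only [List.cons.injEq, true_and] at h3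
    exact h3
  | .split Q₁ Q₂, c, c', d, t, t', ⟨e, s₁, s₂, he, _, hF1, hF2⟩, ⟨e', s₁', s₂', he', _, hF1', hF2'⟩,
      hc, hc' => by
    have h1 := hc.symm.trans he
    have h2 := hc'.symm.trans he'
    simp only [List.cons.injEq] at h1 h2
    obtain ⟨rfl, rfl⟩ := h1
    obtain ⟨rfl, rfl⟩ := h2
    rw [Fills.unique hF1 hF1' rfl rfl, Fills.unique hF2 hF2' rfl rfl]

lemma cyc_inj (hr : ∀ d, m.rev (m.rev d) = d) {j : ℤ} {b : ℕ} {p p' : List ℕ}
    (h : m.cyc j b p = m.cyc j b p') : p = p' := by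
  simp only [cyc, List.append_cancel_left_eq] at h
  have hinj : Function.Injective m.rev := Function.LeftInverse.injective (g := m.rev) hr
  have := (List.map_injective_iff.2 hinj) h
  exact List.reverse_injective this

/-- the remaining map is unique. -/
lemma Sub.unique (h : m.IsHalfPlane) {l : ℤ} {a b n : ℕ} {Q : Disc} (h1 : m.Sub l a b n Q m₁)
    (h2 : m.Sub l a b n Q m₂) : m₁ = m₂ := by
  obtain ⟨p, S, ch, -, hF, rfl⟩ := h1
  obtain ⟨p', S', ch', -, hF', rfl⟩ := h2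
  obtain ⟨t, ht, -⟩ := rotate_cyc_eq m l a b p
  obtain ⟨t', ht', -⟩ := rotate_cyc_eq m l a b p'
  have h3 := hF.unique hF' ht ht'
  subst h3
  have h4 := List.rotate_injective a (ht.trans ht'.symm)
  have h5 := cyc_inj h.rev_rev h4
  subst h5
  rw [ch.unique h ch']

/-- the covered set -/
lemma Fl.Cv_subset (h : m.IsHalfPlane) : ∀ {Q : Disc} {S : Set ℕ} {x : ℕ} {c : List ℕ} {d : ℕ}
    {t : List ℕ}, m.Fl Q S x c → c = d :: t → m.Cv Q d ⊆ S
  | .edge, S, x, c, d, t, _, _ => by intro e he; exact absurd he (by simp [Cv])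
  | .inner Q, S, x, c, d, t, hF, hc => by
    obtain ⟨d', t', hc', hB, hd, hB', hF'⟩ := hF.inner h
    have h0 := hc.symm.trans hc'
    simp only [List.cons.injEq] at h0
    obtain ⟨rfl, rfl⟩ := h0
    intro e he
    rcases he with he | he
    · exact tri3_subset hB.tri hB.head_mem.1 he
    · exact (Fl.Cv_subset h ⟨Or.inr hB', hF'⟩ rfl he).1
  | .split Q₁ Q₂, S, x, c, d, t, hF, hc => by
    obtain ⟨d', t₁, t₂, S₁, S₂, hc', hB, hd, hS, -, -, -, hF1, hF2⟩ := hF.split h
    have h0 := hc.symm.trans hc'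
    simp only [List.cons.injEq] at h0
    obtain ⟨rfl, rfl⟩ := h0
    intro e he
    rw [hS]
    rcases he with he | he | he
    · exact Or.inl he
    · exact Or.inr (Or.inl (Fl.Cv_subset h hF1 rfl he))
    · exact Or.inr (Or.inr (Fl.Cv_subset h hF2 rfl he))

/-- transfer of filled paths -/
lemma Fills.transfer {φ : ℕ → ℕ} {T T' : Finset ℕ} (I : RIso φ m m₂ g g₂ T T') :
    ∀ {Q : Disc} {c : List ℕ} {d : ℕ} {t : List ℕ}, m.Fills Q c → c = d :: t →
    (∀ e ∈ c, e ∈ m.X T) → m.Cv Q d ⊆ (T : Set ℕ) → g.Fills Q (c.map φ)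
  | .edge, c, d, t, ⟨e, he⟩, hc, hX, _ => by
    subst he
    exact ⟨φ e, by simp [I.rev e (hX e (by simp))]⟩
  | .inner Q, c, d, t, ⟨e, s, he, hd, hz, hF⟩, hc, hX, hCv => by
    subst he
    simp only [List.cons.injEq] at hc
    obtain ⟨rfl, rfl⟩ := hc
    have a0 : e ∈ T := hCv (Or.inl (Or.inl rfl))
    have a1 : m.nxt e ∈ T := hCv (Or.inl (Or.inr (Or.inl rfl)))
    have a2 : m.nxt (m.nxt e) ∈ T := hCv (Or.inl (Or.inr (Or.inr rfl)))
    have b1 := I.nxt e a0
    have b2 := I.nxt _ a1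
    rw [b1] at b2
    have ih := Fills.transfer I hF rfl (by
      intro f hf
      rcases List.mem_cons.1 hf with rfl | hf
      · exact I.n1.X_rev (mem_X a2)
      · rcases List.mem_cons.1 hf with rfl | hf
        · exact I.n1.X_rev (mem_X a1)
        · exact hX f (by simp [hf])) (fun f hf => hCv (Or.inr hf))
    refine ⟨φ e, s.map φ, by simp, (I.n2.tri _ ((I.map e (mem_X a0)).2 a0)).1, ?_, ?_⟩
    · intro h1
      rw [List.mem_map] at h1
      obtain ⟨f, hf, hf'⟩ := h1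
      obtain ⟨f₀, hf₀, rfl⟩ := List.mem_map.1 hf
      rw [← b2] at hf'
      have h2 := (I.org f₀ (hX f₀ hf₀) _ (mem_X a2)).2 hf'
      exact hz (List.mem_map.2 ⟨f₀, hf₀, h2⟩)
    · simp only [List.map_cons] at ih
      rwa [I.rev _ (mem_X a2), I.rev _ (mem_X a1), b2, b1] at ih
  | .split Q₁ Q₂, c, d, t, ⟨e, s₁, s₂, he, hd, hF1, hF2⟩, hc, hX, hCv => by
    subst he
    simp only [List.cons.injEq] at hc
    obtain ⟨rfl, rfl⟩ := hc
    have a0 : e ∈ T := hCv (Or.inl (Or.inl rfl))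
    have a1 : m.nxt e ∈ T := hCv (Or.inl (Or.inr (Or.inl rfl)))
    have a2 : m.nxt (m.nxt e) ∈ T := hCv (Or.inl (Or.inr (Or.inr rfl)))
    have b1 := I.nxt e a0
    have b2 := I.nxt _ a1
    rw [b1] at b2
    have ih1 := Fills.transfer I hF1 rfl (by
      intro f hf
      rcases List.mem_cons.1 hf with rfl | hf
      · exact I.n1.X_rev (mem_X a1)
      · exact hX f (by simp [hf])) (fun f hf => hCv (Or.inr (Or.inl hf)))
    have ih2 := Fills.transfer I hF2 rfl (by
      intro f hf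
      rcases List.mem_cons.1 hf with rfl | hf
      · exact I.n1.X_rev (mem_X a2)
      · exact hX f (by simp [hf])) (fun f hf => hCv (Or.inr (Or.inr hf)))
    refine ⟨φ e, s₁.map φ, s₂.map φ, by simp, (I.n2.tri _ ((I.map e (mem_X a0)).2 a0)).1, ?_, ?_⟩
    · simp only [List.map_cons] at ih1
      rwa [I.rev _ (mem_X a1), b1] at ih1
    · simp only [List.map_cons] at ih2
      rwa [I.rev _ (mem_X a2), b2] at ih2

lemma sub_edge (hg : g.IsHalfPlane) (l : ℤ) : g.Sub l 0 0 1 .edge g := by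
  obtain ⟨Q, hQ, -⟩ := (Reg.refl hg l).exists_sub 0 (by omega)
  have e1 : l + ((0 : ℕ) : ℤ) = l := by simp
  have e2 : 1 - 1 - 0 = 0 := rfl
  rw [e1, e2] at hQ
  obtain ⟨T, R, hT, -⟩ := hQ.reg hg
  have hT0 : T = ∅ := by
    have h1 := R.In
    ext d
    simp only [Finset.notMem_empty, iff_false]
    intro hd
    have h2 := (R.tri d hd).1
    rw [h1] at h2
    exact h2.2 hd
  rw [hT.1 hT0] at hQ
  exact hQ

/-- **transfer of sub-maps** -/
theorem Sub.transfer {φ : ℕ → ℕ} {T T' : Finset ℕ} (I : RIso φ m m₂ g g₂ T T') {l : ℤ}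
    {a b n : ℕ} {Q : Disc} (hS : m.Sub l a b n Q m₁) (hsub : m₂.In ⊆ m₁.In) :
    ∃ S g₁, g.Sub l a b n Q g₁ ∧ Reg m m₁ (l - a) (a + 1 + b) n S ∧
      Reg g g₁ (l - a) (a + 1 + b) n (S.image φ) ∧ RIso φ m m₁ g g₁ S (S.image φ) ∧
      RIso φ m₁ m₂ g₁ g₂ (T \ S) (T' \ S.image φ) := by
  classical
  have h := I.n1.hp
  obtain ⟨S, R, hSQ, hFl⟩ := hS.reg h
  obtain ⟨hST, N⟩ := I.n1.of_subset R.nest hsub
  obtain ⟨g₁, RG, I1, I2⟩ := I.restrict R hST N
  refine ⟨S, g₁, ?_, R, RG, I1, I2⟩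
  by_cases hS0 : S = ∅
  · have hQ := hSQ.1 hS0
    subst hQ
    have hab : a + 1 + b = 1 ∧ n = 1 := by
      subst hS0; exact ⟨R.eq_of_empty.2.1, R.eq_of_empty.2.2⟩
    have hg₁ : g₁ = g := by
      subst hS0
      rw [Finset.image_empty] at RG
      exact RG.eq_of_empty.1
    obtain ⟨h1, rfl⟩ := hab
    obtain rfl : a = 0 := by omega
    obtain rfl : b = 0 := by omega
    rw [hg₁]
    exact sub_edge I.n2.hp l
  · have hS'0 : S.image φ ≠ ∅ := by
      obtain ⟨a, ha⟩ := Finset.nonempty_iff_ne_empty.2 hS0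
      exact Finset.nonempty_iff_ne_empty.1 ⟨φ a, Finset.mem_image.2 ⟨a, ha, rfl⟩⟩
    have hF := hFl hS0
    obtain ⟨t, ht, -⟩ := rotate_cyc_eq m l a b (Reg.pth m₁ (l - a) n)
    have hcyc : (m.cyc (l - a) (a + 1 + b) (Reg.pth m₁ (l - a) n)).map φ =
        g.cyc (l - a) (a + 1 + b) (Reg.pth g₁ (l - a) n) := by
      simp only [cyc, Reg.pth, List.map_append, List.map_map, ← List.map_reverse]
      congr 1
      · refine List.map_congr_left ?_
        intro i hi
        rw [List.mem_range] at hi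
        exact I1.bdφ _ ((R.bd_mem_iff hS0).2 ⟨by omega, by omega⟩)
      · refine List.map_congr_left ?_
        intro i hi
        rw [List.mem_reverse, List.mem_range] at hi
        have h1 : m₁.bd (l - a + i) ∈ m.X S := (R.bd₂_mem_X_iff hS0).2 ⟨by omega, by omega⟩
        simp only [Function.comp]
        rw [I1.rev _ h1, I1.bd₂φ _ h1]
    have hF2 := Fills.transfer I1 hF.fills ht (by
      intro e he
      rw [List.mem_rotate] at he
      have hB := R.chord.toBd h (R.nontrivial hS0)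
      exact mem_X ((hB.bdry e).2 he).1) (hF.Cv_subset h ht)
    rw [List.map_rotate, hcyc] at hF2
    exact ⟨_, _, RG.chord, by simp, hF2, RG.eq_cut⟩

end PMap

end Pool.Agent.Helper97.Speed
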