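import Pool.Agent.Helper97.Speed.Code

/-! # A code determines a region up to isomorphism -/

namespace Pool.Agent.Helper97.Speed

namespace PMap

variable {m g : PMap}

/-- the set of darts covered by a filled polygon -/
def Cv (m : PMap) : Disc → ℕ → Set ℕ
  | .edge, _ => ∅
  | .inner Q, d => m.tri3 d ∪ Cv m Q (m.rev (m.nxt (m.nxt d)))
  | .split Q₁ Q₂, d => m.tri3 d ∪ (Cv m Q₁ (m.rev (m.nxt d)) ∪ Cv m Q₂ (m.rev (m.nxt (m.nxt d))))

lemma Fills.length : ∀ {Q : Disc} {c : List ℕ}, m.Fills Q c → c.length = Q.per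
  | .edge, c, ⟨d, hd⟩ => by rw [hd]; rfl
  | .inner Q, c, ⟨d, t, hd, _, _, hF⟩ => by
    have := Fills.length hF
    simp only [List.length_cons] at this
    rw [hd, Disc.per]; simp only [List.length_cons]; omega
  | .split Q₁ Q₂, c, ⟨d, t₁, t₂, hd, _, hF1, hF2⟩ => by
    have h1 := Fills.length hF1
    have h2 := Fills.length hF2
    simp only [List.length_cons] at h1 h2
    rw [hd, Disc.per]; simp only [List.length_cons, List.length_append]; omega

lemma Fills.two_le : ∀ {Q : Disc} {c : List ℕ}, m.Fills Q c → 2 ≤ c.length ∨ ∃ d, c = [d]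
  | .edge, c, ⟨d, hd⟩ => by rw [hd]; simp
  | .inner Q, c, ⟨d, t, hd, _, _, hF⟩ => by
    rcases t with _ | ⟨e, t⟩
    · exact Or.inr ⟨d, hd⟩
    · left; rw [hd]; simp
  | .split Q₁ Q₂, c, ⟨d, t₁, t₂, hd, _, hF1, hF2⟩ => by
    rcases ht : t₁ ++ t₂ with _ | ⟨e, t⟩
    · exact Or.inr ⟨d, by rw [hd, ht]⟩
    · left; rw [hd, ht]; simp

lemma Cv_tri (h : m.Pre) : ∀ {Q : Disc} {c : List ℕ} {d : ℕ} {t : List ℕ}, m.Fills Q c →
    c = d :: t → m.Tri (m.Cv Q d) ∧ (m.Cv Q d).Finite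
  | .edge, c, d, t, _, _ => ⟨by intro e he; exact absurd he (by simp [Cv]), by simp [Cv]⟩
  | .inner Q, c, d, t, ⟨d', t', hd, hin, _, hF⟩, hc => by
    have h0 := hc.symm.trans hd
    simp only [List.cons.injEq] at h0
    obtain ⟨rfl, rfl⟩ := h0
    obtain ⟨h1, h2⟩ := Cv_tri h hF rfl
    exact ⟨(tri_tri3 h hin).union h1, (tri3_finite d).union h2⟩
  | .split Q₁ Q₂, c, d, t, ⟨d', t₁, t₂, hd, hin, hF1, hF2⟩, hc => by
    have h0 := hc.symm.trans hd
    simp only [List.cons.injEq] at h0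
    obtain ⟨rfl, rfl⟩ := h0
    obtain ⟨h1, h2⟩ := Cv_tri h hF1 rfl
    obtain ⟨h3, h4⟩ := Cv_tri h hF2 rfl
    exact ⟨(tri_tri3 h hin).union (h1.union h3), (tri3_finite d).union (h2.union h4)⟩

/-- all the darts of a nondegenerate filled path are covered -/
lemma mem_Cv : ∀ {Q : Disc} {c : List ℕ} {d : ℕ} {t : List ℕ}, (∀ x, m.rev (m.rev x) = x) →
    m.Fills Q c → c = d :: t → Q ≠ .edge → ∀ a ∈ c, a ∈ m.Cv Q d
  | .edge, c, d, t, _, _, _, hQ => absurd rfl hQ
  | .inner Q, c, d, t, hr, ⟨d', t', hd, hin, _, hF⟩, hc, _ => by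
    have h0 := hc.symm.trans hd
    simp only [List.cons.injEq] at h0
    obtain ⟨rfl, rfl⟩ := h0
    intro a ha
    rw [hc] at ha
    rcases List.mem_cons.1 ha with rfl | ha
    · exact Or.inl (Or.inl rfl)
    · by_cases hQ : Q = .edge
      · subst hQ
        obtain ⟨e, he⟩ := hF
        simp only [List.cons.injEq] at he
        rw [he.2.2] at ha
        simp at ha
      · exact Or.inr (mem_Cv hr hF rfl hQ a (by simp [ha]))
  | .split Q₁ Q₂, c, d, t, hr, ⟨d', t₁, t₂, hd, hin, hF1, hF2⟩, hc, _ => by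
    have h0 := hc.symm.trans hd
    simp only [List.cons.injEq] at h0
    obtain ⟨rfl, rfl⟩ := h0
    intro a ha
    rw [hc] at ha
    rcases List.mem_cons.1 ha with rfl | ha
    · exact Or.inl (Or.inl rfl)
    rcases List.mem_append.1 ha with ha | ha
    · by_cases hQ : Q₁ = .edge
      · subst hQ
        obtain ⟨e, he⟩ := hF1
        simp only [List.cons.injEq] at he
        rw [he.2, ← he.1, hr, List.mem_singleton] at ha
        exact Or.inl (Or.inr (Or.inl ha))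
      · exact Or.inr (Or.inl (mem_Cv hr hF1 rfl hQ a (by simp [ha])))
    · by_cases hQ : Q₂ = .edge
      · subst hQ
        obtain ⟨e, he⟩ := hF2
        simp only [List.cons.injEq] at he
        rw [he.2, ← he.1, hr, List.mem_singleton] at ha
        exact Or.inl (Or.inr (Or.inr ha))
      · exact Or.inr (Or.inr (mem_Cv hr hF2 rfl hQ a (by simp [ha])))

lemma rev_mem_Cv (h : m.Pre) : ∀ {Q : Disc} {c : List ℕ} {d : ℕ} {t : List ℕ},
    m.Fills Q c → c = d :: t → ∀ a ∈ m.Cv Q d, m.rev a ∈ m.Cv Q d ∨ a ∈ c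
  | .edge, c, d, t, _, _ => by intro a ha; exact absurd ha (by simp [Cv])
  | .inner Q, c, d, t, ⟨d', t', hd, hin, _, hF⟩, hc => by
    have h0 := hc.symm.trans hd
    simp only [List.cons.injEq] at h0
    obtain ⟨rfl, rfl⟩ := h0
    have hQ : Q ≠ .edge := by
      rintro rfl
      obtain ⟨e, he⟩ := hF
      simp only [List.cons.injEq] at he
      have h1 : m.rev (m.nxt d) = m.nxt (m.nxt d) := by
        rw [he.2.1, ← he.1, h.rev_rev]
      have h2 := h.org_rev_nxt2 hin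
      rw [← h1, h.rev_rev, h.org_nxt _ hin] at h2
      exact h.no_loop _ hin h2
    intro a ha
    rcases ha with (rfl | rfl | rfl) | ha
    · right; rw [hc]; simp
    · left; right
      exact mem_Cv h.rev_rev hF rfl hQ _ (by simp)
    · left; right
      exact mem_Cv h.rev_rev hF rfl hQ _ (by simp)
    · rcases rev_mem_Cv h hF rfl a ha with h1 | h1
      · exact Or.inl (Or.inr h1)
      · rcases List.mem_cons.1 h1 with rfl | h1
        · left; left; rw [h.rev_rev]; exact Or.inr (Or.inr rfl)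
        · rcases List.mem_cons.1 h1 with rfl | h1
          · left; left; rw [h.rev_rev]; exact Or.inr (Or.inl rfl)
          · right; rw [hc]; simp [h1]
  | .split Q₁ Q₂, c, d, t, ⟨d', t₁, t₂, hd, hin, hF1, hF2⟩, hc => by
    have h0 := hc.symm.trans hd
    simp only [List.cons.injEq] at h0
    obtain ⟨rfl, rfl⟩ := h0
    intro a ha
    rcases ha with (rfl | rfl | rfl) | ha | ha
    · right; rw [hc]; simp
    · by_cases hQ : Q₁ = .edge
      · subst hQ
        obtain ⟨e, he⟩ := hF1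
        simp only [List.cons.injEq] at he
        right; rw [hc, he.2, ← he.1, h.rev_rev]; simp
      · left; right; left
        exact mem_Cv h.rev_rev hF1 rfl hQ _ (by simp)
    · by_cases hQ : Q₂ = .edge
      · subst hQ
        obtain ⟨e, he⟩ := hF2
        simp only [List.cons.injEq] at he
        right; rw [hc, he.2, ← he.1, h.rev_rev]; simp
      · left; right; right
        exact mem_Cv h.rev_rev hF2 rfl hQ _ (by simp)
    · rcases rev_mem_Cv h hF1 rfl a ha with h1 | h1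
      · exact Or.inl (Or.inr (Or.inl h1))
      · rcases List.mem_cons.1 h1 with rfl | h1
        · left; left; rw [h.rev_rev]; exact Or.inr (Or.inl rfl)
        · right; rw [hc]; simp [h1]
    · rcases rev_mem_Cv h hF2 rfl a ha with h1 | h1
      · exact Or.inl (Or.inr (Or.inr h1))
      · rcases List.mem_cons.1 h1 with rfl | h1
        · left; left; rw [h.rev_rev]; exact Or.inr (Or.inr rfl)
        · right; rw [hc]; simp [h1]

/-- a degenerate path is filled only by the degenerate polygon -/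
lemma IsHalfPlane.fills_deg (h : m.IsHalfPlane) {Q : Disc} {e : ℕ}
    (hF : m.Fills Q [e, m.rev e]) : Q = .edge := by
  by_contra hQ
  obtain ⟨h1, h2⟩ := Cv_tri h.pre hF rfl
  have h3 := mem_Cv h.rev_rev hF rfl hQ
  have h4 : m.Cv Q e = ∅ := by
    refine h.eq_empty h1 h2 ?_
    intro a ha _
    rcases rev_mem_Cv h.pre hF rfl a ha with h5 | h5
    · exact h5
    · simp only [List.mem_cons, List.not_mem_nil, or_false] at h5
      rcases h5 with rfl | rfl
      · exact h3 _ (by simp)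
      · rw [h.rev_rev]; exact h3 _ (by simp)
  have := h3 e (by simp)
  rw [h4] at this
  exact this

/-- filled by a code -/
structure Fl (m : PMap) (Q : Disc) (S : Set ℕ) (x : ℕ) (c : List ℕ) : Prop where
  fb : m.FB S x c
  fills : m.Fills Q c

lemma Fl.bd {Q : Disc} {S : Set ℕ} {x : ℕ} {c : List ℕ} (h : m.IsHalfPlane) (hF : m.Fl Q S x c)
    (hQ : Q ≠ .edge) : m.Bd S x c := by
  rcases hF.fb with ⟨e, -, rfl, -, -⟩ | hB
  · exact absurd (h.fills_deg hF.fills) hQ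
  · exact hB

lemma Fl.edge_eq {S : Set ℕ} {x : ℕ} {c : List ℕ} (h : m.IsHalfPlane) (hF : m.Fl .edge S x c) :
    S = ∅ := by
  rcases hF.fb with ⟨e, -, -, -, h1⟩ | hB
  · exact h1
  · exact absurd rfl (hB.ne_edge h.pre hF.fills)

lemma Fl.inner {Q : Disc} {S : Set ℕ} {x : ℕ} {c : List ℕ} (h : m.IsHalfPlane)
    (hF : m.Fl (.inner Q) S x c) : ∃ d t, c = d :: t ∧ m.Bd S x (d :: t) ∧ d ∈ m.In ∧
      m.Bd (S \ m.tri3 d) x (m.rev (m.nxt (m.nxt d)) :: m.rev (m.nxt d) :: t) ∧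
      m.Fills Q (m.rev (m.nxt (m.nxt d)) :: m.rev (m.nxt d) :: t) := by
  have hB := hF.bd h (by simp)
  obtain ⟨d, t, rfl, hd, hz, hF'⟩ := hF.fills
  exact ⟨d, t, rfl, hB, hd, hB.inner h.pre hz, hF'⟩

lemma Fl.split {Q₁ Q₂ : Disc} {S : Set ℕ} {x : ℕ} {c : List ℕ} (h : m.IsHalfPlane)
    (hF : m.Fl (.split Q₁ Q₂) S x c) : ∃ d t₁ t₂ S₁ S₂, c = d :: (t₁ ++ t₂) ∧
      m.Bd S x (d :: (t₁ ++ t₂)) ∧ d ∈ m.In ∧ S = m.tri3 d ∪ (S₁ ∪ S₂) ∧
      Disjoint (m.tri3 d) S₁ ∧ Disjoint (m.tri3 d) S₂ ∧ Disjoint S₁ S₂ ∧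
      m.Fl Q₁ S₁ (m.org (m.nxt (m.nxt d))) (m.rev (m.nxt d) :: t₁) ∧
      m.Fl Q₂ S₂ x (m.rev (m.nxt (m.nxt d)) :: t₂) := by
  have hB := hF.bd h (by simp)
  obtain ⟨d, t₁, t₂, rfl, hd, hF1, hF2⟩ := hF.fills
  have h1 := Fills.path h.pre hF1 (h.pre.rev_mem_E_of_mem (h.nxt_mem _ hd))
  have h2 := Fills.path h.pre hF2 (h.pre.rev_mem_E_of_mem (h.pre.nxt2_mem hd))
  rw [h.rev_rev, h.pre.org_rev_nxt hd, h.org_nxt _ hd] at h1
  rw [h.rev_rev, h.pre.org_rev_nxt2 hd, show m.org d = x from hB.path.2.1] at h2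
  obtain ⟨S₁, S₂, a1, a2, a3, a4, a5, a6⟩ := hB.split h h1 h2
  exact ⟨d, t₁, t₂, S₁, S₂, rfl, hB, hd, a1, a2, a3, a4, ⟨a5, hF1⟩, ⟨a6, hF2⟩⟩

/-- matching of the darts of two triangles -/
def M3 (m g : PMap) (d d' a b : ℕ) : Prop :=
  (a = d ∧ b = d') ∨ (a = m.nxt d ∧ b = g.nxt d') ∨ (a = m.nxt (m.nxt d) ∧ b = g.nxt (g.nxt d'))

/-- matching of the darts of two polygons with the same code -/
def Mt (m g : PMap) : Disc → ℕ → ℕ → ℕ → ℕ → Prop
  | .edge, _, _, _, _ => False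
  | .inner Q, d, d', a, b => M3 m g d d' a b ∨
      Mt m g Q (m.rev (m.nxt (m.nxt d))) (g.rev (g.nxt (g.nxt d'))) a b
  | .split Q₁ Q₂, d, d', a, b => M3 m g d d' a b ∨
      Mt m g Q₁ (m.rev (m.nxt d)) (g.rev (g.nxt d')) a b ∨
      Mt m g Q₂ (m.rev (m.nxt (m.nxt d))) (g.rev (g.nxt (g.nxt d'))) a b

lemma M3_symm {d d' a b : ℕ} : M3 m g d d' a b ↔ M3 g m d' d b a := by
  simp only [M3]; tauto

lemma Mt_symm : ∀ {Q : Disc} {d d' a b : ℕ}, Mt m g Q d d' a b ↔ Mt g m Q d' d b a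
  | .edge, _, _, _, _ => Iff.rfl
  | .inner Q, d, d', a, b => by simp only [Mt]; rw [M3_symm, Mt_symm]
  | .split Q₁ Q₂, d, d', a, b => by
    simp only [Mt]; rw [M3_symm, Mt_symm, Mt_symm (Q := Q₂)]

lemma M3_tri {d d' a b : ℕ} (h : M3 m g d d' a b) : a ∈ m.tri3 d := by
  rcases h with h | h | h
  · exact Or.inl h.1
  · exact Or.inr (Or.inl h.1)
  · exact Or.inr (Or.inr h.1)

lemma exists_M3 {d a : ℕ} (d' : ℕ) (h : a ∈ m.tri3 d) : ∃ b, M3 m g d d' a b := by
  rcases h with h | h | h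
  · exact ⟨_, Or.inl ⟨h, rfl⟩⟩
  · exact ⟨_, Or.inr (Or.inl ⟨h, rfl⟩)⟩
  · exact ⟨_, Or.inr (Or.inr ⟨h, rfl⟩)⟩

lemma tri3_ne (h : m.Pre) {d : ℕ} (hd : d ∈ m.In) : d ≠ m.nxt d ∧ d ≠ m.nxt (m.nxt d) ∧
    m.nxt d ≠ m.nxt (m.nxt d) := by
  refine ⟨?_, ?_, ?_⟩
  · intro h3
    have h4 := h.org_nxt d hd
    rw [← h3] at h4
    exact h.no_loop d hd h4.symm
  · intro h3
    have h4 := h.third_ne_org hd
    rw [← h3] at h4
    exact h4 rfl
  · intro h3
    have h4 := h.third_ne_target hd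
    rw [← h3, h.org_nxt d hd] at h4
    exact h4 rfl

lemma M3_fun (h : m.Pre) {d d' a b b' : ℕ} (hd : d ∈ m.In) (h1 : M3 m g d d' a b)
    (h2 : M3 m g d d' a b') : b = b' := by
  obtain ⟨n1, n2, n3⟩ := tri3_ne h hd
  rcases h1 with ⟨rfl, rfl⟩ | ⟨rfl, rfl⟩ | ⟨rfl, rfl⟩ <;>
    rcases h2 with ⟨h3, rfl⟩ | ⟨h3, rfl⟩ | ⟨h3, rfl⟩
  · rfl
  · exact absurd h3 n1
  · exact absurd h3 n2
  · exact absurd h3.symm n1
  · rfl
  · exact absurd h3 n3
  · exact absurd h3.symm n2
  · exact absurd h3.symm n3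
  · rfl

lemma M3_nxt (h : m.Pre) (h' : g.Pre) {d d' a b : ℕ} (hd : d ∈ m.In) (hd' : d' ∈ g.In)
    (h1 : M3 m g d d' a b) : M3 m g d d' (m.nxt a) (g.nxt b) := by
  rcases h1 with ⟨rfl, rfl⟩ | ⟨rfl, rfl⟩ | ⟨rfl, rfl⟩
  · exact Or.inr (Or.inl ⟨rfl, rfl⟩)
  · exact Or.inr (Or.inr ⟨rfl, rfl⟩)
  · exact Or.inl ⟨h.nxt_nxt_nxt _ hd, h'.nxt_nxt_nxt _ hd'⟩

/-- the reversal of the second and third darts of the triangle are not in the triangle -/
lemma rev_nxt_notMem (h : m.Pre) {d : ℕ} (hd : d ∈ m.In) {S : Set ℕ} (hS : m.nxt d ∈ S)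
    (hS' : m.nxt (m.nxt d) ∈ S) (hdr : m.rev d ∉ S) :
    m.rev (m.nxt d) ∉ m.tri3 d ∧ m.rev (m.nxt (m.nxt d)) ∉ m.tri3 d := by
  have hn := h.nxt_mem _ hd
  have hnn := h.nxt2_mem hd
  constructor
  · rintro (h1 | h1 | h1)
    · apply hdr; rw [← h1, h.rev_rev]; exact hS
    · exact h.no_loop' (mem_E_of_mem hn) (by rw [h1])
    · have h3 : m.org (m.rev (m.nxt (m.nxt d))) = m.org (m.nxt d) := by
        rw [← h1, h.rev_rev]
      rw [h.org_rev_nxt2 hd, h.org_nxt d hd] at h3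
      exact h.no_loop d hd h3.symm
  · rintro (h1 | h1 | h1)
    · apply hdr; rw [← h1, h.rev_rev]; exact hS'
    · have h2 := h.org_rev_nxt2 hd
      rw [h1, h.org_nxt d hd] at h2
      exact h.no_loop d hd h2
    · exact h.no_loop' (mem_E_of_mem hnn) (by rw [h1])

/-- properties of the matching -/
structure MtSpec (m g : PMap) (Q : Disc) (S : Set ℕ) (c c' : List ℕ) (d d' : ℕ) : Prop where
  dom : ∀ a b, Mt m g Q d d' a b → a ∈ S
  tot : ∀ a ∈ S, ∃ b, Mt m g Q d d' a b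
  func : ∀ a b b', Mt m g Q d d' a b → Mt m g Q d d' a b' → b = b'
  nxt : ∀ a b, Mt m g Q d d' a b → Mt m g Q d d' (m.nxt a) (g.nxt b)
  zip : ∀ q ∈ c.zip c', q.1 ∈ S → Mt m g Q d d' q.1 q.2
  rev : ∀ a b, Mt m g Q d d' a b → m.rev a ∈ S → Mt m g Q d d' (m.rev a) (g.rev b)

theorem mtSpec (h : m.IsHalfPlane) (h' : g.IsHalfPlane) : ∀ {Q : Disc} {S S' : Set ℕ}
    {x x' : ℕ} {c c' : List ℕ} {d d' : ℕ} {t t' : List ℕ}, m.Fl Q S x c → g.Fl Q S' x' c' →
    c = d :: t → c' = d' :: t' → MtSpec m g Q S c c' d d'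
  | .edge, S, S', x, x', c, c', d, d', t, t', hF, hF', hc, hc' => by
    have hS := hF.edge_eq h
    subst hS
    exact ⟨fun _ _ h => h.elim, fun a ha => absurd ha (by simp), fun _ _ _ h => h.elim,
      fun _ _ h => h.elim, fun q _ hq => absurd hq (by simp), fun _ _ h => h.elim⟩
  | .inner Q, S, S', x, x', c, c', d, d', t, t', hF, hF', hc, hc' => by
    obtain ⟨d₁, t₁, h0, hB, hd, hBs, hFs⟩ := hF.inner h
    obtain ⟨d₁', t₁', h0', hB', hd', hBs', hFs'⟩ := hF'.inner h'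
    rw [hc, List.cons.injEq] at h0
    rw [hc', List.cons.injEq] at h0'
    obtain ⟨rfl, rfl⟩ := h0
    obtain ⟨rfl, rfl⟩ := h0'
    have hp := h.pre
    have hp' := h'.pre
    obtain ⟨hdS, hdr⟩ := hB.head_mem
    have hnS := hB.tri.nxt_mem hdS
    have hnnS := hB.tri.nxt_mem hnS
    obtain ⟨hr1, hr2⟩ := rev_nxt_notMem hp hd hnS hnnS hdr
    have htri3 : m.tri3 d ⊆ S := tri3_subset hB.tri hdS
    have M := mtSpec h h' ⟨Or.inr hBs, hFs⟩ ⟨Or.inr hBs', hFs'⟩ rfl rfl
    subst hc hc'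
    have hsub1 : Mt m g Q (m.rev (m.nxt (m.nxt d))) (g.rev (g.nxt (g.nxt d')))
        (m.rev (m.nxt (m.nxt d))) (g.rev (g.nxt (g.nxt d'))) :=
      M.zip (m.rev (m.nxt (m.nxt d)), g.rev (g.nxt (g.nxt d'))) (by simp)
        ((hBs.bdry _).2 (by simp)).1
    have hsub2 : Mt m g Q (m.rev (m.nxt (m.nxt d))) (g.rev (g.nxt (g.nxt d')))
        (m.rev (m.nxt d)) (g.rev (g.nxt d')) :=
      M.zip (m.rev (m.nxt d), g.rev (g.nxt d')) (by simp) ((hBs.bdry _).2 (by simp)).1
    refine ⟨?_, ?_, ?_, ?_, ?_, ?_⟩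
    · rintro a b (hab | hab)
      · exact htri3 (M3_tri hab)
      · exact (M.dom a b hab).1
    · intro a ha
      by_cases h1 : a ∈ m.tri3 d
      · obtain ⟨b, hb⟩ := exists_M3 (g := g) d' h1
        exact ⟨b, Or.inl hb⟩
      · obtain ⟨b, hb⟩ := M.tot a ⟨ha, h1⟩
        exact ⟨b, Or.inr hb⟩
    · rintro a b b' (hab | hab) (hab' | hab')
      · exact M3_fun hp hd hab hab'
      · exact absurd (M3_tri hab) (M.dom _ _ hab').2
      · exact absurd (M3_tri hab') (M.dom _ _ hab).2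
      · exact M.func a b b' hab hab'
    · rintro a b (hab | hab)
      · exact Or.inl (M3_nxt hp hp' hd hd' hab)
      · exact Or.inr (M.nxt a b hab)
    · rintro ⟨a, b⟩ hab ha
      rw [List.zip_cons_cons, List.mem_cons] at hab
      rcases hab with hab | hab
      · rw [Prod.mk.injEq] at hab
        exact Or.inl (Or.inl hab)
      · right
        refine M.zip (a, b) (by simp [hab]) ?_
        have hat : a ∈ t := (List.of_mem_zip hab).1
        exact ((hBs.bdry a).2 (by simp [hat])).1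
    · rintro a b (hab | hab) hra
      · rcases hab with ⟨rfl, rfl⟩ | ⟨rfl, rfl⟩ | ⟨rfl, rfl⟩
        · exact absurd hra hdr
        · exact Or.inr hsub2
        · exact Or.inr hsub1
      · have haS := M.dom a b hab
        by_cases h1 : m.rev a ∈ m.tri3 d
        · have h2 : a ∈ m.rev (m.nxt (m.nxt d)) :: m.rev (m.nxt d) :: t :=
            (hBs.bdry a).1 ⟨haS, fun h3 => h3.2 h1⟩
          rcases List.mem_cons.1 h2 with rfl | h2
          · have hb := M.func _ _ _ hab hsub1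
            rw [hb, hp.rev_rev, hp'.rev_rev]
            exact Or.inl (Or.inr (Or.inr ⟨rfl, rfl⟩))
          · rcases List.mem_cons.1 h2 with rfl | h2
            · have hb := M.func _ _ _ hab hsub2
              rw [hb, hp.rev_rev, hp'.rev_rev]
              exact Or.inl (Or.inr (Or.inl ⟨rfl, rfl⟩))
            · exact absurd hra ((hB.bdry a).2 (by simp [h2])).2
        · exact Or.inr (M.rev a b hab ⟨hra, h1⟩)
  | .split Q₁ Q₂, S, S', x, x', c, c', d, d', t, t', hF, hF', hc, hc' => by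
    obtain ⟨d₁, t₁, t₂, S₁, S₂, h0, hB, hd, hS, hd1, hd2, hd12, hF1, hF2⟩ := hF.split h
    obtain ⟨d₁', t₁', t₂', S₁', S₂', h0', hB', hd', hS', hd1', hd2', hd12', hF1', hF2'⟩ :=
      hF'.split h'
    rw [hc, List.cons.injEq] at h0
    rw [hc', List.cons.injEq] at h0'
    obtain ⟨rfl, rfl⟩ := h0
    obtain ⟨rfl, rfl⟩ := h0'
    have hp := h.pre
    have hp' := h'.pre
    obtain ⟨hdS, hdr⟩ := hB.head_mem
    have hnS := hB.tri.nxt_mem hdS
    have hnnS := hB.tri.nxt_mem hnS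
    obtain ⟨hr1, hr2⟩ := rev_nxt_notMem hp hd hnS hnnS hdr
    have htri3 : m.tri3 d ⊆ S := tri3_subset hB.tri hdS
    have M1 := mtSpec h h' hF1 hF1' rfl rfl
    have M2 := mtSpec h h' hF2 hF2' rfl rfl
    subst hc hc'
    have hlen : t₁.length = t₁'.length := by
      have h1 := hF1.fills.length
      have h2 := hF1'.fills.length
      simp only [List.length_cons] at h1 h2
      omega
    have hs1 : S₁ ⊆ S := by rw [hS]; intro a ha; exact Or.inr (Or.inl ha)
    have hs2 : S₂ ⊆ S := by rw [hS]; intro a ha; exact Or.inr (Or.inr ha)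
    have hdj1 : ∀ a, a ∈ m.tri3 d → a ∈ S₁ → False := fun a h1 h2 =>
      Set.disjoint_left.1 hd1 h1 h2
    have hdj2 : ∀ a, a ∈ m.tri3 d → a ∈ S₂ → False := fun a h1 h2 =>
      Set.disjoint_left.1 hd2 h1 h2
    have hdj12 : ∀ a, a ∈ S₁ → a ∈ S₂ → False := fun a h1 h2 => Set.disjoint_left.1 hd12 h1 h2
    have hcov : ∀ a ∈ S, a ∈ m.tri3 d ∨ a ∈ S₁ ∨ a ∈ S₂ := fun a ha => by rw [hS] at ha; exact ha
    -- boundaries of the pieces
    have hb1 : ∀ a, a ∈ S₁ → m.rev a ∉ S₁ → a = m.rev (m.nxt d) ∨ a ∈ t₁ := by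
      intro a ha ha'
      rcases hF1.fb with ⟨e, -, -, -, h1⟩ | hBB
      · rw [h1] at ha; exact absurd ha (by simp)
      · exact List.mem_cons.1 ((hBB.bdry a).1 ⟨ha, ha'⟩)
    have hb2 : ∀ a, a ∈ S₂ → m.rev a ∉ S₂ → a = m.rev (m.nxt (m.nxt d)) ∨ a ∈ t₂ := by
      intro a ha ha'
      rcases hF2.fb with ⟨e, -, -, -, h1⟩ | hBB
      · rw [h1] at ha; exact absurd ha (by simp)
      · exact List.mem_cons.1 ((hBB.bdry a).1 ⟨ha, ha'⟩)
    have hrt1 : ∀ a ∈ t₁, m.rev a ∉ S := fun a ha => ((hB.bdry a).2 (by simp [ha])).2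
    have hrt2 : ∀ a ∈ t₂, m.rev a ∉ S := fun a ha => ((hB.bdry a).2 (by simp [ha])).2
    have hz1 : m.rev (m.nxt d) ∈ S₁ →
        Mt m g Q₁ (m.rev (m.nxt d)) (g.rev (g.nxt d')) (m.rev (m.nxt d)) (g.rev (g.nxt d')) :=
      fun h1 => M1.zip (m.rev (m.nxt d), g.rev (g.nxt d')) (by simp) h1
    have hz2 : m.rev (m.nxt (m.nxt d)) ∈ S₂ →
        Mt m g Q₂ (m.rev (m.nxt (m.nxt d))) (g.rev (g.nxt (g.nxt d')))
          (m.rev (m.nxt (m.nxt d))) (g.rev (g.nxt (g.nxt d'))) :=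
      fun h1 => M2.zip (m.rev (m.nxt (m.nxt d)), g.rev (g.nxt (g.nxt d'))) (by simp) h1
    have hn3 : m.nxt d ∈ m.tri3 d := Or.inr (Or.inl rfl)
    have hnn3 : m.nxt (m.nxt d) ∈ m.tri3 d := Or.inr (Or.inr rfl)
    -- where the reversals of the second and third darts are
    have hw1 : m.rev (m.nxt d) ∈ S → m.rev (m.nxt d) ∈ S₁ := by
      intro h1
      rcases hcov _ h1 with h2 | h2 | h2
      · exact absurd h2 hr1
      · exact h2
      · exfalso
        rcases hb2 _ h2 (by rw [hp.rev_rev]; exact fun h3 => hdj2 _ hn3 h3) with h3 | h3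
        · exact (tri3_ne hp hd).2.2 (hp.rev_inj h3)
        · exact hrt2 _ h3 (by rw [hp.rev_rev]; exact hnS)
    have hw2 : m.rev (m.nxt (m.nxt d)) ∈ S → m.rev (m.nxt (m.nxt d)) ∈ S₂ := by
      intro h1
      rcases hcov _ h1 with h2 | h2 | h2
      · exact absurd h2 hr2
      · exfalso
        rcases hb1 _ h2 (by rw [hp.rev_rev]; exact fun h3 => hdj1 _ hnn3 h3) with h3 | h3
        · exact (tri3_ne hp hd).2.2 (hp.rev_inj h3).symm
        · exact hrt1 _ h3 (by rw [hp.rev_rev]; exact hnnS)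
      · exact h2
    refine ⟨?_, ?_, ?_, ?_, ?_, ?_⟩
    · rintro a b (hab | hab | hab)
      · exact htri3 (M3_tri hab)
      · exact hs1 (M1.dom a b hab)
      · exact hs2 (M2.dom a b hab)
    · intro a ha
      rcases hcov a ha with h1 | h1 | h1
      · obtain ⟨b, hb⟩ := exists_M3 (g := g) d' h1
        exact ⟨b, Or.inl hb⟩
      · obtain ⟨b, hb⟩ := M1.tot a h1
        exact ⟨b, Or.inr (Or.inl hb)⟩
      · obtain ⟨b, hb⟩ := M2.tot a h1
        exact ⟨b, Or.inr (Or.inr hb)⟩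
    · rintro a b b' (hab | hab | hab) (hab' | hab' | hab')
      · exact M3_fun hp hd hab hab'
      · exact (hdj1 _ (M3_tri hab) (M1.dom _ _ hab')).elim
      · exact (hdj2 _ (M3_tri hab) (M2.dom _ _ hab')).elim
      · exact (hdj1 _ (M3_tri hab') (M1.dom _ _ hab)).elim
      · exact M1.func a b b' hab hab'
      · exact (hdj12 _ (M1.dom _ _ hab) (M2.dom _ _ hab')).elim
      · exact (hdj2 _ (M3_tri hab') (M2.dom _ _ hab)).elim
      · exact (hdj12 _ (M1.dom _ _ hab') (M2.dom _ _ hab)).elim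
      · exact M2.func a b b' hab hab'
    · rintro a b (hab | hab | hab)
      · exact Or.inl (M3_nxt hp hp' hd hd' hab)
      · exact Or.inr (Or.inl (M1.nxt a b hab))
      · exact Or.inr (Or.inr (M2.nxt a b hab))
    · rintro ⟨a, b⟩ hab ha
      rw [List.zip_cons_cons, List.mem_cons, List.zip_append hlen, List.mem_append] at hab
      rcases hab with hab | hab | hab
      · rw [Prod.mk.injEq] at hab
        exact Or.inl (Or.inl hab)
      · have hat : a ∈ t₁ := (List.of_mem_zip hab).1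
        by_cases hQ : Q₁ = .edge
        · -- degenerate
          subst hQ
          obtain ⟨e, he⟩ := hF1.fills
          obtain ⟨e', he'⟩ := hF1'.fills
          rw [List.cons.injEq] at he he'
          rw [he.2, he'.2, ← he.1, ← he'.1, hp.rev_rev, hp'.rev_rev] at hab
          simp only [List.zip_cons_cons, List.zip_nil_right, List.mem_singleton,
            Prod.mk.injEq] at hab
          exact Or.inl (Or.inr (Or.inl hab))
        · right; left
          have hBB := hF1.bd h hQ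
          exact M1.zip (a, b) (by simp [hab]) ((hBB.bdry a).2 (by simp [hat])).1
      · have hat : a ∈ t₂ := (List.of_mem_zip hab).1
        by_cases hQ : Q₂ = .edge
        · subst hQ
          obtain ⟨e, he⟩ := hF2.fills
          obtain ⟨e', he'⟩ := hF2'.fills
          rw [List.cons.injEq] at he he'
          rw [he.2, he'.2, ← he.1, ← he'.1, hp.rev_rev, hp'.rev_rev] at hab
          simp only [List.zip_cons_cons, List.zip_nil_right, List.mem_singleton,
            Prod.mk.injEq] at hab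
          exact Or.inl (Or.inr (Or.inr hab))
        · right; right
          have hBB := hF2.bd h hQ
          exact M2.zip (a, b) (by simp [hab]) ((hBB.bdry a).2 (by simp [hat])).1
    · rintro a b (hab | hab | hab) hra
      · rcases hab with ⟨rfl, rfl⟩ | ⟨rfl, rfl⟩ | ⟨rfl, rfl⟩
        · exact absurd hra hdr
        · exact Or.inr (Or.inl (hz1 (hw1 hra)))
        · exact Or.inr (Or.inr (hz2 (hw2 hra)))
      · have haS := M1.dom a b hab
        by_cases h1 : m.rev a ∈ S₁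
        · exact Or.inr (Or.inl (M1.rev a b hab h1))
        · rcases hb1 a haS h1 with rfl | h2
          · have hb := M1.func _ _ _ hab (hz1 haS)
            rw [hb, hp.rev_rev, hp'.rev_rev]
            exact Or.inl (Or.inr (Or.inl ⟨rfl, rfl⟩))
          · exact absurd hra (hrt1 a h2)
      · have haS := M2.dom a b hab
        by_cases h1 : m.rev a ∈ S₂
        · exact Or.inr (Or.inr (M2.rev a b hab h1))
        · rcases hb2 a haS h1 with rfl | h2
          · have hb := M2.func _ _ _ hab (hz2 haS)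
            rw [hb, hp.rev_rev, hp'.rev_rev]
            exact Or.inl (Or.inr (Or.inr ⟨rfl, rfl⟩))
          · exact absurd hra (hrt2 a h2)

end PMap

end Pool.Agent.Helper97.Speed
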