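import Pool.Agent.Helper97.Speed.Past
import Pool.Agent.Helper86.Speed.Ports

/-! # The joint law of the half-plane and the ports; definitions for the regeneration structure -/

namespace Pool.Agent.Helper97.Speed

open MeasureTheory
open scoped ENNReal

namespace PMap

variable {m m₁ m₂ g g₁ g₂ : PMap}

lemma RIso.dg_start {φ : ℕ → ℕ} {T T' : Finset ℕ} (I : RIso φ m m₂ g g₂ T T') {k : ℕ}
    {w : List ℕ} (hw : w.length < k) (hsub : m₂.In ⊆ (exh m k).In) :
    g.dg (g.bd 0) w = m.dg (m.bd 0) w := by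
  obtain ⟨k, rfl⟩ : ∃ k', k = k' + 1 := ⟨k - 1, by omega⟩
  obtain ⟨j, b, n, S, R, hS, hr⟩ := exh_ok I.n1.hp (k := k) (w := w) (by omega)
  have hsw := exh_step I.n1.hp k R hS hr
  obtain ⟨j', b', n', S', R', hS', -⟩ := exh_reg I.n1.hp (k + 1)
  obtain ⟨S'', RG, I1⟩ := (Stage.exh I (k + 1) hsub).iso_left R'
  have h1 := I1.deg (R'.mem_X_of_sw hsw (R.nest.X_E hr) rfl) hsw
  rw [dg, dg, I.dart_start (k := k + 1) (by omega) hsub]
  exact h1

/-- number of darts of the triangles of the hull of the root vertex -/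
noncomputable def hs (m : PMap) : ℕ := (m.In \ (m.explore 0).In).ncard

/-- smallest isoperimetric threshold -/
noncomputable def thr (M : ℕ) (m : PMap) : ℕ := sInf {N | m.Thr M N}

/-- a rule for removing a region, which only depends on the region -/
structure Stopping (F : PMap → PMap) : Prop where
  reg : ∀ m, m.IsHalfPlane → ∃ (j : ℤ) (b n : ℕ) (T : Finset ℕ), Reg m (F m) j b n T
  loc : ∀ m g g₂ φ T T', RIso φ m (F m) g g₂ T T' → Far g g₂ → F g = g₂

/-- the removed regions are isomorphic -/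
def SameR (F : PMap → PMap) (m g : PMap) : Prop := ∃ φ T T', RIso φ m (F m) g (F g) T T'

end PMap

open PMap

/-- the remaining half-plane -/
def PMap.Stopping.toH {F : PMap → PMap} (hF : PMap.Stopping F) (h : HalfPlane) : HalfPlane :=
  ⟨F h.1, by obtain ⟨j, b, n, T, R⟩ := hF.reg h.1 h.2; exact R.hp₂⟩

lemma measurable_dg (w : List ℕ) : Measurable (fun h : HalfPlane => h.1.dg (r0 w h)) := by
  rw [measurable_pi_iff]
  intro v
  refine measurable_of_loc ?_
  intro h
  refine ⟨(w ++ v).length + 1, ?_⟩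
  rintro g ⟨φ, T, T', I⟩
  have := I.dg_start (w := w ++ v) (Nat.lt_succ_self _) subset_rfl
  rw [dg_append, dg_append] at this
  exact this

/-- the law of the ports of a walk started from the dart given by the word `w` -/
noncomputable def kern (w : List ℕ) : ProbabilityTheory.Kernel HalfPlane (ℕ → ℕ) :=
  ⟨fun h => ports (h.1.dg (r0 w h)), measurable_ports.comp (measurable_dg w)⟩

lemma kern_apply (w : List ℕ) (h : HalfPlane) : kern w h = ports (h.1.dg (r0 w h)) := rfl

lemma r0_mem (w : List ℕ) (h : HalfPlane) : r0 w h ∈ h.1.E :=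
  h.2.pre.dart_mem (mem_E_of_mem (h.2.bd_mem 0)) w

lemma dg_r0_pos (w : List ℕ) (h : HalfPlane) (v : List ℕ) : 0 < h.1.dg (r0 w h) v :=
  h.2.pre.dg_pos (r0_mem w h) v

instance (w : List ℕ) : ProbabilityTheory.IsMarkovKernel (kern w) :=
  ⟨fun h => isProbabilityMeasure_ports (dg_r0_pos w h)⟩

/-- the joint law of the half-plane and of the ports -/
noncomputable def law (P : Measure HalfPlane) (w : List ℕ) : Measure (HalfPlane × (ℕ → ℕ)) :=
  P.compProd (kern w)

/-- the walk visits the boundary of the remaining map at time `n` -/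
def Fresh (k : ℕ) (w : List ℕ) (n : ℕ) (p : HalfPlane × (ℕ → ℕ)) : Prop :=
  (EE k w p n).OnBd (xx w p n)

/-- candidate time -/
def Candi (k : ℕ) (w : List ℕ) (n : ℕ) (p : HalfPlane × (ℕ → ℕ)) : Prop :=
  Cand p.1.1 (EE k w p n) (rr w p n)

/-- the index of the vertex at time `n` in the boundary of the remaining map -/
noncomputable def ix (k : ℕ) (w : List ℕ) (n : ℕ) (p : HalfPlane × (ℕ → ℕ)) : ℤ :=
  (EE k w p n).idx (xx w p n)

/-- regeneration time -/
def RegT (k : ℕ) (w : List ℕ) (n : ℕ) : Set (HalfPlane × (ℕ → ℕ)) :=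
  {p | Candi k w n p ∧ 1 ≤ p.2 n ∧ p.2 n < p.1.1.deg (xx w p n) ∧
    ∀ i, n < i → ¬ (EE k w p n).OnBd (xx w p i)}

/-- the shifted pair -/
noncomputable def Sft {k : ℕ} {w : List ℕ} (hw : w.length ≤ k) (n : ℕ)
    (p : HalfPlane × (ℕ → ℕ)) : HalfPlane × (ℕ → ℕ) :=
  ((EH hw n p).shift (ix k w n p), cns (p.2 n - 1) (sh (n + 1) p.2))

/-- the walk does not return to the boundary -/
def Away : Set (HalfPlane × (ℕ → ℕ)) :=
  {p | ∀ i, 1 ≤ i → ¬ p.1.1.OnBd (p.1.1.pos (p.1.1.bd 0) p.2 i)}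

end Pool.Agent.Helper97.Speed
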