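import Pool.Agent.Helper97.Speed.HasT

/-! # The local σ-algebra -/

namespace Pool.Agent.Helper97.Speed

open MeasureTheory

deriving instance Countable for Disc

/-- codes of regions: position, number of additional base edges, number of outer edges, code -/
abbrev Cd := ℤ × ℕ × ℕ × Disc

namespace PMap

variable {m m₁ m₂ g g₁ g₂ : PMap}

/-- `m'` is obtained from `m` by removing the region with code `C` -/
def SubC (m : PMap) (C : Cd) (m' : PMap) : Prop := m.Sub C.1 0 C.2.1 C.2.2.1 C.2.2.2 m'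

end PMap

/-- good codes -/
def Cd.Good (C : Cd) : Prop := 0 < C.2.2.1 ∧ C.2.2.2.WF ∧ C.2.2.2.per = 0 + 1 + C.2.1 + C.2.2.1

namespace PMap

variable {m m₁ m₂ g g₁ g₂ : PMap}

lemma Reg.exists_subC {j : ℤ} {b n : ℕ} {T : Finset ℕ} (R : Reg m m₂ j b n T) :
    ∃ C : Cd, C.Good ∧ m.SubC C m₂ ∧ C.1 = j ∧ C.2.1 + 1 = b ∧ C.2.2.1 = n ∧
      3 * C.2.2.2.faces = T.card := by
  obtain ⟨Q, hQ, hW, hp, hf⟩ := R.exists_sub 0 R.posb
  have h1 := R.posb
  have e1 : j + ((0 : ℕ) : ℤ) = j := by simp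
  rw [e1] at hQ
  refine ⟨(j, b - 1 - 0, n, Q), ⟨R.posn, hW, ?_⟩, hQ, rfl, ?_, rfl, hf⟩
  · simp only; omega
  · simp only; omega

lemma SubC.unique (h : m.IsHalfPlane) {C : Cd} (h1 : m.SubC C m₁) (h2 : m.SubC C m₂) : m₁ = m₂ :=
  Sub.unique h h1 h2

/-- `m` and `g` look the same in the `k`-th region of the exhaustion. -/
def LocEq (k : ℕ) (m g : PMap) : Prop := ∃ φ T T', RIso φ m (exh m k) g (exh g k) T T'

lemma RIso.locEq {φ : ℕ → ℕ} {T T' : Finset ℕ} (I : RIso φ m m₂ g g₂ T T') {k : ℕ}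
    (hsub : m₂.In ⊆ (exh m k).In) : ∃ S S', RIso φ m (exh m k) g (exh g k) S S' := by
  have st := Stage.exh I k hsub
  obtain ⟨j, b, n, S, R, hS, -⟩ := exh_reg I.n1.hp k
  obtain ⟨S', RG, I1⟩ := st.iso_left R
  exact ⟨S, S', I1⟩

lemma RIso.exh_eq {φ : ℕ → ℕ} {T T' : Finset ℕ} {k : ℕ} (I : RIso φ m (exh m k) g g₂ T T')
    (hg : Far g g₂) : exh g k = g₂ := (Stage.exh I k subset_rfl).final hg

lemma LocEq.mono {k k' : ℕ} (hk : k ≤ k') (h : LocEq k' m g) : LocEq k m g := by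
  obtain ⟨φ, T, T', I⟩ := h
  obtain ⟨S, S', I1⟩ := I.locEq (exh_mono I.n1.hp hk)
  exact ⟨φ, S, S', I1⟩

lemma exh_far (h : m.IsHalfPlane) (k : ℕ) : Far m (exh m k) := by
  obtain ⟨j, b, n, S, R, -⟩ := exh_reg h k
  exact R.far

lemma exh_isHalfPlane (h : m.IsHalfPlane) (k : ℕ) : (exh m k).IsHalfPlane := by
  obtain ⟨j, b, n, S, R, -⟩ := exh_reg h k
  exact R.hp₂

lemma exh_atom {C : Cd} {k : ℕ} (h : m.IsHalfPlane) (h' : g.IsHalfPlane)
    (hh : m.SubC C (exh m k)) (hg : g.SubC C g₂) : exh g k = g₂ ∧ LocEq k m g := by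
  obtain ⟨φ, T, T', I, R, R'⟩ := Sub.exists_iso h h' hh hg
  have h1 := I.exh_eq R'.far
  refine ⟨h1, φ, T, T', ?_⟩
  rw [h1]; exact I

lemma exh_subset {F : Finset ℕ} (h : m.IsHalfPlane) (hF : ∀ d ∈ F, d ∈ m.In) {m₁ : PMap}
    (h1 : m₁.In = m.In \ (F : Set ℕ)) : ∃ k, ∀ k' ≥ k, (exh m k').In ⊆ m₁.In := by
  obtain ⟨k, hk⟩ := exh_exhausts_finset h F hF
  refine ⟨k, fun k' hk' d hd => ?_⟩
  rw [h1]
  refine ⟨?_, fun h2 => hk d h2 (exh_mono h hk' hd)⟩
  obtain ⟨j, b, n, S, R, -⟩ := exh_reg h k'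
  rw [R.In] at hd; exact hd.1

/-- the events `Sub` are local -/
lemma Sub.loc (h : m.IsHalfPlane) {l : ℤ} {a b n : ℕ} {Q : Disc} (hS : m.Sub l a b n Q m₁) :
    ∃ k, ∀ g, LocEq k m g → ∃ g₁, g.Sub l a b n Q g₁ := by
  obtain ⟨T, R, -⟩ := hS.reg h
  obtain ⟨k, hk⟩ := exh_subset h (fun d hd => (R.tri d hd).1) R.In
  refine ⟨k, ?_⟩
  rintro g ⟨φ, S, S', I⟩
  obtain ⟨S, g₁, hg, -⟩ := hS.transfer I (hk k le_rfl)
  exact ⟨g₁, hg⟩

end PMap

/-- the event that the region with code `C` is present -/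
def HasC (C : Cd) : Set HalfPlane := {h | ∃ m', h.1.SubC C m'}

lemma measurableSet_has (l : ℤ) (a b n : ℕ) (Q : Disc) : MeasurableSet (Has l a b n Q) :=
  MeasurableSpace.measurableSet_generateFrom ⟨l, a, b, n, Q, rfl⟩

lemma measurableSet_hasC (C : Cd) : MeasurableSet (HasC C) := measurableSet_has _ _ _ _ _

/-- atoms -/
def atom (k : ℕ) (C : Cd) : Set HalfPlane := {h | h.1.SubC C (h.1.exh k)}

lemma atom_eq {k : ℕ} {C : Cd} {h : HalfPlane} (hh : h ∈ atom k C) : atom k C = HasC C := by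
  ext g
  constructor
  · intro hg; exact ⟨_, hg⟩
  · rintro ⟨g₂, hg⟩
    have h1 := (PMap.exh_atom h.2 g.2 hh hg).1
    show g.1.SubC C (g.1.exh k)
    rw [h1]; exact hg

lemma atom_locEq {k : ℕ} {C : Cd} {h g : HalfPlane} (hh : h ∈ atom k C) (hg : g ∈ atom k C) :
    PMap.LocEq k h.1 g.1 := (PMap.exh_atom h.2 g.2 hh hg).2

lemma measurableSet_atom (k : ℕ) (C : Cd) : MeasurableSet (atom k C) := by
  rcases Set.eq_empty_or_nonempty (atom k C) with h | ⟨h, hh⟩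
  · rw [h]; exact MeasurableSet.empty
  · rw [atom_eq hh]; exact measurableSet_hasC C

lemma exists_atom (k : ℕ) (h : HalfPlane) : ∃ C : Cd, C.Good ∧ h ∈ atom k C := by
  obtain ⟨j, b, n, S, R, -⟩ := PMap.exh_reg h.2 k
  obtain ⟨C, hC, hS, -⟩ := R.exists_subC
  exact ⟨C, hC, hS⟩

lemma measurableSet_preL (k : ℕ) (v : List ℕ) : MeasurableSet {a : ℕ → ℕ | pre a k = v} := by
  rcases Set.eq_empty_or_nonempty {a : ℕ → ℕ | pre a k = v} with h | ⟨a₀, h0⟩
  · rw [h]; exact MeasurableSet.empty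
  · have : {a : ℕ → ℕ | pre a k = v} = ⋂ i ∈ Finset.range k, {a | a i = a₀ i} := by
      ext a
      simp only [Set.mem_iInter, Finset.mem_range, Set.mem_ofPred_eq]
      rw [← h0, pre_eq_iff]
    rw [this]
    refine Finset.measurableSet_biInter _ fun i _ => ?_
    exact measurableSet_eq_fun (measurable_pi_apply i) measurable_const

/-- local equality of pairs -/
def LocP (k : ℕ) (p q : HalfPlane × (ℕ → ℕ)) : Prop :=
  PMap.LocEq k p.1.1 q.1.1 ∧ pre p.2 k = pre q.2 k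

lemma pre_mono {a b : ℕ → ℕ} {k k' : ℕ} (hk : k ≤ k') (h : pre a k' = pre b k') :
    pre a k = pre b k := by
  rw [pre_eq_iff] at h ⊢
  exact fun i hi => h i (by omega)

lemma LocP.mono {k k' : ℕ} (hk : k ≤ k') {p q : HalfPlane × (ℕ → ℕ)} (h : LocP k' p q) :
    LocP k p q := ⟨h.1.mono hk, pre_mono hk h.2⟩

/-- local sets are measurable -/
theorem measurableSet_of_locP {A : Set (HalfPlane × (ℕ → ℕ))}
    (hA : ∀ p ∈ A, ∃ k, ∀ q, LocP k p q → q ∈ A) : MeasurableSet A := by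
  classical
  set Box : ℕ × Cd × List ℕ → Set (HalfPlane × (ℕ → ℕ)) := fun i =>
    {p | p.1 ∈ atom i.1 i.2.1 ∧ pre p.2 i.1 = i.2.2} with hBox
  have hmeas : ∀ i, MeasurableSet (Box i) := fun i =>
    (measurable_fst (measurableSet_atom i.1 i.2.1)).inter
      (measurable_snd (measurableSet_preL i.1 i.2.2))
  have hAeq : A = ⋃ i ∈ {i | Box i ⊆ A}, Box i := by
    ext p
    simp only [Set.mem_iUnion, Set.mem_ofPred_eq]
    constructor
    · intro hp
      obtain ⟨k, hk⟩ := hA p hp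
      obtain ⟨C, -, hC⟩ := exists_atom k p.1
      refine ⟨(k, C, pre p.2 k), ?_, hC, rfl⟩
      rintro q ⟨h1, h2⟩
      exact hk q ⟨atom_locEq hC h1, h2.symm⟩
    · rintro ⟨i, hi, hp⟩
      exact hi hp
  rw [hAeq]
  exact MeasurableSet.biUnion (Set.to_countable _) fun i _ => hmeas i

theorem measurableSet_of_loc {A : Set HalfPlane}
    (hA : ∀ h ∈ A, ∃ k, ∀ g : HalfPlane, PMap.LocEq k h.1 g.1 → g ∈ A) : MeasurableSet A := by
  have h1 : MeasurableSet {p : HalfPlane × (ℕ → ℕ) | p.1 ∈ A} := by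
    refine measurableSet_of_locP ?_
    intro p hp
    obtain ⟨k, hk⟩ := hA p.1 hp
    exact ⟨k, fun q hq => hk q.1 hq.1⟩
  have h2 : A = (fun h : HalfPlane => (h, (fun _ : ℕ => 0))) ⁻¹' {p | p.1 ∈ A} := rfl
  rw [h2]
  exact (measurable_id.prodMk measurable_const) h1

theorem measurable_of_locP {β : Type*} [MeasurableSpace β] [Countable β]
    {f : HalfPlane × (ℕ → ℕ) → β} (hf : ∀ p, ∃ k, ∀ q, LocP k p q → f q = f p) : Measurable f := by
  refine measurable_to_countable' fun x => measurableSet_of_locP ?_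
  rintro p rfl
  obtain ⟨k, hk⟩ := hf p
  exact ⟨k, fun q hq => hk q hq⟩

theorem measurable_of_loc {β : Type*} [MeasurableSpace β] [Countable β]
    {f : HalfPlane → β} (hf : ∀ h, ∃ k, ∀ g : HalfPlane, PMap.LocEq k h.1 g.1 → f g = f h) :
    Measurable f := by
  refine measurable_to_countable' fun x => measurableSet_of_loc ?_
  rintro p rfl
  obtain ⟨k, hk⟩ := hf p
  exact ⟨k, fun q hq => hk q hq⟩

/-- the generating events are local -/
lemma has_loc {l : ℤ} {a b n : ℕ} {Q : Disc} {h : HalfPlane} (hh : h ∈ Has l a b n Q) :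
    ∃ k, ∀ g : HalfPlane, PMap.LocEq k h.1 g.1 → g ∈ Has l a b n Q := by
  obtain ⟨m', hm⟩ := hh
  obtain ⟨k, hk⟩ := hm.loc h.2
  exact ⟨k, fun g hg => hk g.1 hg⟩

/-- local maps with values in `HalfPlane` are measurable -/
theorem measurable_of_locMapP {F : HalfPlane × (ℕ → ℕ) → HalfPlane}
    (hF : ∀ p k', ∃ k, ∀ q, LocP k p q → PMap.LocEq k' (F p).1 (F q).1) : Measurable F := by
  refine measurable_generateFrom ?_
  rintro _ ⟨l, a, b, n, Q, rfl⟩
  refine measurableSet_of_locP ?_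
  intro p hp
  obtain ⟨k', hk'⟩ := has_loc hp
  obtain ⟨k, hk⟩ := hF p k'
  exact ⟨k, fun q hq => hk' _ (hk q hq)⟩

theorem measurable_of_locMap {F : HalfPlane → HalfPlane}
    (hF : ∀ h k', ∃ k, ∀ g : HalfPlane, PMap.LocEq k h.1 g.1 → PMap.LocEq k' (F h).1 (F g).1) :
    Measurable F := by
  refine measurable_generateFrom ?_
  rintro _ ⟨l, a, b, n, Q, rfl⟩
  refine measurableSet_of_loc ?_
  intro p hp
  obtain ⟨k', hk'⟩ := has_loc hp
  obtain ⟨k, hk⟩ := hF p k'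
  exact ⟨k, fun q hq => hk' _ (hk q hq)⟩

end Pool.Agent.Helper97.Speed
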