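import Pool.Agent.Helper97.Speed.Proc

/-! # The exploration process on the space of half-planes and sequences of ports -/

namespace Pool.Agent.Helper97.Speed

open MeasureTheory

namespace PMap

variable {m m₁ m₂ g g₁ g₂ : PMap}

/-- transfer of the code of the whole region. -/
lemma SubC.transfer {φ : ℕ → ℕ} {T T' : Finset ℕ} (I : RIso φ m m₂ g g₂ T T') {C : Cd}
    (hS : m.SubC C m₂) : g.SubC C g₂ := by
  obtain ⟨S, g₁, hg, R, RG, I1, I2⟩ := Sub.transfer I hS subset_rfl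
  have hg1 : g₁ = g₂ := by
    have h1 : T \ S = ∅ := by
      have h2 := I2.n1.In
      ext d
      simp only [Finset.notMem_empty, iff_false]
      intro hd
      have h3 := (I2.n1.tri d hd).1
      rw [h2] at h3
      exact h3.2 hd
    have h2 : T' \ S.image φ = ∅ := by rw [I2.image_eq, h1]; simp
    rw [h1, h2] at I2
    have hIn := I2.n2.In
    simp only [Finset.coe_empty, Set.sdiff_empty] at hIn
    have hV : g₁.V 0 = g₂.V 0 := (I2.VV 0 0).1 rfl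
    have h3 : g₁.bd 0 = g₂.bd 0 := by
      obtain ⟨i, hi⟩ := I2.n2.hp.bd_surj (g₂.bd 0) (hIn ▸ I2.n2.hp₂.bd_mem 0) (by
        have := I2.n2.hp₂.rev_bd 0
        rwa [I2.n2.rev, hIn] at this)
      have h4 : g₁.V i = g₁.V 0 := by
        rw [hV, V, V, hi, I2.n2.org]
      rw [← hi, I2.n2.hp.pre.V_inj h4]
    exact ext_of_bd I2.n2.hp I2.n2.hp₂ I2.n2.rev.symm I2.n2.nxt.symm I2.n2.org.symm hIn.symm h3
  rw [← hg1]; exact hg

/-- vertices of the region and the boundary of an intermediate stage -/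
lemma Stage.V_iff {φ : ℕ → ℕ} {m' g' : PMap} (st : Stage φ m m₂ g g₂ m' g')
    {T T' : Finset ℕ} (I : RIso φ m m₂ g g₂ T T') {d : ℕ} (hd : d ∈ m.X T) (l : ℤ) :
    m.org d = m'.V l ↔ g.org (φ d) = g'.V l := by
  obtain ⟨j, b, n, S, R, hS⟩ := st.reg
  obtain ⟨S', RG, I1⟩ := st.iso_left R
  obtain ⟨A, A', I'⟩ := st.iso'
  by_cases h : d ∈ m.X S
  · exact I1.V₂ d h l
  · have hd' : d ∈ m'.X A := by
      have key : ∀ e, e ∈ T → e ∉ S → e ∈ A := by
        intro e he heS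
        have h1 : e ∈ m'.In := by rw [R.In]; exact ⟨(I.n1.tri e he).1, heS⟩
        by_contra h2
        have h3 : e ∈ m₂.In := by rw [I'.n1.In]; exact ⟨h1, h2⟩
        rw [I.n1.In] at h3
        exact h3.2 he
      simp only [X, Set.mem_ofPred_eq, not_or] at h
      rcases hd with hd | hd
      · exact Or.inl (key _ hd h.1)
      · right; rw [R.rev]; exact key _ hd h.2
    have h1 := I'.V d hd' l
    rw [R.org, RG.org] at h1
    exact h1

end PMap

open PMap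

/-! ### the process -/

/-- the start dart -/
noncomputable def r0 (w : List ℕ) (h : HalfPlane) : ℕ := h.1.dart (h.1.bd 0) w

/-- the state at time `n` -/
noncomputable def rr (w : List ℕ) (p : HalfPlane × (ℕ → ℕ)) (n : ℕ) : ℕ :=
  p.1.1.run (r0 w p.1) p.2 n

/-- the vertex at time `n` -/
noncomputable def xx (w : List ℕ) (p : HalfPlane × (ℕ → ℕ)) (n : ℕ) : ℕ := p.1.1.org (rr w p n)

/-- the remaining map at time `n` -/
noncomputable def EE (k : ℕ) (w : List ℕ) (p : HalfPlane × (ℕ → ℕ)) (n : ℕ) : PMap :=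
  p.1.1.expl (p.1.1.exh k) (r0 w p.1) p.2 n

lemma EE_succ (k : ℕ) (w : List ℕ) (p : HalfPlane × (ℕ → ℕ)) (n : ℕ) :
    EE k w p (n + 1) = (EE k w p n).exploreV (xx w p n) := rfl

lemma rr_succ (w : List ℕ) (p : HalfPlane × (ℕ → ℕ)) (n : ℕ) :
    rr w p (n + 1) = p.1.1.step (rr w p n) (p.2 n) := rfl

section

variable {k : ℕ} {w : List ℕ}

lemma EE_ok (hw : w.length ≤ k) (p : HalfPlane × (ℕ → ℕ)) (n : ℕ) :
    Ok p.1.1 (EE k w p n) (rr w p n) := (exh_ok p.1.2 hw).expl p.2 n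

lemma EE_ok₀ (hw : w.length ≤ k) (h : HalfPlane) : Ok h.1 (h.1.exh k) (r0 w h) := exh_ok h.2 hw

lemma EE_subset (hw : w.length ≤ k) (p : HalfPlane × (ℕ → ℕ)) {n n' : ℕ} (hn : n ≤ n') :
    (EE k w p n').In ⊆ (EE k w p n).In := expl_subset (exh_ok p.1.2 hw) p.2 hn

/-- transfer of the process. -/
lemma stage_of_iso (hw : w.length ≤ k) {p q : HalfPlane × (ℕ → ℕ)} {n : ℕ}
    (hpre : pre p.2 n = pre q.2 n) {φ : ℕ → ℕ} {m₂ g₂ : PMap} {T T' : Finset ℕ}
    (I : RIso φ p.1.1 m₂ q.1.1 g₂ T T') (hsub : m₂.In ⊆ (EE k w p n).In) :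
    ∀ i ≤ n, Stage φ p.1.1 m₂ q.1.1 g₂ (EE k w p i) (EE k w q i) ∧ rr w q i = φ (rr w p i) := by
  intro i hi
  have hsub' := hsub.trans (EE_subset hw p hi)
  have hk : m₂.In ⊆ (p.1.1.exh k).In := hsub.trans (EE_subset hw p (Nat.zero_le n))
  have st0 := Stage.exh I k hk
  have hd : r0 w q.1 = φ (r0 w p.1) := I.dart_start hw hk
  have hpre' := pre_mono hi hpre
  obtain ⟨h1, h2⟩ := Stage.expl (exh_ok p.1.2 hw) st0 p.2 i hsub'
  constructor
  · have : EE k w q i = q.1.1.expl (q.1.1.exh k) (φ (r0 w p.1)) p.2 i := by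
      rw [EE, hd]; exact expl_congr hpre'.symm
    rw [this]; exact h1
  · have : rr w q i = q.1.1.run (φ (r0 w p.1)) p.2 i := by
      rw [rr, hd]; exact run_congr hpre'.symm
    rw [this]; exact h2

/-- the pasts at time `n` agree -/
def PastEq (k : ℕ) (w : List ℕ) (n : ℕ) (p q : HalfPlane × (ℕ → ℕ)) : Prop :=
  pre p.2 n = pre q.2 n ∧ ∃ φ T T', RIso φ p.1.1 (EE k w p n) q.1.1 (EE k w q n) T T'

/-- agreement at time `n` as seen from the `K`-th region of the exhaustion. -/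
lemma exists_stage (hw : w.length ≤ k) (p : HalfPlane × (ℕ → ℕ)) (n : ℕ) :
    ∃ K, ∀ K' ≥ K, (p.1.1.exh K').In ⊆ (EE k w p n).In := by
  obtain ⟨j, b, c, S, R, -⟩ := EE_ok hw p n
  exact exh_subset p.1.2 (fun d hd => (R.tri d hd).1) R.In

/-- agreement of the process at time `i` -/
structure Agree (k : ℕ) (w : List ℕ) (i : ℕ) (φ : ℕ → ℕ) (p q : HalfPlane × (ℕ → ℕ)) : Prop where
  iso : ∃ S S', RIso φ p.1.1 (EE k w p i) q.1.1 (EE k w q i) S S' ∧ rr w p i ∈ p.1.1.X S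
  run : rr w q i = φ (rr w p i)

lemma Agree.of_stage (hw : w.length ≤ k) {p q : HalfPlane × (ℕ → ℕ)} {i : ℕ} {φ : ℕ → ℕ}
    {m₂ g₂ : PMap} (st : Stage φ p.1.1 m₂ q.1.1 g₂ (EE k w p i) (EE k w q i))
    (hr : rr w q i = φ (rr w p i)) : Agree k w i φ p q := by
  obtain ⟨j, b, n, S, R, hS, hrS⟩ := EE_ok hw p i
  obtain ⟨S', RG, I1⟩ := st.iso_left R
  exact ⟨⟨S, S', I1, hrS⟩, hr⟩

lemma Agree.onBd {p q : HalfPlane × (ℕ → ℕ)} {i : ℕ} {φ : ℕ → ℕ} (h : Agree k w i φ p q) :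
    (EE k w q i).OnBd (xx w q i) ↔ (EE k w p i).OnBd (xx w p i) := by
  obtain ⟨⟨S, S', I, hr⟩, h2⟩ := h
  rw [xx, xx, h2]
  exact I.onBd₂ hr

lemma Agree.idx {p q : HalfPlane × (ℕ → ℕ)} {i : ℕ} {φ : ℕ → ℕ} (h : Agree k w i φ p q) :
    (EE k w q i).idx (xx w q i) = (EE k w p i).idx (xx w p i) := by
  obtain ⟨⟨S, S', I, hr⟩, h2⟩ := h
  rw [xx, xx, h2]
  exact I.idx₂ hr

lemma Agree.cand {p q : HalfPlane × (ℕ → ℕ)} {i : ℕ} {φ : ℕ → ℕ} (h : Agree k w i φ p q) :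
    Cand q.1.1 (EE k w q i) (rr w q i) ↔ Cand p.1.1 (EE k w p i) (rr w p i) := by
  obtain ⟨⟨S, S', I, hr⟩, h2⟩ := h
  rw [h2]
  exact I.cand hr

lemma Agree.outD {p q : HalfPlane × (ℕ → ℕ)} {i : ℕ} {φ : ℕ → ℕ} (h : Agree k w i φ p q) :
    (q.1.1.outD (EE k w q i) (rr w q i)).ncard = (p.1.1.outD (EE k w p i) (rr w p i)).ncard := by
  obtain ⟨⟨S, S', I, hr⟩, h2⟩ := h
  rw [h2]
  exact I.outD_ncard hr

/-- the pasts agree, hence the processes agree before -/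
lemma PastEq.agree (hw : w.length ≤ k) {p q : HalfPlane × (ℕ → ℕ)} {n : ℕ}
    (h : PastEq k w n p q) : ∃ φ, ∀ i ≤ n, Agree k w i φ p q := by
  obtain ⟨hpre, φ, T, T', I⟩ := h
  refine ⟨φ, fun i hi => ?_⟩
  obtain ⟨h1, h2⟩ := stage_of_iso hw hpre I subset_rfl i hi
  exact Agree.of_stage hw h1 h2

lemma PastEq.mono (hw : w.length ≤ k) {p q : HalfPlane × (ℕ → ℕ)} {n i : ℕ}
    (h : PastEq k w n p q) (hi : i ≤ n) : PastEq k w i p q := by
  obtain ⟨φ, hφ⟩ := h.agree hw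
  obtain ⟨S, S', I, -⟩ := (hφ i hi).iso
  exact ⟨pre_mono hi h.1, φ, S, S', I⟩

/-- whether `x_i` is on the boundary of `E_j`, for `i, j ≤ n`, is determined by the past. -/
lemma PastEq.onBd (hw : w.length ≤ k) {p q : HalfPlane × (ℕ → ℕ)} {n i j : ℕ}
    (h : PastEq k w n p q) (hi : i ≤ n) (hj : j ≤ n) :
    (EE k w q j).OnBd (xx w q i) ↔ (EE k w p j).OnBd (xx w p i) := by
  obtain ⟨hpre, φ, T, T', I⟩ := h
  obtain ⟨h1, -⟩ := stage_of_iso hw hpre I subset_rfl j hj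
  obtain ⟨-, h2⟩ := stage_of_iso hw hpre I subset_rfl i hi
  have hX : rr w p i ∈ p.1.1.X T := by
    obtain ⟨a, b, c, S, R, hS, hr⟩ := EE_ok hw p i
    have hN := I.n1.of_subset R.nest (EE_subset hw p hi)
    exact X_mono hN.1 hr
  have h3 : ∀ l, xx w p i = (EE k w p j).V l ↔ xx w q i = (EE k w q j).V l := by
    intro l
    have := h1.V_iff I hX l
    rw [xx, xx, h2]
    exact this
  constructor
  · rintro ⟨l, hl⟩; exact ⟨l, ((h3 l).2 hl.symm).symm⟩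
  · rintro ⟨l, hl⟩; exact ⟨l, ((h3 l).1 hl.symm).symm⟩

/-- the past is local -/
lemma exists_pastEq (hw : w.length ≤ k) (p : HalfPlane × (ℕ → ℕ)) (n : ℕ) :
    ∃ K, ∀ q, LocP K p q → PastEq k w n p q := by
  obtain ⟨K, hK⟩ := exists_stage hw p n
  refine ⟨max K n, ?_⟩
  rintro q ⟨⟨φ, T, T', I⟩, hpre⟩
  have hpre' := pre_mono (le_max_right K n) hpre
  obtain ⟨h1, h2⟩ := stage_of_iso hw hpre' I (hK _ (le_max_left K n)) n le_rfl
  obtain ⟨S, S', I1, -⟩ := (Agree.of_stage hw h1 h2).iso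
  exact ⟨hpre', φ, S, S', I1⟩

lemma exists_agree (hw : w.length ≤ k) (p : HalfPlane × (ℕ → ℕ)) (n : ℕ) :
    ∃ K, ∀ q, LocP K p q → ∃ φ, ∀ i ≤ n, Agree k w i φ p q := by
  obtain ⟨K, hK⟩ := exists_pastEq hw p n
  exact ⟨K, fun q hq => (hK q hq).agree hw⟩

/-- past-determined sets are measurable -/
lemma measurableSet_past (hw : w.length ≤ k) {n : ℕ} {A : Set (HalfPlane × (ℕ → ℕ))}
    (hA : ∀ p q, PastEq k w n p q → p ∈ A → q ∈ A) : MeasurableSet A := by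
  refine measurableSet_of_locP ?_
  intro p hp
  obtain ⟨K, hK⟩ := exists_pastEq hw p n
  exact ⟨K, fun q hq => hA p q (hK q hq) hp⟩

/-! ### the remaining map as a random half-plane -/

/-- the remaining half-plane -/
noncomputable def EH (hw : w.length ≤ k) (n : ℕ) (p : HalfPlane × (ℕ → ℕ)) : HalfPlane :=
  ⟨EE k w p n, (EE_ok hw p n).hp₂⟩

/-- the remaining half-plane is a local map, also when it is shifted by a past-determined index -/
lemma EH_loc (hw : w.length ≤ k) (n : ℕ) {ι : HalfPlane × (ℕ → ℕ) → ℤ}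
    (hι : ∀ p q, PastEq k w n p q → ι q = ι p) (p : HalfPlane × (ℕ → ℕ)) (k' : ℕ) :
    ∃ K, ∀ q, LocP K p q → LocEq k' ((EH hw n p).shift (ι p)).1 ((EH hw n q).shift (ι q)).1 := by
  obtain ⟨K₁, hK₁⟩ := exists_pastEq hw p n
  obtain ⟨K₂, hK₂⟩ := exists_stage hw p n
  -- the region of the exhaustion of the shifted map
  obtain ⟨j, b, c, S, R, -⟩ := exh_reg ((EH hw n p).shift (ι p)).2 k'
  obtain ⟨j', b', c', S', R', -⟩ := EE_ok hw p n
  have hsub : ∃ K₃, ∀ K' ≥ K₃, (p.1.1.exh K').In ⊆ (exh ((EH hw n p).shift (ι p)).1 k').In := by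
    refine exh_subset (F := S' ∪ S) p.1.2 ?_ ?_
    · intro d hd
      rcases Finset.mem_union.1 hd with hd | hd
      · exact (R'.tri d hd).1
      · have h1 := (R.tri d hd).1
        change d ∈ (EE k w p n).In at h1
        rw [R'.In] at h1
        exact h1.1
    · rw [R.In]
      change (EE k w p n).In \ (S : Set ℕ) = _
      rw [R'.In]
      ext d
      simp only [Set.mem_sdiff, Finset.coe_union, Set.mem_union]
      tauto
  obtain ⟨K₃, hK₃⟩ := hsub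
  refine ⟨max (max K₁ K₂) (max K₃ n), ?_⟩
  intro q hq
  have h1 := hι p q (hK₁ q (hq.mono (by omega)))
  obtain ⟨⟨φ, T, T', I⟩, hpre⟩ := hq
  obtain ⟨h2, h3⟩ := stage_of_iso hw (pre_mono (by omega) hpre) I (hK₂ _ (by omega)) n le_rfl
  obtain ⟨A, A', I'⟩ := h2.iso'
  rw [h1]
  have I2 := I'.shift (ι p) 0
  obtain ⟨S₁, S₂, I3⟩ := I2.locEq (k := k') (by
    rw [shift_zero]
    exact hK₃ _ (by omega))
  exact ⟨φ, S₁, S₂, I3⟩

lemma measurable_EH_shift (hw : w.length ≤ k) (n : ℕ) {ι : HalfPlane × (ℕ → ℕ) → ℤ}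
    (hι : ∀ p q, PastEq k w n p q → ι q = ι p) :
    Measurable (fun p => (EH hw n p).shift (ι p)) :=
  measurable_of_locMapP (EH_loc hw n hι)

lemma measurable_EH (hw : w.length ≤ k) (n : ℕ) : Measurable (EH hw n) := by
  have := measurable_EH_shift hw n (ι := fun _ => 0) (fun _ _ _ => rfl)
  simpa only [HalfPlane.shift_zero] using this

end

end Pool.Agent.Helper97.Speed
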