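import Pool.Agent.Helper97.Speed.Reg

/-! # Peeling and exploration of the hull of a boundary vertex -/

namespace Pool.Agent.Helper97.Speed

namespace PMap

variable {m m₁ m₂ : PMap}

open Classical in
/-- the set enclosed by a chord -/
noncomputable def chS (m : PMap) (j : ℤ) (b : ℕ) (p : List ℕ) : Finset ℕ :=
  if h : ∃ S, m.Chord j b p S then h.choose else ∅

lemma PC.chord_chS {j : ℤ} {b : ℕ} {p : List ℕ} (h : m.IsHalfPlane) (pc : m.PC j b p) :
    m.Chord j b p (m.chS j b p) := by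
  have := pc.exists_chord h
  simp only [chS, this, dif_pos]
  exact this.choose_spec

lemma Chord.chS_eq {j : ℤ} {b : ℕ} {p : List ℕ} {S : Finset ℕ} (h : m.IsHalfPlane)
    (ch : m.Chord j b p S) : m.chS j b p = S :=
  Chord.unique h (ch.pc.chord_chS h) ch

/-- the third vertex of the triangle at the boundary dart `l` -/
def thd (m : PMap) (l : ℤ) : ℕ := m.org (m.nxt (m.nxt (m.bd l)))

open Classical in
/-- the chord of the peeling step at the boundary dart `l` -/
noncomputable def peelData (m : PMap) (l : ℤ) : ℤ × ℕ × List ℕ :=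
  if h : ∃ i, m.V i = m.thd l then
    if l < h.choose then (l, (h.choose - l).toNat, [m.rev (m.nxt (m.nxt (m.bd l)))])
    else (h.choose, (l + 1 - h.choose).toNat, [m.rev (m.nxt (m.bd l))])
  else (l, 1, [m.rev (m.nxt (m.nxt (m.bd l))), m.rev (m.nxt (m.bd l))])

lemma Pre.V_inj (h : m.Pre) {i k : ℤ} (hik : m.V i = m.V k) : i = k := h.bd_simple _ _ hik

lemma peelData_right (h : m.Pre) {l i : ℤ} (hi : m.V i = m.thd l) (hl : l < i) :
    m.peelData l = (l, (i - l).toNat, [m.rev (m.nxt (m.nxt (m.bd l)))]) := by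
  have hex : ∃ i, m.V i = m.thd l := ⟨i, hi⟩
  have hc : hex.choose = i := h.V_inj (by rw [hex.choose_spec, hi])
  simp only [peelData, hex, dif_pos, hc, hl, if_true]

lemma peelData_left (h : m.Pre) {l i : ℤ} (hi : m.V i = m.thd l) (hl : i < l) :
    m.peelData l = (i, (l + 1 - i).toNat, [m.rev (m.nxt (m.bd l))]) := by
  have hex : ∃ i, m.V i = m.thd l := ⟨i, hi⟩
  have hc : hex.choose = i := h.V_inj (by rw [hex.choose_spec, hi])
  simp only [peelData, hex, dif_pos, hc, not_lt.2 hl.le, if_false]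

lemma peelData_inner {l : ℤ} (hi : ∀ i, m.V i ≠ m.thd l) :
    m.peelData l = (l, 1, [m.rev (m.nxt (m.nxt (m.bd l))), m.rev (m.nxt (m.bd l))]) := by
  have hex : ¬ ∃ i, m.V i = m.thd l := by push Not; exact hi
  simp only [peelData, hex, dif_neg, not_false_iff]

/-- the map after peeling the boundary dart `l` -/
noncomputable def peel (m : PMap) (l : ℤ) : PMap :=
  m.cut (m.peelData l).1 (m.peelData l).2.1 (m.peelData l).2.2
    (m.chS (m.peelData l).1 (m.peelData l).2.1 (m.peelData l).2.2)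

/-- Specification of a peeling step. -/
structure PeelSpec (m : PMap) (l : ℤ) (m₂ : PMap) (j : ℤ) (b n : ℕ) (T : Finset ℕ) : Prop where
  reg : Reg m m₂ j b n T
  le : j ≤ l
  lt : l < j + b
  mem : m.bd l ∈ T
  cases : (j = l ∧ b = 1 ∧ n = 2 ∧ (∀ i, m.V i ≠ m.thd l) ∧
      m₂.bd l = m.rev (m.nxt (m.nxt (m.bd l))) ∧ m₂.bd (l + 1) = m.rev (m.nxt (m.bd l))) ∨
    (j = l ∧ 2 ≤ b ∧ n = 1 ∧ m.V (l + b) = m.thd l ∧
      m₂.bd l = m.rev (m.nxt (m.nxt (m.bd l)))) ∨
    (j < l ∧ j + b = l + 1 ∧ n = 1 ∧ m.V j = m.thd l ∧ m₂.bd j = m.rev (m.nxt (m.bd l)))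

lemma thd_ne (h : m.Pre) (l : ℤ) : m.V l ≠ m.thd l ∧ m.V (l + 1) ≠ m.thd l := by
  constructor
  · exact fun h1 => h.third_ne_org (h.bd_mem l) h1.symm
  · intro h1
    apply h.third_ne_target (h.bd_mem l)
    rw [h.org_rev_bd]
    exact h1.symm

lemma peel_pc_right (h : m.Pre) {l i : ℤ} (hi : m.V i = m.thd l) (hl : l < i) :
    m.PC l (i - l).toNat [m.rev (m.nxt (m.nxt (m.bd l)))] := by
  refine ⟨by omega, by simp, ?_, by simp, by simp⟩
  rw [path_singleton]
  refine ⟨h.rev_mem_E_of_mem (h.nxt2_mem (h.bd_mem l)), h.org_rev_nxt2 (h.bd_mem l), ?_⟩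
  rw [h.rev_rev]
  have : l + ((i - l).toNat : ℤ) = i := by omega
  rw [this]
  exact hi.symm

lemma peel_pc_left (h : m.Pre) {l i : ℤ} (hi : m.V i = m.thd l) (hl : i < l) :
    m.PC i (l + 1 - i).toNat [m.rev (m.nxt (m.bd l))] := by
  refine ⟨by omega, by simp, ?_, by simp, by simp⟩
  rw [path_singleton]
  refine ⟨h.rev_mem_E_of_mem (h.nxt_mem _ (h.bd_mem l)), ?_, ?_⟩
  · rw [h.org_rev_nxt (h.bd_mem l)]; exact hi.symm
  · rw [h.rev_rev, h.org_nxt _ (h.bd_mem l), h.org_rev_bd]
    congr 2; omega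

lemma peel_pc_inner (h : m.Pre) {l : ℤ} (hi : ∀ i, m.V i ≠ m.thd l) :
    m.PC l 1 [m.rev (m.nxt (m.nxt (m.bd l))), m.rev (m.nxt (m.bd l))] := by
  refine ⟨by omega, by simp, ?_, by simp, ?_⟩
  · refine ⟨h.rev_mem_E_of_mem (h.nxt2_mem (h.bd_mem l)), h.org_rev_nxt2 (h.bd_mem l), ?_⟩
    rw [path_singleton]
    refine ⟨h.rev_mem_E_of_mem (h.nxt_mem _ (h.bd_mem l)), ?_, ?_⟩
    · rw [h.org_rev_nxt (h.bd_mem l), h.rev_rev]
    · rw [h.rev_rev, h.org_nxt _ (h.bd_mem l), h.org_rev_bd]; simp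
  · intro d hd i
    simp only [List.tail_cons, List.mem_singleton] at hd
    rw [hd, h.org_rev_nxt (h.bd_mem l)]
    exact (hi i).symm

lemma peel_spec (h : m.IsHalfPlane) (l : ℤ) : ∃ j b n T, PeelSpec m l (m.peel l) j b n T := by
  have hne := thd_ne h.pre l
  by_cases hex : ∃ i, m.V i = m.thd l
  · obtain ⟨i, hi⟩ := hex
    rcases lt_trichotomy l i with hl | hl | hl
    · have hl1 : i ≠ l + 1 := by rintro rfl; exact hne.2 hi
      have pc := peel_pc_right h.pre hi hl
      have ch := pc.chord_chS h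
      have hpe : m.peel l = m.cut l (i - l).toNat [m.rev (m.nxt (m.nxt (m.bd l)))]
          (m.chS l (i - l).toNat [m.rev (m.nxt (m.nxt (m.bd l)))]) := by
        rw [peel, peelData_right h.pre hi hl]
      rw [hpe]
      have R := ch.reg h
      have hnt : ¬ Trivial m l (i - l).toNat [m.rev (m.nxt (m.nxt (m.bd l)))] := by
        rintro ⟨h1, -⟩; omega
      refine ⟨_, _, _, _, R, le_rfl, by omega, ch.base_mem h hnt le_rfl (by omega), ?_⟩
      right; left
      refine ⟨rfl, by omega, by simp, ?_, ?_⟩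
      · rw [show l + ((i - l).toNat : ℤ) = i by omega]; exact hi
      · have := cut_bd_mid (m := m) (j := l) (b := (i - l).toNat)
          (S := ((m.chS l (i - l).toNat [m.rev (m.nxt (m.nxt (m.bd l)))] : Finset ℕ) : Set ℕ))
          (p := [m.rev (m.nxt (m.nxt (m.bd l)))]) (s := 0) (by simp)
        simpa using this
    · exact absurd (hl ▸ hi) hne.1
    · have pc := peel_pc_left h.pre hi hl
      have ch := pc.chord_chS h
      have hpe : m.peel l = m.cut i (l + 1 - i).toNat [m.rev (m.nxt (m.bd l))]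
          (m.chS i (l + 1 - i).toNat [m.rev (m.nxt (m.bd l))]) := by
        rw [peel, peelData_left h.pre hi hl]
      rw [hpe]
      have R := ch.reg h
      have hnt : ¬ Trivial m i (l + 1 - i).toNat [m.rev (m.nxt (m.bd l))] := by
        rintro ⟨h1, -⟩; omega
      refine ⟨_, _, _, _, R, hl.le, by omega, ch.base_mem h hnt hl.le (by omega), ?_⟩
      right; right
      refine ⟨hl, by omega, by simp, hi, ?_⟩
      have := cut_bd_mid (m := m) (j := i) (b := (l + 1 - i).toNat)
        (S := ((m.chS i (l + 1 - i).toNat [m.rev (m.nxt (m.bd l))] : Finset ℕ) : Set ℕ))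
        (p := [m.rev (m.nxt (m.bd l))]) (s := 0) (by simp)
      simpa using this
  · push Not at hex
    have pc := peel_pc_inner h.pre hex
    have ch := pc.chord_chS h
    have hpe : m.peel l = m.cut l 1 [m.rev (m.nxt (m.nxt (m.bd l))), m.rev (m.nxt (m.bd l))]
        (m.chS l 1 [m.rev (m.nxt (m.nxt (m.bd l))), m.rev (m.nxt (m.bd l))]) := by
      rw [peel, peelData_inner hex]
    rw [hpe]
    have R := ch.reg h
    have hnt : ¬ Trivial m l 1 [m.rev (m.nxt (m.nxt (m.bd l))), m.rev (m.nxt (m.bd l))] := by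
      rintro ⟨-, h1⟩; simp at h1
    refine ⟨_, _, _, _, R, le_rfl, by omega, ch.base_mem h hnt le_rfl (by omega), ?_⟩
    left
    refine ⟨rfl, rfl, by simp, hex, ?_, ?_⟩
    · have := cut_bd_mid (m := m) (j := l) (b := 1)
        (S := ((m.chS l 1 [m.rev (m.nxt (m.nxt (m.bd l))), m.rev (m.nxt (m.bd l))] :
          Finset ℕ) : Set ℕ))
        (p := [m.rev (m.nxt (m.nxt (m.bd l))), m.rev (m.nxt (m.bd l))]) (s := 0) (by simp)
      simpa using this
    · have := cut_bd_mid (m := m) (j := l) (b := 1)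
        (S := ((m.chS l 1 [m.rev (m.nxt (m.nxt (m.bd l))), m.rev (m.nxt (m.bd l))] :
          Finset ℕ) : Set ℕ))
        (p := [m.rev (m.nxt (m.nxt (m.bd l))), m.rev (m.nxt (m.bd l))]) (s := 1) (by simp)
      simpa using this

lemma peel_isHalfPlane (h : m.IsHalfPlane) (l : ℤ) : (m.peel l).IsHalfPlane := by
  obtain ⟨j, b, n, T, P⟩ := peel_spec h l
  exact P.reg.hp₂

/-! ### the trivial region, swallowed vertices -/

lemma Reg.refl (h : m.IsHalfPlane) (l : ℤ) : Reg m m l 1 1 ∅ :=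
  ⟨h, h, rfl, rfl, rfl, by simp, by intro d hd; simp at hd, by omega, by omega, fun _ _ => rfl,
    fun i _ => by congr 1; simp, fun i h1 h2 => by omega⟩

/-- the vertex `x` is not a vertex of the map -/
def Sw (m : PMap) (x : ℕ) : Prop := ∀ e ∈ m.E, m.org e ≠ x

lemma not_sw_V (h : m.Pre) (i : ℤ) : ¬ m.Sw (m.V i) :=
  fun h1 => h1 _ (mem_E_of_mem (h.bd_mem i)) rfl

lemma Reg.sw_mono {j : ℤ} {b n : ℕ} {T : Finset ℕ} (R : Reg m m₂ j b n T) {x : ℕ} (h : m.Sw x) :
    m₂.Sw x := fun e he => by rw [R.org]; exact h e (R.E_subset he)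

lemma Reg.sw {j : ℤ} {b n : ℕ} {T : Finset ℕ} (R : Reg m m₂ j b n T) {l : ℤ} (hl : j < l)
    (hl' : l < j + b) : m₂.Sw (m.V l) := fun e he => by
  rw [R.org]; exact R.swallow_notMem hl hl' he

/-- the darts of the triangles at a swallowed vertex are in the region -/
lemma Reg.mem_of_sw {j : ℤ} {b n : ℕ} {T : Finset ℕ} (R : Reg m m₂ j b n T) {x e : ℕ}
    (h : m₂.Sw x) (he : m.org e = x) : (e ∈ m.In → e ∈ T) ∧ (m.rev e ∈ m.In → m.rev e ∈ T) := by
  constructor
  · intro h1
    by_contra h2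
    exact h e (Or.inl (by rw [R.In]; exact ⟨h1, h2⟩)) (by rw [R.org]; exact he)
  · intro h1
    by_contra h2
    exact h e (Or.inr (by rw [R.In, R.rev]; exact ⟨h1, h2⟩)) (by rw [R.org]; exact he)

/-- number of triangles at the vertex `x`. -/
noncomputable def tcount (m : PMap) (x : ℕ) : ℕ := {d | d ∈ m.In ∧ m.org d = x}.ncard

lemma Pre.tcount_fin (h : m.Pre) (x : ℕ) : {d | d ∈ m.In ∧ m.org d = x}.Finite :=
  (h.fin x).subset fun _ hd => ⟨mem_E_of_mem hd.1, hd.2⟩

lemma Pre.tcount_pos (h : m.Pre) (l : ℤ) : 0 < m.tcount (m.V l) :=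
  (Set.ncard_pos (h.tcount_fin _)).2 ⟨m.bd l, h.bd_mem l, rfl⟩

lemma PeelSpec.tcount_lt {l j : ℤ} {b n : ℕ} {T : Finset ℕ} (P : PeelSpec m l m₂ j b n T) :
    m₂.tcount (m.V l) < m.tcount (m.V l) := by
  refine Set.ncard_lt_ncard ?_ (P.reg.hp.pre.tcount_fin _)
  rw [Set.ssubset_iff_of_subset]
  · refine ⟨m.bd l, ⟨P.reg.hp.bd_mem l, rfl⟩, ?_⟩
    rintro ⟨h1, -⟩
    rw [P.reg.In] at h1
    exact h1.2 P.mem
  · rintro d ⟨h1, h2⟩
    rw [P.reg.In] at h1
    rw [P.reg.org] at h2
    exact ⟨h1.1, h2⟩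

open Classical in
/-- peel at `l` (at most `k` times) until the vertex `V l` is swallowed. -/
noncomputable def exploreN (l : ℤ) : ℕ → PMap → PMap
  | 0, m => m
  | k + 1, m => if (m.peel l).V l = m.V l then exploreN l k (m.peel l) else m.peel l

/-- the map obtained by removing the hull of the boundary vertex `V l` -/
noncomputable def explore (m : PMap) (l : ℤ) : PMap := exploreN l (m.tcount (m.V l)) m

/-- Specification of the exploration. -/
structure ExpSpec (m : PMap) (l : ℤ) (m₂ : PMap) (j : ℤ) (b n : ℕ) (T : Finset ℕ) : Prop where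
  reg : Reg m m₂ j b n T
  lt : j < l
  gt : l < j + b
  opp : ∀ k, j ≤ k → k < j + n → m.rev (m₂.bd k) ∈ T ∧
    m.org (m.nxt (m.nxt (m.rev (m₂.bd k)))) = m.V l

lemma exploreN_spec {l : ℤ} (k : ℕ) : ∀ {m₁ : PMap} {b n : ℕ} {T : Finset ℕ},
    Reg m m₁ l b n T → m₁.tcount (m.V l) ≤ k →
    (∀ i, l < i → i < l + n → m.rev (m₁.bd i) ∈ T ∧
      m.org (m.nxt (m.nxt (m.rev (m₁.bd i)))) = m.V l) →
    ∃ j b n T, ExpSpec m l (exploreN l k m₁) j b n T := by
  induction k with
  | zero =>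
    intro m₁ b n T R h1
    have h2 := R.hp₂.pre.tcount_pos l
    rw [R.V_le le_rfl] at h2
    omega
  | succ k ih =>
    intro m₁ b n T R h1 hopp
    have hm := R.hp
    have hm₁ := R.hp₂
    obtain ⟨j', b', n', T', P⟩ := peel_spec hm₁ l
    have R' := P.reg
    have hn := R.posn
    have hb := R.posb
    have hn' := R'.posn
    have hb' := R'.posb
    have hle := P.le
    have hlt := P.lt
    have RR := R.comp R' (by omega) (by omega)
    have hVl : m₁.V l = m.V l := R.V_le le_rfl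
    have hbl := hm₁.bd_mem l
    have hinl : m₁.bd l ∈ m.In := R.bd₂_mem l
    have hnT : m₁.nxt (m₁.bd l) ∈ T' := R'.tri.nxt_mem P.mem
    have hnnT : m₁.nxt (m₁.nxt (m₁.bd l)) ∈ T' := R'.tri.nxt_mem hnT
    rw [R.nxt] at hnT hnnT
    by_cases hV : (m₁.peel l).V l = m₁.V l
    · -- not a left peel
      have hj' : j' = l := by
        by_contra h2
        have h3 := R'.sw (l := l) (by omega) (by omega)
        rw [← hV] at h3
        exact not_sw_V R'.hp₂.pre l h3
      subst hj'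
      have hstep : exploreN j' (k + 1) m₁ = exploreN j' k (m₁.peel j') := by
        simp only [exploreN, hV, if_true]
      rw [hstep]
      rw [min_self] at RR
      refine ih RR ?_ ?_
      · have h2 := P.tcount_lt
        rw [hVl] at h2
        omega
      · intro i hi hi'
        rcases P.cases with ⟨-, hb1, hn1, -, hbd1, hbd2⟩ | ⟨-, hb1, hn1, -, hbd1⟩ | ⟨h3, -⟩
        · rcases eq_or_ne i (j' + 1) with rfl | hne
          · rw [hbd2, R.rev, hm.rev_rev, R.nxt]
            refine ⟨by simp [hnT], ?_⟩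
            rw [hm.nxt_nxt_nxt _ hinl]
            have := hVl
            rw [V, R.org] at this
            exact this
          · rw [R'.ge i (by omega)]
            have h4 := hopp (i - n' + b') (by omega) (by omega)
            exact ⟨by simp [h4.1], h4.2⟩
        · rw [R'.ge i (by omega)]
          have h4 := hopp (i - n' + b') (by omega) (by omega)
          exact ⟨by simp [h4.1], h4.2⟩
        · omega
    · -- left peel
      have hj' : j' < l := by
        by_contra h2
        obtain rfl : j' = l := by omega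
        exact hV (R'.V_le le_rfl)
      have hstep : exploreN l (k + 1) m₁ = m₁.peel l := by
        simp only [exploreN, hV, if_false]
      rw [hstep]
      refine ⟨_, _, _, _, RR, by omega, by omega, ?_⟩
      intro i hi hi'
      rcases P.cases with ⟨h3, -⟩ | ⟨h3, -⟩ | ⟨h3, h4, h5, -, h6⟩
      · omega
      · omega
      · rcases eq_or_ne i j' with rfl | hne
        · rw [h6, R.rev, hm.rev_rev, R.nxt]
          refine ⟨by simp [hnT], ?_⟩
          rw [hm.nxt_nxt_nxt _ hinl]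
          have := hVl
          rw [V, R.org] at this
          exact this
        · rw [R'.ge i (by omega)]
          have h7 := hopp (i - n' + b') (by omega) (by omega)
          exact ⟨by simp [h7.1], h7.2⟩

lemma explore_spec (h : m.IsHalfPlane) (l : ℤ) :
    ∃ j b n T, ExpSpec m l (m.explore l) j b n T :=
  exploreN_spec (l := l) _ (Reg.refl h l) le_rfl (fun i h1 h2 => by omega)

lemma explore_isHalfPlane (h : m.IsHalfPlane) (l : ℤ) : (m.explore l).IsHalfPlane := by
  obtain ⟨j, b, n, T, P⟩ := explore_spec h l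
  exact P.reg.hp₂

lemma ExpSpec.sw {l j : ℤ} {b n : ℕ} {T : Finset ℕ} (P : ExpSpec m l m₂ j b n T) :
    m₂.Sw (m.V l) := P.reg.sw P.lt P.gt

/-! ### interface vertices -/

lemma Reg.interface {j : ℤ} {b n : ℕ} {T : Finset ℕ} (R : Reg m m₂ j b n T) {d e : ℕ}
    (he : e ∈ m₂.E) (hd : d ∈ m.E) (hd₂ : d ∉ m₂.E) (hde : m.org d = m.org e) :
    ∃ k, j ≤ k ∧ k ≤ j + n ∧ m.org e = m₂.V k := by
  obtain ⟨a, ha⟩ := R.hp.exists_rot (R.E_subset he) hd hde.symm
  have hF := fun k => R.hp.pre.rot_iter_maps (x := m.org e) (d := e) ⟨R.E_subset he, rfl⟩ k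
  -- first exit
  have hex : ∃ k, m.rot^[k] e ∈ m₂.E ∧ m.rot^[k + 1] e ∉ m₂.E := by
    by_contra hcon
    push Not at hcon
    have : ∀ k, m.rot^[k] e ∈ m₂.E := by
      intro k
      induction k with
      | zero => exact he
      | succ k ih => exact hcon k ih
    exact hd₂ (ha ▸ this a)
  obtain ⟨k, hk1, hk2⟩ := hex
  set f := m.rot^[k] e with hf
  have hfF := hF k
  rw [← hf] at hfF
  rw [Function.iterate_succ_apply', ← hf] at hk2
  by_cases hfin : f ∈ m.In
  · rw [rot_of_mem hfin] at hk2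
    have h1 : m.nxt (m.nxt f) ∉ m₂.In := by
      intro h2
      exact hk2 (Or.inr (by rw [R.rev, R.hp.rev_rev]; exact h2))
    have h3 : f ∉ m₂.In := by
      intro h2
      apply h1
      have := R.hp₂.pre.nxt2_mem h2
      rwa [R.nxt] at this
    have h4 : m₂.rev f ∈ m₂.In := hk1.resolve_left h3
    obtain ⟨i, hi⟩ := R.hp₂.bd_surj _ h4 (by rw [R.rev, R.hp.rev_rev]; exact h3)
    rw [R.rev] at hi
    have hi1 : j ≤ i ∧ i < j + n := by
      by_contra h5
      have h6 : ∃ k, m₂.bd i = m.bd k := by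
        rcases lt_or_ge i j with h8 | h8
        · exact ⟨i, R.lt i h8⟩
        · exact ⟨_, R.ge i (by omega)⟩
      obtain ⟨k', hk'⟩ := h6
      rw [hi] at hk'
      apply R.hp.rev_bd k'
      rw [← hk', R.hp.rev_rev]; exact hfin
    refine ⟨i + 1, by omega, by omega, ?_⟩
    have h7 := R.hp₂.org_rev_bd i
    rw [hi, R.rev, R.hp.rev_rev, R.org] at h7
    rw [V, R.org, ← h7, hfF.2]
  · obtain ⟨i, hi⟩ := R.hp.pre.exists_of_not_mem hfF.1 hfin
    rw [hi, R.hp.pre.rot_rev_bd] at hk2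
    have h1 : m.bd (i + 1) ∈ T := by
      by_contra h2
      exact hk2 (mem_E_of_mem (by rw [R.In]; exact ⟨R.hp.bd_mem _, h2⟩))
    have h2 : m.bd i ∉ T := by
      intro h3
      rcases hk1 with h4 | h4
      · rw [R.In] at h4; exact hfin h4.1
      · rw [R.rev, hi, R.hp.rev_rev, R.In] at h4; exact h4.2 h3
    have h3 : j ≤ i + 1 ∧ i + 1 < j + b := by
      by_contra h4
      exact R.bd_lt_notMem (i := i + 1) (by omega) h1
    have hnt : ¬ Trivial m j b (Reg.pth m₂ j n) := by
      intro ht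
      have := R.chord.eq_empty R.hp ht
      rw [this] at h1
      simp at h1
    have h4 : ¬ (j ≤ i ∧ i < j + b) := fun h5 => h2 (R.chord.base_mem R.hp hnt h5.1 h5.2)
    have h5 : i + 1 = j := by omega
    refine ⟨j, le_rfl, by omega, ?_⟩
    rw [R.V_le le_rfl, ← h5, V, ← R.hp.org_rev_bd, ← hi, hfF.2]

end PMap

end Pool.Agent.Helper97.Speed
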