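import Pool.Agent.Helper97.Speed.Shift

/-! # Transfer of walks and explorations along isomorphisms of regions -/

namespace Pool.Agent.Helper97.Speed

namespace PMap

variable {m m₁ m₂ g g₁ g₂ : PMap}

/-! ### valid states -/

/-- the remaining map `R` is obtained by removing a region containing the dart `r` -/
def Ok (m R : PMap) (r : ℕ) : Prop :=
  ∃ (j : ℤ) (b n : ℕ) (S : Finset ℕ), Reg m R j b n S ∧ S ≠ ∅ ∧ r ∈ m.X S

lemma Reg.mem_X_of_sw {j : ℤ} {b n : ℕ} {T : Finset ℕ} (R : Reg m m₂ j b n T) {x e : ℕ}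
    (h : m₂.Sw x) (hE : e ∈ m.E) (he : m.org e = x) : e ∈ m.X T := by
  have h1 := R.mem_of_sw h he
  rcases hE with hE | hE
  · exact Or.inl (h1.1 hE)
  · exact Or.inr (h1.2 hE)

lemma Ok.exploreV {R : PMap} {r : ℕ} (h : Ok m R r) :
    (R.exploreV (m.org r)).Sw (m.org r) ∧ ∃ j b n S S₀, Reg m (R.exploreV (m.org r)) j b n S ∧
      S ≠ ∅ ∧ (∀ d ∈ m.E, m.org d = m.org r → d ∈ m.X S) ∧ (∃ j b n, Reg m R j b n S₀) ∧
        S₀ ≠ ∅ ∧ S₀ ⊆ S := by
  obtain ⟨j, b, n, S, R₀, hS, hr⟩ := h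
  have hsw := R₀.exploreV_sw hS hr
  obtain ⟨j', b', n', S', R', hS', hsub, -⟩ := R₀.exploreV_reg hS hr
  exact ⟨hsw, j', b', n', S', S, R', hS', fun d hd hd' => R'.mem_X_of_sw hsw hd hd',
    ⟨j, b, n, R₀⟩, hS, hsub⟩

lemma Ok.hp {R : PMap} {r : ℕ} (h : Ok m R r) : m.IsHalfPlane := by
  obtain ⟨j, b, n, S, R₀, -⟩ := h; exact R₀.hp

lemma Ok.hp₂ {R : PMap} {r : ℕ} (h : Ok m R r) : R.IsHalfPlane := by
  obtain ⟨j, b, n, S, R₀, -⟩ := h; exact R₀.hp₂

lemma Ok.mem_E {R : PMap} {r : ℕ} (h : Ok m R r) : r ∈ m.E := by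
  obtain ⟨j, b, n, S, R₀, -, hr⟩ := h; exact R₀.nest.X_E hr

lemma Ok.step {R : PMap} {r : ℕ} (h : Ok m R r) (i : ℕ) :
    Ok m (R.exploreV (m.org r)) (m.step r i) := by
  obtain ⟨hsw, j, b, n, S, S₀, R₁, hS, hX, -⟩ := h.exploreV
  refine ⟨j, b, n, S, R₁, hS, ?_⟩
  have h1 := h.hp.pre.rot_iter_maps (x := m.org r) ⟨h.mem_E, rfl⟩ i
  exact R₁.nest.X_rev (hX _ h1.1 h1.2)

lemma Ok.expl {R : PMap} {r : ℕ} (h : Ok m R r) (a : ℕ → ℕ) (n : ℕ) :
    Ok m (m.expl R r a n) (m.run r a n) := by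
  induction n with
  | zero => exact h
  | succ n ih => exact ih.step (a n)

lemma expl_succ_subset {R : PMap} {r : ℕ} (h : Ok m R r) (a : ℕ → ℕ) (n : ℕ) :
    (m.expl R r a (n + 1)).In ⊆ (m.expl R r a n).In := by
  obtain ⟨⟨S, N⟩, -⟩ := exploreV_nest (h.expl a n).hp₂ (m.pos r a n)
  exact N.subset

lemma expl_subset {R : PMap} {r : ℕ} (h : Ok m R r) (a : ℕ → ℕ) {n n' : ℕ} (hn : n ≤ n') :
    (m.expl R r a n').In ⊆ (m.expl R r a n).In := by
  induction n', hn using Nat.le_induction with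
  | base => exact subset_rfl
  | succ n' _ ih => exact (expl_succ_subset h a n').trans ih

lemma run_congr {r : ℕ} {a b : ℕ → ℕ} {n : ℕ} (h : pre a n = pre b n) :
    m.run r a n = m.run r b n := by rw [run_eq, run_eq, h]

lemma run_congr' {r : ℕ} {a b : ℕ → ℕ} {n i : ℕ} (h : pre a n = pre b n) (hi : i ≤ n) :
    m.run r a i = m.run r b i := run_congr (pre_mono hi h)

lemma expl_congr {R : PMap} {r : ℕ} {a b : ℕ → ℕ} {n : ℕ} (h : pre a n = pre b n) :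
    m.expl R r a n = m.expl R r b n := by
  induction n with
  | zero => rfl
  | succ n ih =>
    have h1 : pre a n = pre b n := pre_mono (Nat.le_succ n) h
    rw [PMap.expl, PMap.expl, ih h1, pos, pos, run_congr h1]

/-! ### rotation and isomorphisms -/

namespace RIso

variable {φ : ℕ → ℕ} {T T' : Finset ℕ}

lemma mem_In (I : RIso φ m m₂ g g₂ T T') {d : ℕ} (hd : d ∈ m.X T) : φ d ∈ g.In ↔ d ∈ m.In := by
  have hrd := I.n1.X_rev hd
  constructor
  · intro h1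
    by_contra h2
    have h3 : m.rev d ∈ T := by
      rcases hd with hd | hd
      · exact absurd (I.n1.tri d hd).1 h2
      · exact hd
    obtain ⟨i, hi⟩ := I.n1.hp.bd_surj (m.rev d) (I.n1.tri _ h3).1
      (by rw [I.n1.hp.rev_rev]; exact h2)
    have h4 := I.bdφ i (by rw [hi]; exact h3)
    rw [hi, I.rev d hd] at h4
    have h5 := I.n2.hp.rev_bd i
    rw [← h4, I.n2.hp.rev_rev] at h5
    exact h5 h1
  · intro h1
    by_contra h2
    have h3 : m.rev d ∈ T ∨ d ∈ T := hd.symm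
    have h4 : d ∉ T := fun h => h2 (I.n2.tri _ ((I.map d hd).2 h)).1
    have h5 : m.rev d ∈ T := h3.resolve_right h4
    have h6 : φ (m.rev d) ∈ T' := (I.map _ hrd).2 h5
    obtain ⟨i, hi⟩ := I.n2.hp.bd_surj (φ (m.rev d)) (I.n2.tri _ h6).1
      (by rw [I.rev d hd, I.n2.hp.rev_rev]; exact h2)
    have h7 : m.bd i ∈ T := (I.bd i).2 (by rw [hi]; exact h6)
    have h8 := I.inj _ (mem_X h7) _ hrd ((I.bdφ i h7).trans hi)
    have h9 := I.n1.hp.rev_bd i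
    rw [h8, I.n1.hp.rev_rev] at h9
    exact h9 h1

lemma mem_E₂ (I : RIso φ m m₂ g g₂ T T') {d : ℕ} (hd : d ∈ m.X T) : φ d ∈ g₂.E ↔ d ∈ m₂.E := by
  have hrd := I.n1.X_rev hd
  have e1 : ∀ {d}, d ∈ m.X T → (φ d ∈ g₂.In ↔ d ∈ m₂.In) := by
    intro d hd
    rw [I.n1.In, I.n2.In]
    simp only [Set.mem_sdiff, Finset.mem_coe]
    rw [I.mem_In hd, I.map d hd]
  simp only [E, Set.mem_ofPred_eq]
  rw [e1 hd, I.n2.rev, I.n1.rev, ← I.rev d hd, e1 hrd]

lemma rot (I : RIso φ m m₂ g g₂ T T') {r : ℕ} (hr : r ∈ m.X T) (hsw : m₂.Sw (m.org r)) :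
    m.rot r ∈ m.X T ∧ φ (m.rot r) = g.rot (φ r) := by
  have hp := I.n1.hp.pre
  have key : ∀ e ∈ m.In, m.org e = m.org r → e ∈ T := by
    intro e he heo
    by_contra h1
    exact hsw e (Or.inl (by rw [I.n1.In]; exact ⟨he, h1⟩)) (by rw [I.n1.org]; exact heo)
  by_cases hin : r ∈ m.In
  · have h1 := key r hin rfl
    have h2 := I.n1.tri.nxt_mem h1
    have h3 := I.n1.tri.nxt_mem h2
    have h4 : φ r ∈ T' := (I.map r hr).2 h1
    rw [rot_of_mem hin, rot_of_mem (I.n2.tri _ h4).1]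
    refine ⟨I.n1.X_rev (mem_X h3), ?_⟩
    rw [I.rev _ (mem_X h3), I.nxt _ h2, I.nxt _ h1]
  · obtain ⟨i, hi⟩ := hp.exists_of_not_mem (I.n1.X_E hr) hin
    have h1 : m.bd i ∈ T := by
      rcases hr with hr | hr
      · exact absurd (I.n1.tri _ hr).1 hin
      · rw [hi, I.n1.hp.rev_rev] at hr; exact hr
    have h2 : m.bd (i + 1) ∈ T := by
      refine key _ (I.n1.hp.bd_mem _) ?_
      rw [hi, I.n1.hp.org_rev_bd]
    have h3 : φ r = g.rev (g.bd i) := by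
      rw [hi, I.rev _ (mem_X h1), I.bdφ i h1]
    rw [h3, I.n2.hp.pre.rot_rev_bd, hi, hp.rot_rev_bd]
    exact ⟨mem_X h2, I.bdφ _ h2⟩

lemma rot_iter (I : RIso φ m m₂ g g₂ T T') {r : ℕ} (hr : r ∈ m.X T) (hsw : m₂.Sw (m.org r))
    (i : ℕ) : m.rot^[i] r ∈ m.X T ∧ φ (m.rot^[i] r) = g.rot^[i] (φ r) := by
  induction i with
  | zero => exact ⟨hr, rfl⟩
  | succ i ih =>
    rw [Function.iterate_succ_apply', Function.iterate_succ_apply', ← ih.2]
    refine I.rot ih.1 ?_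
    have h1 := I.n1.hp.pre.rot_iter_maps (x := m.org r) ⟨I.n1.X_E hr, rfl⟩ i
    rw [h1.2]; exact hsw

lemma step (I : RIso φ m m₂ g g₂ T T') {r : ℕ} (hr : r ∈ m.X T) (hsw : m₂.Sw (m.org r))
    (i : ℕ) : m.step r i ∈ m.X T ∧ φ (m.step r i) = g.step (φ r) i := by
  have h := I.rot_iter hr hsw i
  refine ⟨I.n1.X_rev h.1, ?_⟩
  rw [PMap.step, PMap.step, I.rev _ h.1, h.2]

lemma deg (I : RIso φ m m₂ g g₂ T T') {r : ℕ} (hr : r ∈ m.X T) (hsw : m₂.Sw (m.org r)) :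
    g.deg (g.org (φ r)) = m.deg (m.org r) := by
  have hE := I.n1.X_E hr
  have hE' : φ r ∈ g.E := I.n2.X_E (I.mapX hr)
  have h1 : {d | d ∈ g.E ∧ g.org d = g.org (φ r)} = φ '' {d | d ∈ m.E ∧ m.org d = m.org r} := by
    ext e
    constructor
    · rintro ⟨he, heo⟩
      obtain ⟨i, hi⟩ := I.n2.hp.exists_rot hE' he heo.symm
      have h2 := I.rot_iter hr hsw i
      have h3 := I.n1.hp.pre.rot_iter_maps (x := m.org r) ⟨hE, rfl⟩ i
      exact ⟨m.rot^[i] r, h3, by rw [h2.2, hi]⟩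
    · rintro ⟨d, ⟨hd, hdo⟩, rfl⟩
      obtain ⟨i, rfl⟩ := I.n1.hp.exists_rot hE hd hdo.symm
      have h2 := I.rot_iter hr hsw i
      rw [h2.2]
      exact I.n2.hp.pre.rot_iter_maps (x := g.org (φ r)) ⟨hE', rfl⟩ i
  rw [PMap.deg, PMap.deg, h1, Set.InjOn.ncard_image]
  rintro d ⟨hd, hdo⟩ e ⟨he, heo⟩ hde
  obtain ⟨i, rfl⟩ := I.n1.hp.exists_rot hE hd hdo.symm
  obtain ⟨k, rfl⟩ := I.n1.hp.exists_rot hE he heo.symm
  exact I.inj _ (I.rot_iter hr hsw i).1 _ (I.rot_iter hr hsw k).1 hde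

end RIso

/-! ### transfer of the process -/

theorem Stage.expl {φ : ℕ → ℕ} {R R' : PMap} {r : ℕ} (hok : Ok m R r)
    (st : Stage φ m m₂ g g₂ R R') (a : ℕ → ℕ) (n : ℕ) (hsub : m₂.In ⊆ (m.expl R r a n).In) :
    Stage φ m m₂ g g₂ (m.expl R r a n) (g.expl R' (φ r) a n) ∧
      g.run (φ r) a n = φ (m.run r a n) := by
  induction n with
  | zero => exact ⟨st, rfl⟩
  | succ n ih =>
    obtain ⟨st', hrun⟩ := ih (hsub.trans (expl_succ_subset hok a n))
    obtain ⟨j, b, k, S, R₀, hS, hr⟩ := hok.expl a n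
    have st2 := st'.step R₀ hS hr hsub
    have e1 : g.expl R' (φ r) a (n + 1) = (g.expl R' (φ r) a n).exploreV
        (g.org (φ (m.run r a n))) := by
      rw [PMap.expl, pos, hrun]
    refine ⟨by rw [e1]; exact st2, ?_⟩
    obtain ⟨hsw, j', b', k', S', S₀, R₁, hS', hX, -⟩ := (hok.expl a n).exploreV
    obtain ⟨S'', RG, I1⟩ := st2.iso_left R₁
    have h1 := I1.step (hX _ (hok.expl a n).mem_E rfl) hsw (a n)
    rw [run, run, hrun, h1.2]

/-! ### the start state -/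

lemma exh_ok_nil (h : m.IsHalfPlane) (k : ℕ) : Ok m (exh m k) (m.bd 0) := by
  obtain ⟨j, b, n, S, R, hS, hj, hb⟩ := exh_reg h k
  refine ⟨j, b, n, S, R, hS, ?_⟩
  exact mem_X ((R.mem_of_sw (R.sw hj hb) rfl).1 (h.bd_mem 0))

lemma exh_ok (h : m.IsHalfPlane) {k : ℕ} {w : List ℕ} (hw : w.length ≤ k) :
    Ok m (exh m k) (m.dart (m.bd 0) w) := by
  induction w using List.reverseRecOn generalizing k with
  | nil => exact exh_ok_nil h k
  | append_singleton w i ih =>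
    simp only [List.length_append, List.length_singleton] at hw
    obtain ⟨k, rfl⟩ : ∃ k', k = k' + 1 := ⟨k - 1, by omega⟩
    obtain ⟨j, b, n, S, R, hS, hr⟩ := ih (k := k) (by omega)
    have hsw := exh_step h k R hS hr
    obtain ⟨j', b', n', S', R', hS', -⟩ := exh_reg h (k + 1)
    refine ⟨j', b', n', S', R', hS', ?_⟩
    rw [dart_append]
    have h1 := h.pre.rot_iter_maps (x := m.org (m.dart (m.bd 0) w)) ⟨R.nest.X_E hr, rfl⟩ i
    exact R'.nest.X_rev (R'.mem_X_of_sw hsw h1.1 h1.2)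

lemma RIso.dart_start {φ : ℕ → ℕ} {T T' : Finset ℕ} (I : RIso φ m m₂ g g₂ T T') {k : ℕ}
    {w : List ℕ} (hw : w.length ≤ k) (hsub : m₂.In ⊆ (exh m k).In) :
    g.dart (g.bd 0) w = φ (m.dart (m.bd 0) w) := by
  induction w using List.reverseRecOn generalizing k with
  | nil =>
    obtain ⟨j, b, n, S, R, hS, hr⟩ := exh_ok_nil I.n1.hp k
    obtain ⟨S', RG, I1⟩ := (Stage.exh I k hsub).iso_left R
    have h2 : m.bd 0 ∈ S := by
      rcases hr with hr | hr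
      · exact hr
      · exact absurd (R.tri _ hr).1 (I.n1.hp.rev_bd 0)
    exact (I1.bdφ 0 h2).symm
  | append_singleton w i ih =>
    simp only [List.length_append, List.length_singleton] at hw
    obtain ⟨k, rfl⟩ : ∃ k', k = k' + 1 := ⟨k - 1, by omega⟩
    have h0 := ih (k := k) (by omega) (hsub.trans (exh_mono I.n1.hp (Nat.le_succ k)))
    obtain ⟨j, b, n, S, R, hS, hr⟩ := exh_ok I.n1.hp (k := k) (w := w) (by omega)
    have hsw := exh_step I.n1.hp k R hS hr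
    obtain ⟨j', b', n', S', R', hS', -⟩ := exh_reg I.n1.hp (k + 1)
    obtain ⟨S'', RG, I1⟩ := (Stage.exh I (k + 1) hsub).iso_left R'
    have h1 := I1.step (R'.mem_X_of_sw hsw (R.nest.X_E hr) rfl) hsw i
    rw [dart_append, dart_append, h0]
    exact h1.2.symm

/-! ### candidates -/

/-- `x` is on the boundary -/
def OnBd (m : PMap) (x : ℕ) : Prop := ∃ l, m.V l = x

open Classical in
/-- the index of a boundary vertex -/
noncomputable def idx (m : PMap) (x : ℕ) : ℤ :=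
  if h : m.OnBd x then h.choose else 0

lemma V_idx {x : ℕ} (hx : m.OnBd x) : m.V (m.idx x) = x := by
  rw [idx, dif_pos hx]
  exact hx.choose_spec

lemma idx_eq (h : m.Pre) {l : ℤ} {x : ℕ} (hx : m.V l = x) : m.idx x = l :=
  h.V_inj (by rw [V_idx ⟨l, hx⟩, hx])

/-- darts at the origin of `r`, which are not in the remaining map `R` -/
def outD (m R : PMap) (r : ℕ) : Set ℕ := {d | d ∈ m.E ∧ m.org d = m.org r ∧ d ∉ R.E}

/-- candidate: the vertex of `r` is on the boundary of the remaining map, and `r` is the only dart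
at this vertex which is not in the remaining map. -/
def Cand (m R : PMap) (r : ℕ) : Prop := R.OnBd (m.org r) ∧ m.outD R r = {r}

namespace RIso

variable {φ : ℕ → ℕ} {T T' : Finset ℕ}

lemma onBd₂ (I : RIso φ m m₂ g g₂ T T') {r : ℕ} (hr : r ∈ m.X T) :
    g₂.OnBd (g.org (φ r)) ↔ m₂.OnBd (m.org r) := by
  constructor
  · rintro ⟨l, hl⟩; exact ⟨l, ((I.V₂ r hr l).2 hl.symm).symm⟩
  · rintro ⟨l, hl⟩; exact ⟨l, ((I.V₂ r hr l).1 hl.symm).symm⟩

lemma idx₂ (I : RIso φ m m₂ g g₂ T T') {r : ℕ} (hr : r ∈ m.X T) :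
    g₂.idx (g.org (φ r)) = m₂.idx (m.org r) := by
  by_cases h : m₂.OnBd (m.org r)
  · have h1 := V_idx h
    exact idx_eq I.n2.hp₂.pre (((I.V₂ r hr _).1 h1.symm).symm)
  · have h' : ¬ g₂.OnBd (g.org (φ r)) := fun h1 => h ((I.onBd₂ hr).1 h1)
    rw [idx, idx, dif_neg h, dif_neg h']

lemma outD_subset (I : RIso φ m m₂ g g₂ T T') {r : ℕ} {d : ℕ} (hd : d ∈ m.outD m₂ r) :
    d ∈ m.X T := by
  obtain ⟨hE, -, h2⟩ := hd
  by_contra h
  simp only [X, Set.mem_ofPred_eq, not_or] at h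
  apply h2
  rcases hE with hE | hE
  · exact Or.inl (by rw [I.n1.In]; exact ⟨hE, h.1⟩)
  · exact Or.inr (by rw [I.n1.rev, I.n1.In]; exact ⟨hE, h.2⟩)

lemma outD_subset' (I : RIso φ m m₂ g g₂ T T') {r : ℕ} {d : ℕ} (hd : d ∈ g.outD g₂ r) :
    d ∈ g.X T' := by
  obtain ⟨hE, -, h2⟩ := hd
  by_contra h
  simp only [X, Set.mem_ofPred_eq, not_or] at h
  apply h2
  rcases hE with hE | hE
  · exact Or.inl (by rw [I.n2.In]; exact ⟨hE, h.1⟩)
  · exact Or.inr (by rw [I.n2.rev, I.n2.In]; exact ⟨hE, h.2⟩)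

lemma surjX (I : RIso φ m m₂ g g₂ T T') {e : ℕ} (he : e ∈ g.X T') : ∃ d ∈ m.X T, φ d = e := by
  rcases he with he | he
  · obtain ⟨d, hd, h1⟩ := I.surj e he
    exact ⟨d, mem_X hd, h1⟩
  · obtain ⟨d, hd, h1⟩ := I.surj _ he
    refine ⟨m.rev d, I.n1.X_rev (mem_X hd), ?_⟩
    rw [I.rev d (mem_X hd), h1, I.n2.hp.rev_rev]

lemma outD_image (I : RIso φ m m₂ g g₂ T T') {r : ℕ} (hr : r ∈ m.X T) :
    g.outD g₂ (φ r) = φ '' m.outD m₂ r := by
  ext e
  constructor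
  · intro he
    obtain ⟨d, hd, rfl⟩ := I.surjX (I.outD_subset' he)
    refine ⟨d, ⟨I.n1.X_E hd, (I.org d hd r hr).2 he.2.1, ?_⟩, rfl⟩
    exact fun h => he.2.2 ((I.mem_E₂ hd).2 h)
  · rintro ⟨d, hd, rfl⟩
    have hX := I.outD_subset hd
    exact ⟨I.n2.X_E (I.mapX hX), (I.org d hX r hr).1 hd.2.1, fun h => hd.2.2 ((I.mem_E₂ hX).1 h)⟩

lemma cand (I : RIso φ m m₂ g g₂ T T') {r : ℕ} (hr : r ∈ m.X T) :
    Cand g g₂ (φ r) ↔ Cand m m₂ r := by
  unfold Cand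
  rw [I.onBd₂ hr, I.outD_image hr]
  refine and_congr_right fun _ => ?_
  constructor
  · intro h
    ext d
    rw [Set.mem_singleton_iff]
    constructor
    · intro hd
      have h1 : φ d ∈ φ '' m.outD m₂ r := ⟨d, hd, rfl⟩
      rw [h, Set.mem_singleton_iff] at h1
      exact I.inj d (I.outD_subset hd) r hr h1
    · rintro rfl
      have h1 : φ d ∈ φ '' m.outD m₂ d := by rw [h]; rfl
      obtain ⟨e, he, he'⟩ := h1
      rwa [I.inj e (I.outD_subset he) d hr he'] at he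
  · intro h
    rw [h, Set.image_singleton]

lemma outD_ncard (I : RIso φ m m₂ g g₂ T T') {r : ℕ} (hr : r ∈ m.X T) :
    (g.outD g₂ (φ r)).ncard = (m.outD m₂ r).ncard := by
  rw [I.outD_image hr, Set.InjOn.ncard_image]
  intro d hd e he hde
  exact I.inj d (I.outD_subset hd) e (I.outD_subset he) hde

end RIso

end PMap

end Pool.Agent.Helper97.Speed
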