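import Pool.Agent.Helper97.Speed.Transfer

/-! # Exploration processes -/

namespace Pool.Agent.Helper97.Speed

namespace PMap

variable {m m₁ m₂ m₃ g g₁ g₂ g₃ : PMap}

namespace Reg

variable {j : ℤ} {b n : ℕ} {T : Finset ℕ}

lemma V₂_range (R : Reg m m₂ j b n T) (hT : T ≠ ∅) {d : ℕ} (hd : d ∈ m.X T) {i : ℤ}
    (hi : m.org d = m₂.V i) : j ≤ i ∧ i ≤ j + n := by
  by_contra hcon
  rcases lt_or_ge i j with h1 | h1
  · rw [R.V_le h1.le] at hi
    have := R.V_range hT hd hi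
    omega
  · rw [R.V_ge (by omega)] at hi
    have := R.V_range hT hd hi
    omega

/-- a vertex of the region which is a vertex of the remaining map is on the interface. -/
lemma X_vertex (R : Reg m m₂ j b n T) (hT : T ≠ ∅) {d : ℕ} (hd : d ∈ m.X T)
    (hs : ¬ m₂.Sw (m.org d)) : ∃ k, j ≤ k ∧ k ≤ j + n ∧ m.org d = m₂.V k := by
  unfold Sw at hs
  push Not at hs
  obtain ⟨f, hf, hfd⟩ := hs
  by_cases hdE : d ∈ m₂.E
  · rcases hd with hd | hd
    · have h1 : m.rev d ∈ m₂.In := by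
        rcases hdE with h2 | h2
        · rw [R.In] at h2; exact absurd hd h2.2
        · rwa [R.rev] at h2
      have h2 : m₂.rev (m.rev d) ∉ m₂.In := by
        rw [R.rev, R.hp.rev_rev, R.In]; exact fun h3 => h3.2 hd
      obtain ⟨k, hk⟩ := R.hp₂.bd_surj _ h1 h2
      have h3 : m.rev (m₂.bd k) ∈ T := by rw [hk, R.hp.rev_rev]; exact hd
      have h4 := (R.rev_bd₂_mem_iff hT).1 h3
      refine ⟨k + 1, by omega, by omega, ?_⟩
      have h5 := R.hp₂.org_rev_bd k
      rw [hk, R.rev, R.hp.rev_rev, R.org] at h5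
      rw [h5, V, R.org]
    · have h1 : d ∈ m₂.In := by
        rcases hdE with h2 | h2
        · exact h2
        · rw [R.rev, R.In] at h2; exact absurd hd h2.2
      have h2 : m₂.rev d ∉ m₂.In := by
        rw [R.rev, R.In]; exact fun h3 => h3.2 hd
      obtain ⟨k, hk⟩ := R.hp₂.bd_surj _ h1 h2
      have h3 : m.rev (m₂.bd k) ∈ T := by rw [hk]; exact hd
      have h4 := (R.rev_bd₂_mem_iff hT).1 h3
      refine ⟨k, by omega, by omega, ?_⟩
      rw [← hk, V, R.org]
  · obtain ⟨k, hk1, hk2, hk3⟩ := R.interface (e := f) (d := d) hf (R.nest.X_E hd) hdE (by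
      rw [← hfd, R.org])
    refine ⟨k, hk1, hk2, ?_⟩
    rw [← hk3, ← hfd, R.org]

/-- exploring a vertex of the interface gives again a region -/
lemma explore_reg (R : Reg m m₂ j b n T) {l : ℤ} (h1 : j ≤ l) (h2 : l ≤ j + n) :
    ∃ j' b' n' T', Reg m (m₂.explore l) j' b' n' T' ∧ T' ≠ ∅ ∧ T ⊆ T' ∧ j' ≤ j ∧
      j + b ≤ j' + b' := by
  obtain ⟨j', b', n', S, P⟩ := explore_spec R.hp₂ l
  have hl := P.lt
  have hg := P.gt
  have hp1 := R.posb
  have hp2 := R.posn
  have hp3 := P.reg.posb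
  have hp4 := P.reg.posn
  have RR := R.comp P.reg (by omega) (by omega)
  refine ⟨_, _, _, _, RR, ?_, Finset.subset_union_left, by omega, by omega⟩
  have h3 : m₂.bd l ∈ S := by
    have hs := P.sw
    have := P.reg.mem_of_sw (x := m₂.V l) (e := m₂.bd l) hs rfl
    exact this.1 (R.hp₂.bd_mem l)
  exact Finset.nonempty_iff_ne_empty.1 ⟨_, Finset.mem_union_right _ h3⟩

lemma exploreV_reg (R : Reg m m₂ j b n T) (hT : T ≠ ∅) {e : ℕ} (he : e ∈ m.X T) :
    ∃ j' b' n' T', Reg m (m₂.exploreV (m.org e)) j' b' n' T' ∧ T' ≠ ∅ ∧ T ⊆ T' ∧ j' ≤ j ∧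
      j + b ≤ j' + b' := by
  by_cases hx : ∃ l, m₂.V l = m.org e
  · obtain ⟨l, hl⟩ := hx
    rw [exploreV_of_eq R.hp₂.pre hl]
    obtain ⟨h1, h2⟩ := R.V₂_range hT he hl.symm
    exact R.explore_reg h1 h2
  · push Not at hx
    rw [exploreV_of_ne hx]
    exact ⟨j, b, n, T, R, hT, subset_rfl, le_rfl, le_rfl⟩

/-- after exploring, the vertex is swallowed -/
lemma exploreV_sw (R : Reg m m₂ j b n T) (hT : T ≠ ∅) {e : ℕ} (he : e ∈ m.X T) :
    (m₂.exploreV (m.org e)).Sw (m.org e) := by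
  by_cases hx : ∃ l, m₂.V l = m.org e
  · obtain ⟨l, hl⟩ := hx
    rw [exploreV_of_eq R.hp₂.pre hl, ← hl]
    obtain ⟨j', b', n', S, P⟩ := explore_spec R.hp₂ l
    exact P.sw
  · rw [exploreV_of_ne (by push Not at hx; exact hx)]
    by_contra hs
    obtain ⟨k, -, -, hk⟩ := R.X_vertex hT he hs
    exact hx ⟨k, hk.symm⟩

/-- uniqueness of the parameters -/
lemma params (R : Reg m m₂ j b n T) (hT : T ≠ ∅) {j' : ℤ} {b' n' : ℕ} {T' : Finset ℕ}
    (R' : Reg m m₂ j' b' n' T') : T' = T ∧ j' = j ∧ b' = b ∧ n' = n := by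
  have hTT : T' = T := by
    ext d
    constructor
    · intro hd
      by_contra h1
      have h2 : d ∈ m₂.In := by rw [R.In]; exact ⟨(R'.tri d hd).1, h1⟩
      rw [R'.In] at h2
      exact h2.2 hd
    · intro hd
      by_contra h1
      have h2 : d ∈ m₂.In := by rw [R'.In]; exact ⟨(R.tri d hd).1, h1⟩
      rw [R.In] at h2
      exact h2.2 hd
  subst hTT
  have hb := R.posb
  have hb' := R'.posb
  have hn := R.posn
  have hn' := R'.posn
  have e1 : ∀ i, (j ≤ i ∧ i < j + b) ↔ (j' ≤ i ∧ i < j' + b') := fun i => by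
    rw [← R.bd_mem_iff hT, ← R'.bd_mem_iff hT]
  have e2 : ∀ i, (j ≤ i ∧ i < j + n) ↔ (j' ≤ i ∧ i < j' + n') := fun i => by
    rw [← R.bd₂_mem_X_iff hT, ← R'.bd₂_mem_X_iff hT]
  have a1 := e1 j
  have a2 := e1 j'
  have a3 := e1 (j + b - 1)
  have a4 := e1 (j' + b' - 1)
  have a5 := e2 (j + n - 1)
  have a6 := e2 (j' + n' - 1)
  refine ⟨rfl, by omega, by omega, by omega⟩

end Reg

/-- the situation: `h'` is an intermediate stage of the exploration of `hn` in `h`, and `g'` is the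
corresponding stage in `g`. -/
structure Stage (φ : ℕ → ℕ) (m m₂ g g₂ m' g' : PMap) : Prop where
  iso : ∃ T T', RIso φ m m₂ g g₂ T T'
  reg : ∃ j b n S, Reg m m' j b n S ∧ S ≠ ∅
  iso' : ∃ A A', RIso φ m' m₂ g' g₂ A A'
  far : Far g g'
  sub : m₂.In ⊆ m'.In

lemma Stage.iso_left {φ : ℕ → ℕ} {m' g' : PMap} (st : Stage φ m m₂ g g₂ m' g') {j : ℤ} {b n : ℕ}
    {S : Finset ℕ} (R : Reg m m' j b n S) :
    ∃ S', Reg g g' j b n S' ∧ RIso φ m m' g g' S S' := by
  obtain ⟨T, T', I⟩ := st.iso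
  obtain ⟨A, A', I'⟩ := st.iso'
  obtain ⟨hST, N⟩ := I.n1.of_subset R.nest st.sub
  obtain ⟨g₁, RG, I1, I2⟩ := I.restrict R hST N
  have hA : A = T \ S := by
    have h1 := I'.n1.In
    have h2 := N.In
    ext d
    constructor
    · intro hd
      have h3 : d ∈ m'.In := (I'.n1.tri d hd).1
      by_contra h4
      have h5 : d ∈ m₂.In := by rw [h2]; exact ⟨h3, h4⟩
      rw [h1] at h5
      exact h5.2 hd
    · intro hd
      have h3 : d ∈ m'.In := (N.tri d hd).1
      by_contra h4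
      have h5 : d ∈ m₂.In := by rw [h1]; exact ⟨h3, h4⟩
      rw [h2] at h5
      exact h5.2 hd
  subst hA
  obtain ⟨i, hi⟩ := RG.far.common st.far
  have := I2.eq_of I' hi
  subst this
  exact ⟨_, RG, I1⟩

lemma Stage.step {φ : ℕ → ℕ} {m' g' : PMap} (st : Stage φ m m₂ g g₂ m' g') {j : ℤ} {b n : ℕ}
    {S : Finset ℕ} (R : Reg m m' j b n S) (hS : S ≠ ∅) {e : ℕ} (he : e ∈ m.X S)
    (hsub : m₂.In ⊆ (m'.exploreV (m.org e)).In) :
    Stage φ m m₂ g g₂ (m'.exploreV (m.org e)) (g'.exploreV (g.org (φ e))) := by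
  obtain ⟨S', RG, I1⟩ := st.iso_left R
  obtain ⟨A, A', I'⟩ := st.iso'
  have hx : ∀ l, m'.V l = m.org e ↔ g'.V l = g.org (φ e) := by
    intro l
    have := I1.V₂ e he l
    constructor
    · intro h; exact (this.1 h.symm).symm
    · intro h; exact (this.2 h.symm).symm
  obtain ⟨j', b', n', T', R', hT', -⟩ := R.exploreV_reg hS he
  exact ⟨st.iso, ⟨j', b', n', T', R', hT'⟩, exploreV_transfer I' hx hsub,
    st.far.trans (exploreV_nest I'.n2.hp _).2, hsub⟩

/-- the first step: exploration of the root vertex. -/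
lemma Stage.first {φ : ℕ → ℕ} {T T' : Finset ℕ} (I : RIso φ m m₂ g g₂ T T')
    (hsub : m₂.In ⊆ (m.explore 0).In) : Stage φ m m₂ g g₂ (m.explore 0) (g.explore 0) := by
  obtain ⟨j, b, n, S, P⟩ := explore_spec I.n1.hp 0
  obtain ⟨j', b', n', S', P'⟩ := explore_spec I.n2.hp 0
  refine ⟨⟨T, T', I⟩, ⟨j, b, n, S, P.reg, ?_⟩, explore_transfer _ I le_rfl hsub, P'.reg.far, hsub⟩
  have := P.reg.mem_of_sw (x := m.V 0) (e := m.bd 0) P.sw rfl
  exact Finset.nonempty_iff_ne_empty.1 ⟨_, this.1 (I.n1.hp.bd_mem 0)⟩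

/-- at the end the stage is the remaining map. -/
lemma Stage.final {φ : ℕ → ℕ} {g' : PMap} (st : Stage φ m m₂ g g₂ m₂ g') (hg : Far g g₂) :
    g' = g₂ := by
  obtain ⟨A, A', I⟩ := st.iso'
  have hA : A = ∅ := by
    have h1 := I.n1.In
    ext d
    constructor
    · intro hd
      have h3 : d ∈ m₂.In := (I.n1.tri d hd).1
      rw [h1] at h3
      exact absurd hd h3.2
    · intro hd; simp at hd
  have hA' : A' = ∅ := by rw [I.image_eq, hA]; simp
  subst hA hA'
  obtain ⟨i, hi⟩ := st.far.common hg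
  have hIn := I.n2.In
  simp only [Finset.coe_empty, Set.sdiff_empty] at hIn
  exact ext_of_bd I.n2.hp I.n2.hp₂ I.n2.rev.symm I.n2.nxt.symm I.n2.org.symm hIn.symm hi

/-! ### the exhaustion -/

open Classical in
/-- explore all the vertices of the interface -/
noncomputable def sweep (h m : PMap) : PMap :=
  if hR : ∃ q : ℤ × ℕ × ℕ × Finset ℕ, Reg h m q.1 q.2.1 q.2.2.1 q.2.2.2 ∧ q.2.2.2 ≠ ∅ then
    ((List.range (hR.choose.2.2.1 + 1)).map (fun s : ℕ => m.V (hR.choose.1 + s))).foldl exploreV m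
  else m

lemma sweep_eq {h : PMap} {j : ℤ} {b n : ℕ} {T : Finset ℕ} (R : Reg h m j b n T) (hT : T ≠ ∅) :
    sweep h m = ((List.range (n + 1)).map (fun s : ℕ => m.V (j + s))).foldl exploreV m := by
  have hR : ∃ q : ℤ × ℕ × ℕ × Finset ℕ, Reg h m q.1 q.2.1 q.2.2.1 q.2.2.2 ∧ q.2.2.2 ≠ ∅ :=
    ⟨(j, b, n, T), R, hT⟩
  have h1 := hR.choose_spec
  have h2 := R.params hT h1.1
  simp only [sweep, hR, dif_pos]
  rw [h2.2.1, h2.2.2.2]

/-- the exhaustion -/
noncomputable def exh (h : PMap) : ℕ → PMap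
  | 0 => h.explore 0
  | k + 1 => sweep h (exh h k)

/-- a list of vertices of the region is explored -/
lemma foldl_reg {h : PMap} : ∀ (xs : List ℕ) {m : PMap} {j : ℤ} {b n : ℕ} {T : Finset ℕ},
    Reg h m j b n T → T ≠ ∅ → (∀ x ∈ xs, ∃ e ∈ h.X T, h.org e = x) →
    ∃ j' b' n' T', Reg h (xs.foldl exploreV m) j' b' n' T' ∧ T' ≠ ∅ ∧ T ⊆ T' ∧ j' ≤ j ∧
      j + b ≤ j' + b' ∧ ∀ x ∈ xs, (xs.foldl exploreV m).Sw x := by
  intro xs
  induction xs with
  | nil =>
    intro m j b n T R hT _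
    exact ⟨j, b, n, T, R, hT, subset_rfl, le_rfl, le_rfl, by simp⟩
  | cons x xs ih =>
    intro m j b n T R hT hx
    obtain ⟨e, he, rfl⟩ := hx x (by simp)
    obtain ⟨j₁, b₁, n₁, T₁, R₁, hT₁, hs₁, hj₁, hb₁⟩ := R.exploreV_reg hT he
    obtain ⟨j₂, b₂, n₂, T₂, R₂, hT₂, hs₂, hj₂, hb₂, hsw⟩ := ih R₁ hT₁ (by
      intro y hy
      obtain ⟨f, hf, hfy⟩ := hx y (by simp [hy])
      exact ⟨f, X_mono hs₁ hf, hfy⟩)
    refine ⟨j₂, b₂, n₂, T₂, R₂, hT₂, hs₁.trans hs₂, by omega, by omega, ?_⟩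
    intro y hy
    rcases List.mem_cons.1 hy with rfl | hy
    · have h1 := R.exploreV_sw hT he
      rw [List.foldl_cons]
      intro f hf hfx
      -- f is in R₂'s map, so in R₁'s map
      have hsub : (xs.foldl exploreV (m.exploreV (h.org e))).In ⊆ (m.exploreV (h.org e)).In := by
        rw [R₂.In, R₁.In]
        exact fun d hd => ⟨hd.1, fun h3 => hd.2 (hs₂ h3)⟩
      have hfE : f ∈ (m.exploreV (h.org e)).E := by
        rcases hf with hf | hf
        · exact Or.inl (hsub hf)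
        · right
          have := hsub hf
          rwa [R₂.rev, ← R₁.rev] at this
      refine h1 f hfE ?_
      rw [R₂.org] at hfx
      rw [R₁.org]
      exact hfx
    · exact hsw y hy

lemma Reg.window {h : PMap} {j : ℤ} {b n : ℕ} {T : Finset ℕ} (R : Reg h m j b n T) (hT : T ≠ ∅)
    {i : ℤ} (h1 : j ≤ i) (h2 : i ≤ j + n) : ∃ e ∈ h.X T, h.org e = m.V i := by
  have hn := R.posn
  rcases lt_or_ge i (j + n) with h3 | h3
  · exact ⟨m.bd i, (R.bd₂_mem_X_iff hT).2 ⟨h1, h3⟩, by rw [V, R.org]⟩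
  · have h4 : m.bd (i - 1) ∈ h.X T := (R.bd₂_mem_X_iff hT).2 ⟨by omega, by omega⟩
    refine ⟨h.rev (m.bd (i - 1)), R.nest.X_rev h4, ?_⟩
    have h5 := R.hp₂.org_rev_bd (i - 1)
    rw [R.org, R.rev, sub_add_cancel] at h5
    rw [h5, V, R.org]

lemma exh_reg {h : PMap} (hh : h.IsHalfPlane) (k : ℕ) :
    ∃ j b n T, Reg h (exh h k) j b n T ∧ T ≠ ∅ ∧ j < 0 ∧ 0 < j + b := by
  induction k with
  | zero =>
    obtain ⟨j, b, n, S, P⟩ := explore_spec hh 0
    refine ⟨j, b, n, S, P.reg, ?_, P.lt, P.gt⟩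
    have := P.reg.mem_of_sw (x := h.V 0) (e := h.bd 0) P.sw rfl
    exact Finset.nonempty_iff_ne_empty.1 ⟨_, this.1 (hh.bd_mem 0)⟩
  | succ k ih =>
    obtain ⟨j, b, n, T, R, hT, hj, hb⟩ := ih
    have h1 : exh h (k + 1) = _ := sweep_eq R hT
    rw [h1]
    obtain ⟨j', b', n', T', R', hT', -, hj', hb', -⟩ := foldl_reg
      ((List.range (n + 1)).map (fun s : ℕ => (exh h k).V (j + s))) R hT (by
        intro x hx
        obtain ⟨s, hs, rfl⟩ := List.mem_map.1 hx
        rw [List.mem_range] at hs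
        exact R.window hT (by omega) (by omega))
    exact ⟨j', b', n', T', R', hT', by omega, by omega⟩

lemma exh_step {h : PMap} (hh : h.IsHalfPlane) (k : ℕ) {j : ℤ} {b n : ℕ} {T : Finset ℕ}
    (R : Reg h (exh h k) j b n T) (hT : T ≠ ∅) {e : ℕ} (he : e ∈ h.X T) :
    (exh h (k + 1)).Sw (h.org e) := by
  have h1 : exh h (k + 1) = _ := sweep_eq R hT
  obtain ⟨j', b', n', T', R', hT', hs, -, -, hsw⟩ := foldl_reg
    ((List.range (n + 1)).map (fun s : ℕ => (exh h k).V (j + s))) R hT (by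
      intro x hx
      obtain ⟨s, hs, rfl⟩ := List.mem_map.1 hx
      rw [List.mem_range] at hs
      exact R.window hT (by omega) (by omega))
  rw [← h1] at hsw R'
  by_cases hsw' : (exh h k).Sw (h.org e)
  · intro f hf
    have hsub : (exh h (k + 1)).In ⊆ (exh h k).In := by
      rw [R'.In, R.In]
      exact fun d hd => ⟨hd.1, fun h3 => hd.2 (hs h3)⟩
    have hfE : f ∈ (exh h k).E := by
      rcases hf with hf | hf
      · exact Or.inl (hsub hf)
      · right
        have := hsub hf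
        rwa [R'.rev, ← R.rev] at this
    have := hsw' f hfE
    rw [R.org] at this
    rw [R'.org]; exact this
  · obtain ⟨i, h2, h3, h4⟩ := R.X_vertex hT he hsw'
    rw [h4]
    apply hsw
    rw [List.mem_map]
    exact ⟨(i - j).toNat, by rw [List.mem_range]; omega, by congr 1; omega⟩

lemma exh_mono {h : PMap} (hh : h.IsHalfPlane) {k k' : ℕ} (hk : k ≤ k') :
    (exh h k').In ⊆ (exh h k).In := by
  induction k', hk using Nat.le_induction with
  | base => exact subset_rfl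
  | succ k' _ ih =>
    refine subset_trans ?_ ih
    obtain ⟨j, b, n, T, R, hT, hj, hb⟩ := exh_reg hh k'
    have h1 : exh h (k' + 1) = _ := sweep_eq R hT
    obtain ⟨_, _, _, T', R', hT', hs, -⟩ := foldl_reg
      ((List.range (n + 1)).map (fun s : ℕ => (exh h k').V (j + s))) R hT (by
        intro x hx
        obtain ⟨s, hs, rfl⟩ := List.mem_map.1 hx
        rw [List.mem_range] at hs
        exact R.window hT (by omega) (by omega))
    rw [← h1] at R'
    rw [R'.In, R.In]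
    exact fun d hd => ⟨hd.1, fun h3 => hd.2 (hs h3)⟩

/-- every dart is eventually removed. -/
lemma exh_exhausts {h : PMap} (hh : h.IsHalfPlane) {d : ℕ} (hd : d ∈ h.In) :
    ∃ k, d ∉ (exh h k).In := by
  set T : Set ℕ := {d | d ∈ h.In ∧ ∃ k, d ∉ (exh h k).In} with hT
  have : T = h.In := by
    refine hh.conn T (fun d hd => hd.1) ?_ ?_ ?_
    · obtain ⟨j, b, n, S, R, hS, -⟩ := exh_reg hh 0
      obtain ⟨d, hd⟩ := Finset.nonempty_iff_ne_empty.2 hS
      exact ⟨d, (R.tri d hd).1, 0, by rw [R.In]; exact fun h1 => h1.2 hd⟩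
    · rintro d ⟨h1, k, hk⟩
      obtain ⟨j, b, n, S, R, hS, -⟩ := exh_reg hh k
      have hdS : d ∈ S := by
        by_contra h2; exact hk (by rw [R.In]; exact ⟨h1, h2⟩)
      exact ⟨hh.nxt_mem d h1, k, by rw [R.In]; exact fun h2 => h2.2 (R.tri d hdS).2⟩
    · rintro d ⟨h1, k, hk⟩ hrd
      obtain ⟨j, b, n, S, R, hS, -⟩ := exh_reg hh k
      have hdS : d ∈ S := by
        by_contra h2; exact hk (by rw [R.In]; exact ⟨h1, h2⟩)
      have hsw := exh_step hh k R hS (e := h.rev d) (R.nest.X_rev (mem_X hdS))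
      refine ⟨hrd, k + 1, fun h2 => ?_⟩
      obtain ⟨j', b', n', S', R', hS', -⟩ := exh_reg hh (k + 1)
      exact hsw _ (Or.inl h2) (by rw [R'.org])
  have hd' : d ∈ T := this ▸ hd
  exact hd'.2

lemma exh_exhausts_finset {h : PMap} (hh : h.IsHalfPlane) (F : Finset ℕ)
    (hF : ∀ d ∈ F, d ∈ h.In) : ∃ k, ∀ d ∈ F, d ∉ (exh h k).In := by
  classical
  induction F using Finset.induction_on with
  | empty => exact ⟨0, by simp⟩
  | insert a F ha ih =>
    obtain ⟨k, hk⟩ := ih (fun d hd => hF d (Finset.mem_insert_of_mem hd))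
    obtain ⟨k', hk'⟩ := exh_exhausts hh (hF a (Finset.mem_insert_self _ _))
    refine ⟨max k k', ?_⟩
    intro d hd h1
    rcases Finset.mem_insert.1 hd with rfl | hd
    · exact hk' (exh_mono hh (le_max_right _ _) h1)
    · exact hk d hd (exh_mono hh (le_max_left _ _) h1)

/-! ### transfer of the exhaustion -/

lemma foldl_mono {xs : List ℕ} : ∀ {m : PMap}, m.IsHalfPlane →
    (xs.foldl exploreV m).In ⊆ m.In ∧ (xs.foldl exploreV m).IsHalfPlane := by
  induction xs with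
  | nil => intro m h; exact ⟨subset_rfl, h⟩
  | cons x xs ih =>
    intro m h
    obtain ⟨⟨S, N⟩, -⟩ := exploreV_nest h x
    obtain ⟨h1, h2⟩ := ih N.hp₂
    exact ⟨h1.trans N.subset, h2⟩

/-- the folded exploration is transferred; the vertices are given by darts of the region -/
lemma Stage.foldl {φ : ℕ → ℕ} : ∀ (es : List ℕ) {m' g' : PMap}, Stage φ m m₂ g g₂ m' g' →
    (∃ j b n S, Reg m m' j b n S ∧ S ≠ ∅ ∧ ∀ e ∈ es, e ∈ m.X S) →
    m₂.In ⊆ ((es.map m.org).foldl exploreV m').In →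
    Stage φ m m₂ g g₂ ((es.map m.org).foldl exploreV m')
      ((es.map (fun e => g.org (φ e))).foldl exploreV g') := by
  intro es
  induction es with
  | nil => intro m' g' st _ _; exact st
  | cons e es ih =>
    intro m' g' st hR hsub
    obtain ⟨j, b, n, S, R, hS, hes⟩ := hR
    have h1 : m₂.In ⊆ (m'.exploreV (m.org e)).In := by
      refine hsub.trans ?_
      have := exploreV_nest R.hp₂ (m.org e)
      obtain ⟨⟨S', N⟩, -⟩ := this
      exact (foldl_mono N.hp₂).1
    have st' := st.step R hS (hes e (by simp)) h1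
    refine ih st' ?_ hsub
    obtain ⟨j', b', n', S', R', hS', hs, -⟩ := R.exploreV_reg hS (hes e (by simp))
    exact ⟨j', b', n', S', R', hS', fun f hf => X_mono hs (hes f (by simp [hf]))⟩

theorem Stage.exh {φ : ℕ → ℕ} {T T' : Finset ℕ} (I : RIso φ m m₂ g g₂ T T') (k : ℕ)
    (hsub : m₂.In ⊆ (PMap.exh m k).In) : Stage φ m m₂ g g₂ (PMap.exh m k) (PMap.exh g k) := by
  induction k with
  | zero => exact Stage.first I hsub
  | succ k ih =>
    have st := ih (hsub.trans (exh_mono I.n1.hp (Nat.le_succ k)))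
    obtain ⟨j, b, n, S, R, hS, -⟩ := exh_reg I.n1.hp k
    obtain ⟨S', RG, I1⟩ := st.iso_left R
    have hS' : S' ≠ ∅ := by
      rw [I1.image_eq]
      obtain ⟨a, ha⟩ := Finset.nonempty_iff_ne_empty.2 hS
      exact Finset.nonempty_iff_ne_empty.1 ⟨φ a, Finset.mem_image.2 ⟨a, ha, rfl⟩⟩
    have e1 : PMap.exh m (k + 1) = _ := sweep_eq R hS
    have e2 : PMap.exh g (k + 1) = _ := sweep_eq RG hS'
    -- darts representing the vertices of the window
    have hn := R.posn
    set f : ℕ → ℕ := fun s => if s < n then (PMap.exh m k).bd (j + s)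
      else m.rev ((PMap.exh m k).bd (j + n - 1)) with hf
    have hfX : ∀ s, s < n + 1 → f s ∈ m.X S := by
      intro s hs
      by_cases h1 : s < n
      · simp only [hf, h1, if_true]
        exact (R.bd₂_mem_X_iff hS).2 ⟨by omega, by omega⟩
      · simp only [hf, h1, if_false]
        exact R.nest.X_rev ((R.bd₂_mem_X_iff hS).2 ⟨by omega, by omega⟩)
    have hf1 : ∀ s, s < n + 1 → m.org (f s) = (PMap.exh m k).V (j + s) := by
      intro s hs
      by_cases h1 : s < n
      · simp only [hf, h1, if_true]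
        rw [PMap.V, R.org]
      · simp only [hf, h1, if_false]
        have h5 := R.hp₂.org_rev_bd (j + n - 1)
        rw [R.org, R.rev, sub_add_cancel] at h5
        rw [h5, PMap.V, R.org, show s = n by omega]
    have hf2 : ∀ s, s < n + 1 → g.org (φ (f s)) = (PMap.exh g k).V (j + s) := by
      intro s hs
      exact (I1.V₂ _ (hfX s hs) _).1 (hf1 s hs)
    have l1 : (List.range (n + 1)).map (fun s : ℕ => (PMap.exh m k).V (j + s)) =
        ((List.range (n + 1)).map f).map m.org := by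
      rw [List.map_map]
      refine List.map_congr_left ?_
      intro s hs
      rw [List.mem_range] at hs
      exact (hf1 s hs).symm
    have l2 : (List.range (n + 1)).map (fun s : ℕ => (PMap.exh g k).V (j + s)) =
        ((List.range (n + 1)).map f).map (fun e => g.org (φ e)) := by
      rw [List.map_map]
      refine List.map_congr_left ?_
      intro s hs
      rw [List.mem_range] at hs
      exact (hf2 s hs).symm
    rw [e1, l1] at hsub ⊢
    rw [e2, l2]
    refine Stage.foldl _ st ⟨j, b, n, S, R, hS, ?_⟩ hsub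
    intro e he
    obtain ⟨s, hs, rfl⟩ := List.mem_map.1 he
    rw [List.mem_range] at hs
    exact hfX s hs

end PMap

end Pool.Agent.Helper97.Speed
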