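import Pool.Agent.Helper97.Speed.Iso

/-! # Isomorphisms of regions -/

namespace Pool.Agent.Helper97.Speed

namespace PMap

variable {m m₁ m₂ g g₁ g₂ : PMap}

/-- `m₂` is obtained from `m` by removing the triangles in `T`. -/
structure Nest (m m₂ : PMap) (T : Finset ℕ) : Prop where
  hp : m.IsHalfPlane
  hp₂ : m₂.IsHalfPlane
  rev : m₂.rev = m.rev
  nxt : m₂.nxt = m.nxt
  org : m₂.org = m.org
  In : m₂.In = m.In \ (T : Set ℕ)
  tri : m.Tri (T : Set ℕ)

lemma Reg.nest {j : ℤ} {b n : ℕ} {T : Finset ℕ} (R : Reg m m₂ j b n T) : Nest m m₂ T :=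
  ⟨R.hp, R.hp₂, R.rev, R.nxt, R.org, R.In, R.tri⟩

lemma Nest.refl (h : m.IsHalfPlane) : Nest m m ∅ :=
  ⟨h, h, rfl, rfl, rfl, by simp, by intro d hd; simp at hd⟩

lemma Nest.trans {T₁ T₂ : Finset ℕ} (N₁ : Nest m m₁ T₁) (N₂ : Nest m₁ m₂ T₂) :
    Nest m m₂ (T₁ ∪ T₂) := by
  refine ⟨N₁.hp, N₂.hp₂, by rw [N₂.rev, N₁.rev], by rw [N₂.nxt, N₁.nxt], by rw [N₂.org, N₁.org],
    ?_, ?_⟩
  · rw [N₂.In, N₁.In]
    ext d
    simp only [Set.mem_sdiff, Finset.coe_union, Set.mem_union]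
    tauto
  · intro d hd
    rw [Finset.coe_union] at hd ⊢
    rcases hd with hd | hd
    · exact ⟨(N₁.tri d hd).1, Or.inl (N₁.tri d hd).2⟩
    · have h3 := N₂.tri d hd
      rw [N₁.In, N₁.nxt] at h3
      exact ⟨h3.1.1, Or.inr h3.2⟩

/-- The darts of the triangles of `T` and their reversals. -/
def X (m : PMap) (T : Finset ℕ) : Set ℕ := {d | d ∈ T ∨ m.rev d ∈ T}

lemma Nest.X_rev {T : Finset ℕ} (N : Nest m m₂ T) {d : ℕ} (hd : d ∈ m.X T) :
    m.rev d ∈ m.X T := by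
  rcases hd with hd | hd
  · right; rw [N.hp.rev_rev]; exact hd
  · left; exact hd

lemma Nest.X_E {T : Finset ℕ} (N : Nest m m₂ T) {d : ℕ} (hd : d ∈ m.X T) : d ∈ m.E := by
  rcases hd with hd | hd
  · exact Or.inl (N.tri d hd).1
  · exact Or.inr (N.tri _ hd).1

lemma mem_X {T : Finset ℕ} {d : ℕ} (hd : d ∈ T) : d ∈ m.X T := Or.inl hd

lemma X_mono {S T : Finset ℕ} (h : S ⊆ T) : m.X S ⊆ m.X T := by
  rintro d (hd | hd)
  · exact Or.inl (h hd)
  · exact Or.inr (h hd)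

lemma Nest.bd₂_mem {T : Finset ℕ} (N : Nest m m₂ T) (k : ℤ) : m₂.bd k ∈ m.In ∧ m₂.bd k ∉ T := by
  have := N.hp₂.bd_mem k
  rw [N.In] at this
  exact this

/-- An isomorphism between the regions `(m, m₂)` and `(g, g₂)`. -/
structure RIso (φ : ℕ → ℕ) (m m₂ g g₂ : PMap) (T T' : Finset ℕ) : Prop where
  n1 : Nest m m₂ T
  n2 : Nest g g₂ T'
  map : ∀ d ∈ m.X T, φ d ∈ T' ↔ d ∈ T
  surj : ∀ e ∈ T', ∃ d ∈ T, φ d = e
  inj : ∀ d ∈ m.X T, ∀ e ∈ m.X T, φ d = φ e → d = e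
  nxt : ∀ d ∈ T, φ (m.nxt d) = g.nxt (φ d)
  rev : ∀ d ∈ m.X T, φ (m.rev d) = g.rev (φ d)
  bd : ∀ i, m.bd i ∈ T ↔ g.bd i ∈ T'
  bdφ : ∀ i, m.bd i ∈ T → φ (m.bd i) = g.bd i
  bd₂ : ∀ i, m₂.bd i ∈ m.X T ↔ g₂.bd i ∈ g.X T'
  bd₂φ : ∀ i, m₂.bd i ∈ m.X T → φ (m₂.bd i) = g₂.bd i
  org : ∀ d ∈ m.X T, ∀ e ∈ m.X T, m.org d = m.org e ↔ g.org (φ d) = g.org (φ e)
  V : ∀ d ∈ m.X T, ∀ i, m.org d = m.V i ↔ g.org (φ d) = g.V i
  V₂ : ∀ d ∈ m.X T, ∀ i, m.org d = m₂.V i ↔ g.org (φ d) = g₂.V i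
  VV : ∀ i k, m.V i = m₂.V k ↔ g.V i = g₂.V k

lemma RIso.mapX {φ : ℕ → ℕ} {T T' : Finset ℕ} (I : RIso φ m m₂ g g₂ T T') {d : ℕ}
    (hd : d ∈ m.X T) : φ d ∈ g.X T' := by
  rcases hd with hd | hd
  · exact Or.inl ((I.map d (mem_X hd)).2 hd)
  · right
    rw [← I.rev d (Or.inr hd)]
    exact (I.map _ (mem_X hd)).2 hd

/-! ### properties of nontrivial regions -/

namespace Reg

variable {j : ℤ} {b n : ℕ} {T : Finset ℕ}

lemma nontrivial (R : Reg m m₂ j b n T) (hT : T ≠ ∅) : ¬ Trivial m j b (pth m₂ j n) :=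
  fun ht => hT (R.chord.eq_empty R.hp ht)

lemma bd_mem_iff (R : Reg m m₂ j b n T) (hT : T ≠ ∅) {i : ℤ} :
    m.bd i ∈ T ↔ j ≤ i ∧ i < j + b := by
  constructor
  · intro h
    by_contra h1
    exact R.bd_lt_notMem (i := i) (by omega) h
  · rintro ⟨h1, h2⟩
    exact R.chord.base_mem R.hp (R.nontrivial hT) h1 h2

lemma rev_bd₂_mem_iff (R : Reg m m₂ j b n T) (hT : T ≠ ∅) {i : ℤ} :
    m.rev (m₂.bd i) ∈ T ↔ j ≤ i ∧ i < j + n := by
  constructor
  · intro h
    by_contra h1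
    have h6 : ∃ k, m₂.bd i = m.bd k := by
      rcases lt_or_ge i j with h8 | h8
      · exact ⟨i, R.lt i h8⟩
      · exact ⟨_, R.ge i (by omega)⟩
    obtain ⟨k, hk⟩ := h6
    rw [hk] at h
    exact R.hp.rev_bd k (R.tri _ h).1
  · rintro ⟨h1, h2⟩
    have h3 : m.rev (m₂.bd i) ∈ m.cyc j b (pth m₂ j n) :=
      mem_cyc.2 (Or.inr ⟨_, mem_pth.2 ⟨i, h1, h2, rfl⟩, rfl⟩)
    exact ((R.chord.bdry' R.hp.pre (R.nontrivial hT) _).2 h3).1

lemma bd₂_mem_X_iff (R : Reg m m₂ j b n T) (hT : T ≠ ∅) {i : ℤ} :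
    m₂.bd i ∈ m.X T ↔ j ≤ i ∧ i < j + n := by
  rw [← R.rev_bd₂_mem_iff hT]
  constructor
  · rintro (h | h)
    · exact absurd h (R.bd₂_notMem i)
    · exact h
  · exact fun h => Or.inr h

lemma V_range (R : Reg m m₂ j b n T) (hT : T ≠ ∅) {d : ℕ} (hd : d ∈ m.X T) {i : ℤ}
    (hi : m.org d = m.V i) : j ≤ i ∧ i ≤ j + b := by
  by_contra hcon
  have hb := R.posb
  have hn := R.posn
  have h0 : ∃ i', m.V i = m₂.V i' := by
    rcases lt_or_ge i j with h8 | h8
    · exact ⟨i, (R.V_le h8.le).symm⟩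
    · exact ⟨_, R.V_ge' (by omega)⟩
  have key : ∀ k, j ≤ k → k ≤ j + n → m.V i = m₂.V k → False := by
    intro k hk1 hk2 hk
    rcases eq_or_lt_of_le hk1 with h1 | h1
    · rw [← h1, R.V_le le_rfl] at hk
      have := R.hp.bd_simple _ _ hk
      omega
    · rcases eq_or_lt_of_le hk2 with h2 | h2
      · rw [h2, R.V_ge le_rfl] at hk
        have := R.hp.bd_simple _ _ hk
        omega
      · exact R.inner k h1 h2 i hk.symm
  obtain ⟨i', hi'⟩ := h0
  by_cases hdE : d ∈ m₂.E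
  · rcases hd with hd | hd
    · -- d ∈ T, so rev d ∈ m₂.In
      have h1 : m.rev d ∈ m₂.In := by
        rcases hdE with h2 | h2
        · rw [R.In] at h2; exact absurd hd h2.2
        · rwa [R.rev] at h2
      have h2 : m₂.rev (m.rev d) ∉ m₂.In := by
        rw [R.rev, R.hp.rev_rev, R.In]; exact fun h3 => h3.2 hd
      obtain ⟨k, hk⟩ := R.hp₂.bd_surj _ h1 h2
      have h3 : m.rev (m₂.bd k) ∈ T := by rw [hk, R.hp.rev_rev]; exact hd
      have h4 := (R.rev_bd₂_mem_iff hT).1 h3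
      refine key (k + 1) (by omega) (by omega) ?_
      have h5 := R.hp₂.org_rev_bd k
      rw [hk, R.rev, R.hp.rev_rev, R.org] at h5
      rw [← hi, h5, V, R.org]
    · have h1 : d ∈ m₂.In := by
        rcases hdE with h2 | h2
        · exact h2
        · rw [R.rev, R.In] at h2; exact absurd hd h2.2
      have h2 : m₂.rev d ∉ m₂.In := by
        rw [R.rev, R.In]; exact fun h3 => h3.2 hd
      obtain ⟨k, hk⟩ := R.hp₂.bd_surj _ h1 h2
      have h3 : m.rev (m₂.bd k) ∈ T := by rw [hk]; exact hd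
      have h4 := (R.rev_bd₂_mem_iff hT).1 h3
      refine key k (by omega) (by omega) ?_
      rw [← hi, ← hk, V, R.org]
  · obtain ⟨k, hk1, hk2, hk3⟩ := R.interface (e := m₂.bd i') (d := d)
      (mem_E_of_mem (R.hp₂.bd_mem _)) (R.nest.X_E hd) hdE (by
        rw [hi, hi', V, R.org])
    refine key k hk1 hk2 ?_
    rw [hi', ← hk3, V, R.org]

lemma eq_of_empty (R : Reg m m₂ j b n ∅) : m₂ = m ∧ b = 1 ∧ n = 1 := by
  have ht : Trivial m j b (pth m₂ j n) := by
    by_contra hnt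
    have := R.chord.base_mem R.hp hnt (i := j) le_rfl (by have := R.posb; omega)
    simp at this
  obtain ⟨hb, hp⟩ := ht
  have hn : n = 1 := by
    have := congrArg List.length hp
    simpa using this
  subst hb hn
  refine ⟨?_, rfl, rfl⟩
  refine ext_of R.rev R.nxt R.org (by rw [R.In]; simp) ?_
  intro i
  rcases lt_trichotomy i j with h | h | h
  · exact R.lt i h
  · subst h
    have : pth m₂ i 1 = [m₂.bd i] := by simp [pth]
    rw [this] at hp
    simpa using hp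
  · rw [R.ge i (by omega)]; congr 1; simp

end Reg

/-! ### restriction of isomorphisms to sub-regions -/

lemma RIso.path {φ : ℕ → ℕ} {T T' : Finset ℕ} (I : RIso φ m m₂ g g₂ T T') :
    ∀ {q : List ℕ} {x y x' y' : ℕ}, m.Path x q y → (∀ d ∈ q, d ∈ m.X T) →
    (∀ d ∈ m.X T, m.org d = x → g.org (φ d) = x') →
    (∀ d ∈ m.X T, m.org d = y → g.org (φ d) = y') → q ≠ [] → g.Path x' (q.map φ) y' := by
  intro q
  induction q with
  | nil => intro x y x' y' _ _ _ _ h; exact absurd rfl h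
  | cons d q ih =>
    intro x y x' y' hp hX hx hy _
    have hd : d ∈ m.X T := hX d (by simp)
    have hrd : m.rev d ∈ m.X T := I.n1.X_rev hd
    refine ⟨I.n2.X_E (I.mapX hd), hx d hd hp.2.1, ?_⟩
    by_cases hq : q = []
    · subst hq
      have h1 : m.org (m.rev d) = y := hp.2.2
      have h2 := hy _ hrd h1
      rw [I.rev d hd] at h2
      exact h2
    · refine ih hp.2.2 (fun e he => hX e (by simp [he])) ?_ hy hq
      intro e he hee
      rw [← I.rev d hd]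
      exact (I.org e he _ hrd).1 hee

theorem RIso.restrict {φ : ℕ → ℕ} {T T' : Finset ℕ} (I : RIso φ m m₂ g g₂ T T') {j : ℤ}
    {b n : ℕ} {S : Finset ℕ} (R : Reg m m₁ j b n S) (hST : S ⊆ T) (N : Nest m₁ m₂ (T \ S)) :
    ∃ g₁, Reg g g₁ j b n (S.image φ) ∧ RIso φ m m₁ g g₁ S (S.image φ) ∧
      RIso φ m₁ m₂ g₁ g₂ (T \ S) (T' \ S.image φ) := by
  classical
  have hp := R.hp.pre
  have hg := I.n2.hp
  by_cases hS : S = ∅
  · subst hS
    obtain ⟨rfl, rfl, rfl⟩ := R.eq_of_empty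
    have e1 : T \ ∅ = T := by simp
    have e2 : T' \ (∅ : Finset ℕ) = T' := by simp
    rw [Finset.image_empty, e1, e2]
    refine ⟨g, Reg.refl hg j, ?_, I⟩
    have hX0 : ∀ {m : PMap} {d : ℕ}, d ∉ m.X ∅ := by intro m d hd; simp [X] at hd
    refine ⟨Nest.refl R.hp, Nest.refl hg, fun d hd => absurd hd hX0,
      fun d hd => absurd hd (by simp), fun d hd => absurd hd hX0, fun d hd => absurd hd (by simp),
      fun d hd => absurd hd hX0, fun i => by simp, fun i hi => absurd hi (by simp),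
      fun i => ⟨fun h => absurd h hX0, fun h => absurd h hX0⟩, fun i hi => absurd hi hX0,
      fun d hd => absurd hd hX0, fun d hd => absurd hd hX0, fun d hd => absurd hd hX0, ?_⟩
    intro i k
    constructor
    · intro h; rw [hp.V_inj h]
    · intro h; rw [hg.pre.V_inj h]
  -- nontrivial
  have hSX : m.X S ⊆ m.X T := X_mono hST
  set p := Reg.pth m₁ j n with hpdef
  have hnt := R.nontrivial hS
  have hpX : ∀ d ∈ p, d ∈ m.X S := by
    intro d hd
    obtain ⟨k, hk1, hk2, rfl⟩ := Reg.mem_pth.1 hd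
    exact (R.bd₂_mem_X_iff hS).2 ⟨hk1, hk2⟩
  have hcycmem : ∀ a ∈ m.cyc j b p, a ∈ S := fun a ha =>
    ((R.chord.bdry' hp hnt a).2 ha).1
  have hmemimg : ∀ d ∈ m.X T, φ d ∈ S.image φ ↔ d ∈ S := by
    intro d hd
    rw [Finset.mem_image]
    constructor
    · rintro ⟨d', hd', h1⟩
      rw [← I.inj d' (mem_X (hST hd')) d hd h1]; exact hd'
    · exact fun h1 => ⟨d, h1, rfl⟩
  have hS'T' : S.image φ ⊆ T' := by
    intro e he
    obtain ⟨d, hd, rfl⟩ := Finset.mem_image.1 he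
    exact (I.map d (mem_X (hST hd))).2 (hST hd)
  have hcyc : ∀ e, e ∈ g.cyc j b (p.map φ) ↔ ∃ a ∈ m.cyc j b p, φ a = e := by
    intro e
    rw [mem_cyc]
    constructor
    · rintro (⟨t, ht, rfl⟩ | ⟨e', he', rfl⟩)
      · refine ⟨m.bd (j + t), mem_cyc.2 (Or.inl ⟨t, ht, rfl⟩), ?_⟩
        exact I.bdφ _ (hST ((R.bd_mem_iff hS).2 ⟨by omega, by omega⟩))
      · obtain ⟨a, ha, rfl⟩ := List.mem_map.1 he'
        exact ⟨m.rev a, mem_cyc.2 (Or.inr ⟨a, ha, rfl⟩), I.rev a (hSX (hpX a ha))⟩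
    · rintro ⟨a, ha, rfl⟩
      rcases mem_cyc.1 ha with ⟨t, ht, rfl⟩ | ⟨a', ha', rfl⟩
      · left
        exact ⟨t, ht, (I.bdφ _ (hST ((R.bd_mem_iff hS).2 ⟨by omega, by omega⟩))).symm⟩
      · right
        exact ⟨φ a', List.mem_map.2 ⟨a', ha', rfl⟩, (I.rev a' (hSX (hpX a' ha'))).symm⟩
  have pc : g.PC j b (p.map φ) := by
    refine ⟨R.posb, by simpa using R.pc.ne_nil, ?_, ?_, ?_⟩
    · refine I.path R.pc.path (fun d hd => hSX (hpX d hd)) ?_ ?_ R.pc.ne_nil
      · intro d hd h1; exact (I.V d hd j).1 h1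
      · intro d hd h1; exact (I.V d hd (j + b)).1 h1
    · have h1 := R.pc.nodup_org
      rw [← List.map_tail, List.map_map]
      have h2 : (p.map (g.org ∘ φ)).Nodup := by
        unfold List.Nodup at h1 ⊢
        rw [List.pairwise_map] at h1 ⊢
        refine h1.imp_of_mem ?_
        intro a c ha hc hac h3
        exact hac ((I.org a (hSX (hpX a ha)) c (hSX (hpX c hc))).2 h3)
      rw [List.map_tail]
      exact List.Nodup.sublist (List.tail_sublist _) h2
    · intro d hd i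
      rw [← List.map_tail] at hd
      obtain ⟨a, ha, rfl⟩ := List.mem_map.1 hd
      intro h1
      exact R.pc.inside a ha i ((I.V a (hSX (hpX a (List.mem_of_mem_tail ha))) i).2 h1)
  have hbjX : m.bd j ∈ m.X T :=
    mem_X (hST ((R.bd_mem_iff hS).2 ⟨le_rfl, by have := R.posb; omega⟩))
  have hntg : ¬ Trivial g j b (p.map φ) := by
    rintro ⟨h1, h2⟩
    apply hnt
    refine ⟨h1, ?_⟩
    rcases hpp : p with _ | ⟨a, _ | ⟨c, q⟩⟩
    · rw [hpp] at h2; simp at h2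
    · rw [hpp] at h2
      simp only [List.map_cons, List.map_nil, List.cons.injEq, and_true] at h2
      have h3 : φ a = φ (m.bd j) := by
        rw [h2, I.bdφ j (hST ((R.bd_mem_iff hS).2 ⟨le_rfl, by have := R.posb; omega⟩))]
      rw [← hpdef, hpp, I.inj a (hSX (hpX a (by rw [hpp]; simp))) _ hbjX h3]
    · rw [hpp] at h2; simp at h2
  have ch : g.Chord j b (p.map φ) (S.image φ) := by
    refine ⟨pc.pos, pc.ne_nil, pc.path, pc.simple, pc.inside, ?_, ?_⟩
    · intro e he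
      obtain ⟨d, hd, rfl⟩ := Finset.mem_image.1 he
      refine ⟨(I.n2.tri _ (hS'T' he)).1, ?_⟩
      rw [← I.nxt d (hST hd)]
      exact Finset.mem_image.2 ⟨_, R.tri.nxt_mem hd, rfl⟩
    · intro e
      have h1 : (e ∈ S.image φ ∧ g.rev e ∉ S.image φ) ↔ e ∈ g.cyc j b (p.map φ) := by
        rw [hcyc]
        constructor
        · rintro ⟨h1, h2⟩
          obtain ⟨d, hd, rfl⟩ := Finset.mem_image.1 h1
          refine ⟨d, (R.chord.bdry' hp hnt d).1 ⟨hd, ?_⟩, rfl⟩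
          intro h3
          apply h2
          rw [← I.rev d (mem_X (hST hd))]
          exact Finset.mem_image.2 ⟨_, h3, rfl⟩
        · rintro ⟨a, ha, rfl⟩
          have h2 := (R.chord.bdry' hp hnt a).2 ha
          refine ⟨Finset.mem_image.2 ⟨a, h2.1, rfl⟩, ?_⟩
          rw [← I.rev a (mem_X (hST h2.1))]
          intro h3
          exact h2.2 ((hmemimg _ (I.n1.X_rev (mem_X (hST h2.1)))).1 h3)
      rw [h1]
      exact ⟨fun h2 => ⟨h2, pc.rev_notMem_cyc hg.pre hntg h2⟩, fun h2 => h2.1⟩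
  have hlen : (p.map φ).length = n := by simp [hpdef]
  have RG := ch.reg hg
  rw [hlen] at RG
  set g₁ := g.cut j b (p.map φ) (S.image φ : Finset ℕ) with hg₁
  have hS'ne : S.image φ ≠ ∅ := by
    obtain ⟨a, ha⟩ := Finset.nonempty_iff_ne_empty.2 hS
    exact Finset.nonempty_iff_ne_empty.1 ⟨φ a, Finset.mem_image.2 ⟨a, ha, rfl⟩⟩
  have hbd₁ : ∀ i, j ≤ i → i < j + n → φ (m₁.bd i) = g₁.bd i := by
    intro i h1 h2
    obtain ⟨s, hs, rfl⟩ : ∃ s, s < n ∧ i = j + ((s : ℕ) : ℤ) := ⟨(i - j).toNat, by omega, by omega⟩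
    rw [hg₁, cut_bd_mid (by rw [hlen]; exact hs), List.getElem_map]
    simp [hpdef, Reg.pth]
  have hV₁ : ∀ d ∈ m.X T, ∀ i, m.org d = m₁.V i ↔ g.org (φ d) = g₁.V i := by
    intro d hd i
    rcases le_or_gt i j with h1 | h1
    · rw [R.V_le h1, RG.V_le h1]; exact I.V d hd i
    · rcases lt_or_ge i (j + n) with h2 | h2
      · have h3 := (R.bd₂_mem_X_iff hS (i := i)).2 ⟨h1.le, h2⟩
        have h4 := I.org d hd (m₁.bd i) (hSX h3)
        rw [hbd₁ i h1.le h2] at h4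
        have e1 : m₁.V i = m.org (m₁.bd i) := by rw [PMap.V, R.org]
        have e2 : g₁.V i = g.org (g₁.bd i) := by rw [PMap.V, RG.org]
        rw [e1, e2]; exact h4
      · rw [R.V_ge h2, RG.V_ge h2]; exact I.V d hd _
  refine ⟨g₁, RG, ?_, ?_⟩
  · refine ⟨R.nest, RG.nest, ?_, ?_, ?_, ?_, ?_, ?_, ?_, ?_, ?_, ?_, ?_, ?_, ?_⟩
    · intro d hd; exact hmemimg d (hSX hd)
    · intro e he
      obtain ⟨d, hd, rfl⟩ := Finset.mem_image.1 he
      exact ⟨d, hd, rfl⟩
    · intro d hd e he; exact I.inj d (hSX hd) e (hSX he)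
    · intro d hd; exact I.nxt d (hST hd)
    · intro d hd; exact I.rev d (hSX hd)
    · intro i; rw [R.bd_mem_iff hS, RG.bd_mem_iff hS'ne]
    · intro i hi; exact I.bdφ i (hST hi)
    · intro i; rw [R.bd₂_mem_X_iff hS, RG.bd₂_mem_X_iff hS'ne]
    · intro i hi
      rw [R.bd₂_mem_X_iff hS] at hi
      exact hbd₁ i hi.1 hi.2
    · intro d hd e he; exact I.org d (hSX hd) e (hSX he)
    · intro d hd i; exact I.V d (hSX hd) i
    · intro d hd i; exact hV₁ d (hSX hd) i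
    · intro i k
      rcases le_or_gt k j with h1 | h1
      · rw [R.V_le h1, RG.V_le h1]
        constructor
        · intro h; rw [hp.V_inj h]
        · intro h; rw [hg.pre.V_inj h]
      · rcases lt_or_ge k (j + n) with h2 | h2
        · have h3 := R.inner k h1 h2 i
          have h4 := RG.inner k h1 h2 i
          exact ⟨fun h => absurd h.symm h3, fun h => absurd h.symm h4⟩
        · rw [R.V_ge h2, RG.V_ge h2]
          constructor
          · intro h; rw [hp.V_inj h]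
          · intro h; rw [hg.pre.V_inj h]
  · have hX1 : m₁.X (T \ S) ⊆ m.X T := by
      rintro d (hd | hd)
      · exact Or.inl (Finset.mem_sdiff.1 hd).1
      · rw [R.rev] at hd; exact Or.inr (Finset.mem_sdiff.1 hd).1
    have hmap : ∀ d ∈ m.X T, φ d ∈ T' \ S.image φ ↔ d ∈ T \ S := by
      intro d hd
      rw [Finset.mem_sdiff, Finset.mem_sdiff, I.map d hd, hmemimg d hd]
    have hN2 : Nest g₁ g₂ (T' \ S.image φ) := by
      refine ⟨RG.hp₂, I.n2.hp₂, by rw [I.n2.rev, RG.rev], by rw [I.n2.nxt, RG.nxt],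
        by rw [I.n2.org, RG.org], ?_, ?_⟩
      · rw [I.n2.In, RG.In]
        ext d
        simp only [Set.mem_sdiff, Finset.coe_sdiff]
        constructor
        · rintro ⟨h1, h2⟩
          exact ⟨⟨h1, fun h3 => h2 (hS'T' h3)⟩, fun h3 => h2 h3.1⟩
        · rintro ⟨⟨h1, h2⟩, h3⟩
          exact ⟨h1, fun h4 => h3 ⟨h4, h2⟩⟩
      · intro d hd
        rw [Finset.coe_sdiff] at hd ⊢
        have h1 := (I.n2.tri.diff hg.pre RG.tri) d hd
        refine ⟨?_, ?_⟩
        · rw [RG.In]; exact ⟨h1.1, hd.2⟩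
        · rw [RG.nxt]; exact h1.2
    have hbd1X : ∀ i, j ≤ i → i < j + n → m₁.bd i ∈ m.X T := fun i h1 h2 =>
      hSX ((R.bd₂_mem_X_iff hS (i := i)).2 ⟨h1, h2⟩)
    refine ⟨N, hN2, ?_, ?_, ?_, ?_, ?_, ?_, ?_, ?_, ?_, ?_, ?_, ?_, ?_⟩
    · intro d hd; exact hmap d (hX1 hd)
    · intro e he
      rw [Finset.mem_sdiff] at he
      obtain ⟨d, hd, rfl⟩ := I.surj e he.1
      refine ⟨d, ?_, rfl⟩
      rw [Finset.mem_sdiff]
      exact ⟨hd, fun h1 => he.2 (Finset.mem_image.2 ⟨d, h1, rfl⟩)⟩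
    · intro d hd e he; exact I.inj d (hX1 hd) e (hX1 he)
    · intro d hd
      rw [R.nxt, RG.nxt]
      exact I.nxt d (Finset.mem_sdiff.1 hd).1
    · intro d hd
      rw [R.rev, RG.rev]
      exact I.rev d (hX1 hd)
    · intro i
      by_cases h1 : j ≤ i ∧ i < j + n
      · rw [← hbd₁ i h1.1 h1.2]
        exact (hmap _ (hbd1X i h1.1 h1.2)).symm
      · rw [Finset.mem_sdiff, Finset.mem_sdiff]
        have e1 : m₁.bd i ∉ S := R.bd₂_notMem i
        have e2 : g₁.bd i ∉ S.image φ := RG.bd₂_notMem i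
        simp only [e1, e2, not_false_iff, and_true]
        rcases lt_or_ge i j with h8 | h8
        · rw [R.lt i h8, RG.lt i h8]; exact I.bd i
        · rw [R.ge i (by omega), RG.ge i (by omega)]; exact I.bd _
    · intro i hi
      by_cases h1 : j ≤ i ∧ i < j + n
      · exact hbd₁ i h1.1 h1.2
      · have h2 := (Finset.mem_sdiff.1 hi).1
        rcases lt_or_ge i j with h8 | h8
        · rw [R.lt i h8] at h2 ⊢; rw [RG.lt i h8]; exact I.bdφ i h2
        · rw [R.ge i (by omega)] at h2 ⊢; rw [RG.ge i (by omega)]; exact I.bdφ _ h2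
    · intro i
      have e1 := (I.n1.bd₂_mem i).2
      have e2 := (I.n2.bd₂_mem i).2
      have a1 : m₂.bd i ∈ m₁.X (T \ S) ↔ m.rev (m₂.bd i) ∈ T \ S := by
        constructor
        · rintro (h | h)
          · exact absurd (Finset.mem_sdiff.1 h).1 e1
          · rwa [R.rev] at h
        · intro h; right; rwa [R.rev]
      have a2 : g₂.bd i ∈ g₁.X (T' \ S.image φ) ↔ g.rev (g₂.bd i) ∈ T' \ S.image φ := by
        constructor
        · rintro (h | h)
          · exact absurd (Finset.mem_sdiff.1 h).1 e2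
          · rwa [RG.rev] at h
        · intro h; right; rwa [RG.rev]
      rw [a1, a2]
      by_cases hX : m₂.bd i ∈ m.X T
      · rw [← I.bd₂φ i hX, ← I.rev _ hX]
        exact (hmap _ (I.n1.X_rev hX)).symm
      · have hX' : g₂.bd i ∉ g.X T' := fun h => hX ((I.bd₂ i).2 h)
        constructor
        · intro h; exact absurd (Or.inr (Finset.mem_sdiff.1 h).1) hX
        · intro h; exact absurd (Or.inr (Finset.mem_sdiff.1 h).1) hX'
    · intro i hi; exact I.bd₂φ i (hX1 hi)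
    · intro d hd e he
      rw [R.org, RG.org]
      exact I.org d (hX1 hd) e (hX1 he)
    · intro d hd i
      rw [R.org, RG.org]
      exact hV₁ d (hX1 hd) i
    · intro d hd i
      rw [R.org, RG.org]
      exact I.V₂ d (hX1 hd) i
    · intro i k
      by_cases h1 : j ≤ i ∧ i < j + n
      · have h2 := I.V₂ (m₁.bd i) (hbd1X i h1.1 h1.2) k
        rw [hbd₁ i h1.1 h1.2] at h2
        have e1 : m₁.V i = m.org (m₁.bd i) := by rw [PMap.V, R.org]
        have e2 : g₁.V i = g.org (g₁.bd i) := by rw [PMap.V, RG.org]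
        rw [e1, e2]
        exact h2
      · rcases lt_or_ge i j with h8 | h8
        · rw [R.V_le h8.le, RG.V_le h8.le]; exact I.VV i k
        · rw [R.V_ge (by omega), RG.V_ge (by omega)]; exact I.VV _ k

end PMap

end Pool.Agent.Helper97.Speed
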