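import Pool.Agent.Helper97.Speed.Cut

/-! # Regions: pairs of nested half-planar triangulations -/

namespace Pool.Agent.Helper97.Speed

namespace PMap

variable {m m₁ m₂ : PMap}

/-! ### existence and uniqueness of chords -/

lemma PC.exists_chord {j : ℤ} {b : ℕ} {p : List ℕ} (h : m.IsHalfPlane) (pc : m.PC j b p) :
    ∃ S : Finset ℕ, m.Chord j b p S := by
  by_cases ht : Trivial m j b p
  · refine ⟨∅, pc.pos, pc.ne_nil, pc.path, pc.simple, pc.inside, by simp, ?_⟩
    intro d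
    obtain ⟨rfl, rfl⟩ := ht
    have : ∀ e, e ∈ m.cyc j 1 [m.bd j] ↔ e = m.bd j ∨ e = m.rev (m.bd j) := by
      intro e
      rw [mem_cyc]
      constructor
      · rintro (⟨t, ht, rfl⟩ | ⟨e, he, rfl⟩)
        · obtain rfl : t = 0 := by omega
          simp
        · simp only [List.mem_singleton] at he
          simp [he]
      · rintro (rfl | rfl)
        · exact Or.inl ⟨0, by omega, by simp⟩
        · exact Or.inr ⟨m.bd j, by simp, rfl⟩
    rw [this, this]
    simp only [Finset.notMem_empty, false_and, false_iff, not_and, not_not]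
    rintro (rfl | rfl)
    · exact Or.inr rfl
    · exact Or.inl (h.rev_rev _)
  · have hnd : ∀ d, m.cyc j b p ≠ [d, m.rev d] := by
      intro d hd
      have hlen : b + p.length = 2 := by
        have := congrArg List.length hd
        simpa [cyc] using this
      have h1 := pc.pos
      have h2 := pc.len_pos
      obtain rfl : b = 1 := by omega
      obtain ⟨e, rfl⟩ := List.length_eq_one_iff.1 (show p.length = 1 by omega)
      simp only [cyc, List.range_one, List.map_cons, List.map_nil, List.reverse_cons,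
        List.reverse_nil, List.nil_append, List.cons_append, List.cons.injEq, and_true] at hd
      apply ht
      refine ⟨rfl, ?_⟩
      have h3 : m.bd j = d := by simpa using hd.1
      rw [h3, h.pre.rev_inj hd.2]
    obtain ⟨S, hS, hb⟩ := h.jordan (m.V j) (m.cyc j b p) (pc.path_cyc h.pre) pc.cyc_ne_nil
      (pc.nodup_cyc h.pre) hnd
    have hj : m.bd j ∈ m.cyc j b p := mem_cyc.2 (Or.inl ⟨0, pc.pos, by simp⟩)
    have hb1 : ∀ d, (d ∈ S ∧ m.rev d ∉ S) ↔ d ∈ m.cyc j b p := by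
      rcases hb with hb | hb
      · exact hb
      · exfalso
        have h1 := (hb (m.rev (m.bd j))).2 (by rw [h.rev_rev]; exact hj)
        exact h.rev_bd j (hS _ h1.1).1
    refine ⟨S, pc.pos, pc.ne_nil, pc.path, pc.simple, pc.inside, hS, ?_⟩
    intro d
    rw [hb1]
    exact ⟨fun h1 => ⟨h1, pc.rev_notMem_cyc h.pre ht h1⟩, fun h1 => h1.1⟩

lemma Chord.unique {j : ℤ} {b : ℕ} {p : List ℕ} {S S' : Finset ℕ} (h : m.IsHalfPlane)
    (ch : m.Chord j b p S) (ch' : m.Chord j b p S') : S = S' := by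
  have := h.unique ch.tri ch'.tri S.finite_toSet S'.finite_toSet (fun d => by
    have h1 := ch.bdry d
    have h2 := ch'.bdry d
    simp only [Finset.mem_coe]
    rw [h1, h2])
  exact_mod_cast this

/-! ### Regions -/

/-- `m₂` is obtained from `m` by removing the triangles in `T`, in such a way that the `b` boundary
darts of `m` from position `j` on are replaced by `n` darts, the inner vertices of the new
segment not being on the boundary of `m`. -/
structure Reg (m m₂ : PMap) (j : ℤ) (b n : ℕ) (T : Finset ℕ) : Prop where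
  hp : m.IsHalfPlane
  hp₂ : m₂.IsHalfPlane
  rev : m₂.rev = m.rev
  nxt : m₂.nxt = m.nxt
  org : m₂.org = m.org
  In : m₂.In = m.In \ (T : Set ℕ)
  tri : m.Tri (T : Set ℕ)
  posb : 0 < b
  posn : 0 < n
  lt : ∀ i < j, m₂.bd i = m.bd i
  ge : ∀ i, j + n ≤ i → m₂.bd i = m.bd (i - n + b)
  inner : ∀ i, j < i → i < j + n → ∀ k, m₂.V i ≠ m.V k

lemma ext_of {m m' : PMap} (h1 : m.rev = m'.rev) (h2 : m.nxt = m'.nxt) (h3 : m.org = m'.org)
    (h4 : m.In = m'.In) (h5 : ∀ i, m.bd i = m'.bd i) : m = m' := by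
  cases m; cases m'
  simp only [PMap.mk.injEq]
  exact ⟨h1, h2, h3, h4, funext h5⟩

namespace Reg

variable {j : ℤ} {b n : ℕ} {T : Finset ℕ}

lemma E_subset (R : Reg m m₂ j b n T) : m₂.E ⊆ m.E := by
  rintro d (hd | hd)
  · rw [R.In] at hd; exact Or.inl hd.1
  · rw [R.In, R.rev] at hd; exact Or.inr hd.1

lemma path_sub (R : Reg m m₂ j b n T) {x y : ℕ} {c : List ℕ} (hc : m₂.Path x c y) :
    m.Path x c y := by
  induction c generalizing x with
  | nil => exact hc
  | cons d c ih =>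
    obtain ⟨h1, h2, h3⟩ := hc
    rw [R.org] at h2 h3
    rw [R.rev] at h3
    exact ⟨R.E_subset h1, h2, ih h3⟩

lemma V_le (R : Reg m m₂ j b n T) {i : ℤ} (hi : i ≤ j) : m₂.V i = m.V i := by
  rcases lt_or_eq_of_le hi with h | rfl
  · rw [V, V, R.lt i h, R.org]
  · have h1 := R.hp.org_rev_bd (i - 1)
    have h2 := R.hp₂.org_rev_bd (i - 1)
    rw [R.lt (i - 1) (by omega), R.org, R.rev] at h2
    rw [V, V, R.org]
    simp only [sub_add_cancel] at h1 h2
    rw [← h2, h1]

lemma V_ge (R : Reg m m₂ j b n T) {i : ℤ} (hi : j + n ≤ i) : m₂.V i = m.V (i - n + b) := by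
  rw [V, V, R.ge i hi, R.org]

lemma V_ge' (R : Reg m m₂ j b n T) {i : ℤ} (hi : j + b ≤ i) : m.V i = m₂.V (i - b + n) := by
  rw [R.V_ge (by omega)]; congr 1; ring

lemma bd_lt_notMem (R : Reg m m₂ j b n T) {i : ℤ} (hi : i < j ∨ j + b ≤ i) : m.bd i ∉ T := by
  intro h1
  have key : ∃ k, m₂.bd k = m.bd i := by
    rcases hi with hi | hi
    · exact ⟨i, R.lt i hi⟩
    · exact ⟨i - b + n, by rw [R.ge _ (by omega)]; congr 1; ring⟩
  obtain ⟨k, hk⟩ := key
  have := R.hp₂.bd_mem k
  rw [R.In, hk] at this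
  exact this.2 h1

lemma bd₂_notMem (R : Reg m m₂ j b n T) (k : ℤ) : m₂.bd k ∉ T := by
  have := R.hp₂.bd_mem k
  rw [R.In] at this
  exact this.2

lemma bd₂_mem (R : Reg m m₂ j b n T) (k : ℤ) : m₂.bd k ∈ m.In := by
  have := R.hp₂.bd_mem k
  rw [R.In] at this
  exact this.1

lemma rev_bd₂ (R : Reg m m₂ j b n T) (k : ℤ) : m.rev (m₂.bd k) ∉ m.In \ (T : Set ℕ) := by
  have := R.hp₂.rev_bd k
  rwa [R.In, R.rev] at this

/-- an index of `m₂` which is a boundary dart of `m` -/
lemma eq_bd_index (R : Reg m m₂ j b n T) {i k : ℤ} (h : m₂.bd k = m.bd i) :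
    (i < j ∧ k = i) ∨ (j ≤ i ∧ i < j + b ∧ j ≤ k ∧ k < j + n) ∨ (j + b ≤ i ∧ k = i - b + n) := by
  rcases lt_or_ge i j with h1 | h1
  · left
    refine ⟨h1, ?_⟩
    rw [← R.lt i h1] at h
    exact R.hp₂.pre.bd_inj h
  · rcases lt_or_ge i (j + b) with h2 | h2
    · right; left
      refine ⟨h1, h2, ?_⟩
      by_contra h3
      rcases lt_or_ge k j with h4 | h4
      · rw [R.lt k h4] at h
        have := R.hp.pre.bd_inj h
        omega
      · have h5 : j + n ≤ k := by omega
        rw [R.ge k h5] at h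
        have := R.hp.pre.bd_inj h
        omega
    · right; right
      refine ⟨h2, ?_⟩
      have h3 : m₂.bd (i - b + n) = m.bd i := by rw [R.ge _ (by omega)]; congr 1; ring
      rw [← h3] at h
      exact R.hp₂.pre.bd_inj h

/-- the path of the region. -/
noncomputable def pth (m₂ : PMap) (j : ℤ) (n : ℕ) : List ℕ :=
  (List.range n).map (fun s : ℕ => m₂.bd (j + s))

@[simp] lemma length_pth : (pth m₂ j n).length = n := by simp [pth]

lemma mem_pth {e : ℕ} : e ∈ pth m₂ j n ↔ ∃ k, j ≤ k ∧ k < j + n ∧ m₂.bd k = e := by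
  simp only [pth, List.mem_map, List.mem_range]
  constructor
  · rintro ⟨s, hs, rfl⟩; exact ⟨j + s, by omega, by omega, rfl⟩
  · rintro ⟨k, h1, h2, rfl⟩
    exact ⟨(k - j).toNat, by omega, by congr 1; omega⟩

lemma pc (R : Reg m m₂ j b n T) : m.PC j b (pth m₂ j n) := by
  have hlen : (pth m₂ j n).length = n := length_pth
  refine ⟨R.posb, ?_, ?_, ?_, ?_⟩
  · intro h1
    rw [h1] at hlen
    have := R.posn
    simp at hlen
    omega
  · have h1 := PC.path_base R.hp₂.pre j n
    have h2 := R.path_sub h1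
    rw [R.V_le le_rfl, R.V_ge le_rfl] at h2
    rwa [show j + (n:ℤ) - n + b = j + b by ring] at h2
  · rw [List.map_tail]
    refine List.Nodup.sublist (List.tail_sublist _) ?_
    rw [pth, List.map_map]
    refine List.Nodup.map_on ?_ List.nodup_range
    intro s _ t _ hst
    simp only [Function.comp] at hst
    rw [← R.org] at hst
    have := R.hp₂.bd_simple _ _ hst
    omega
  · intro d hd i
    obtain ⟨s, hs, hse⟩ := List.getElem_of_mem hd
    simp only [List.length_tail, length_pth] at hs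
    rw [List.getElem_tail] at hse
    have h1 : d = m₂.bd (j + (s + 1 : ℕ)) := by
      rw [← hse]; simp [pth]
    rw [h1]
    have := R.inner (j + (s + 1 : ℕ)) (by push_cast; omega) (by push_cast; omega) i
    rw [V, R.org] at this
    exact this

/-- A region is a chord. -/
lemma chord (R : Reg m m₂ j b n T) : m.Chord j b (pth m₂ j n) T := by
  have hpc := R.pc
  refine ⟨hpc.pos, hpc.ne_nil, hpc.path, hpc.simple, hpc.inside, R.tri, ?_⟩
  intro d
  have hcyc : ∀ e, e ∈ m.cyc j b (pth m₂ j n) ↔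
      (∃ i, j ≤ i ∧ i < j + b ∧ m.bd i = e) ∨ (∃ k, j ≤ k ∧ k < j + n ∧ m.rev (m₂.bd k) = e) := by
    intro e
    rw [mem_cyc]
    constructor
    · rintro (⟨t, ht, rfl⟩ | ⟨e', he', rfl⟩)
      · exact Or.inl ⟨j + t, by omega, by omega, rfl⟩
      · obtain ⟨k, h1, h2, rfl⟩ := mem_pth.1 he'
        exact Or.inr ⟨k, h1, h2, rfl⟩
    · rintro (⟨i, h1, h2, rfl⟩ | ⟨k, h1, h2, rfl⟩)
      · exact Or.inl ⟨(i - j).toNat, by omega, by congr 1; omega⟩
      · exact Or.inr ⟨m₂.bd k, mem_pth.2 ⟨k, h1, h2, rfl⟩, rfl⟩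
  rw [hcyc, hcyc]
  constructor
  · rintro ⟨h1, h2⟩
    by_cases h3 : m.rev d ∈ m.In
    · have h4 : m.rev d ∈ m₂.In := by rw [R.In]; exact ⟨h3, h2⟩
      have h5 : m₂.rev (m.rev d) ∉ m₂.In := by
        rw [R.rev, R.hp.rev_rev, R.In]; exact fun h6 => h6.2 h1
      obtain ⟨k, hk⟩ := R.hp₂.bd_surj _ h4 h5
      have hd : d = m.rev (m₂.bd k) := by rw [hk, R.hp.rev_rev]
      have hk1 : j ≤ k ∧ k < j + n := by
        by_contra h6
        have h7 : ∃ i, m₂.bd k = m.bd i := by
          rcases lt_or_ge k j with h8 | h8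
          · exact ⟨k, R.lt k h8⟩
          · exact ⟨_, R.ge k (by omega)⟩
        obtain ⟨i, hi⟩ := h7
        rw [hi] at hd
        exact R.hp.rev_bd i (hd ▸ (R.tri d h1).1)
      refine ⟨Or.inr ⟨k, hk1.1, hk1.2, hd.symm⟩, ?_⟩
      rintro (⟨i, h6, h7, h8⟩ | ⟨k', h6, h7, h8⟩)
      · rw [← hk] at h8
        have : d = m.rev (m.bd i) := by rw [h8]; exact hd
        exact R.hp.rev_bd i (this ▸ (R.tri d h1).1)
      · have := R.hp₂.rev_bd k'
        rw [R.rev, h8] at this
        exact this h4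
    · obtain ⟨i, hi⟩ := R.hp.bd_surj d (R.tri d h1).1 h3
      have hi1 : j ≤ i ∧ i < j + b := by
        by_contra h6
        exact R.bd_lt_notMem (i := i) (by omega) (hi ▸ h1)
      refine ⟨Or.inl ⟨i, hi1.1, hi1.2, hi⟩, ?_⟩
      rintro (⟨i', h6, h7, h8⟩ | ⟨k', h6, h7, h8⟩)
      · exact h3 (h8 ▸ R.hp.bd_mem i')
      · have h9 := R.hp.pre.rev_inj h8
        exact R.bd₂_notMem k' (h9 ▸ h1)
  · rintro ⟨⟨i, h1, h2, rfl⟩ | ⟨k, h1, h2, rfl⟩, h3⟩
    · refine ⟨?_, fun h4 => R.hp.rev_bd i (R.tri _ h4).1⟩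
      by_contra h4
      have h5 : m.bd i ∈ m₂.In := by rw [R.In]; exact ⟨R.hp.bd_mem i, h4⟩
      have h6 : m₂.rev (m.bd i) ∉ m₂.In := by
        rw [R.rev, R.In]; exact fun h7 => R.hp.rev_bd i h7.1
      obtain ⟨k, hk⟩ := R.hp₂.bd_surj _ h5 h6
      rcases R.eq_bd_index hk with ⟨h7, -⟩ | ⟨-, -, h7, h8⟩ | ⟨h7, -⟩
      · omega
      · exact h3 (Or.inr ⟨k, h7, h8, by rw [hk]⟩)
      · omega
    · rw [R.hp.rev_rev] at h3 ⊢
      refine ⟨?_, R.bd₂_notMem k⟩
      by_contra h4
      have h5 : m.rev (m₂.bd k) ∉ m.In := fun h6 => R.rev_bd₂ k ⟨h6, h4⟩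
      obtain ⟨i, hi⟩ := R.hp.bd_surj _ (R.bd₂_mem k) h5
      rcases R.eq_bd_index hi.symm with ⟨h7, h8⟩ | ⟨h7, h8, -⟩ | ⟨h7, h8⟩
      · omega
      · exact h3 (Or.inl ⟨i, h7, h8, hi⟩)
      · omega

lemma eq_cut (R : Reg m m₂ j b n T) : m₂ = m.cut j b (pth m₂ j n) T := by
  refine ext_of R.rev R.nxt R.org R.In ?_
  intro i
  rcases cut_cases j n i with hi | ⟨s, hs, rfl⟩ | hi
  · rw [cut_bd_lt hi, R.lt i hi]
  · rw [cut_bd_mid (by simpa using hs)]
    simp [pth]
  · rw [cut_bd_ge (by simpa using hi), length_pth, R.ge i hi]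

end Reg

/-- A chord gives a region. -/
lemma Chord.reg {j : ℤ} {b : ℕ} {p : List ℕ} {S : Finset ℕ} (h : m.IsHalfPlane)
    (ch : m.Chord j b p S) : Reg m (m.cut j b p S) j b p.length S where
  hp := h
  hp₂ := ch.isHalfPlane_cut h
  rev := rfl
  nxt := rfl
  org := rfl
  In := rfl
  tri := ch.tri
  posb := ch.pos
  posn := ch.pc.len_pos
  lt i hi := cut_bd_lt hi
  ge i hi := cut_bd_ge hi
  inner i hi hi' k := by
    obtain ⟨s, hs, rfl⟩ : ∃ s, s + 1 < p.length ∧ i = j + ((s + 1 : ℕ) : ℤ) :=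
      ⟨(i - j).toNat - 1, by omega, by omega⟩
    rw [ch.cut_V_mid hs]
    exact ch.pc.org_pos_ne hs k

lemma Chord.pth_eq {j : ℤ} {b : ℕ} {p : List ℕ} {S : Finset ℕ} (_ch : m.Chord j b p S) :
    Reg.pth (m.cut j b p S) j p.length = p := by
  apply List.ext_getElem
  · simp
  · intro s h1 h2
    simp only [Reg.pth, List.getElem_map, List.getElem_range]
    exact cut_bd_mid h2

namespace Reg

variable {j : ℤ} {b n : ℕ} {T : Finset ℕ}

/-- The vertices strictly inside the base segment are swallowed. -/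
lemma swallow (R : Reg m m₂ j b n T) {l : ℤ} (hl : j < l) (hl' : l < j + b) {e : ℕ}
    (he : e ∈ m.E) (hel : m.org e = m.V l) :
    (e ∈ m.In → e ∈ T) ∧ (m.rev e ∈ m.In → m.rev e ∈ T) := by
  have ch := R.chord
  have hnt : ¬ Trivial m j b (pth m₂ j n) := fun ht => by have := ht.1; omega
  have hbdl : m.bd l ∈ T := ch.base_mem R.hp hnt hl.le hl'
  obtain ⟨k, hk⟩ := R.hp.exists_rot (mem_E_of_mem (R.hp.bd_mem l)) he hel.symm
  rw [← hk]
  clear hk he hel
  have hF := fun k => R.hp.pre.rot_iter_maps (x := m.V l) (d := m.bd l)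
    ⟨mem_E_of_mem (R.hp.bd_mem l), rfl⟩ k
  induction k with
  | zero =>
    exact ⟨fun _ => hbdl, fun h => absurd h (R.hp.rev_bd l)⟩
  | succ k ih =>
    rw [Function.iterate_succ_apply']
    set f := m.rot^[k] (m.bd l) with hf
    have hfF := hF k
    rw [← hf] at hfF
    by_cases hfin : f ∈ m.In
    · have hfT : f ∈ T := ih.1 hfin
      have h2 : m.nxt (m.nxt f) ∈ T := R.tri.nxt_mem (R.tri.nxt_mem hfT)
      rw [rot_of_mem hfin]
      refine ⟨fun h3 => ?_, fun _ => by rw [R.hp.rev_rev]; exact h2⟩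
      by_contra h4
      have h5 := (ch.bdry' R.hp.pre hnt _).1 ⟨h2, h4⟩
      have h6 : m.org (m.rev (m.nxt (m.nxt f))) = m.V l := by
        rw [R.hp.pre.org_rev_nxt2 hfin]; exact hfF.2
      rw [mem_cyc] at h5
      rcases h5 with ⟨t, ht, h7⟩ | ⟨e, he, h7⟩
      · rw [← h7] at h3
        exact R.hp.rev_bd _ h3
      · rw [← h7, R.hp.rev_rev] at h6
        obtain ⟨s, hs, hse⟩ := List.getElem_of_mem he
        rw [← hse] at h6
        have h8 := R.pc.org_eq_V hs h6
        subst h8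
        rw [R.pc.org_zero] at h6
        have := R.hp.bd_simple _ _ h6
        omega
    · obtain ⟨i, hi⟩ := R.hp.pre.exists_of_not_mem hfF.1 hfin
      rw [hi, R.hp.pre.rot_rev_bd]
      have h1 := hfF.2
      rw [hi, R.hp.org_rev_bd] at h1
      have h2 := R.hp.bd_simple _ _ h1
      rw [h2]
      exact ⟨fun _ => hbdl, fun h => absurd h (R.hp.rev_bd l)⟩

lemma swallow_notMem (R : Reg m m₂ j b n T) {l : ℤ} (hl : j < l) (hl' : l < j + b) {e : ℕ}
    (he : e ∈ m₂.E) : m.org e ≠ m.V l := by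
  intro hel
  obtain ⟨h1, h2⟩ := R.swallow hl hl' (R.E_subset he) hel
  rcases he with he | he
  · rw [R.In] at he
    exact he.2 (h1 he.1)
  · rw [R.In, R.rev] at he
    exact he.2 (h2 he.1)

/-- **Composition of regions** overlapping in an edge. -/
lemma comp {j' : ℤ} {b' n' : ℕ} {T' : Finset ℕ} (R : Reg m m₁ j b n T)
    (R' : Reg m₁ m₂ j' b' n' T') (h1 : j' < j + n) (h2 : j < j' + b') :
    Reg m m₂ (min j j') (max (j + n) (j' + b') - n + b - min j j').toNat
      (max (j + n) (j' + b') - b' + n' - min j j').toNat (T ∪ T') := by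
  have hp1 := R.posb
  have hp2 := R.posn
  have hp3 := R'.posb
  have hp4 := R'.posn
  refine ⟨R.hp, R'.hp₂, by rw [R'.rev, R.rev], by rw [R'.nxt, R.nxt], by rw [R'.org, R.org], ?_, ?_,
    by omega, by omega, ?_, ?_, ?_⟩
  · rw [R'.In, R.In]
    ext d
    simp only [Set.mem_sdiff, Finset.coe_union, Set.mem_union]
    tauto
  · intro d hd
    rw [Finset.coe_union] at hd ⊢
    rcases hd with hd | hd
    · exact ⟨(R.tri d hd).1, Or.inl (R.tri d hd).2⟩
    · have h3 := R'.tri d hd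
      rw [R.In, R.nxt] at h3
      exact ⟨h3.1.1, Or.inr h3.2⟩
  · intro i hi
    rw [R'.lt i (by omega), R.lt i (by omega)]
  · intro i hi
    rw [R'.ge i (by omega), R.ge _ (by omega)]
    congr 1
    omega
  · intro i hi hi' k hk
    by_cases c1 : i ≤ j'
    · rw [R'.V_le c1] at hk
      exact R.inner i (by omega) (by omega) k hk
    · by_cases c2 : i < j' + n'
      · have h3 : m₂.bd i ∈ m₁.E := R'.E_subset (mem_E_of_mem (R'.hp₂.bd_mem i))
        have h4 : m.org (m₂.bd i) = m.V k := by rw [← hk, V, R'.org, R.org]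
        rcases le_or_gt k j with c3 | c3
        · have := R'.inner i (by omega) c2 k
          rw [R.V_le c3] at this
          exact this hk
        · rcases le_or_gt (j + b) k with c4 | c4
          · have := R'.inner i (by omega) c2 (k - b + n)
            rw [← R.V_ge' c4] at this
            exact this hk
          · exact R.swallow_notMem c3 c4 h3 h4
      · rw [R'.V_ge (by omega)] at hk
        exact R.inner _ (by omega) (by omega) k hk

end Reg

end PMap

end Pool.Agent.Helper97.Speed
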