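import Pool.Agent.Helper97.Speed.Markov
import Pool.Agent.Helper33.Speed.CandFuture

/-! # The regeneration structure -/

namespace Pool.Agent.Helper97.Speed

open MeasureTheory PMap
open scoped ENNReal

namespace PMap

variable {m E R : PMap} {r : ℕ}

lemma Ok.mem_of_inner (hok : Ok m E r) {x : ℕ} (hx : ∃ d ∈ E.E, E.org d = x) (hx' : ¬ E.OnBd x)
    {d : ℕ} (hd : d ∈ m.E) (hdo : m.org d = x) : d ∈ E.E := by
  obtain ⟨j, b, n, S, R, -⟩ := hok
  by_contra h
  obtain ⟨e, he, heo⟩ := hx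
  obtain ⟨k, -, -, hk⟩ := R.interface (e := e) (d := d) he hd h (by
    rw [hdo, ← heo, R.org])
  exact hx' ⟨k, by rw [← hk, ← heo, R.org]⟩

/-- an interior vertex of a remaining map is not on the boundary of a larger map -/
lemma not_onBd_of_inner {m₀ : PMap} (h₀ : m₀.IsHalfPlane) (hE : E.IsHalfPlane)
    (hIn : E.In ⊆ m₀.In) (hrev : E.rev = m₀.rev) (horg : E.org = m₀.org) {x : ℕ}
    (hx' : ¬ E.OnBd x) (hall : ∀ d ∈ m₀.E, m₀.org d = x → d ∈ E.E) : ¬ m₀.OnBd x := by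
  rintro ⟨l, hl⟩
  have h1 : m₀.bd l ∈ E.E := hall _ (mem_E_of_mem (h₀.bd_mem l)) hl
  have h2 : m₀.rev (m₀.bd l) ∉ E.In := fun h => h₀.rev_bd l (hIn h)
  have h3 : m₀.bd l ∈ E.In := by
    rcases h1 with h1 | h1
    · exact h1
    · rw [hrev] at h1; exact absurd h1 h2
  obtain ⟨k, hk⟩ := hE.bd_surj _ h3 (by rw [hrev]; exact h2)
  exact hx' ⟨k, by rw [V, hk, horg]; exact hl⟩

lemma onBd_shift (k : ℤ) (x : ℕ) : (m.shift k).OnBd x ↔ m.OnBd x := by
  constructor
  · rintro ⟨l, hl⟩; exact ⟨l + k, hl⟩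
  · rintro ⟨l, hl⟩; exact ⟨l - k, by rw [shift_V, sub_add_cancel]; exact hl⟩

lemma idx_shift (h : m.IsHalfPlane) (k : ℤ) {x : ℕ} (hx : m.OnBd x) :
    (m.shift k).idx x = m.idx x - k := by
  refine idx_eq (h.shift k).pre ?_
  rw [shift_V, sub_add_cancel]
  exact V_idx hx

end PMap

lemma nil_le : ([] : List ℕ).length ≤ 0 := le_rfl

lemma sh_succ (n : ℕ) (a : ℕ → ℕ) : sh 1 (sh n a) = sh (n + 1) a := sh_sh a n 1

lemma rr_add {w : List ℕ} (p : HalfPlane × (ℕ → ℕ)) (n i : ℕ) :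
    rr w p (n + i) = p.1.1.run (rr w p n) (sh n p.2) i := by
  rw [rr, rr, run_add]

lemma r0_nil (h : HalfPlane) : r0 [] h = h.1.bd 0 := rfl

section

variable {k : ℕ} {w : List ℕ} (hw : w.length ≤ k)

include hw

lemma Sft_fst (n : ℕ) (p : HalfPlane × (ℕ → ℕ)) :
    (Sft hw n p).1.1 = (EE k w p n).shift (ix k w n p) := rfl

lemma r0_Sft (n : ℕ) (p : HalfPlane × (ℕ → ℕ)) :
    r0 [] (Sft hw n p).1 = (EE k w p n).bd (ix k w n p) := by
  rw [r0_nil, Sft_fst hw, shift_bd, zero_add]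

/-- the walk after a regeneration time -/
lemma rr_Sft {n : ℕ} {p : HalfPlane × (ℕ → ℕ)} (hc : Candi k w n p) (h1 : 1 ≤ p.2 n)
    (h2 : p.2 n < p.1.1.deg (xx w p n)) {i : ℕ} (hi : 1 ≤ i)
    (hav : ∀ j, n < j → j < n + i → ¬ (EE k w p n).OnBd (xx w p j)) :
    rr w p (n + i) = rr [] (Sft hw n p) i := by
  have hok := EE_ok hw p n
  have hbl : (EE k w p n).bd (ix k w n p) ∈ (EE k w p n).E :=
    mem_E_of_mem (hok.hp₂.bd_mem _)
  have h3 := cand_run hok hc (sh n p.2) (show 1 ≤ p.2 (n + 0) from h1)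
    (show p.2 (n + 0) < _ from h2) i hi
    (Or.inl (by
      intro j hj hj'
      have := hav (n + j) (by omega) (by omega)
      rw [xx, rr_add] at this
      exact this))
  calc rr w p (n + i) = p.1.1.run (rr w p n) (sh n p.2) i := rr_add p n i
    _ = (EE k w p n).run ((EE k w p n).bd (ix k w n p)) (cns (p.2 n - 1) (sh (n + 1) p.2)) i := by
        rw [h3, sh_sh]; rfl
    _ = ((EE k w p n).shift (ix k w n p)).run ((EE k w p n).bd (ix k w n p))
          (cns (p.2 n - 1) (sh (n + 1) p.2)) i := (run_shift hok.hp₂ _ hbl _ _).symm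
    _ = rr [] (Sft hw n p) i := by rw [rr, r0_Sft hw]; rfl

lemma xx_Sft {n : ℕ} {p : HalfPlane × (ℕ → ℕ)} (hc : Candi k w n p) (h1 : 1 ≤ p.2 n)
    (h2 : p.2 n < p.1.1.deg (xx w p n)) {i : ℕ}
    (hav : ∀ j, n < j → j < n + i → ¬ (EE k w p n).OnBd (xx w p j)) :
    xx w p (n + i) = xx [] (Sft hw n p) i := by
  have hok := EE_ok hw p n
  rcases Nat.eq_zero_or_pos i with rfl | hi
  · have : xx [] (Sft hw n p) 0 = (EE k w p n).V (ix k w n p) := by
      show (Sft hw n p).1.1.org (r0 [] (Sft hw n p).1) = _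
      rw [r0_Sft hw]; rfl
    rw [this, add_zero]
    exact (V_idx hc.1).symm
  · rw [xx, xx, rr_Sft hw hc h1 h2 hi hav, Sft_fst hw]
    show _ = (EE k w p n).org _
    rw [hok.org_eq]

lemma RegT.rr_eq {n : ℕ} {p : HalfPlane × (ℕ → ℕ)} (hp : p ∈ RegT k w n) {i : ℕ} (hi : 1 ≤ i) :
    rr w p (n + i) = rr [] (Sft hw n p) i :=
  rr_Sft hw hp.1 hp.2.1 hp.2.2.1 hi fun j hj _ => hp.2.2.2 j hj

lemma RegT.xx_eq {n : ℕ} {p : HalfPlane × (ℕ → ℕ)} (hp : p ∈ RegT k w n) (i : ℕ) :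
    xx w p (n + i) = xx [] (Sft hw n p) i :=
  xx_Sft hw hp.1 hp.2.1 hp.2.2.1 fun j hj _ => hp.2.2.2 j hj

/-- the exploration after a regeneration time -/
lemma RegT.EE_eq {n : ℕ} {p : HalfPlane × (ℕ → ℕ)} (hp : p ∈ RegT k w n) {i : ℕ} (hi : 1 ≤ i) :
    EE 0 [] (Sft hw n p) i = (EE k w p (n + i)).shift (ix k w n p) := by
  have hok := EE_ok hw p n
  induction i, hi using Nat.le_induction with
  | base =>
    rw [EE_succ, EE_succ]
    have h1 : xx w p n = (EE k w p n).V (ix k w n p) := (V_idx hp.1.1).symm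
    rw [exploreV_of_eq hok.hp₂.pre h1.symm]
    have h2 : EE 0 [] (Sft hw n p) 0 = (Sft hw n p).1.1.explore 0 := rfl
    rw [h2, Sft_fst hw, explore_shift hok.hp₂, zero_add]
    have h3 : xx [] (Sft hw n p) 0 = xx w p n := by
      have := (RegT.xx_eq hw hp 0).symm
      rwa [add_zero] at this
    rw [h3]
    refine exploreV_of_ne ?_
    intro l hl
    rw [shift_V] at hl
    obtain ⟨j, b, c, S, P⟩ := explore_spec hok.hp₂ (ix k w n p)
    have h4 := P.sw
    rw [← h1, ← hl] at h4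
    exact not_sw_V P.reg.hp₂.pre _ h4
  | succ i hi ih =>
    rw [EE_succ, ih, ← add_assoc, EE_succ, ← RegT.xx_eq hw hp i,
      exploreV_shift (EE_ok hw p (n + i)).hp₂]

/-- vertices visited after a regeneration time are interior vertices -/
lemma RegT.inner {n : ℕ} {p : HalfPlane × (ℕ → ℕ)} (hp : p ∈ RegT k w n) {i : ℕ} (hi : n < i) :
    (∃ d ∈ (EE k w p n).E, (EE k w p n).org d = xx w p i) ∧ ¬ (EE k w p n).OnBd (xx w p i) ∧
      ∀ d ∈ p.1.1.E, p.1.1.org d = xx w p i → d ∈ (EE k w p n).E := by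
  have hok := EE_ok hw p n
  obtain ⟨i, rfl⟩ : ∃ i', i = n + i' := ⟨i - n, by omega⟩
  have h1 := RegT.rr_eq hw hp (i := i) (by omega)
  have hmem : rr w p (n + i) ∈ (EE k w p n).E := by
    rw [h1]
    exact rr_mem [] (Sft hw n p) i
  have h2 : ∃ d ∈ (EE k w p n).E, (EE k w p n).org d = xx w p (n + i) :=
    ⟨_, hmem, by rw [hok.org_eq]; rfl⟩
  have h3 := hp.2.2.2 (n + i) hi
  exact ⟨h2, h3, fun d hd hdo => hok.mem_of_inner h2 h3 hd hdo⟩

/-- composition of regenerations -/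
lemma RegT.comp {n i : ℕ} {p : HalfPlane × (ℕ → ℕ)} (hi : 1 ≤ i) (hp : p ∈ RegT k w n) :
    (p ∈ RegT k w (n + i) ↔ Sft hw n p ∈ RegT 0 [] i) ∧
      (p ∈ RegT k w (n + i) → Sft hw (n + i) p = Sft nil_le i (Sft hw n p)) := by
  have hok := EE_ok hw p n
  have hok' := EE_ok hw p (n + i)
  set q := Sft hw n p with hq
  have hE := RegT.EE_eq hw hp hi
  rw [← hq] at hE
  have hr := RegT.rr_eq hw hp hi
  rw [← hq] at hr
  have hx := RegT.xx_eq hw hp i
  rw [← hq] at hx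
  obtain ⟨hin1, hin2, hin3⟩ := RegT.inner hw hp (i := n + i) (by omega)
  have hq2 : q.2 i = p.2 (n + i) := by
    obtain ⟨i, rfl⟩ : ∃ i', i = i' + 1 := ⟨i - 1, by omega⟩
    show p.2 (n + 1 + i) = p.2 (n + (i + 1))
    exact congrArg p.2 (by omega)
  have hdeg : q.1.1.deg (xx [] q i) = p.1.1.deg (xx w p (n + i)) := by
    rw [← hx, deg_eq_of_inner hok hin1 hin2]
    rfl
  have hcand : Candi 0 [] i q ↔ Candi k w (n + i) p := by
    unfold Candi Cand
    rw [hE, onBd_shift, ← hr]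
    have h1 : q.1.1.org (rr w p (n + i)) = p.1.1.org (rr w p (n + i)) := by
      show (EE k w p n).org _ = _
      rw [hok.org_eq]
    rw [h1]
    have h2 : q.1.1.outD ((EE k w p (n + i)).shift (ix k w n p)) (rr w p (n + i)) =
        p.1.1.outD (EE k w p (n + i)) (rr w p (n + i)) := by
      ext d
      constructor
      · rintro ⟨h3, h4, h5⟩
        refine ⟨hok.E_sub h3, ?_, h5⟩
        change (EE k w p n).org _ = (EE k w p n).org _ at h4
        rwa [hok.org_eq] at h4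
      · rintro ⟨h3, h4, h5⟩
        refine ⟨hin3 d h3 h4, ?_, h5⟩
        change (EE k w p n).org _ = (EE k w p n).org _
        rwa [hok.org_eq]
    rw [h2]
  have hav : (∀ j, n + i < j → ¬ (EE k w p (n + i)).OnBd (xx w p j)) ↔
      ∀ j, i < j → ¬ (EE 0 [] q i).OnBd (xx [] q j) := by
    rw [hE]
    constructor
    · intro h j hj h1
      rw [onBd_shift, hq, ← RegT.xx_eq hw hp j] at h1
      exact h (n + j) (by omega) h1
    · intro h j hj h1
      obtain ⟨j, rfl⟩ : ∃ j', j = n + j' := ⟨j - n, by omega⟩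
      refine h j (by omega) ?_
      rw [onBd_shift, hq, ← RegT.xx_eq hw hp j]
      exact h1
  constructor
  · show (_ ∧ _ ∧ _ ∧ _) ↔ (_ ∧ _ ∧ _ ∧ _)
    rw [hcand, hq2, hdeg, hav]
  · intro hp'
    have h1 : (Sft hw (n + i) p).1 = (Sft nil_le i q).1 := by
      refine Subtype.ext ?_
      show (EE k w p (n + i)).shift _ = (EE 0 [] q i).shift _
      rw [hE, shift_shift]
      congr 1
      show _ = _ + (EE 0 [] q i).idx (xx [] q i)
      have hb : (EE k w p (n + i)).OnBd (xx w p (n + i)) := hp'.1.1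
      rw [hE, ← hx, idx_shift hok'.hp₂ _ hb]
      show ix k w (n + i) p = _ + (ix k w (n + i) p - _)
      ring
    have h2 : (Sft hw (n + i) p).2 = (Sft nil_le i q).2 := by
      show cns (p.2 (n + i) - 1) (sh (n + i + 1) p.2) = cns (q.2 i - 1) (sh (i + 1) q.2)
      rw [hq2]
      congr 1
      funext j
      show p.2 (n + i + 1 + j) = q.2 (i + 1 + j)
      have : q.2 (i + 1 + j) = sh (n + 1) p.2 (i + j) := by
        rw [show i + 1 + j = (i + j) + 1 by ring]; rfl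
      rw [this]
      show p.2 (n + i + 1 + j) = p.2 (n + 1 + (i + j))
      exact congrArg p.2 (by omega)
    exact Prod.ext h1 h2

end

end Pool.Agent.Helper97.Speed
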