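import Pool.Agent.Helper97.Speed.RegenMaps

/-! # The renewal identity -/

namespace Pool.Agent.Helper97.Speed

open MeasureTheory PMap
open scoped ENNReal

section

variable {k : ℕ} {w : List ℕ}

/-- weak regeneration at time `j`, as seen at time `n` -/
def Wk (k : ℕ) (w : List ℕ) (j n : ℕ) : Set (HalfPlane × (ℕ → ℕ)) :=
  {p | Candi k w j p ∧ 1 ≤ p.2 j ∧ p.2 j < p.1.1.deg (xx w p j) ∧
    ∀ i, j < i → i ≤ n → ¬ (EE k w p j).OnBd (xx w p i)}

lemma RegT.not_onBd (hw : w.length ≤ k) {n : ℕ} {p : HalfPlane × (ℕ → ℕ)} (hp : p ∈ RegT k w n)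
    {i : ℕ} (hi : n < i) {m₀ : PMap} (h₀ : m₀.IsHalfPlane) (hIn : (EE k w p n).In ⊆ m₀.In)
    (hrev : (EE k w p n).rev = m₀.rev) (horg : (EE k w p n).org = m₀.org)
    (hE : m₀.E ⊆ p.1.1.E) : ¬ m₀.OnBd (xx w p i) := by
  have hok := EE_ok hw p n
  obtain ⟨h1, h2, h3⟩ := RegT.inner hw hp hi
  refine not_onBd_of_inner h₀ hok.hp₂ hIn hrev horg h2 ?_
  intro d hd hdo
  refine h3 d (hE hd) ?_
  rw [← hok.org_eq, horg]; exact hdo

lemma regT_iff_wk (hw : w.length ≤ k) {j n : ℕ} (hj : j < n) {p : HalfPlane × (ℕ → ℕ)}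
    (hp : p ∈ RegT k w n) : p ∈ RegT k w j ↔ p ∈ Wk k w j n := by
  constructor
  · rintro ⟨h1, h2, h3, h4⟩
    exact ⟨h1, h2, h3, fun i hi _ => h4 i hi⟩
  · rintro ⟨h1, h2, h3, h4⟩
    refine ⟨h1, h2, h3, fun i hi => ?_⟩
    rcases le_or_gt i n with h5 | h5
    · exact h4 i hi h5
    · have hok := EE_ok hw p n
      have hok' := EE_ok hw p j
      exact RegT.not_onBd hw hp h5 hok'.hp₂ (EE_subset hw p hj.le)
        (by rw [hok.rev_eq, hok'.rev_eq]) (by rw [hok.org_eq, hok'.org_eq]) hok'.E_sub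

lemma PastEq.candi (hw : w.length ≤ k) {p q : HalfPlane × (ℕ → ℕ)} {n j : ℕ}
    (h : PastEq k w n p q) (hj : j ≤ n) : Candi k w j q ↔ Candi k w j p := by
  obtain ⟨φ, hφ⟩ := h.agree hw
  exact (hφ j hj).cand

lemma PastEq.ix_eq (hw : w.length ≤ k) {p q : HalfPlane × (ℕ → ℕ)} {n j : ℕ}
    (h : PastEq k w n p q) (hj : j ≤ n) : ix k w j q = ix k w j p := by
  obtain ⟨φ, hφ⟩ := h.agree hw
  exact (hφ j hj).idx

lemma PastEq.wk (hw : w.length ≤ k) {p q : HalfPlane × (ℕ → ℕ)} {n j : ℕ}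
    (h : PastEq k w n p q) (hj : j < n) : q ∈ Wk k w j n ↔ p ∈ Wk k w j n := by
  have h1 := h.candi hw hj.le
  have h2 : p.2 j = q.2 j := pre_eq_iff.1 h.1 j hj
  have h3 := h.deg hw hj
  have h4 : (∀ i, j < i → i ≤ n → ¬ (EE k w q j).OnBd (xx w q i)) ↔
      (∀ i, j < i → i ≤ n → ¬ (EE k w p j).OnBd (xx w p i)) := by
    constructor
    · intro h5 i hi hi' h6
      exact h5 i hi hi' ((h.onBd hw hi' hj.le).2 h6)
    · intro h5 i hi hi' h6
      exact h5 i hi hi' ((h.onBd hw hi' hj.le).1 h6)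
  show (_ ∧ _ ∧ _ ∧ _) ↔ (_ ∧ _ ∧ _ ∧ _)
  rw [h1, ← h2, h3, h4]

lemma PastEq.onBd₀ (hw : w.length ≤ k) {p q : HalfPlane × (ℕ → ℕ)} {n i : ℕ}
    (h : PastEq k w n p q) (hi : i ≤ n) :
    q.1.1.OnBd (xx w q i) ↔ p.1.1.OnBd (xx w p i) := by
  obtain ⟨hpre, φ, T, T', I⟩ := h
  obtain ⟨-, h2⟩ := stage_of_iso hw hpre I subset_rfl i hi
  have hX : rr w p i ∈ p.1.1.X T := by
    obtain ⟨a, b, c, S, R, hS, hr⟩ := EE_ok hw p i
    have hN := I.n1.of_subset R.nest (EE_subset hw p hi)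
    exact X_mono hN.1 hr
  have h3 : ∀ l, xx w p i = p.1.1.V l ↔ xx w q i = q.1.1.V l := by
    intro l
    have := I.V _ hX l
    rw [xx, xx, h2]
    exact this
  constructor
  · rintro ⟨l, hl⟩; exact ⟨l, ((h3 l).2 hl.symm).symm⟩
  · rintro ⟨l, hl⟩; exact ⟨l, ((h3 l).1 hl.symm).symm⟩

lemma PastEq.atom (hw : w.length ≤ k) {p q : HalfPlane × (ℕ → ℕ)} {n : ℕ}
    (h : PastEq k w n p q) (C : Cd) : q.1 ∈ atom k C ↔ p.1 ∈ atom k C := by
  obtain ⟨-, φ, T, T', I⟩ := h.mono hw (Nat.zero_le n)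
  have key : ∀ C : Cd, p.1 ∈ Speed.atom k C → q.1 ∈ Speed.atom k C := fun C hC =>
    SubC.transfer I hC
  refine ⟨fun hq => ?_, key C⟩
  obtain ⟨C', -, hC'⟩ := exists_atom k p.1
  obtain ⟨ψ, A, A', J⟩ := atom_locEq (key C' hC') hC'
  exact SubC.transfer J hq

lemma wk_measurable (hw : w.length ≤ k) {j n : ℕ} (hj : j < n) : MeasurableSet (Wk k w j n) :=
  measurableSet_past hw (n := n) fun _ _ h hp => (h.wk hw hj).2 hp

lemma regT_eq (n : ℕ) : RegT k w n = ⋂ i : ℕ, Wk k w n (n + 1 + i) := by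
  ext p
  simp only [Set.mem_iInter]
  constructor
  · rintro ⟨h1, h2, h3, h4⟩ i
    exact ⟨h1, h2, h3, fun i hi _ => h4 i hi⟩
  · intro h
    obtain ⟨h1, h2, h3, -⟩ := h 0
    exact ⟨h1, h2, h3, fun i hi => (h i).2.2.2 i hi (by omega)⟩

lemma regT_measurable (hw : w.length ≤ k) (n : ℕ) : MeasurableSet (RegT k w n) := by
  rw [regT_eq]
  exact MeasurableSet.iInter fun i => wk_measurable hw (by omega)

lemma measurable_Sft (hw : w.length ≤ k) (n : ℕ) : Measurable (Sft hw n) := by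
  refine (measurable_EH_shift hw n (ι := ix k w n) fun p q h => h.ix_eq hw le_rfl).prodMk ?_
  have h1 : Measurable (fun p : HalfPlane × (ℕ → ℕ) => sh (n + 1) p.2) :=
    (measurable_sh (n + 1)).comp measurable_snd
  rw [measurable_pi_iff]
  intro i
  rcases i with _ | i
  · show Measurable (fun p : HalfPlane × (ℕ → ℕ) => p.2 n - 1)
    have h2 : Measurable (fun p : HalfPlane × (ℕ → ℕ) => p.2 n) :=
      (measurable_pi_apply n).comp measurable_snd
    exact (Measurable.of_discrete (f := fun t : ℕ => t - 1)).comp h2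
  · exact (measurable_pi_apply i).comp h1

lemma away_measurable : MeasurableSet Away := by
  have : Away = ⋂ i : ℕ, {p : HalfPlane × (ℕ → ℕ) | ¬ p.1.1.OnBd (xx [] p (i + 1))} := by
    ext p
    simp only [Set.mem_iInter]
    constructor
    · intro h i; exact h (i + 1) (by omega)
    · intro h i hi
      obtain ⟨i, rfl⟩ : ∃ i', i = i' + 1 := ⟨i - 1, by omega⟩
      exact h i
  rw [this]
  refine MeasurableSet.iInter fun i => ?_
  refine measurableSet_past nil_le (n := i + 1) ?_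
  intro p q h hp hq
  exact hp ((h.onBd₀ nil_le le_rfl).1 hq)

/-- the density -/
noncomputable def dgr (h : HalfPlane) : ℝ≥0∞ :=
  (h.1.deg (h.1.V 0) : ℝ≥0∞) / ((h.1.deg (h.1.V 0) : ℝ≥0∞) + 1)

lemma measurable_deg0 : Measurable (fun h : HalfPlane => h.1.deg (h.1.V 0)) :=
  (measurable_pi_apply ([] : List ℕ)).comp (measurable_dg [])

lemma measurable_dgr : Measurable dgr := by
  have h1 : Measurable (fun h : HalfPlane => (h.1.deg (h.1.V 0) : ℝ≥0∞)) :=
    (Measurable.of_discrete (f := fun t : ℕ => (t : ℝ≥0∞))).comp measurable_deg0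
  exact h1.div (h1.add_const 1)

lemma dgr_le_one (h : HalfPlane) : dgr h ≤ 1 := by
  unfold dgr
  refine ENNReal.div_le_of_le_mul ?_
  rw [one_mul]
  exact le_self_add

lemma deg0_pos (h : HalfPlane) : 0 < h.1.deg (h.1.V 0) :=
  h.2.pre.deg_pos (mem_E_of_mem (h.2.bd_mem 0))

lemma half_le_dgr (h : HalfPlane) : 2⁻¹ ≤ dgr h := by
  have h1 := deg0_pos h
  unfold dgr
  set d := h.1.deg (h.1.V 0)
  rw [ENNReal.le_div_iff_mul_le (Or.inl (by simp)) (Or.inl (by simp))]
  have h2 : (2 : ℝ≥0∞)⁻¹ * ((d : ℝ≥0∞) + 1) ≤ 2⁻¹ * (2 * d) := by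
    gcongr
    have : ((d + 1 : ℕ) : ℝ≥0∞) ≤ ((2 * d : ℕ) : ℝ≥0∞) := by
      exact_mod_cast (by omega : d + 1 ≤ 2 * d)
    push_cast at this
    exact this
  refine h2.trans ?_
  rw [← mul_assoc, ENNReal.inv_mul_cancel (by simp) (by simp), one_mul]

/-- the unnormalised law seen from a regeneration time -/
noncomputable def lam (P : Measure HalfPlane) : Measure (HalfPlane × (ℕ → ℕ)) :=
  ((law P []).withDensity (fun p => dgr p.1)).restrict Away

variable {α : ℝ} {P : Measure HalfPlane}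

/-- section of the law seen from a regeneration time -/
noncomputable def FB (B : Set (HalfPlane × (ℕ → ℕ))) (g : HalfPlane) : ℝ≥0∞ :=
  dgr g * ports (g.1.dg (g.1.bd 0)) (Prod.mk g ⁻¹' (Away ∩ B))

lemma measurable_FB {B : Set (HalfPlane × (ℕ → ℕ))} (hB : MeasurableSet B) :
    Measurable (FB B) := by
  refine measurable_dgr.mul ?_
  exact ProbabilityTheory.Kernel.measurable_kernel_prodMk_left (κ := kern [])
    (away_measurable.inter hB)

lemma lam_apply [SFinite P] {B : Set (HalfPlane × (ℕ → ℕ))} (hB : MeasurableSet B) :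
    lam P B = ∫⁻ g, FB B g ∂P := by
  have hm : Measurable (fun p : HalfPlane × (ℕ → ℕ) => dgr p.1) :=
    measurable_dgr.comp measurable_fst
  have hAB := away_measurable.inter hB
  rw [lam, Measure.restrict_apply hB, withDensity_apply _ (hB.inter away_measurable),
    Set.inter_comm, ← lintegral_indicator hAB, lintegral_law []
      (hm.indicator hAB)]
  congr 1
  funext g
  have h1 : ∀ a : ℕ → ℕ, (Away ∩ B).indicator (fun p => dgr p.1) (g, a) =
      (Prod.mk g ⁻¹' (Away ∩ B)).indicator (fun _ => dgr g) a := by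
    intro a
    by_cases h : (g, a) ∈ Away ∩ B
    · rw [Set.indicator_of_mem h, Set.indicator_of_mem (show a ∈ Prod.mk g ⁻¹' (Away ∩ B) from h)]
    · rw [Set.indicator_of_notMem h,
        Set.indicator_of_notMem (show a ∉ Prod.mk g ⁻¹' (Away ∩ B) from h)]
  simp only [h1]
  rw [lintegral_indicator (measurable_prodMk_left hAB), setLIntegral_const]
  rfl

lemma candi_measurable (hw : w.length ≤ k) (n : ℕ) : MeasurableSet {p | Candi k w n p} :=
  measurableSet_past hw (n := n) fun _ _ h hp => (h.candi hw le_rfl).2 hp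

/-- the future at a candidate time -/
lemma future_eq (hw : w.length ≤ k) (n : ℕ) {B : Set (HalfPlane × (ℕ → ℕ))}
    (hB : MeasurableSet B) (p : HalfPlane × (ℕ → ℕ)) :
    ports (p.1.1.dg (rr w p n))
      {b | (p.1, app (pre p.2 n) b) ∈ RegT k w n ∩ Sft hw n ⁻¹' B} =
      {p | Candi k w n p}.indicator (fun _ => (1 : ℝ≥0∞)) p * FB B ((EH hw n p).shift (ix k w n p)) := by
  have hok := EE_ok hw p n
  -- the modified pair
  have hpre : ∀ b, pre (app (pre p.2 n) b) n = pre p.2 n := fun b => pre_app' (length_pre _ _) b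
  have hsh : ∀ b, sh n (app (pre p.2 n) b) = b := by
    intro b
    have := sh_app (pre p.2 n) b
    rwa [length_pre] at this
  have hEE : ∀ b, EE k w (p.1, app (pre p.2 n) b) n = EE k w p n := fun b =>
    EE_congr (hpre b) le_rfl
  have hrr : ∀ b, rr w (p.1, app (pre p.2 n) b) n = rr w p n := fun b =>
    rr_congr (hpre b) le_rfl
  have hxx : ∀ b, xx w (p.1, app (pre p.2 n) b) n = xx w p n := by
    intro b; rw [xx, xx, hrr]
  have hix : ∀ b, ix k w n (p.1, app (pre p.2 n) b) = ix k w n p := by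
    intro b; rw [ix, ix, hEE, hxx]
  have hport : ∀ b : ℕ → ℕ, app (pre p.2 n) b n = b 0 := by
    intro b
    have := congrFun (hsh b) 0
    simpa [sh] using this
  have hrun : ∀ b i, xx w (p.1, app (pre p.2 n) b) (n + i) = p.1.1.pos (rr w p n) b i := by
    intro b i
    rw [xx, rr_add, hrr]
    show p.1.1.org (p.1.1.run (rr w p n) (sh n (app (pre p.2 n) b)) i) = _
    rw [hsh]; rfl
  have hSft : ∀ b, Sft hw n (p.1, app (pre p.2 n) b) =
      ((EH hw n p).shift (ix k w n p), cns (b 0 - 1) (sh 1 b)) := by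
    intro b
    refine Prod.ext ?_ ?_
    · refine Subtype.ext ?_
      show (EE k w (p.1, app (pre p.2 n) b) n).shift (ix k w n (p.1, app (pre p.2 n) b)) = _
      rw [hEE, hix]; rfl
    · show cns (app (pre p.2 n) b n - 1) (sh (n + 1) (app (pre p.2 n) b)) = _
      rw [hport, ← sh_succ, hsh]
  by_cases hc : Candi k w n p
  · rw [Set.indicator_of_mem (show p ∈ {p | Candi k w n p} from hc), one_mul]
    set g := (EH hw n p).shift (ix k w n p) with hg
    have hB' : MeasurableSet {a : ℕ → ℕ | (g, a) ∈ B} := measurable_prodMk_left hB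
    have hset : {b | (p.1, app (pre p.2 n) b) ∈ RegT k w n ∩ Sft hw n ⁻¹' B} =
        {b | 1 ≤ b 0 ∧ b 0 < p.1.1.deg (p.1.1.org (rr w p n)) ∧
          (∀ i, 1 ≤ i → ¬ (EE k w p n).OnBd (p.1.1.pos (rr w p n) b i)) ∧
          cns (b 0 - 1) (sh 1 b) ∈ {a : ℕ → ℕ | (g, a) ∈ B}} := by
      ext b
      constructor
      · rintro ⟨⟨h1, h2, h3, h4⟩, h5⟩
        rw [Set.mem_preimage, hSft] at h5
        change 1 ≤ app (pre p.2 n) b n at h2
        change app (pre p.2 n) b n < _ at h3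
        rw [hport] at h2 h3
        rw [hxx] at h3
        refine ⟨h2, h3, ?_, h5⟩
        intro i hi h6
        refine h4 (n + i) (by omega) ?_
        rw [hrun, hEE]; exact h6
      · rintro ⟨h2, h3, h4, h5⟩
        refine ⟨⟨?_, ?_, ?_, ?_⟩, ?_⟩
        · show Cand _ _ _
          rw [hEE, hrr]; exact hc
        · show 1 ≤ app (pre p.2 n) b n
          rw [hport]; exact h2
        · show app (pre p.2 n) b n < _
          rw [hport, hxx]; exact h3
        · intro i hi
          obtain ⟨i, rfl⟩ : ∃ i', i = n + i' := ⟨i - n, by omega⟩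
          rw [hrun, hEE]
          exact h4 i (by omega)
        · rw [Set.mem_preimage, hSft]; exact h5
    rw [hset, cand_future hok hc hB']
    have hbl : (EE k w p n).bd (ix k w n p) ∈ (EE k w p n).E := mem_E_of_mem (hok.hp₂.bd_mem _)
    have hV : (EE k w p n).V (ix k w n p) = p.1.1.org (rr w p n) := V_idx hc.1
    have e1 : dgr g = ((EE k w p n).deg (p.1.1.org (rr w p n)) : ℝ≥0∞) /
        (((EE k w p n).deg (p.1.1.org (rr w p n)) : ℝ≥0∞) + 1) := by
      have : g.1.deg (g.1.V 0) = (EE k w p n).deg (p.1.1.org (rr w p n)) := by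
        rw [← hV]
        show (EE k w p n).deg ((EE k w p n).V (0 + _)) = _
        rw [zero_add]
      rw [dgr, this]
    have e2 : g.1.dg (g.1.bd 0) = (EE k w p n).dg ((EE k w p n).bd (ix k w n p)) := by
      show ((EE k w p n).shift _).dg ((EE k w p n).bd (0 + _)) = _
      rw [zero_add, dg_shift hok.hp₂ _ hbl]
    have e3 : Prod.mk g ⁻¹' (Away ∩ B) = {a | (∀ i, 1 ≤ i → ¬ (EE k w p n).OnBd
        ((EE k w p n).pos ((EE k w p n).bd (ix k w n p)) a i)) ∧
          a ∈ {a : ℕ → ℕ | (g, a) ∈ B}} := by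
      ext a
      have h1 : ∀ i, g.1.OnBd (g.1.pos (g.1.bd 0) a i) ↔ (EE k w p n).OnBd
          ((EE k w p n).pos ((EE k w p n).bd (ix k w n p)) a i) := by
        intro i
        show ((EE k w p n).shift _).OnBd (((EE k w p n).shift _).pos
          ((EE k w p n).bd (0 + _)) a i) ↔ _
        rw [zero_add, onBd_shift, pos_shift hok.hp₂ _ hbl]
      constructor
      · rintro ⟨h2, h3⟩
        exact ⟨fun i hi h4 => h2 i hi ((h1 i).2 h4), h3⟩
      · rintro ⟨h2, h3⟩
        exact ⟨fun i hi h4 => h2 i hi ((h1 i).1 h4), h3⟩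
    rw [FB, e1, e2, e3]
    rfl
  · rw [Set.indicator_of_notMem (show p ∉ {p | Candi k w n p} from hc), zero_mul]
    have : {b | (p.1, app (pre p.2 n) b) ∈ RegT k w n ∩ Sft hw n ⁻¹' B} = ∅ := by
      ext b
      simp only [Set.mem_empty_iff_false, iff_false]
      rintro ⟨⟨h1, -⟩, -⟩
      apply hc
      change Cand _ _ _ at h1
      rw [hEE, hrr] at h1
      exact h1
    rw [this, measure_empty]

/-- **Renewal identity.** -/
theorem renew (hP : IsHalfPlaneLaw α P) (hw : w.length ≤ k) (n : ℕ)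
    {φ : HalfPlane × (ℕ → ℕ) → ℝ≥0∞} (hφ : ∀ p q, PastEq k w n p q → φ q = φ p)
    {B : Set (HalfPlane × (ℕ → ℕ))} (hB : MeasurableSet B) :
    ∫⁻ p in RegT k w n ∩ Sft hw n ⁻¹' B, φ p ∂law P w =
      (∫⁻ p in {p | Candi k w n p}, φ p ∂law P w) * lam P B := by
  have := hP.prob
  have hφm := measurable_past hw hφ
  have hRm := (regT_measurable hw n).inter (measurable_Sft hw n hB)
  have hcm := candi_measurable hw n
  rw [← lintegral_indicator hRm, law_markov hP w n (hφm.indicator hRm),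
    ← lintegral_indicator hcm, lam_apply hB]
  have h1 : ∀ p : HalfPlane × (ℕ → ℕ),
      ∫⁻ b, (RegT k w n ∩ Sft hw n ⁻¹' B).indicator φ (p.1, app (pre p.2 n) b)
        ∂ports (p.1.1.dg (rr w p n)) =
      {p | Candi k w n p}.indicator φ p * FB B ((EH hw n p).shift (ix k w n p)) := by
    intro p
    have hm1 : MeasurableSet {b | (p.1, app (pre p.2 n) b) ∈ RegT k w n ∩ Sft hw n ⁻¹' B} :=
      (measurable_prodMk_left.comp (measurable_app (pre p.2 n))) hRm
    have h2 : ∀ b, (RegT k w n ∩ Sft hw n ⁻¹' B).indicator φ (p.1, app (pre p.2 n) b) =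
        {b | (p.1, app (pre p.2 n) b) ∈ RegT k w n ∩ Sft hw n ⁻¹' B}.indicator
          (fun _ => φ p) b := by
      intro b
      have h3 : φ (p.1, app (pre p.2 n) b) = φ p :=
        hφ p _ (PastEq.refl' hw (h := p.1) (a := p.2) (pre_app' (length_pre _ _) b).symm)
      by_cases h : (p.1, app (pre p.2 n) b) ∈ RegT k w n ∩ Sft hw n ⁻¹' B
      · have h4 : b ∈ {b | (p.1, app (pre p.2 n) b) ∈ RegT k w n ∩ Sft hw n ⁻¹' B} := h
        rw [Set.indicator_of_mem h, Set.indicator_of_mem h4, h3]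
      · have h4 : b ∉ {b | (p.1, app (pre p.2 n) b) ∈ RegT k w n ∩ Sft hw n ⁻¹' B} := h
        rw [Set.indicator_of_notMem h, Set.indicator_of_notMem h4]
    simp only [h2]
    rw [lintegral_indicator hm1, setLIntegral_const, future_eq hw n hB p]
    by_cases hc : p ∈ {p | Candi k w n p}
    · rw [Set.indicator_of_mem hc, Set.indicator_of_mem hc, one_mul]
    · rw [Set.indicator_of_notMem hc, Set.indicator_of_notMem hc]; simp
  rw [lintegral_congr h1]
  refine strong_markov hP hw n ?_ (fun p q h => h.ix_eq hw le_rfl) (measurable_FB hB)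
  intro p q h
  by_cases hc : Candi k w n p
  · rw [Set.indicator_of_mem (show p ∈ {p | Candi k w n p} from hc),
      Set.indicator_of_mem (show q ∈ {p | Candi k w n p} from (h.candi hw le_rfl).2 hc), hφ p q h]
  · rw [Set.indicator_of_notMem (show p ∉ {p | Candi k w n p} from hc),
      Set.indicator_of_notMem (show q ∉ {p | Candi k w n p} from
        fun h' => hc ((h.candi hw le_rfl).1 h'))]

end

end Pool.Agent.Helper97.Speed
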