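import Pool.Agent.Helper97.Speed.Loc

/-! # Moving the root along the boundary -/

namespace Pool.Agent.Helper97.Speed

open MeasureTheory

namespace PMap

variable {m m₁ m₂ g g₁ g₂ : PMap}

lemma shift_bd (k i : ℤ) : (m.shift k).bd i = m.bd (i + k) := rfl

lemma shift_V (k i : ℤ) : (m.shift k).V i = m.V (i + k) := rfl

lemma shift_shift (k k' : ℤ) : (m.shift k).shift k' = m.shift (k + k') := by
  simp only [shift, PMap.mk.injEq, true_and]
  funext i
  congr 1; ring

lemma shift_zero : m.shift 0 = m := by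
  cases m
  simp [shift]

lemma shift_path (k : ℤ) {x y : ℕ} {p : List ℕ} : (m.shift k).Path x p y ↔ m.Path x p y := by
  induction p generalizing x with
  | nil => exact Iff.rfl
  | cons d p ih =>
    simp only [Path]
    rw [ih]
    exact Iff.rfl

lemma shift_turn (k : ℤ) (d e : ℕ) : (m.shift k).Turn d e ↔ m.Turn d e := by
  constructor
  · rintro (h | ⟨i, h1, h2⟩)
    · exact Or.inl h
    · refine Or.inr ⟨i + k, h1, ?_⟩
      rw [h2, shift_bd]; congr 1; ring
  · rintro (h | ⟨i, h1, h2⟩)
    · exact Or.inl h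
    · refine Or.inr ⟨i - k, ?_, ?_⟩
      · rw [shift_bd, sub_add_cancel]; exact h1
      · rw [h2, shift_bd]; congr 1; ring

lemma IsHalfPlane.shift (h : m.IsHalfPlane) (k : ℤ) : (m.shift k).IsHalfPlane where
  rev_rev := h.rev_rev
  nxt_mem := h.nxt_mem
  nxt_nxt_nxt := h.nxt_nxt_nxt
  org_nxt := h.org_nxt
  no_loop := h.no_loop
  bd_mem i := h.bd_mem _
  rev_bd i := h.rev_bd _
  bd_surj d hd hd' := by
    obtain ⟨i, hi⟩ := h.bd_surj d hd hd'
    exact ⟨i - k, by rw [shift_bd, sub_add_cancel]; exact hi⟩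
  org_rev_bd i := by
    rw [shift_bd, shift_bd]
    have := h.org_rev_bd (i + k)
    rw [show i + 1 + k = i + k + 1 by ring]
    exact this
  bd_simple i j hij := by
    have := h.bd_simple _ _ hij
    omega
  fin := h.fin
  fan d hd e he hde := by
    have := h.fan d hd e he hde
    exact Relation.ReflTransGen.mono (fun a b hab => (shift_turn k a b).2 hab) _ _ this
  conn := h.conn
  jordan x c hc := h.jordan x c ((shift_path k).1 hc)

lemma shift_cyc (k j : ℤ) (b : ℕ) (p : List ℕ) : (m.shift k).cyc j b p = m.cyc (j + k) b p := by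
  simp only [cyc]
  congr 1
  refine List.map_congr_left fun i _ => ?_
  rw [shift_bd]; congr 1; ring

lemma shift_chord (k j : ℤ) (b : ℕ) (p : List ℕ) (S : Finset ℕ) :
    (m.shift k).Chord j b p S ↔ m.Chord (j + k) b p S := by
  have e1 : (m.shift k).bd j = m.bd (j + k) := rfl
  have e2 : (m.shift k).bd (j + b) = m.bd (j + k + b) := by
    rw [shift_bd]; congr 1; ring
  constructor
  · intro ch
    refine ⟨ch.pos, ch.ne_nil, ?_, ch.simple, ?_, ch.closed, ?_⟩
    · have := ch.path
      rw [shift_path, e2] at this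
      exact this
    · intro d hd i hi
      refine ch.inside d hd (i - k) ?_
      rw [shift_bd, sub_add_cancel]
      exact hi
    · intro d
      have := ch.bdry d
      rw [shift_cyc] at this
      exact this
  · intro ch
    refine ⟨ch.pos, ch.ne_nil, ?_, ch.simple, ?_, ch.closed, ?_⟩
    · rw [shift_path, e2]
      exact ch.path
    · intro d hd i
      exact ch.inside d hd (i + k)
    · intro d
      rw [shift_cyc]
      exact ch.bdry d

lemma shift_fills (k : ℤ) : ∀ {Q : Disc} {c : List ℕ}, (m.shift k).Fills Q c ↔ m.Fills Q c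
  | .edge, c => Iff.rfl
  | .inner Q, c => by
    simp only [Fills]
    constructor
    · rintro ⟨d, t, h1, h2, h3, h4⟩
      exact ⟨d, t, h1, h2, h3, (shift_fills k).1 h4⟩
    · rintro ⟨d, t, h1, h2, h3, h4⟩
      exact ⟨d, t, h1, h2, h3, (shift_fills k).2 h4⟩
  | .split Q₁ Q₂, c => by
    simp only [Fills]
    constructor
    · rintro ⟨d, t₁, t₂, h1, h2, h3, h4⟩
      exact ⟨d, t₁, t₂, h1, h2, (shift_fills k).1 h3, (shift_fills k).1 h4⟩
    · rintro ⟨d, t₁, t₂, h1, h2, h3, h4⟩
      exact ⟨d, t₁, t₂, h1, h2, (shift_fills k).2 h3, (shift_fills k).2 h4⟩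

lemma shift_cut (k j : ℤ) (b : ℕ) (p : List ℕ) (S : Set ℕ) :
    (m.shift k).cut j b p S = (m.cut (j + k) b p S).shift k := by
  simp only [cut, shift, PMap.mk.injEq, true_and]
  funext i
  by_cases h1 : i < j
  · have h1' : i + k < j + k := by omega
    simp only [h1, h1', if_true]
  · have h1' : ¬ i + k < j + k := by omega
    simp only [h1, h1', if_false]
    by_cases h2 : i < j + p.length
    · have h2' : i + k < j + k + p.length := by omega
      simp only [h2, h2', if_true]
      congr 2; ring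
    · have h2' : ¬ i + k < j + k + p.length := by omega
      simp only [h2, h2', if_false]
      congr 1; ring

lemma shift_sub (k l : ℤ) (a b n : ℕ) (Q : Disc) :
    (m.shift k).Sub l a b n Q (m₁.shift k) ↔ m.Sub (l + k) a b n Q m₁ := by
  have e1 : l + k - (a : ℤ) = l - a + k := by ring
  simp only [Sub, e1]
  constructor
  · rintro ⟨p, S, ch, hn, hF, h1⟩
    refine ⟨p, S, (shift_chord k _ _ _ _).1 ch, hn, ?_, ?_⟩
    · rw [shift_cyc, shift_fills] at hF; exact hF
    · rw [shift_cut] at h1
      have := congrArg (fun x => PMap.shift x (-k)) h1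
      simp only [shift_shift, add_neg_cancel, shift_zero] at this
      exact this
  · rintro ⟨p, S, ch, hn, hF, h1⟩
    refine ⟨p, S, (shift_chord k _ _ _ _).2 ch, hn, ?_, ?_⟩
    · rw [shift_cyc, shift_fills]; exact hF
    · rw [shift_cut, h1]

lemma shift_sub' (k l : ℤ) (a b n : ℕ) (Q : Disc) :
    (m.shift k).Sub l a b n Q m₁ ↔ m.Sub (l + k) a b n Q (m₁.shift (-k)) := by
  rw [← shift_sub, shift_shift, neg_add_cancel, shift_zero]

lemma Reg.shift {j : ℤ} {b n : ℕ} {T : Finset ℕ} (R : Reg m m₂ j b n T) (k : ℤ) :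
    Reg (m.shift k) (m₂.shift k) (j - k) b n T where
  hp := R.hp.shift k
  hp₂ := R.hp₂.shift k
  rev := R.rev
  nxt := R.nxt
  org := R.org
  In := R.In
  tri := R.tri
  posb := R.posb
  posn := R.posn
  lt i hi := by rw [shift_bd, shift_bd]; exact R.lt _ (by omega)
  ge i hi := by
    rw [shift_bd, shift_bd, R.ge _ (by omega)]; congr 1; ring
  inner i hi hi' k' := by
    rw [shift_V, shift_V]; exact R.inner _ (by omega) (by omega) _

lemma Reg.of_shift {j : ℤ} {b n : ℕ} {T : Finset ℕ} {k : ℤ}
    (R : Reg (m.shift k) (m₂.shift k) j b n T) : Reg m m₂ (j + k) b n T := by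
  have := R.shift (-k)
  rw [shift_shift, shift_shift, add_neg_cancel, shift_zero, shift_zero, sub_neg_eq_add] at this
  exact this

/-! ### shift and peeling -/

lemma PeelSpec.eq_peel {l j : ℤ} {b n : ℕ} {S : Finset ℕ} (P : PeelSpec g l g₁ j b n S) :
    g.peel l = g₁ := by
  have hg := P.reg.hp.pre
  refine peel_eq_of P.reg ?_
  rcases P.cases with ⟨rfl, rfl, rfl, h4, h5, h6⟩ | ⟨rfl, h2, rfl, h4, h5⟩ |
    ⟨h1, h2, rfl, h4, h5⟩
  · rw [peelData_inner h4]
    have : Reg.pth g₁ j 2 = [g₁.bd j, g₁.bd (j + 1)] := by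
      simp [Reg.pth, List.range_succ]
    rw [this, h5, h6]
  · rw [peelData_right hg h4 (by omega)]
    have : Reg.pth g₁ j 1 = [g₁.bd j] := by simp [Reg.pth]
    rw [this, h5, show (j + b - j).toNat = b by omega]
  · rw [peelData_left hg h4 h1]
    have : Reg.pth g₁ j 1 = [g₁.bd j] := by simp [Reg.pth]
    rw [this, h5, show (l + 1 - j).toNat = b by omega]

lemma PeelSpec.shift {l j : ℤ} {b n : ℕ} {S : Finset ℕ} (P : PeelSpec g l g₁ j b n S) (k : ℤ) :
    PeelSpec (g.shift k) (l - k) (g₁.shift k) (j - k) b n S := by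
  have hthd : (g.shift k).thd (l - k) = g.thd l := by
    simp only [thd, shift_bd, sub_add_cancel]; rfl
  refine ⟨P.reg.shift k, by have := P.le; omega, by have := P.lt; omega, ?_, ?_⟩
  · rw [shift_bd, sub_add_cancel]; exact P.mem
  · rw [hthd]
    simp only [shift_bd, shift_V]
    rcases P.cases with ⟨h1, h2, h3, h4, h5, h6⟩ | ⟨h1, h2, h3, h4, h5⟩ |
      ⟨h1, h2, h3, h4, h5⟩
    · left
      refine ⟨by omega, h2, h3, fun i => h4 _, ?_, ?_⟩
      · rw [sub_add_cancel]; exact h5
      · rw [show l - k + 1 + k = l + 1 by ring, sub_add_cancel]; exact h6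
    · right; left
      refine ⟨by omega, h2, h3, ?_, ?_⟩
      · rw [show l - k + b + k = l + b by ring]; exact h4
      · rw [sub_add_cancel]; exact h5
    · right; right
      refine ⟨by omega, by omega, h3, ?_, ?_⟩
      · rw [sub_add_cancel]; exact h4
      · rw [sub_add_cancel, sub_add_cancel]; exact h5

lemma peel_shift (h : m.IsHalfPlane) (k l : ℤ) :
    (m.shift k).peel l = (m.peel (l + k)).shift k := by
  obtain ⟨j, b, n, S, P⟩ := peel_spec h (l + k)
  have P' := P.shift k
  rw [show l + k - k = l by ring] at P'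
  exact P'.eq_peel

lemma explore_shift (h : m.IsHalfPlane) (k l : ℤ) :
    (m.shift k).explore l = (m.explore (l + k)).shift k := by
  have key : ∀ N : ℕ, ∀ {m : PMap}, m.IsHalfPlane → m.tcount (m.V (l + k)) ≤ N →
      (m.shift k).explore l = (m.explore (l + k)).shift k := by
    intro N
    induction N with
    | zero =>
      intro m h h1
      have := h.pre.tcount_pos (l + k)
      omega
    | succ N ih =>
      intro m h h1
      obtain ⟨j, b, n, S, P⟩ := peel_spec h (l + k)
      rw [explore_step h, explore_step (h.shift k), peel_shift h]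
      simp only [shift_V]
      by_cases hV : (m.peel (l + k)).V (l + k) = m.V (l + k)
      · simp only [hV, if_true]
        refine ih P.reg.hp₂ ?_
        rw [hV]
        have := P.tcount_lt
        omega
      · simp only [hV, if_false]
  exact key _ h le_rfl

lemma exploreV_shift (h : m.IsHalfPlane) (k : ℤ) (x : ℕ) :
    (m.shift k).exploreV x = (m.exploreV x).shift k := by
  by_cases hx : ∃ l, m.V l = x
  · obtain ⟨l, hl⟩ := hx
    rw [exploreV_of_eq h.pre hl, exploreV_of_eq (h.shift k).pre (l := l - k)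
      (by rw [shift_V, sub_add_cancel]; exact hl), explore_shift h, sub_add_cancel]
  · push Not at hx
    rw [exploreV_of_ne hx, exploreV_of_ne (fun l hl => hx _ (by rw [shift_V] at hl; exact hl))]

lemma rot_shift (h : m.IsHalfPlane) (k : ℤ) {d : ℕ} (hd : d ∈ m.E) :
    (m.shift k).rot d = m.rot d := by
  have h1 := ((h.shift k).pre.turn_iff (d := d) (e := m.rot d) hd).1
    ((shift_turn k _ _).2 ((h.pre.turn_iff hd).2 rfl))
  exact h1.symm

lemma rot_iter_shift (h : m.IsHalfPlane) (k : ℤ) {d : ℕ} (hd : d ∈ m.E) (i : ℕ) :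
    (m.shift k).rot^[i] d = m.rot^[i] d := by
  induction i with
  | zero => rfl
  | succ i ih =>
    rw [Function.iterate_succ_apply', Function.iterate_succ_apply', ih, rot_shift h]
    exact (h.pre.rot_iter_maps (x := m.org d) ⟨hd, rfl⟩ i).1

lemma step_shift (h : m.IsHalfPlane) (k : ℤ) {r : ℕ} (hr : r ∈ m.E) (i : ℕ) :
    (m.shift k).step r i = m.step r i := by
  rw [step, step, rot_iter_shift h k hr]; rfl

lemma run_shift (h : m.IsHalfPlane) (k : ℤ) {r : ℕ} (hr : r ∈ m.E) (a : ℕ → ℕ) (n : ℕ) :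
    (m.shift k).run r a n = m.run r a n := by
  induction n with
  | zero => rfl
  | succ n ih => rw [run, run, ih, step_shift h k (h.pre.run_mem hr a n)]

lemma dart_shift (h : m.IsHalfPlane) (k : ℤ) {r : ℕ} (hr : r ∈ m.E) (w : List ℕ) :
    (m.shift k).dart r w = m.dart r w := by
  induction w generalizing r with
  | nil => rfl
  | cons i w ih => rw [dart_cons, dart_cons, step_shift h k hr, ih (h.pre.step_mem hr i)]

lemma dg_shift (h : m.IsHalfPlane) (k : ℤ) {r : ℕ} (hr : r ∈ m.E) :
    (m.shift k).dg r = m.dg r := by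
  funext w
  rw [dg, dg, dart_shift h k hr]; rfl

lemma pos_shift (h : m.IsHalfPlane) (k : ℤ) {r : ℕ} (hr : r ∈ m.E) (a : ℕ → ℕ) (n : ℕ) :
    (m.shift k).pos r a n = m.pos r a n := by
  rw [pos, pos, run_shift h k hr]; rfl

/-! ### shift and isomorphisms -/

lemma RIso.shift {φ : ℕ → ℕ} {T T' : Finset ℕ} (I : RIso φ m m₂ g g₂ T T') (k k' : ℤ) :
    RIso φ (m.shift k) (m₂.shift k') (g.shift k) (g₂.shift k') T T' where
  n1 := ⟨I.n1.hp.shift k, I.n1.hp₂.shift k', I.n1.rev, I.n1.nxt, I.n1.org, I.n1.In, I.n1.tri⟩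
  n2 := ⟨I.n2.hp.shift k, I.n2.hp₂.shift k', I.n2.rev, I.n2.nxt, I.n2.org, I.n2.In, I.n2.tri⟩
  map := I.map
  surj := I.surj
  inj := I.inj
  nxt := I.nxt
  rev := I.rev
  bd _ := I.bd _
  bdφ _ := I.bdφ _
  bd₂ _ := I.bd₂ _
  bd₂φ _ := I.bd₂φ _
  org := I.org
  V d hd _ := I.V d hd _
  V₂ d hd _ := I.V₂ d hd _
  VV _ _ := I.VV _ _

end PMap

/-- moving the root -/
def HalfPlane.shift (k : ℤ) (h : HalfPlane) : HalfPlane := ⟨h.1.shift k, h.2.shift k⟩

lemma HalfPlane.shift_shift (k k' : ℤ) (h : HalfPlane) :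
    (h.shift k).shift k' = h.shift (k + k') := Subtype.ext (PMap.shift_shift k k')

lemma HalfPlane.shift_zero (h : HalfPlane) : h.shift 0 = h := Subtype.ext PMap.shift_zero

lemma preimage_shift_has (k l : ℤ) (a b n : ℕ) (Q : Disc) :
    HalfPlane.shift k ⁻¹' Has l a b n Q = Has (l + k) a b n Q := by
  ext h
  constructor
  · rintro ⟨m', hm⟩
    exact ⟨_, (PMap.shift_sub' k l a b n Q).1 hm⟩
  · rintro ⟨m', hm⟩
    exact ⟨_, (PMap.shift_sub k l a b n Q).2 hm⟩

lemma measurable_shift (k : ℤ) : Measurable (HalfPlane.shift k) := by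
  refine measurable_generateFrom ?_
  rintro _ ⟨l, a, b, n, Q, rfl⟩
  rw [preimage_shift_has]
  exact measurableSet_has _ _ _ _ _

section law

variable {α : ℝ} {P : Measure HalfPlane}

lemma IsHalfPlaneLaw.map_shift_one (hP : IsHalfPlaneLaw α P) :
    P.map (HalfPlane.shift 1) = P := by
  ext A hA
  rw [Measure.map_apply (measurable_shift 1) hA, ← hP.translation A hA]
  congr 1
  ext h
  constructor
  · intro hh; exact ⟨_, hh, rfl⟩
  · rintro ⟨h', hh, h1⟩
    have : h' = h.shift 1 := Subtype.ext h1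
    rw [this] at hh; exact hh

lemma IsHalfPlaneLaw.measurePreserving (hP : IsHalfPlaneLaw α P) (k : ℤ) :
    MeasurePreserving (HalfPlane.shift k) P P := by
  have h1 : P.map (HalfPlane.shift (-1)) = P := by
    conv_lhs => rw [← hP.map_shift_one]
    rw [Measure.map_map (measurable_shift _) (measurable_shift _)]
    have : (HalfPlane.shift (-1) ∘ HalfPlane.shift 1) = id := by
      funext h
      simp [Function.comp, HalfPlane.shift_shift, HalfPlane.shift_zero]
    rw [this, Measure.map_id]
  refine ⟨measurable_shift k, ?_⟩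
  have key : ∀ s : ℤ, P.map (HalfPlane.shift s) = P → ∀ n : ℕ,
      P.map (HalfPlane.shift (n * s)) = P := by
    intro s hs n
    induction n with
    | zero =>
      have : (HalfPlane.shift ((0 : ℕ) * s)) = id := by
        funext h; simp [HalfPlane.shift_zero]
      rw [this, Measure.map_id]
    | succ n ih =>
      have : HalfPlane.shift ((n + 1 : ℕ) * s) = HalfPlane.shift s ∘ HalfPlane.shift (n * s) := by
        funext h
        simp only [Function.comp, HalfPlane.shift_shift]
        congr 1; push_cast; ring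
      rw [this, ← Measure.map_map (measurable_shift _) (measurable_shift _), ih, hs]
  rcases le_total 0 k with hk | hk
  · have := key 1 hP.map_shift_one k.toNat
    rwa [mul_one, Int.toNat_of_nonneg hk] at this
  · have := key (-1) h1 (-k).toNat
    rwa [Int.toNat_of_nonneg (by omega), neg_mul_neg, mul_one] at this

end law

end Pool.Agent.Helper97.Speed
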