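import Pool.Agent.Helper97.Speed.RIso

/-! # Sub-maps with the same code are isomorphic -/

namespace Pool.Agent.Helper97.Speed

namespace PMap

variable {m m₁ m₂ g g₁ g₂ : PMap}

/-- two darts around the same vertex of a bounded region are related by turns inside -/
lemma Bd.chain (h : m.IsHalfPlane) {T : Finset ℕ} {x : ℕ} {c : List ℕ} (hB : m.Bd (T : Set ℕ) x c)
    {d e : ℕ} (hd : d ∈ m.X T) (he : e ∈ m.X T) (hde : m.org d = m.org e) :
    ∃ f, Relation.ReflTransGen (fun a b => a ∈ T ∧ b = m.rev (m.nxt (m.nxt a))) d f ∧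
      Relation.ReflTransGen (fun a b => a ∈ T ∧ b = m.rev (m.nxt (m.nxt a))) e f := by
  classical
  set w := m.org d with hw
  have hXE : ∀ {a}, a ∈ m.X T → a ∈ m.E := by
    rintro a (ha | ha)
    · exact Or.inl (hB.tri _ ha).1
    · exact Or.inr (hB.tri _ ha).1
  by_cases hc : ∃ a ∈ c, m.org (m.rev a) = w
  · obtain ⟨a, hac, haw⟩ := hc
    have haT := (hB.bdry a).2 hac
    have key : ∀ b ∈ m.X T, m.org b = w →
        Relation.ReflTransGen (fun a b => a ∈ T ∧ b = m.rev (m.nxt (m.nxt a))) b (m.rev a) := by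
      intro b hb hbw
      obtain ⟨n, hn⟩ := h.exists_rot (hXE hb) (h.pre.rev_mem_E_of_mem (hB.tri _ haT.1).1)
        (hbw.trans haw.symm)
      have hex : ∃ n, m.rot^[n] b ∉ T := ⟨n, by rw [hn]; exact haT.2⟩
      have hmin := Nat.find_spec hex
      have hlt := fun k (hk : k < Nat.find hex) => not_not.1 (Nat.find_min hex hk)
      set N := Nat.find hex with hN
      have hchain : ∀ k ≤ N, Relation.ReflTransGen
          (fun a b => a ∈ T ∧ b = m.rev (m.nxt (m.nxt a))) b (m.rot^[k] b) := by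
        intro k
        induction k with
        | zero => intro _; exact .refl
        | succ k ih =>
          intro hk
          refine (ih (by omega)).tail ⟨hlt k (by omega), ?_⟩
          rw [Function.iterate_succ_apply', rot_of_mem (hB.tri _ (hlt k (by omega))).1]
      have hf : m.rot^[N] b = m.rev a := by
        have hFN := h.pre.rot_iter_maps (x := w) (d := b) ⟨hXE hb, hbw⟩ N
        have h1 : m.rev (m.rot^[N] b) ∈ T := by
          rcases Nat.eq_zero_or_pos N with h0 | h0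
          · rw [h0] at hmin ⊢
            exact hb.resolve_left hmin
          · obtain ⟨k, hk⟩ : ∃ k, N = k + 1 := ⟨N - 1, by omega⟩
            have h2 := hlt k (by omega)
            rw [hk, Function.iterate_succ_apply', rot_of_mem (hB.tri _ h2).1, h.rev_rev]
            exact hB.tri.nxt_mem (hB.tri.nxt_mem h2)
        have h2 : m.rev (m.rot^[N] b) ∈ c :=
          (hB.bdry _).1 ⟨h1, by rw [h.rev_rev]; exact hmin⟩
        have h3 := hB.eq_of_target h2 hac (by rw [h.rev_rev, haw]; exact hFN.2)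
        rw [← h3, h.rev_rev]
      rw [← hf]
      exact hchain N le_rfl
    exact ⟨m.rev a, key d hd rfl, key e he hde.symm⟩
  · push Not at hc
    have hin : ∀ b ∈ m.X T, m.org b = w → b ∈ T := by
      intro b hb hbw
      by_contra h1
      have h2 : m.rev b ∈ T := hb.resolve_left h1
      have h3 : m.rev b ∈ c := (hB.bdry _).1 ⟨h2, by rw [h.rev_rev]; exact h1⟩
      exact hc _ h3 (by rw [h.rev_rev]; exact hbw)
    obtain ⟨n, hn⟩ := h.exists_rot (hXE hd) (hXE he) hde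
    refine ⟨e, ?_, .refl⟩
    rw [← hn]
    have key : ∀ k, m.rot^[k] d ∈ T ∧ Relation.ReflTransGen
        (fun a b => a ∈ T ∧ b = m.rev (m.nxt (m.nxt a))) d (m.rot^[k] d) := by
      intro k
      induction k with
      | zero => exact ⟨hin d hd rfl, .refl⟩
      | succ k ih =>
        have hFN := h.pre.rot_iter_maps (x := w) (d := d) ⟨hXE hd, rfl⟩ (k + 1)
        have h1 : m.rot^[k + 1] d = m.rev (m.nxt (m.nxt (m.rot^[k] d))) := by
          rw [Function.iterate_succ_apply', rot_of_mem (hB.tri _ ih.1).1]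
        refine ⟨hin _ ?_ hFN.2, ih.2.tail ⟨ih.1, h1⟩⟩
        right
        rw [h1, h.rev_rev]
        exact hB.tri.nxt_mem (hB.tri.nxt_mem ih.1)
    exact (key n).2

/-- a bijection between the darts of two sets of triangles. -/
structure Core (φ : ℕ → ℕ) (m g : PMap) (T T' : Finset ℕ) : Prop where
  map : ∀ d ∈ m.X T, φ d ∈ T' ↔ d ∈ T
  surj : ∀ e ∈ T', ∃ d ∈ T, φ d = e
  inj : ∀ d ∈ m.X T, ∀ e ∈ m.X T, φ d = φ e → d = e
  nxt : ∀ d ∈ T, φ (m.nxt d) = g.nxt (φ d)
  rev : ∀ d ∈ m.X T, φ (m.rev d) = g.rev (φ d)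

lemma Core.org {φ : ℕ → ℕ} {T T' : Finset ℕ} (C : Core φ m g T T') (h : m.IsHalfPlane)
    (h' : g.IsHalfPlane) (hT' : g.Tri (T' : Set ℕ)) {x : ℕ} {c : List ℕ}
    (hB : m.Bd (T : Set ℕ) x c) {d e : ℕ} (hd : d ∈ m.X T) (he : e ∈ m.X T)
    (hde : m.org d = m.org e) : g.org (φ d) = g.org (φ e) := by
  obtain ⟨f, h1, h2⟩ := hB.chain h hd he hde
  have key : ∀ {a f}, Relation.ReflTransGen (fun a b => a ∈ T ∧ b = m.rev (m.nxt (m.nxt a))) a f →
      g.org (φ f) = g.org (φ a) := by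
    intro a f haf
    induction haf with
    | refl => rfl
    | tail h1 h2 ih =>
      obtain ⟨h3, rfl⟩ := h2
      have h4 := hB.tri.nxt_mem h3
      have h5 := hB.tri.nxt_mem h4
      rw [C.rev _ (mem_X h5), C.nxt _ h4, C.nxt _ h3, h'.pre.org_rev_nxt2, ih]
      exact (hT' _ ((C.map _ (mem_X h3)).2 h3)).1
  rw [← key h1, ← key h2]

open Classical in
/-- inverse of a bijection -/
noncomputable def invOn (φ : ℕ → ℕ) (A : Set ℕ) (e : ℕ) : ℕ :=
  if h : ∃ d ∈ A, φ d = e then h.choose else 0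

lemma Core.invOn_eq {φ : ℕ → ℕ} {T T' : Finset ℕ} (C : Core φ m g T T') {d : ℕ}
    (hd : d ∈ m.X T) : invOn φ (m.X T) (φ d) = d := by
  have hex : ∃ d' ∈ m.X T, φ d' = φ d := ⟨d, hd, rfl⟩
  simp only [invOn, hex, dif_pos]
  exact C.inj _ hex.choose_spec.1 _ hd hex.choose_spec.2

lemma Core.symm {φ : ℕ → ℕ} {T T' : Finset ℕ} (C : Core φ m g T T') (h : m.IsHalfPlane)
    (h' : g.IsHalfPlane) (hT : m.Tri (T : Set ℕ)) : Core (invOn φ (m.X T)) g m T' T := by
  have hrX : ∀ {d}, d ∈ m.X T → m.rev d ∈ m.X T := by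
    rintro d (hd | hd)
    · right; rw [h.rev_rev]; exact hd
    · left; exact hd
  have hex : ∀ e ∈ g.X T', ∃ d ∈ m.X T, φ d = e := by
    rintro e (he | he)
    · obtain ⟨d, hd, rfl⟩ := C.surj e he
      exact ⟨d, mem_X hd, rfl⟩
    · obtain ⟨d, hd, hde⟩ := C.surj _ he
      refine ⟨m.rev d, hrX (mem_X hd), ?_⟩
      rw [C.rev d (mem_X hd), hde, h'.rev_rev]
  refine ⟨?_, ?_, ?_, ?_, ?_⟩
  · intro e he
    obtain ⟨d, hd, rfl⟩ := hex e he
    rw [C.invOn_eq hd]
    exact (C.map d hd).symm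
  · intro d hd
    exact ⟨φ d, (C.map d (mem_X hd)).2 hd, C.invOn_eq (mem_X hd)⟩
  · intro e he f hf hef
    obtain ⟨d, hd, rfl⟩ := hex e he
    obtain ⟨d', hd', rfl⟩ := hex f hf
    rw [C.invOn_eq hd, C.invOn_eq hd'] at hef
    rw [hef]
  · intro e he
    obtain ⟨d, hd, rfl⟩ := C.surj e he
    rw [← C.nxt d hd, C.invOn_eq (mem_X hd), C.invOn_eq (mem_X (hT.nxt_mem hd))]
  · intro e he
    obtain ⟨d, hd, rfl⟩ := hex e he
    rw [← C.rev d hd, C.invOn_eq hd, C.invOn_eq (hrX hd)]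

open Classical in
/-- the bijection associated with the matching of darts -/
noncomputable def mtφ (m g : PMap) (Q : Disc) (d d' : ℕ) (a : ℕ) : ℕ :=
  if h : ∃ b, Mt m g Q d d' a b then h.choose
  else if h : ∃ b, Mt m g Q d d' (m.rev a) b then g.rev h.choose else 0

lemma mt_core (h : m.IsHalfPlane) (h' : g.IsHalfPlane) {Q : Disc} {T T' : Finset ℕ}
    {x x' : ℕ} {c c' : List ℕ} {d d' : ℕ} {t t' : List ℕ} (hF : m.Fl Q (T : Set ℕ) x c)
    (hF' : g.Fl Q (T' : Set ℕ) x' c') (hc : c = d :: t) (hc' : c' = d' :: t') :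
    Core (mtφ m g Q d d') m g T T' ∧
      ∀ q ∈ c.zip c', q.1 ∈ T → mtφ m g Q d d' q.1 = q.2 := by
  have M := mtSpec h h' hF hF' hc hc'
  have M' := mtSpec h' h hF' hF hc' hc
  set φ := mtφ m g Q d d' with hφ
  have K1 : ∀ a ∈ T, Mt m g Q d d' a (φ a) := by
    intro a ha
    have hex := M.tot a ha
    simp only [hφ, mtφ, hex, dif_pos]
    exact hex.choose_spec
  have K1' : ∀ a b, Mt m g Q d d' a b → φ a = b := fun a b hab =>
    M.func _ _ _ (K1 a (M.dom a b hab)) hab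
  have K2 : ∀ a, a ∉ T → m.rev a ∈ T → φ a = g.rev (φ (m.rev a)) := by
    intro a ha ha'
    have hex0 : ¬ ∃ b, Mt m g Q d d' a b := by
      rintro ⟨b, hb⟩; exact ha (M.dom a b hb)
    have hex := M.tot _ ha'
    have h1 : φ a = g.rev hex.choose := by
      simp only [hφ, mtφ, hex0, hex, dif_pos, dif_neg, not_false_iff]
    rw [h1, K1' _ _ hex.choose_spec]
  have hrev : ∀ a ∈ m.X T, φ (m.rev a) = g.rev (φ a) := by
    intro a ha
    by_cases h1 : a ∈ T
    · by_cases h2 : m.rev a ∈ T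
      · exact K1' _ _ (M.rev _ _ (K1 a h1) h2)
      · rw [K2 (m.rev a) h2 (by rw [h.rev_rev]; exact h1), h.rev_rev]
    · have h2 : m.rev a ∈ T := ha.resolve_left h1
      rw [K2 a h1 h2, h'.rev_rev]
  have hmapT : ∀ a ∈ T, φ a ∈ T' := fun a ha => M'.dom _ _ (Mt_symm.1 (K1 a ha))
  have hmap : ∀ a ∈ m.X T, φ a ∈ T' ↔ a ∈ T := by
    intro a ha
    refine ⟨fun h1 => ?_, hmapT a⟩
    by_contra h2
    have h3 : m.rev a ∈ T := ha.resolve_left h2
    have h4 := K1 _ h3
    have h5 : g.rev (φ (m.rev a)) ∈ T' := by rw [← K2 a h2 h3]; exact h1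
    have h6 := M'.rev _ _ (Mt_symm.1 h4) h5
    rw [h.rev_rev] at h6
    exact h2 (M.dom _ _ (Mt_symm.1 h6))
  have hinjT : ∀ a ∈ T, ∀ b ∈ T, φ a = φ b → a = b := by
    intro a ha b hb hab
    have h1 := Mt_symm.1 (K1 a ha)
    have h2 := Mt_symm.1 (K1 b hb)
    rw [hab] at h1
    exact M'.func _ _ _ h1 h2
  have htri : m.Tri (T : Set ℕ) := by
    rcases hF.fb with ⟨e, -, -, -, h1⟩ | hB
    · rw [h1]; intro a ha; exact absurd ha (by simp)
    · exact hB.tri
  refine ⟨⟨hmap, ?_, ?_, ?_, hrev⟩, ?_⟩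
  · intro e he
    obtain ⟨a, ha⟩ := M'.tot e he
    have ha' := Mt_symm.1 ha
    exact ⟨a, M.dom _ _ ha', K1' _ _ ha'⟩
  · intro a ha b hb hab
    by_cases h1 : a ∈ T
    · have h2 : b ∈ T := (hmap b hb).1 (hab ▸ (hmap a ha).2 h1)
      exact hinjT a h1 b h2 hab
    · have h2 : b ∉ T := fun h3 => h1 ((hmap a ha).1 (hab ▸ (hmap b hb).2 h3))
      have h3 : m.rev a ∈ T := ha.resolve_left h1
      have h4 : m.rev b ∈ T := hb.resolve_left h2
      refine h.pre.rev_inj (hinjT _ h3 _ h4 ?_)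
      rw [hrev a ha, hrev b hb, hab]
  · intro a ha
    exact K1' _ _ (M.nxt _ _ (K1 a ha))
  · intro q hq hqT
    exact K1' _ _ (M.zip q hq hqT)

/-! ### sub-maps -/

/-- the rotated boundary of a region -/
lemma rotate_cyc_eq (m : PMap) (l : ℤ) (a b : ℕ) (p : List ℕ) :
    ∃ t, (m.cyc (l - a) (a + 1 + b) p).rotate a = m.bd l :: t ∧
      ∃ c₁ c₂, m.cyc (l - a) (a + 1 + b) p = c₁ ++ m.bd l :: c₂ ∧
        m.bd l :: t = (m.bd l :: c₂) ++ c₁ := by
  have hlen : a < (m.cyc (l - a) (a + 1 + b) p).length := by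
    simp only [cyc, List.length_append, List.length_map, List.length_range]; omega
  have hget : (m.cyc (l - a) (a + 1 + b) p)[a] = m.bd l := by
    simp only [cyc]
    rw [List.getElem_append_left (by simp; omega)]
    simp
  have h1 : (m.cyc (l - a) (a + 1 + b) p).rotate a =
      (m.cyc (l - a) (a + 1 + b) p).drop a ++ (m.cyc (l - a) (a + 1 + b) p).take a :=
    List.rotate_eq_drop_append_take hlen.le
  have h2 : (m.cyc (l - a) (a + 1 + b) p).drop a =
      m.bd l :: (m.cyc (l - a) (a + 1 + b) p).drop (a + 1) := by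
    rw [List.drop_eq_getElem_cons hlen, hget]
  refine ⟨(m.cyc (l - a) (a + 1 + b) p).drop (a + 1) ++ (m.cyc (l - a) (a + 1 + b) p).take a,
    by rw [h1, h2]; rfl, (m.cyc (l - a) (a + 1 + b) p).take a,
    (m.cyc (l - a) (a + 1 + b) p).drop (a + 1), ?_, rfl⟩
  rw [← h2]
  exact (List.take_append_drop _ _).symm

lemma Sub.reg (h : m.IsHalfPlane) {l : ℤ} {a b n : ℕ} {Q : Disc} (hS : m.Sub l a b n Q m₂) :
    ∃ T, Reg m m₂ (l - a) (a + 1 + b) n T ∧ (T = ∅ ↔ Q = .edge) ∧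
      (T ≠ ∅ → m.Fl Q (T : Set ℕ) (m.V l)
        ((m.cyc (l - a) (a + 1 + b) (Reg.pth m₂ (l - a) n)).rotate a)) := by
  obtain ⟨p, T, ch, hn, hF, rfl⟩ := hS
  have R := ch.reg h
  rw [hn] at R
  have hpth : Reg.pth (m.cut (l - a) (a + 1 + b) p T) (l - a) n = p := by
    rw [← hn]; exact ch.pth_eq
  obtain ⟨t, ht, c₁, c₂, hc, hcc⟩ := rotate_cyc_eq m l a b p
  refine ⟨T, R, ?_, ?_⟩
  · constructor
    · intro hT
      have h1 : Trivial m (l - a) (a + 1 + b) p := by
        by_contra hnt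
        have := ch.base_mem h hnt (i := l) (by omega) (by omega)
        rw [hT] at this
        simp at this
      obtain ⟨h2, h3⟩ := h1
      obtain rfl : a = 0 := by omega
      obtain rfl : b = 0 := by omega
      rw [h3] at hF
      have : m.cyc (l - (0 : ℕ)) (0 + 1 + 0) [m.bd (l - (0 : ℕ))] =
          [m.bd l, m.rev (m.bd l)] := by simp [cyc]
      rw [this, List.rotate_zero] at hF
      exact h.fills_deg hF
    · rintro rfl
      by_contra hT
      have hnt : ¬ Trivial m (l - a) (a + 1 + b) p := fun h1 => hT (ch.eq_empty h h1)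
      have hB := ch.toBd h hnt
      rw [hc] at hB
      have hB' := hB.rotate
      rw [← hcc, ← ht] at hB'
      exact hB'.ne_edge h.pre hF rfl
  · intro hT
    rw [hpth]
    have hnt : ¬ Trivial m (l - a) (a + 1 + b) p := fun h1 => hT (ch.eq_empty h h1)
    have hB := ch.toBd h hnt
    rw [hc] at hB
    have hB' := hB.rotate
    rw [← hcc, ← ht] at hB'
    exact ⟨Or.inr hB', hF⟩

/-- Every region has a code, with any root in its base. -/
lemma Reg.exists_sub {j : ℤ} {b n : ℕ} {T : Finset ℕ} (R : Reg m m₂ j b n T) (a : ℕ)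
    (ha : a < b) : ∃ Q : Disc, m.Sub (j + a) a (b - 1 - a) n Q m₂ ∧ Q.WF ∧ Q.per = b + n ∧
      3 * Q.faces = T.card := by
  have e1 : j + (a : ℤ) - a = j := by ring
  have e2 : a + 1 + (b - 1 - a) = b := by omega
  by_cases hT : T = ∅
  · subst hT
    obtain ⟨rfl, rfl, rfl⟩ := R.eq_of_empty
    obtain rfl : a = 0 := by omega
    refine ⟨.edge, ?_, trivial, rfl, by simp [Disc.faces]⟩
    refine ⟨Reg.pth m₂ j 1, ∅, ?_, by simp, ?_, ?_⟩
    · rw [e1]; exact R.chord
    · rw [e1, List.rotate_zero]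
      exact ⟨m₂.bd j, by simp [cyc, Reg.pth]⟩
    · rw [e1]; exact R.eq_cut
  · have hB := R.chord.toBd R.hp (R.nontrivial hT)
    obtain ⟨t, ht, c₁, c₂, hc, hcc⟩ := rotate_cyc_eq m (j + a) a (b - 1 - a) (Reg.pth m₂ j n)
    rw [e1, e2] at ht hc
    rw [hc] at hB
    have hB' := hB.rotate
    rw [← hcc] at hB'
    obtain ⟨Q, hQ, hW, hp, hf⟩ := hB'.exists_code R.hp _ le_rfl
    have hlen : (m.bd (j + a) :: t).length = b + n := by
      rw [← ht, List.length_rotate]; simp [cyc]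
    refine ⟨Q, ⟨Reg.pth m₂ j n, T, ?_, by simp, ?_, ?_⟩, hW, by rw [hp, hlen], ?_⟩
    · rw [e1, e2]; exact R.chord
    · rw [e1, e2, ht]; exact hQ
    · rw [e1, e2]; exact R.eq_cut
    · rw [hf, Set.ncard_coe_finset]

lemma RIso.triv (φ : ℕ → ℕ) (h : m.IsHalfPlane) (h' : g.IsHalfPlane) : RIso φ m m g g ∅ ∅ := by
  have hX0 : ∀ {m : PMap} {d : ℕ}, d ∉ m.X ∅ := by intro m d hd; simp [X] at hd
  refine ⟨Nest.refl h, Nest.refl h', fun d hd => absurd hd hX0,
    fun d hd => absurd hd (by simp), fun d hd => absurd hd hX0, fun d hd => absurd hd (by simp),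
    fun d hd => absurd hd hX0, fun i => by simp, fun i hi => absurd hi (by simp),
    fun i => ⟨fun h => absurd h hX0, fun h => absurd h hX0⟩, fun i hi => absurd hi hX0,
    fun d hd => absurd hd hX0, fun d hd => absurd hd hX0, fun d hd => absurd hd hX0, ?_⟩
  intro i k
  constructor
  · intro h1; rw [h.pre.V_inj h1]
  · intro h1; rw [h'.pre.V_inj h1]

/-- **Sub-maps with the same code are isomorphic.** -/
theorem Sub.exists_iso (h : m.IsHalfPlane) (h' : g.IsHalfPlane) {l : ℤ} {a b n : ℕ} {Q : Disc}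
    (hS : m.Sub l a b n Q m₂) (hS' : g.Sub l a b n Q g₂) :
    ∃ φ T T', RIso φ m m₂ g g₂ T T' ∧ Reg m m₂ (l - a) (a + 1 + b) n T ∧
      Reg g g₂ (l - a) (a + 1 + b) n T' := by
  classical
  obtain ⟨T, R, hTQ, hFl⟩ := hS.reg h
  obtain ⟨T', R', hTQ', hFl'⟩ := hS'.reg h'
  by_cases hQ : Q = .edge
  · obtain rfl := hTQ.2 hQ
    obtain rfl := hTQ'.2 hQ
    refine ⟨id, ∅, ∅, ?_, R, R'⟩
    rw [R.eq_of_empty.1, R'.eq_of_empty.1]
    exact RIso.triv id h h'
  have hT : T ≠ ∅ := fun h1 => hQ (hTQ.1 h1)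
  have hT' : T' ≠ ∅ := fun h1 => hQ (hTQ'.1 h1)
  have hF := hFl hT
  have hF' := hFl' hT'
  set j := l - (a : ℤ) with hj
  set B := a + 1 + b with hBdef
  obtain ⟨t, ht, -⟩ := rotate_cyc_eq m l a b (Reg.pth m₂ j n)
  obtain ⟨t', ht', -⟩ := rotate_cyc_eq g l a b (Reg.pth g₂ j n)
  obtain ⟨C, hz⟩ := mt_core h h' hF hF' ht ht'
  set φ := mtφ m g Q (m.bd l) (g.bd l) with hφ
  -- zip membership
  have hlen : (m.cyc j B (Reg.pth m₂ j n)).length = (g.cyc j B (Reg.pth g₂ j n)).length := by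
    simp [cyc]
  have hzip : ∀ q, q ∈ (m.cyc j B (Reg.pth m₂ j n)).zip (g.cyc j B (Reg.pth g₂ j n)) →
      q.1 ∈ T → φ q.1 = q.2 := by
    intro q hq hqT
    refine hz q ?_ hqT
    have h1 := List.zipWith_rotate_distrib (Prod.mk) (m.cyc j B (Reg.pth m₂ j n))
      (g.cyc j B (Reg.pth g₂ j n)) a hlen
    have h2 : ((m.cyc j B (Reg.pth m₂ j n)).rotate a).zip ((g.cyc j B (Reg.pth g₂ j n)).rotate a) =
        ((m.cyc j B (Reg.pth m₂ j n)).zip (g.cyc j B (Reg.pth g₂ j n))).rotate a := by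
      show List.zipWith Prod.mk _ _ = (List.zipWith Prod.mk _ _).rotate a
      exact h1.symm
    rw [h2, List.mem_rotate]
    exact hq
  have hcz : (m.cyc j B (Reg.pth m₂ j n)).zip (g.cyc j B (Reg.pth g₂ j n)) =
      (List.range B).map (fun i : ℕ => (m.bd (j + i), g.bd (j + i))) ++
      (List.range n).reverse.map (fun s : ℕ => (m.rev (m₂.bd (j + s)), g.rev (g₂.bd (j + s)))) := by
    simp only [cyc, Reg.pth, ← List.map_reverse, List.map_map]
    rw [List.zip_append (by simp), List.zip_map', List.zip_map']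
    rfl
  have hbase : ∀ i, m.bd i ∈ T → φ (m.bd i) = g.bd i := by
    intro i hi
    obtain ⟨h1, h2⟩ := (R.bd_mem_iff hT).1 hi
    refine hzip (m.bd i, g.bd i) ?_ hi
    rw [hcz, List.mem_append]
    left
    rw [List.mem_map]
    exact ⟨(i - j).toNat, by rw [List.mem_range]; omega,
      by rw [show j + ((i - j).toNat : ℤ) = i by omega]⟩
  have hpath : ∀ i, m₂.bd i ∈ m.X T → φ (m₂.bd i) = g₂.bd i := by
    intro i hi
    obtain ⟨h1, h2⟩ := (R.bd₂_mem_X_iff hT).1 hi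
    have h3 := (R.rev_bd₂_mem_iff hT).2 ⟨h1, h2⟩
    have h4 : φ (m.rev (m₂.bd i)) = g.rev (g₂.bd i) := by
      refine hzip (m.rev (m₂.bd i), g.rev (g₂.bd i)) ?_ h3
      rw [hcz, List.mem_append]
      right
      rw [List.mem_map]
      exact ⟨(i - j).toNat, by rw [List.mem_reverse, List.mem_range]; omega,
        by rw [show j + ((i - j).toNat : ℤ) = i by omega]⟩
    rw [C.rev _ hi] at h4
    exact h'.pre.rev_inj h4
  have hB := R.chord.toBd h (R.nontrivial hT)
  have hB' := R'.chord.toBd h' (R'.nontrivial hT')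
  have C' := C.symm h h' R.tri
  have hmapX : ∀ {d}, d ∈ m.X T → φ d ∈ g.X T' := by
    rintro d (hd | hd)
    · exact Or.inl ((C.map d (mem_X hd)).2 hd)
    · right
      rw [← C.rev d (Or.inr hd)]
      exact (C.map _ (mem_X hd)).2 hd
  have horg : ∀ d ∈ m.X T, ∀ e ∈ m.X T, m.org d = m.org e ↔ g.org (φ d) = g.org (φ e) := by
    intro d hd e he
    refine ⟨C.org h h' R'.tri hB hd he, fun h1 => ?_⟩
    have h2 := C'.org h' h R.tri hB' (hmapX hd) (hmapX he) h1
    rwa [C.invOn_eq hd, C.invOn_eq he] at h2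
  have hXrev : ∀ {d}, d ∈ m.X T → m.rev d ∈ m.X T := fun hd => R.nest.X_rev hd
  have hB1 := R.posb
  -- vertices of the base
  have hVbase : ∀ i, j ≤ i → i ≤ j + B → ∃ e ∈ m.X T, m.org e = m.V i ∧ g.org (φ e) = g.V i := by
    intro i h1 h2
    rcases lt_or_ge i (j + B) with h3 | h3
    · have h4 := (R.bd_mem_iff hT).2 ⟨h1, h3⟩
      exact ⟨m.bd i, mem_X h4, rfl, by rw [hbase i h4]; rfl⟩
    · have h5 : i = j + B := by omega
      have h4 := (R.bd_mem_iff hT (i := i - 1)).2 ⟨by omega, by omega⟩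
      refine ⟨m.rev (m.bd (i - 1)), hXrev (mem_X h4), ?_, ?_⟩
      · rw [h.org_rev_bd, sub_add_cancel]; rfl
      · rw [C.rev _ (mem_X h4), hbase _ h4, h'.org_rev_bd, sub_add_cancel]; rfl
  have hV : ∀ d ∈ m.X T, ∀ i, m.org d = m.V i ↔ g.org (φ d) = g.V i := by
    intro d hd i
    constructor
    · intro h1
      obtain ⟨h2, h3⟩ := R.V_range hT hd h1
      obtain ⟨e, he, he1, he2⟩ := hVbase i h2 h3
      rw [← he2]
      exact (horg d hd e he).1 (h1.trans he1.symm)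
    · intro h1
      obtain ⟨h2, h3⟩ := R'.V_range hT' (hmapX hd) h1
      obtain ⟨e, he, he1, he2⟩ := hVbase i h2 h3
      rw [← he1]
      exact (horg d hd e he).2 (h1.trans he2.symm)
  refine ⟨φ, T, T', ⟨R.nest, R'.nest, C.map, C.surj, C.inj, C.nxt, C.rev, ?_, hbase, ?_, hpath,
    horg, hV, ?_, ?_⟩, R, R'⟩
  · intro i; rw [R.bd_mem_iff hT, R'.bd_mem_iff hT']
  · intro i; rw [R.bd₂_mem_X_iff hT, R'.bd₂_mem_X_iff hT']
  · intro d hd i
    rcases le_or_gt i j with h1 | h1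
    · rw [R.V_le h1, R'.V_le h1]; exact hV d hd i
    · rcases lt_or_ge i (j + n) with h2 | h2
      · have h3 := (R.bd₂_mem_X_iff hT (i := i)).2 ⟨h1.le, h2⟩
        have h4 := horg d hd (m₂.bd i) h3
        rw [hpath i h3] at h4
        have e1 : m₂.V i = m.org (m₂.bd i) := by rw [PMap.V, R.org]
        have e2 : g₂.V i = g.org (g₂.bd i) := by rw [PMap.V, R'.org]
        rw [e1, e2]; exact h4
      · rw [R.V_ge h2, R'.V_ge h2]; exact hV d hd _
  · intro i k
    rcases le_or_gt k j with h1 | h1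
    · rw [R.V_le h1, R'.V_le h1]
      constructor
      · intro h2; rw [h.pre.V_inj h2]
      · intro h2; rw [h'.pre.V_inj h2]
    · rcases lt_or_ge k (j + n) with h2 | h2
      · have h3 := R.inner k h1 h2 i
        have h4 := R'.inner k h1 h2 i
        exact ⟨fun h => absurd h.symm h3, fun h => absurd h.symm h4⟩
      · rw [R.V_ge h2, R'.V_ge h2]
        constructor
        · intro h3; rw [h.pre.V_inj h3]
        · intro h3; rw [h'.pre.V_inj h3]

end PMap

end Pool.Agent.Helper97.Speed
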