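import Pool.Agent.Helper97.Speed.SubIso

/-! # Transfer of peeling and exploration along isomorphisms of regions -/

namespace Pool.Agent.Helper97.Speed

namespace PMap

variable {m m₁ m₂ g g₁ g₂ g₁' : PMap}

lemma Nest.of_subset {T S : Finset ℕ} (N : Nest m m₂ T) (N' : Nest m m₁ S)
    (hsub : m₂.In ⊆ m₁.In) : S ⊆ T ∧ Nest m₁ m₂ (T \ S) := by
  have hST : S ⊆ T := by
    intro d hd
    by_contra h1
    have h2 : d ∈ m₂.In := by rw [N.In]; exact ⟨(N'.tri d hd).1, h1⟩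
    have h3 := hsub h2
    rw [N'.In] at h3
    exact h3.2 hd
  refine ⟨hST, N'.hp₂, N.hp₂, by rw [N.rev, N'.rev], by rw [N.nxt, N'.nxt], by rw [N.org, N'.org],
    ?_, ?_⟩
  · rw [N.In, N'.In]
    ext d
    simp only [Set.mem_sdiff, Finset.coe_sdiff]
    constructor
    · rintro ⟨h1, h2⟩
      exact ⟨⟨h1, fun h3 => h2 (hST h3)⟩, fun h3 => h2 h3.1⟩
    · rintro ⟨⟨h1, h2⟩, h3⟩
      exact ⟨h1, fun h4 => h3 ⟨h4, h2⟩⟩
  · intro d hd
    rw [Finset.coe_sdiff] at hd ⊢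
    have h1 := (N.tri.diff N.hp.pre N'.tri) d hd
    refine ⟨?_, ?_⟩
    · rw [N'.In]; exact ⟨h1.1, hd.2⟩
    · rw [N'.nxt]; exact h1.2

lemma Nest.subset {T : Finset ℕ} (N : Nest m m₂ T) : m₂.In ⊆ m.In := by
  rw [N.In]; exact fun d hd => hd.1

/-- A half-planar triangulation is determined by its triangles and one boundary dart. -/
lemma ext_of_bd (h : m.IsHalfPlane) (h₁ : m₁.IsHalfPlane) (h1 : m.rev = m₁.rev)
    (h2 : m.nxt = m₁.nxt) (h3 : m.org = m₁.org) (h4 : m.In = m₁.In) {i : ℤ}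
    (hi : m.bd i = m₁.bd i) : m = m₁ := by
  have key : ∀ k, ∃ k', m.bd k' = m₁.bd k := by
    intro k
    refine h.bd_surj _ (by rw [h4]; exact h₁.bd_mem k) ?_
    rw [h1, h4]; exact h₁.rev_bd k
  have up : ∀ k, m.bd k = m₁.bd k → m.bd (k + 1) = m₁.bd (k + 1) := by
    intro k hk
    obtain ⟨k', hk'⟩ := key (k + 1)
    have e1 : m.org (m.bd k') = m.org (m.bd (k + 1)) := by
      rw [hk', ← h.org_rev_bd, hk, h3, ← h₁.org_rev_bd, h1]
    rw [← hk', h.bd_simple _ _ e1]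
  have down : ∀ k, m.bd (k + 1) = m₁.bd (k + 1) → m.bd k = m₁.bd k := by
    intro k hk
    obtain ⟨k', hk'⟩ := key k
    have e1 : m.org (m.bd (k' + 1)) = m.org (m.bd (k + 1)) := by
      rw [← h.org_rev_bd, hk', h3, h1, h₁.org_rev_bd, hk]
    have e2 := h.bd_simple _ _ e1
    rw [← hk', show k' = k by omega]
  refine ext_of h1 h2 h3 h4 ?_
  intro k
  have hn : ∀ n : ℕ, m.bd (i + n) = m₁.bd (i + n) ∧ m.bd (i - n) = m₁.bd (i - n) := by
    intro n
    induction n with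
    | zero => simpa using hi
    | succ n ih =>
      constructor
      · have := up _ ih.1
        push_cast
        rwa [← add_assoc]
      · have := down (i - (n + 1)) (by rw [show i - ((n:ℤ) + 1) + 1 = i - n by ring]; exact ih.2)
        push_cast
        exact this
  rcases le_total i k with h5 | h5
  · have := (hn (k - i).toNat).1
    rwa [Int.toNat_of_nonneg (by omega), show i + (k - i) = k by ring] at this
  · have := (hn (i - k).toNat).2
    rwa [Int.toNat_of_nonneg (by omega), show i - (i - k) = k by ring] at this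

/-- the boundaries agree far to the left -/
def Far (m m' : PMap) : Prop := ∃ j, ∀ i < j, m'.bd i = m.bd i

lemma Far.refl (m : PMap) : Far m m := ⟨0, fun _ _ => rfl⟩

lemma Far.trans (h : Far m m₁) (h' : Far m₁ m₂) : Far m m₂ := by
  obtain ⟨j, hj⟩ := h
  obtain ⟨j', hj'⟩ := h'
  exact ⟨min j j', fun i hi => by rw [hj' i (by omega), hj i (by omega)]⟩

lemma Far.common (h : Far m m₁) (h' : Far m m₂) : ∃ i, m₁.bd i = m₂.bd i := by
  obtain ⟨j, hj⟩ := h
  obtain ⟨j', hj'⟩ := h'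
  exact ⟨min j j' - 1, by rw [hj _ (by omega), hj' _ (by omega)]⟩

lemma Reg.far {j : ℤ} {b n : ℕ} {T : Finset ℕ} (R : Reg m m₂ j b n T) : Far m m₂ := ⟨j, R.lt⟩

lemma RIso.image_eq {φ : ℕ → ℕ} {T T' : Finset ℕ} (I : RIso φ m m₂ g g₂ T T') :
    T' = T.image φ := by
  classical
  ext e
  rw [Finset.mem_image]
  constructor
  · intro he; obtain ⟨d, hd, rfl⟩ := I.surj e he; exact ⟨d, hd, rfl⟩
  · rintro ⟨d, hd, rfl⟩; exact (I.map d (mem_X hd)).2 hd

lemma Nest.In_eq {T : Finset ℕ} (N : Nest m m₂ T) : m.In = m₂.In ∪ (T : Set ℕ) := by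
  rw [N.In, Set.sdiff_union_of_subset]
  exact fun d hd => (N.tri d hd).1

lemma RIso.eq_of {φ : ℕ → ℕ} {A B B' : Finset ℕ} (I : RIso φ m₁ m₂ g₁ g₂ A B)
    (I' : RIso φ m₁ m₂ g₁' g₂ A B') {i : ℤ} (hi : g₁.bd i = g₁'.bd i) : g₁ = g₁' := by
  have hB : B = B' := by rw [I.image_eq, I'.image_eq]
  subst hB
  refine ext_of_bd I.n2.hp I'.n2.hp ?_ ?_ ?_ ?_ hi
  · rw [← I.n2.rev, I'.n2.rev]
  · rw [← I.n2.nxt, I'.n2.nxt]
  · rw [← I.n2.org, I'.n2.org]
  · rw [I.n2.In_eq, I'.n2.In_eq]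

/-! ### peeling -/

lemma peel_eq_of {l j : ℤ} {b n : ℕ} {S : Finset ℕ} (R : Reg g g₁ j b n S)
    (hd : g.peelData l = (j, b, Reg.pth g₁ j n)) : g.peel l = g₁ := by
  rw [peel, hd]
  simp only
  rw [R.chord.chS_eq R.hp]
  exact R.eq_cut.symm

theorem peel_transfer {φ : ℕ → ℕ} {T T' : Finset ℕ} (I : RIso φ m m₂ g g₂ T T') {l j : ℤ}
    {b n : ℕ} {S : Finset ℕ} (P : PeelSpec m l (m.peel l) j b n S)
    (hsub : m₂.In ⊆ (m.peel l).In) : PeelSpec g l (g.peel l) j b n (S.image φ) ∧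
      RIso φ m (m.peel l) g (g.peel l) S (S.image φ) ∧
      RIso φ (m.peel l) m₂ (g.peel l) g₂ (T \ S) (T' \ S.image φ) := by
  classical
  have hp := P.reg.hp.pre
  have hg := I.n2.hp.pre
  obtain ⟨hST, N⟩ := I.n1.of_subset P.reg.nest hsub
  obtain ⟨g₁, RG, I1, I2⟩ := I.restrict P.reg hST N
  have hblT : m.bd l ∈ T := hST P.mem
  have hφ0 : φ (m.bd l) = g.bd l := I.bdφ l hblT
  have hn1 : m.nxt (m.bd l) ∈ T := I.n1.tri.nxt_mem hblT
  have hn2 : m.nxt (m.nxt (m.bd l)) ∈ T := I.n1.tri.nxt_mem hn1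
  have hφ1 : φ (m.nxt (m.bd l)) = g.nxt (g.bd l) := by rw [I.nxt _ hblT, hφ0]
  have hφ2 : φ (m.nxt (m.nxt (m.bd l))) = g.nxt (g.nxt (g.bd l)) := by rw [I.nxt _ hn1, hφ1]
  have hr1 : φ (m.rev (m.nxt (m.bd l))) = g.rev (g.nxt (g.bd l)) := by
    rw [I.rev _ (mem_X hn1), hφ1]
  have hr2 : φ (m.rev (m.nxt (m.nxt (m.bd l)))) = g.rev (g.nxt (g.nxt (g.bd l))) := by
    rw [I.rev _ (mem_X hn2), hφ2]
  have hthd : ∀ i, m.V i = m.thd l ↔ g.V i = g.thd l := by
    intro i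
    have := I.V _ (mem_X hn2) i
    rw [hφ2] at this
    constructor
    · intro h; exact (this.1 h.symm).symm
    · intro h; exact (this.2 h.symm).symm
  have hXS : ∀ i, j ≤ i → i < j + n → (m.peel l).bd i ∈ m.X S := fun i h1 h2 =>
    (P.reg.bd₂_mem_X_iff (by rintro rfl; exact absurd P.mem (by simp))).2 ⟨h1, h2⟩
  have hmem : g.bd l ∈ S.image φ := by
    rw [← hφ0]; exact Finset.mem_image.2 ⟨_, P.mem, rfl⟩
  have hn := P.reg.posn
  -- cases
  have hcases : (j = l ∧ b = 1 ∧ n = 2 ∧ (∀ i, g.V i ≠ g.thd l) ∧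
      g₁.bd l = g.rev (g.nxt (g.nxt (g.bd l))) ∧ g₁.bd (l + 1) = g.rev (g.nxt (g.bd l))) ∨
    (j = l ∧ 2 ≤ b ∧ n = 1 ∧ g.V (l + b) = g.thd l ∧
      g₁.bd l = g.rev (g.nxt (g.nxt (g.bd l)))) ∨
    (j < l ∧ j + b = l + 1 ∧ n = 1 ∧ g.V j = g.thd l ∧ g₁.bd j = g.rev (g.nxt (g.bd l))) := by
    rcases P.cases with ⟨rfl, rfl, rfl, h4, h5, h6⟩ | ⟨rfl, h2, rfl, h4, h5⟩ |
      ⟨h1, h2, rfl, h4, h5⟩
    · left
      refine ⟨rfl, rfl, rfl, fun i hi => h4 i ((hthd i).2 hi), ?_, ?_⟩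
      · rw [← I1.bd₂φ j (hXS j le_rfl (by omega)), h5, hr2]
      · rw [← I1.bd₂φ (j + 1) (hXS _ (by omega) (by omega)), h6, hr1]
    · right; left
      refine ⟨rfl, h2, rfl, (hthd _).1 h4, ?_⟩
      rw [← I1.bd₂φ j (hXS j le_rfl (by omega)), h5, hr2]
    · right; right
      refine ⟨h1, h2, rfl, (hthd _).1 h4, ?_⟩
      rw [← I1.bd₂φ j (hXS j le_rfl (by omega)), h5, hr1]
  have hpeel : g.peel l = g₁ := by
    refine peel_eq_of RG ?_
    rcases hcases with ⟨rfl, rfl, rfl, h4, h5, h6⟩ | ⟨rfl, h2, rfl, h4, h5⟩ |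
      ⟨h1, h2, rfl, h4, h5⟩
    · rw [peelData_inner h4]
      have : Reg.pth g₁ j 2 = [g₁.bd j, g₁.bd (j + 1)] := by
        simp [Reg.pth, List.range_succ]
      rw [this, h5, h6]
    · rw [peelData_right hg h4 (by omega)]
      have : Reg.pth g₁ j 1 = [g₁.bd j] := by simp [Reg.pth]
      rw [this, h5, show (j + b - j).toNat = b by omega]
    · rw [peelData_left hg h4 h1]
      have : Reg.pth g₁ j 1 = [g₁.bd j] := by simp [Reg.pth]
      rw [this, h5, show (l + 1 - j).toNat = b by omega]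
  rw [hpeel]
  exact ⟨⟨RG, P.le, P.lt, hmem, hcases⟩, I1, I2⟩

/-! ### exploration -/

lemma exploreN_stable {l : ℤ} : ∀ (k k' : ℕ) {m : PMap}, m.IsHalfPlane →
    m.tcount (m.V l) ≤ k → m.tcount (m.V l) ≤ k' → exploreN l k m = exploreN l k' m := by
  intro k
  induction k with
  | zero =>
    intro k' m h hk hk'
    have := h.pre.tcount_pos l
    omega
  | succ k ih =>
    intro k' m h hk hk'
    have h0 := h.pre.tcount_pos l
    obtain ⟨k', rfl⟩ : ∃ k'', k' = k'' + 1 := ⟨k' - 1, by omega⟩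
    obtain ⟨j, b, n, S, P⟩ := peel_spec h l
    by_cases hV : (m.peel l).V l = m.V l
    · simp only [exploreN, hV, if_true]
      have h1 := P.tcount_lt
      refine ih k' P.reg.hp₂ (by rw [hV]; omega) (by rw [hV]; omega)
    · simp only [exploreN, hV, if_false]

lemma exploreN_eq (h : m.IsHalfPlane) {l : ℤ} {k : ℕ} (hk : m.tcount (m.V l) ≤ k) :
    exploreN l k m = m.explore l := exploreN_stable _ _ h hk le_rfl

lemma explore_step (h : m.IsHalfPlane) (l : ℤ) :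
    m.explore l = if (m.peel l).V l = m.V l then (m.peel l).explore l else m.peel l := by
  have h0 := h.pre.tcount_pos l
  obtain ⟨j, b, n, S, P⟩ := peel_spec h l
  obtain ⟨k, hk⟩ : ∃ k, m.tcount (m.V l) = k + 1 := ⟨m.tcount (m.V l) - 1, by omega⟩
  rw [explore, hk]
  simp only [exploreN]
  by_cases hV : (m.peel l).V l = m.V l
  · simp only [hV, if_true]
    have h1 := P.tcount_lt
    exact exploreN_eq P.reg.hp₂ (by rw [hV]; omega)
  · simp only [hV, if_false]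

/-- a non-left peel -/
lemma PeelSpec.V_eq_iff {l j : ℤ} {b n : ℕ} {S : Finset ℕ} (P : PeelSpec m l m₂ j b n S) :
    m₂.V l = m.V l ↔ j = l := by
  constructor
  · intro hV
    by_contra h2
    have h3 := P.reg.sw (l := l) (by have := P.le; omega) P.lt
    rw [← hV] at h3
    exact not_sw_V P.reg.hp₂.pre l h3
  · rintro rfl
    exact P.reg.V_le le_rfl

lemma explore_subset (h : m.IsHalfPlane) (l : ℤ) : (m.explore l).In ⊆ (m.peel l).In := by
  obtain ⟨j, b, n, S, P⟩ := peel_spec h l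
  rw [explore_step h l]
  split_ifs
  · obtain ⟨j', b', n', S', P'⟩ := explore_spec P.reg.hp₂ l
    exact P'.reg.nest.subset
  · exact subset_rfl

theorem explore_transfer {φ : ℕ → ℕ} {l : ℤ} : ∀ (k : ℕ) {m g : PMap} {T T' : Finset ℕ},
    RIso φ m m₂ g g₂ T T' → m.tcount (m.V l) ≤ k → m₂.In ⊆ (m.explore l).In →
    ∃ A A', RIso φ (m.explore l) m₂ (g.explore l) g₂ A A' := by
  intro k
  induction k with
  | zero =>
    intro m g T T' I hk
    have := I.n1.hp.pre.tcount_pos l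
    omega
  | succ k ih =>
    intro m g T T' I hk hsub
    obtain ⟨j, b, n, S, P⟩ := peel_spec I.n1.hp l
    have hsub' := hsub.trans (explore_subset I.n1.hp l)
    obtain ⟨P', -, I2⟩ := peel_transfer I P hsub'
    rw [explore_step I.n1.hp l] at hsub ⊢
    rw [explore_step I.n2.hp l]
    by_cases hV : (m.peel l).V l = m.V l
    · have hV' : (g.peel l).V l = g.V l := P'.V_eq_iff.2 (P.V_eq_iff.1 hV)
      rw [if_pos hV] at hsub ⊢
      rw [if_pos hV']
      exact ih I2 (by rw [hV]; have := P.tcount_lt; omega) hsub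
    · have hV' : (g.peel l).V l ≠ g.V l := fun h1 => hV (P.V_eq_iff.2 (P'.V_eq_iff.1 h1))
      rw [if_neg hV]
      rw [if_neg hV']
      exact ⟨_, _, I2⟩

open Classical in
/-- exploration of the hull of the vertex `x`, if it is on the boundary -/
noncomputable def exploreV (m : PMap) (x : ℕ) : PMap :=
  if h : ∃ l, m.V l = x then m.explore h.choose else m

lemma exploreV_of_eq (h : m.Pre) {l : ℤ} {x : ℕ} (hx : m.V l = x) :
    m.exploreV x = m.explore l := by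
  have hex : ∃ l, m.V l = x := ⟨l, hx⟩
  have hc : hex.choose = l := h.V_inj (by rw [hex.choose_spec, hx])
  simp only [exploreV, hex, dif_pos, hc]

lemma exploreV_of_ne {x : ℕ} (hx : ∀ l, m.V l ≠ x) : m.exploreV x = m := by
  have hex : ¬ ∃ l, m.V l = x := by push Not; exact hx
  simp only [exploreV, hex, dif_neg, not_false_iff]

lemma exploreV_nest (h : m.IsHalfPlane) (x : ℕ) : (∃ S, Nest m (m.exploreV x) S) ∧
    Far m (m.exploreV x) := by
  by_cases hx : ∃ l, m.V l = x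
  · obtain ⟨l, hl⟩ := hx
    rw [exploreV_of_eq h.pre hl]
    obtain ⟨j, b, n, S, P⟩ := explore_spec h l
    exact ⟨⟨S, P.reg.nest⟩, P.reg.far⟩
  · push Not at hx
    rw [exploreV_of_ne hx]
    exact ⟨⟨∅, Nest.refl h⟩, Far.refl m⟩

theorem exploreV_transfer {φ : ℕ → ℕ} {T T' : Finset ℕ} (I : RIso φ m m₂ g g₂ T T') {x x' : ℕ}
    (hx : ∀ l, m.V l = x ↔ g.V l = x') (hsub : m₂.In ⊆ (m.exploreV x).In) :
    ∃ A A', RIso φ (m.exploreV x) m₂ (g.exploreV x') g₂ A A' := by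
  by_cases h : ∃ l, m.V l = x
  · obtain ⟨l, hl⟩ := h
    rw [exploreV_of_eq I.n1.hp.pre hl] at hsub ⊢
    rw [exploreV_of_eq I.n2.hp.pre ((hx l).1 hl)]
    exact explore_transfer _ I le_rfl hsub
  · push Not at h
    rw [exploreV_of_ne h, exploreV_of_ne (fun l hl => h l ((hx l).2 hl))]
    exact ⟨_, _, I⟩

end PMap

end Pool.Agent.Helper97.Speed
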