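import Pool.Agent.Helper97.Speed.Final2

/-! # Uniqueness of the law -/

namespace Pool.Agent.Helper97.Speed

open MeasureTheory PMap Filter Topology
open scoped ENNReal

variable {α : ℝ} {P P' : Measure HalfPlane}

lemma atom_of_locEq {k : ℕ} {C : Cd} {h g : HalfPlane} (hh : h ∈ atom k C)
    (hg : PMap.LocEq k h.1 g.1) : g ∈ atom k C := by
  obtain ⟨φ, T, T', I⟩ := hg
  exact SubC.transfer I hh

/-- probability of an atom -/
lemma prob_atom (hP : IsHalfPlaneLaw α P) {k : ℕ} {C : Cd} (hC : C.Good)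
    (hne : (atom k C).Nonempty) : P (atom k C) = wt α C := by
  have := hP.prob
  obtain ⟨g, hg⟩ := hne
  have h1 : atom k C = {h : HalfPlane | ∃ h' ∈ (Set.univ : Set HalfPlane), h.1.SubC C h'.1} := by
    ext h
    constructor
    · intro hh
      obtain ⟨j, b, n, S, R, -⟩ := PMap.exh_reg h.2 k
      exact ⟨⟨_, R.hp₂⟩, Set.mem_univ _, hh⟩
    · rintro ⟨h', -, hh⟩
      rw [atom_eq hg]
      exact ⟨_, hh⟩
  rw [h1, law_residual hP hC MeasurableSet.univ, measure_univ, mul_one]

/-- **The law is unique.** -/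
theorem law_unique (hP : IsHalfPlaneLaw α P) (hP' : IsHalfPlaneLaw α P') : P = P' := by
  have := hP.prob
  have := hP'.prob
  set D : Set (Set HalfPlane) := {A | ∃ (k : ℕ) (C : Cd), C.Good ∧ A = atom k C} with hD
  refine ext_of_generate_finite D ?_ ?_ ?_ (by rw [measure_univ, measure_univ])
  · refine le_antisymm ?_ ?_
    · refine MeasurableSpace.generateFrom_le ?_
      rintro _ ⟨l, a, b, n, Q, rfl⟩
      have h1 : Has l a b n Q = ⋃ i ∈ {i : ℕ × Cd | i.2.Good ∧ atom i.1 i.2 ⊆ Has l a b n Q},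
          atom i.1 i.2 := by
        ext h
        simp only [Set.mem_iUnion, Set.mem_ofPred_eq]
        constructor
        · intro hh
          obtain ⟨k, hk⟩ := has_loc hh
          obtain ⟨C, hC, hhC⟩ := exists_atom k h
          exact ⟨(k, C), ⟨hC, fun g hg => hk g (atom_locEq hhC hg)⟩, hhC⟩
        · rintro ⟨i, ⟨-, hi⟩, hh⟩
          exact hi hh
      rw [h1]
      refine MeasurableSet.biUnion (Set.to_countable _) fun i hi => ?_
      exact MeasurableSpace.measurableSet_generateFrom ⟨i.1, i.2, hi.1, rfl⟩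
    · refine MeasurableSpace.generateFrom_le ?_
      rintro _ ⟨k, C, -, rfl⟩
      exact measurableSet_atom k C
  · have key : ∀ {k k' : ℕ} {C C' : Cd}, k ≤ k' → (atom k C ∩ atom k' C').Nonempty →
        atom k C ∩ atom k' C' = atom k' C' := by
      rintro k k' C C' hk ⟨h, h1, h2⟩
      refine Set.inter_eq_right.2 fun g hg => ?_
      exact atom_of_locEq h1 ((atom_locEq h2 hg).mono hk)
    rintro _ ⟨k, C, hC, rfl⟩ _ ⟨k', C', hC', rfl⟩ hne
    rcases le_total k k' with hk | hk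
    · rw [key hk hne]
      exact ⟨k', C', hC', rfl⟩
    · rw [Set.inter_comm] at hne ⊢
      rw [key hk hne]
      exact ⟨k, C, hC, rfl⟩
  · rintro _ ⟨k, C, hC, rfl⟩
    rcases Set.eq_empty_or_nonempty (atom k C) with h | h
    · rw [h, measure_empty, measure_empty]
    · rw [prob_atom hP hC h, prob_atom hP' hC h]

/-- the speed exists and only depends on `α` -/
theorem speed (h1 : 2 / 3 < α) (h2 : α < 1) :
    ∃ s : ℝ, ∀ P : Measure HalfPlane, IsHalfPlaneLaw α P →
      ∀ᵐ h ∂P, ∀ μ : Measure (ℕ → ℕ), IsProbabilityMeasure μ →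
        IsSRW h.1 (h.1.org (h.1.bd 0)) μ →
        ∀ᵐ x ∂μ, Tendsto (fun n : ℕ => (h.1.dist (h.1.org (h.1.bd 0)) (x n) : ℝ) / n)
          atTop (𝓝 s) := by
  by_cases hex : ∃ P : Measure HalfPlane, IsHalfPlaneLaw α P
  · obtain ⟨P, hP⟩ := hex
    obtain ⟨s, hs⟩ := speed_exists h1 h2 P hP
    refine ⟨s, fun P' hP' => ?_⟩
    rw [law_unique hP' hP]
    exact hs
  · exact ⟨0, fun P hP => absurd ⟨P, hP⟩ hex⟩

end Pool.Agent.Helper97.Speed
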