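import Pool.Agent.Helper97.Speed.Process

/-! # Walks driven by ports: definitions -/

namespace Pool.Agent.Helper97.Speed

open scoped ENNReal

/-! ### sequences of ports -/

/-- the first `n` terms -/
def pre (a : ℕ → ℕ) (n : ℕ) : List ℕ := (List.range n).map a

/-- the shifted sequence -/
def sh (n : ℕ) (a : ℕ → ℕ) : ℕ → ℕ := fun i => a (n + i)

/-- prepend a term -/
def cns (i : ℕ) (a : ℕ → ℕ) : ℕ → ℕ
  | 0 => i
  | n + 1 => a n

/-- prepend a word -/
def app : List ℕ → (ℕ → ℕ) → (ℕ → ℕ)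
  | [], a => a
  | i :: v, a => cns i (app v a)

/-- probability that the sequence of ports starts with the word `v`, when the degree after the word
`w` is `D w`. -/
noncomputable def cylp : (List ℕ → ℕ) → List ℕ → ℝ≥0∞
  | _, [] => 1
  | D, i :: v => if i < D [] then (D [] : ℝ≥0∞)⁻¹ * cylp (fun w => D (i :: w)) v else 0

namespace PMap

/-- one step of the walk: the walk, at the origin of `r`, takes the `i`-th dart counted from `r`;
the new state is the reversal of this dart. -/
noncomputable def step (m : PMap) (r i : ℕ) : ℕ := m.rev (m.rot^[i] r)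

/-- the state after the word `w` -/
noncomputable def dart (m : PMap) (r : ℕ) (w : List ℕ) : ℕ := w.foldl m.step r

/-- the degree after the word `w` -/
noncomputable def dg (m : PMap) (r : ℕ) (w : List ℕ) : ℕ := m.deg (m.org (m.dart r w))

/-- the state at time `n` -/
noncomputable def run (m : PMap) (r : ℕ) (a : ℕ → ℕ) : ℕ → ℕ
  | 0 => r
  | n + 1 => m.step (run m r a n) (a n)

/-- the vertex at time `n` -/
noncomputable def pos (m : PMap) (r : ℕ) (a : ℕ → ℕ) (n : ℕ) : ℕ := m.org (m.run r a n)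

/-- the exploration along the walk, started from the remaining map `R` -/
noncomputable def expl (m R : PMap) (r : ℕ) (a : ℕ → ℕ) : ℕ → PMap
  | 0 => R
  | n + 1 => (expl m R r a n).exploreV (m.pos r a n)

/-- `N₀` is a threshold for the isoperimetric inequality for regions -/
def Thr (m : PMap) (M N₀ : ℕ) : Prop :=
  ∀ (m₂ : PMap) (j : ℤ) (b n : ℕ) (T : Finset ℕ), Reg m m₂ j b n T → j < 0 → 0 < j + b →
    T.card ≤ N₀ + M * n

end PMap

/-! ### basic facts -/

@[simp] lemma pre_zero (a : ℕ → ℕ) : pre a 0 = [] := rfl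

@[simp] lemma length_pre (a : ℕ → ℕ) (n : ℕ) : (pre a n).length = n := by simp [pre]

lemma pre_succ (a : ℕ → ℕ) (n : ℕ) : pre a (n + 1) = pre a n ++ [a n] := by
  simp [pre, List.range_succ]

lemma pre_succ' (a : ℕ → ℕ) (n : ℕ) : pre a (n + 1) = a 0 :: pre (sh 1 a) n := by
  simp only [pre, List.range_succ_eq_map, List.map_cons, List.map_map]
  congr 1
  refine List.map_congr_left fun i _ => ?_
  simp [Function.comp, sh, Nat.add_comm]

lemma pre_add (a : ℕ → ℕ) (n k : ℕ) : pre a (n + k) = pre a n ++ pre (sh n a) k := by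
  induction k with
  | zero => simp
  | succ k ih => rw [← add_assoc, pre_succ, ih, pre_succ, List.append_assoc]; rfl

lemma pre_eq_iff {a b : ℕ → ℕ} {n : ℕ} : pre a n = pre b n ↔ ∀ i < n, a i = b i := by
  simp [pre, List.map_inj_left]

lemma sh_sh (a : ℕ → ℕ) (n k : ℕ) : sh k (sh n a) = sh (n + k) a := by
  funext i; simp [sh, add_assoc]

@[simp] lemma sh_zero (a : ℕ → ℕ) : sh 0 a = a := by funext i; simp [sh]

namespace PMap

variable {m : PMap}

lemma run_eq (r : ℕ) (a : ℕ → ℕ) (n : ℕ) : m.run r a n = m.dart r (pre a n) := by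
  induction n with
  | zero => rfl
  | succ n ih => rw [pre_succ, dart, List.foldl_append, run, ih]; rfl

lemma run_add (r : ℕ) (a : ℕ → ℕ) (n k : ℕ) :
    m.run r a (n + k) = m.run (m.run r a n) (sh n a) k := by
  induction k with
  | zero => rfl
  | succ k ih => rw [← add_assoc, run, ih]; rfl

lemma dart_append (r : ℕ) (v w : List ℕ) : m.dart r (v ++ w) = m.dart (m.dart r v) w := by
  simp [dart, List.foldl_append]

lemma dart_cons (r i : ℕ) (w : List ℕ) : m.dart r (i :: w) = m.dart (m.step r i) w := rfl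

lemma dg_append (r : ℕ) (v w : List ℕ) : m.dg r (v ++ w) = m.dg (m.dart r v) w := by
  simp [dg, dart_append]

lemma dg_cons (r i : ℕ) : (fun w => m.dg r (i :: w)) = m.dg (m.step r i) := rfl

lemma dg_app (r : ℕ) (v : List ℕ) : (fun w => m.dg r (v ++ w)) = m.dg (m.dart r v) := by
  funext w; exact dg_append r v w

lemma Pre.step_mem (h : m.Pre) {r : ℕ} (hr : r ∈ m.E) (i : ℕ) : m.step r i ∈ m.E :=
  h.rev_mem_E (h.rot_iter_maps (x := m.org r) ⟨hr, rfl⟩ i).1

lemma Pre.dart_mem (h : m.Pre) {r : ℕ} (hr : r ∈ m.E) (w : List ℕ) : m.dart r w ∈ m.E := by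
  induction w generalizing r with
  | nil => exact hr
  | cons i w ih => exact ih (h.step_mem hr i)

lemma Pre.run_mem (h : m.Pre) {r : ℕ} (hr : r ∈ m.E) (a : ℕ → ℕ) (n : ℕ) : m.run r a n ∈ m.E := by
  rw [run_eq]; exact h.dart_mem hr _

lemma Pre.deg_pos (h : m.Pre) {r : ℕ} (hr : r ∈ m.E) : 0 < m.deg (m.org r) := by
  rw [deg, Set.ncard_pos (h.fin _)]
  exact ⟨r, hr, rfl⟩

lemma Pre.dg_pos (h : m.Pre) {r : ℕ} (hr : r ∈ m.E) (w : List ℕ) : 0 < m.dg r w :=
  h.deg_pos (h.dart_mem hr w)

end PMap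

end Pool.Agent.Helper97.Speed
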